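import Mathlib

open Finset
open scoped Classical

namespace Run7.h755

lemma card_filter_le_add {α : Type*} (Ω : Finset α) (P Q R : α → Prop) [DecidablePred P]
    [DecidablePred Q] [DecidablePred R] (h : ∀ t ∈ Ω, P t → Q t ∨ R t) :
    ((Ω.filter P).card : ℝ) ≤ (Ω.filter Q).card + (Ω.filter R).card := by
  have h1 : Ω.filter P ⊆ Ω.filter Q ∪ Ω.filter R := by
    intro t ht
    rw [Finset.mem_filter] at ht
    rw [Finset.mem_union, Finset.mem_filter, Finset.mem_filter]
    rcases h t ht.1 ht.2 with h | h
    · exact Or.inl ⟨ht.1, h⟩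
    · exact Or.inr ⟨ht.1, h⟩
  have := (Finset.card_le_card h1).trans (Finset.card_union_le _ _)
  exact_mod_cast this

lemma card_filter_exists_le {α β : Type*} (Ω : Finset α) (S : Finset β) (P : α → Prop)
    (Q : β → α → Prop) [DecidablePred P] [∀ b, DecidablePred (Q b)] (M : ℝ)
    (h : ∀ t ∈ Ω, P t → ∃ b ∈ S, Q b t) (hM : ∀ b ∈ S, ((Ω.filter (Q b)).card : ℝ) ≤ M) :
    ((Ω.filter P).card : ℝ) ≤ S.card * M := by
  have h1 : Ω.filter P ⊆ S.biUnion (fun b => Ω.filter (Q b)) := by
    intro t ht
    rw [Finset.mem_filter] at ht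
    rw [Finset.mem_biUnion]
    obtain ⟨b, hb, hb'⟩ := h t ht.1 ht.2
    exact ⟨b, hb, Finset.mem_filter.mpr ⟨ht.1, hb'⟩⟩
  have h2 := (Finset.card_le_card h1).trans Finset.card_biUnion_le
  calc ((Ω.filter P).card : ℝ) ≤ ∑ b ∈ S, ((Ω.filter (Q b)).card : ℝ) := by exact_mod_cast h2
    _ ≤ ∑ b ∈ S, M := Finset.sum_le_sum hM
    _ = _ := by rw [Finset.sum_const, nsmul_eq_mul]

section KI

variable {ι V : Type*} [Fintype ι] [DecidableEq ι]

lemma sum_update (D : ι → Finset V) (j : ι) (f : (ι → V) → ℝ) :
    ∑ t ∈ Fintype.piFinset D, ∑ u ∈ D j, f (Function.update t j u)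
      = ((D j).card : ℝ) * ∑ t ∈ Fintype.piFinset D, f t := by
  rw [← Finset.sum_product']
  have key : ∑ x ∈ Fintype.piFinset D ×ˢ D j, f (Function.update x.1 j x.2)
      = ∑ x ∈ Fintype.piFinset D ×ˢ D j, f x.1 := by
    refine Finset.sum_nbij' (fun x => (Function.update x.1 j x.2, x.1 j))
      (fun x => (Function.update x.1 j x.2, x.1 j)) ?_ ?_ ?_ ?_ ?_
    · rintro ⟨t, u⟩ h
      simp only [Finset.mem_product, Fintype.mem_piFinset] at h ⊢
      refine ⟨fun a => ?_, h.1 j⟩
      by_cases ha : a = j
      · subst ha; simpa using h.2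
      · simpa [Function.update_of_ne ha] using h.1 a
    · rintro ⟨t, u⟩ h
      simp only [Finset.mem_product, Fintype.mem_piFinset] at h ⊢
      refine ⟨fun a => ?_, h.1 j⟩
      by_cases ha : a = j
      · subst ha; simpa using h.2
      · simpa [Function.update_of_ne ha] using h.1 a
    · rintro ⟨t, u⟩ h
      simp
    · rintro ⟨t, u⟩ h
      simp
    · rintro ⟨t, u⟩ h
      simp
  rw [key, Finset.sum_product]
  simp [Finset.mul_sum]

lemma fiber_le (D : ι → Finset V) (j : ι) (P : (ι → V) → Prop) [DecidablePred P] (lam : ℝ)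
    (h : ∀ t ∈ Fintype.piFinset D,
      (((D j).filter (fun u => P (Function.update t j u))).card : ℝ) ≤ lam * (D j).card) :
    (((Fintype.piFinset D).filter P).card : ℝ) ≤ lam * (Fintype.piFinset D).card := by
  have h1 := sum_update D j (fun t => if P t then (1 : ℝ) else 0)
  have h2 : ∑ t ∈ Fintype.piFinset D, (if P t then (1 : ℝ) else 0)
      = (((Fintype.piFinset D).filter P).card : ℝ) := by
    rw [Finset.sum_boole]
  have h3 : ∑ t ∈ Fintype.piFinset D, ∑ u ∈ D j, (if P (Function.update t j u) then (1 : ℝ) else 0)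
      ≤ ∑ t ∈ Fintype.piFinset D, lam * (D j).card := by
    refine Finset.sum_le_sum fun t ht => ?_
    rw [Finset.sum_boole]
    exact h t ht
  rw [h1, h2] at h3
  rw [Finset.sum_const, nsmul_eq_mul] at h3
  rcases Nat.eq_zero_or_pos (D j).card with h0 | h0
  · have : Fintype.piFinset D = ∅ := by
      rw [Finset.card_eq_zero] at h0
      rw [Finset.eq_empty_iff_forall_notMem]
      intro t ht
      rw [Fintype.mem_piFinset] at ht
      have := ht j
      rw [h0] at this
      exact absurd this (Finset.notMem_empty _)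
    rw [this]
    simp
  · have h0' : (0 : ℝ) < (D j).card := by exact_mod_cast h0
    have : ((D j).card : ℝ) * (((Fintype.piFinset D).filter P).card : ℝ)
        ≤ ((D j).card : ℝ) * (lam * (Fintype.piFinset D).card) := by
      calc _ ≤ _ := h3
        _ = _ := by ring
    exact le_of_mul_le_mul_left this h0'

end KI

section Seq

variable {X V : Type*} [Fintype X]

/-- candidate set -/
noncomputable def cand (F : SimpleGraph X) (G : SimpleGraph V) (T : X → Finset V)
    (E : Finset X) (φ : X → V) (x : X) : Finset V :=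
  (T x).filter (fun u => ∀ z ∈ E, F.Adj x z → G.Adj (φ z) u)

/-- embedded neighbours -/
noncomputable def nin (F : SimpleGraph X) (E : Finset X) (x : X) : Finset X :=
  E.filter (fun z => F.Adj x z)

structure PEmb (F : SimpleGraph X) (G : SimpleGraph V) (T : X → Finset V) (B : Finset V)
    (E : Finset X) (φ : X → V) : Prop where
  inj : Set.InjOn φ (E : Set X)
  adj : ∀ a ∈ E, ∀ b ∈ E, F.Adj a b → G.Adj (φ a) (φ b)
  tgt : ∀ a ∈ E, φ a ∈ T a
  avoid : ∀ a ∈ E, φ a ∉ B

lemma cand_sub (F : SimpleGraph X) (G : SimpleGraph V) (T : X → Finset V)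
    (E : Finset X) (φ : X → V) (x : X) : cand F G T E φ x ⊆ T x := Finset.filter_subset _ _

lemma cand_insert (F : SimpleGraph X) (G : SimpleGraph V) (T : X → Finset V)
    (E : Finset X) (φ : X → V) (x z : X) (u : V) (hz : z ∉ E) (hxz : F.Adj x z) :
    cand F G T (insert z E) (Function.update φ z u) x
      = (cand F G T E φ x).filter (fun w => G.Adj u w) := by
  ext w
  simp only [cand, Finset.mem_filter, Finset.mem_insert, forall_eq_or_imp]
  constructor
  · rintro ⟨h1, h2, h3⟩
    refine ⟨⟨h1, fun a ha hxa => ?_⟩, ?_⟩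
    · have := h3 a ha hxa
      rwa [Function.update_of_ne (by rintro rfl; exact hz ha)] at this
    · simpa using h2 hxz
  · rintro ⟨⟨h1, h2⟩, h3⟩
    refine ⟨h1, fun _ => by simpa using h3, fun a ha hxa => ?_⟩
    rw [Function.update_of_ne (by rintro rfl; exact hz ha)]
    exact h2 a ha hxa

lemma cand_insert_of_not (F : SimpleGraph X) (G : SimpleGraph V) (T : X → Finset V)
    (E : Finset X) (φ : X → V) (x z : X) (u : V) (hz : z ∉ E) (hxz : ¬ F.Adj x z) :
    cand F G T (insert z E) (Function.update φ z u) x = cand F G T E φ x := by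
  ext w
  simp only [cand, Finset.mem_filter, Finset.mem_insert, forall_eq_or_imp]
  constructor
  · rintro ⟨h1, h2, h3⟩
    refine ⟨h1, fun a ha hxa => ?_⟩
    have := h3 a ha hxa
    rwa [Function.update_of_ne (by rintro rfl; exact hz ha)] at this
  · rintro ⟨h1, h2⟩
    refine ⟨h1, fun h => absurd h hxz, fun a ha hxa => ?_⟩
    rw [Function.update_of_ne (by rintro rfl; exact hz ha)]
    exact h2 a ha hxa

lemma nin_insert (F : SimpleGraph X) (E : Finset X) (x z : X) (hxz : F.Adj x z) :
    nin F (insert z E) x = insert z (nin F E x) := by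
  simp [nin, Finset.filter_insert, hxz]

lemma nin_insert_of_not (F : SimpleGraph X) (E : Finset X) (x z : X) (hxz : ¬ F.Adj x z) :
    nin F (insert z E) x = nin F E x := by
  simp [nin, Finset.filter_insert, hxz]

theorem seq_embed (F : SimpleGraph X) (G : SimpleGraph V) (T : X → Finset V) (B : Finset V)
    (Inv : X → Finset X → Finset V → Prop) (bad : X → ℝ) (hbad : ∀ x, 0 ≤ bad x) (Δ : ℕ)
    (hΔ : ∀ x, (Finset.univ.filter (fun z => F.Adj x z)).card ≤ Δ) (L : List X) :
    ∀ (E : Finset X) (φ : X → V), L.Nodup → (∀ x ∈ L, x ∉ E) →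
    L.Pairwise (fun z x => F.Adj x z → ∀ A C, z ∉ A → (∀ a ∈ A, F.Adj x a) → C ⊆ T x →
      Inv x A C →
      (((T z).filter (fun u => ¬ Inv x (insert z A) (C.filter (fun w => G.Adj u w)))).card : ℝ)
        ≤ bad z) →
    (∀ x ∈ L, ∀ A C, (∀ a ∈ A, F.Adj x a) → C ⊆ T x → Inv x A C →
      (Fintype.card X : ℝ) + ((T x) ∩ B).card + Δ * bad x < C.card) →
    PEmb F G T B E φ →
    (∀ x ∈ L, Inv x (nin F E x) (cand F G T E φ x)) →
    ∃ ψ : X → V, (∀ a ∈ E, ψ a = φ a) ∧ PEmb F G T B (E ∪ L.toFinset) ψ := by
  induction L with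
  | nil =>
    intro E φ _ _ _ _ hP _
    exact ⟨φ, fun _ _ => rfl, by simpa using hP⟩
  | cons z L ih =>
    intro E φ hnd hdis hpw H2 hP hInv
    have hzE : z ∉ E := hdis z (by simp)
    have hzL : z ∉ L := (List.nodup_cons.mp hnd).1
    set C := cand F G T E φ z with hC
    have hCT : C ⊆ T z := cand_sub _ _ _ _ _ _
    have hzA : ∀ a ∈ nin F E z, F.Adj z a := fun a ha => (Finset.mem_filter.mp ha).2
    have hcardC := H2 z (by simp) _ C hzA hCT (hInv z (by simp))
    -- bad sets
    let badset : X → Finset V := fun x =>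
      (T z).filter (fun u => ¬ Inv x (insert z (nin F E x))
        ((cand F G T E φ x).filter (fun w => G.Adj u w)))
    let NL : Finset X := (Finset.univ.filter (fun x => F.Adj z x)).filter (fun x => x ∈ L)
    have hpw' := List.pairwise_cons.mp hpw
    have hb : ∀ x ∈ NL, ((badset x).card : ℝ) ≤ bad z := by
      intro x hx
      have hx1 : F.Adj z x := (Finset.mem_filter.mp (Finset.mem_filter.mp hx).1).2
      have hxL : x ∈ L := (Finset.mem_filter.mp hx).2
      have hzn : z ∉ nin F E x := fun h => hzE (Finset.mem_filter.mp h).1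
      exact hpw'.1 x hxL hx1.symm _ _ hzn (fun a ha => (Finset.mem_filter.mp ha).2)
        (cand_sub _ _ _ _ _ _) (hInv x (by simp [hxL]))
    have hbu : ((NL.biUnion badset).card : ℝ) ≤ Δ * bad z := by
      have h1 : ((NL.biUnion badset).card : ℝ) ≤ ∑ x ∈ NL, ((badset x).card : ℝ) := by
        exact_mod_cast Finset.card_biUnion_le
      have h2 : ∑ x ∈ NL, ((badset x).card : ℝ) ≤ ∑ x ∈ NL, bad z := Finset.sum_le_sum hb
      have h3 : (NL.card : ℝ) ≤ Δ := by
        exact_mod_cast (Finset.card_le_card (Finset.filter_subset _ _)).trans (hΔ z)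
      calc ((NL.biUnion badset).card : ℝ) ≤ _ := h1
        _ ≤ _ := h2
        _ = NL.card * bad z := by rw [Finset.sum_const, nsmul_eq_mul]
        _ ≤ Δ * bad z := by gcongr; exact hbad z
    have hne : (((C \ (E.image φ)) \ (T z ∩ B)) \ (NL.biUnion badset)).Nonempty := by
      rw [← Finset.card_pos]
      have e1 : (E.image φ).card ≤ Fintype.card X :=
        (Finset.card_image_le).trans (Finset.card_le_univ E)
      have e2 := Finset.le_card_sdiff (E.image φ) C
      have e3 := Finset.le_card_sdiff (T z ∩ B) (C \ E.image φ)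
      have e4 := Finset.le_card_sdiff (NL.biUnion badset) ((C \ E.image φ) \ (T z ∩ B))
      have f1 : (C.card : ℝ) - Fintype.card X ≤ ((C \ (E.image φ)).card : ℝ) := by
        have : C.card ≤ (C \ (E.image φ)).card + Fintype.card X := by omega
        have : (C.card : ℝ) ≤ ((C \ (E.image φ)).card : ℝ) + Fintype.card X := by exact_mod_cast this
        linarith
      have f2 : ((C \ (E.image φ)).card : ℝ) - (T z ∩ B).card
          ≤ (((C \ (E.image φ)) \ (T z ∩ B)).card : ℝ) := by
        have : (C \ (E.image φ)).card ≤ ((C \ (E.image φ)) \ (T z ∩ B)).card + (T z ∩ B).card := by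
          omega
        have : ((C \ (E.image φ)).card : ℝ)
          ≤ (((C \ (E.image φ)) \ (T z ∩ B)).card : ℝ) + (T z ∩ B).card := by exact_mod_cast this
        linarith
      have f3 : (((C \ (E.image φ)) \ (T z ∩ B)).card : ℝ) - (NL.biUnion badset).card
          ≤ ((((C \ (E.image φ)) \ (T z ∩ B)) \ (NL.biUnion badset)).card : ℝ) := by
        have : ((C \ (E.image φ)) \ (T z ∩ B)).card
          ≤ (((C \ (E.image φ)) \ (T z ∩ B)) \ (NL.biUnion badset)).card
            + (NL.biUnion badset).card := by omega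
        have : (((C \ (E.image φ)) \ (T z ∩ B)).card : ℝ)
          ≤ ((((C \ (E.image φ)) \ (T z ∩ B)) \ (NL.biUnion badset)).card : ℝ)
            + (NL.biUnion badset).card := by exact_mod_cast this
        linarith
      have : (0 : ℝ) < ((((C \ (E.image φ)) \ (T z ∩ B)) \ (NL.biUnion badset)).card : ℝ) := by
        linarith
      exact_mod_cast this
    obtain ⟨u, hu⟩ := hne
    simp only [Finset.mem_sdiff, Finset.mem_image, Finset.mem_inter, Finset.mem_biUnion,
      not_exists, not_and] at hu
    obtain ⟨⟨⟨huC, huE⟩, huB⟩, hubad⟩ := hu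
    have huT : u ∈ T z := hCT huC
    have huC' : ∀ a ∈ E, F.Adj z a → G.Adj (φ a) u := (Finset.mem_filter.mp huC).2
    have hP' : PEmb F G T B (insert z E) (Function.update φ z u) := by
      have hne' : ∀ a ∈ E, a ≠ z := by rintro a ha rfl; exact hzE ha
      refine ⟨?_, ?_, ?_, ?_⟩
      · intro a ha b hb hab
        simp only [Finset.coe_insert, Set.mem_insert_iff, Finset.mem_coe] at ha hb
        rcases ha with rfl | ha <;> rcases hb with rfl | hb
        · rfl
        · rw [Function.update_self, Function.update_of_ne (hne' b hb)] at hab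
          exact absurd hab.symm (huE b hb)
        · rw [Function.update_self, Function.update_of_ne (hne' a ha)] at hab
          exact absurd hab (huE a ha)
        · rw [Function.update_of_ne (hne' b hb), Function.update_of_ne (hne' a ha)] at hab
          exact hP.inj ha hb hab
      · intro a ha b hb hab
        rw [Finset.mem_insert] at ha hb
        rcases ha with rfl | ha <;> rcases hb with rfl | hb
        · exact absurd hab (F.loopless.irrefl _)
        · rw [Function.update_self, Function.update_of_ne (hne' b hb)]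
          exact (huC' b hb hab).symm
        · rw [Function.update_self, Function.update_of_ne (hne' a ha)]
          exact huC' a ha hab.symm
        · rw [Function.update_of_ne (hne' b hb), Function.update_of_ne (hne' a ha)]
          exact hP.adj a ha b hb hab
      · intro a ha
        rw [Finset.mem_insert] at ha
        rcases ha with rfl | ha
        · rw [Function.update_self]; exact huT
        · rw [Function.update_of_ne (hne' a ha)]; exact hP.tgt a ha
      · intro a ha
        rw [Finset.mem_insert] at ha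
        rcases ha with rfl | ha
        · rw [Function.update_self]; exact huB huT
        · rw [Function.update_of_ne (hne' a ha)]; exact hP.avoid a ha
    have hInv' : ∀ x ∈ L, Inv x (nin F (insert z E) x)
        (cand F G T (insert z E) (Function.update φ z u) x) := by
      intro x hx
      by_cases hxz : F.Adj x z
      · rw [cand_insert F G T E φ x z u hzE hxz, nin_insert F E x z hxz]
        have hxNL : x ∈ NL := by
          simp only [NL, Finset.mem_filter, Finset.mem_univ, true_and]
          exact ⟨hxz.symm, hx⟩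
        have := hubad x hxNL
        simp only [badset, Finset.mem_filter, not_and, not_not] at this
        exact this huT
      · rw [cand_insert_of_not F G T E φ x z u hzE hxz, nin_insert_of_not F E x z hxz]
        exact hInv x (by simp [hx])
    obtain ⟨ψ, h1, h2⟩ := ih (insert z E) (Function.update φ z u) (List.nodup_cons.mp hnd).2
      (by
        intro x hx
        rw [Finset.mem_insert]
        rintro (rfl | h)
        · exact hzL hx
        · exact hdis x (by simp [hx]) h)
      hpw'.2 (fun x hx => H2 x (by simp [hx])) hP' hInv'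
    refine ⟨ψ, ?_, ?_⟩
    · intro a ha
      rw [h1 a (by simp [ha]), Function.update_of_ne (by rintro rfl; exact hzE ha)]
    · have : E ∪ (z :: L).toFinset = insert z E ∪ L.toFinset := by
        ext a; simp [or_assoc, or_left_comm]
      rw [this]
      exact h2

end Seq

end Run7.h755
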