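import Mathlib

open Finset
open scoped Classical

namespace Run7.h755

variable {X : Type*} [Fintype X]

lemma exists_indep (r : X → X → Prop) (hs : ∀ x y, r x y → r y x) (hr : ∀ x, r x x) (D : ℕ)
    (hD : ∀ x, (univ.filter (fun y => r x y)).card ≤ D) :
    ∃ Y : Finset X, (∀ y ∈ Y, ∀ y' ∈ Y, y ≠ y' → ¬ r y y') ∧ Fintype.card X ≤ D * Y.card := by
  obtain ⟨Y, hY, hmax⟩ := Finset.exists_max_image
    ((univ : Finset (Finset X)).filter (fun Y => ∀ y ∈ Y, ∀ y' ∈ Y, y ≠ y' → ¬ r y y'))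
    Finset.card ⟨∅, by simp⟩
  simp only [Finset.mem_filter, Finset.mem_univ, true_and] at hY hmax
  refine ⟨Y, hY, ?_⟩
  have hcov : (univ : Finset X) ⊆ Y.biUnion (fun y => univ.filter (fun x => r y x)) := by
    intro x _
    simp only [Finset.mem_biUnion, Finset.mem_filter, Finset.mem_univ, true_and]
    by_contra hcon
    push Not at hcon
    have hxY : x ∉ Y := fun h => hcon x h (hr x)
    have := hmax (insert x Y) (by
      intro a ha b hb hab
      rw [Finset.mem_insert] at ha hb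
      rcases ha with rfl | ha <;> rcases hb with rfl | hb
      · exact absurd rfl hab
      · exact fun h => hcon b hb (hs _ _ h)
      · exact hcon a ha
      · exact hY a ha b hb hab)
    rw [Finset.card_insert_of_notMem hxY] at this
    omega
  calc Fintype.card X = (univ : Finset X).card := rfl
    _ ≤ _ := Finset.card_le_card hcov
    _ ≤ ∑ y ∈ Y, (univ.filter (fun x => r y x)).card := Finset.card_biUnion_le
    _ ≤ ∑ y ∈ Y, D := Finset.sum_le_sum fun y _ => hD y
    _ = _ := by rw [Finset.sum_const, smul_eq_mul, mul_comm]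

lemma exists_col (r : X → X → Prop) (hs : ∀ x y, r x y → r y x) (hr : ∀ x, ¬ r x x) (D : ℕ)
    (hD : ∀ x, (univ.filter (fun y => r x y)).card ≤ D) (S : Finset X) :
    ∃ c : X → ℕ, (∀ x, c x < D + 1) ∧ ∀ x ∈ S, ∀ y ∈ S, r x y → c x ≠ c y := by
  induction S using Finset.induction_on with
  | empty => exact ⟨fun _ => 0, by simp, by simp⟩
  | insert a S ha ih =>
    obtain ⟨c, hc1, hc2⟩ := ih
    have : ∃ k ∈ Finset.range (D + 1), k ∉ (univ.filter (fun y => r a y)).image c := by
      by_contra hcon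
      push Not at hcon
      have h1 : Finset.range (D + 1) ⊆ (univ.filter (fun y => r a y)).image c := hcon
      have h2 := (Finset.card_le_card h1).trans Finset.card_image_le
      rw [Finset.card_range] at h2
      have := hD a
      omega
    obtain ⟨k, hk1, hk2⟩ := this
    rw [Finset.mem_range] at hk1
    simp only [Finset.mem_image, Finset.mem_filter, Finset.mem_univ, true_and, not_exists,
      not_and] at hk2
    refine ⟨Function.update c a k, ?_, ?_⟩
    · intro x
      by_cases hx : x = a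
      · subst hx; simpa using hk1
      · rw [Function.update_of_ne hx]; exact hc1 x
    · intro x hx y hy hxy
      rw [Finset.mem_insert] at hx hy
      rcases hx with rfl | hx <;> rcases hy with rfl | hy
      · exact absurd hxy (hr _)
      · rw [Function.update_self, Function.update_of_ne (by rintro rfl; exact hr _ hxy)]
        exact fun h => hk2 y hxy h.symm
      · rw [Function.update_self, Function.update_of_ne (by rintro rfl; exact hr _ hxy)]
        exact hk2 x (hs _ _ hxy)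
      · rw [Function.update_of_ne (by rintro rfl; exact ha hx),
          Function.update_of_ne (by rintro rfl; exact ha hy)]
        exact hc2 x hx y hy hxy

/-- structure of a bounded degree graph used for absorbers -/
structure FStr (F : SimpleGraph X) (q0 Δ : ℕ) (Y : Finset X) (κ : X → Fin (q0 + Δ + 1)) : Prop where
  Ylast : ∀ y ∈ Y, κ y = Fin.last (q0 + Δ)
  Nrange : ∀ y ∈ Y, ∀ x, F.Adj y x → q0 ≤ (κ x : ℕ) ∧ (κ x : ℕ) < q0 + Δ
  Ninj : ∀ y ∈ Y, ∀ x x', F.Adj y x → F.Adj y x' → κ x = κ x' → x = x'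
  sep1 : ∀ y ∈ Y, ∀ y' ∈ Y, ¬ F.Adj y y'
  sep2 : ∀ y ∈ Y, ∀ y' ∈ Y, y ≠ y' → ∀ x, F.Adj y x → ¬ F.Adj y' x
  sep3 : ∀ y ∈ Y, ∀ y' ∈ Y, y ≠ y' → ∀ x x', F.Adj y x → F.Adj y' x' → ¬ F.Adj x x'
  rest1 : ∀ x, x ∉ Y → (∀ y ∈ Y, ¬ F.Adj y x) → (κ x : ℕ) < q0
  rest2 : ∀ x, x ∉ Y → (∀ y ∈ Y, ¬ F.Adj y x) → ∀ z, F.Adj x z → κ z ≠ κ x
  rest3 : ∀ x, x ∉ Y → (∀ y ∈ Y, ¬ F.Adj y x) → ∀ z z', F.Adj x z → F.Adj x z' →
    κ z = κ z' → z = z'

theorem exists_FStr (F : SimpleGraph X) (Δ : ℕ)
    (hΔ : ∀ x, (Finset.univ.filter (fun z => F.Adj x z)).card ≤ Δ) :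
    ∃ Y κ, FStr F (Δ + Δ * Δ + 1) Δ Y κ ∧ Fintype.card X ≤ (Δ + 1) ^ 4 * Y.card := by
  let near : X → X → Prop := fun x y => x = y ∨ F.Adj x y
  have hnear : ∀ x y, near x y → near y x := by
    rintro x y (h | h)
    · exact Or.inl h.symm
    · exact Or.inr h.symm
  let r : X → X → Prop := fun x y => ∃ a b c, near x a ∧ near a b ∧ near b c ∧ near c y
  have hrs : ∀ x y, r x y → r y x := by
    rintro x y ⟨a, b, c, h1, h2, h3, h4⟩
    exact ⟨c, b, a, hnear _ _ h4, hnear _ _ h3, hnear _ _ h2, hnear _ _ h1⟩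
  have hrr : ∀ x, r x x := fun x => ⟨x, x, x, Or.inl rfl, Or.inl rfl, Or.inl rfl, Or.inl rfl⟩
  let cl : Finset X → Finset X := fun S => S.biUnion (fun x => univ.filter (fun y => near x y))
  have hnc : ∀ x, (univ.filter (fun y => near x y)).card ≤ Δ + 1 := by
    intro x
    have : univ.filter (fun y => near x y) ⊆ insert x (univ.filter (fun z => F.Adj x z)) := by
      intro y hy
      simp only [Finset.mem_filter, Finset.mem_univ, true_and, Finset.mem_insert, near] at hy ⊢
      rcases hy with h | h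
      · exact Or.inl h.symm
      · exact Or.inr h
    calc _ ≤ _ := Finset.card_le_card this
      _ ≤ (univ.filter (fun z => F.Adj x z)).card + 1 := Finset.card_insert_le _ _
      _ ≤ _ := by have := hΔ x; omega
  have hcl : ∀ S, (cl S).card ≤ (Δ + 1) * S.card := by
    intro S
    calc (cl S).card ≤ ∑ x ∈ S, (univ.filter (fun y => near x y)).card := Finset.card_biUnion_le
      _ ≤ ∑ x ∈ S, (Δ + 1) := Finset.sum_le_sum fun x _ => hnc x
      _ = _ := by rw [Finset.sum_const, smul_eq_mul, mul_comm]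
  have hrD : ∀ x, (univ.filter (fun y => r x y)).card ≤ (Δ + 1) ^ 4 := by
    intro x
    have : univ.filter (fun y => r x y) ⊆ cl (cl (cl (cl {x}))) := by
      intro y hy
      simp only [Finset.mem_filter, Finset.mem_univ, true_and, r] at hy
      obtain ⟨a, b, c, h1, h2, h3, h4⟩ := hy
      simp only [cl, Finset.mem_biUnion, Finset.mem_filter, Finset.mem_univ, true_and,
        Finset.mem_singleton]
      exact ⟨c, ⟨b, ⟨a, ⟨x, rfl, h1⟩, h2⟩, h3⟩, h4⟩
    calc _ ≤ _ := Finset.card_le_card this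
      _ ≤ (Δ + 1) * ((Δ + 1) * ((Δ + 1) * ((Δ + 1) * ({x} : Finset X).card))) := by
          refine (hcl _).trans (Nat.mul_le_mul_left _ ?_)
          refine (hcl _).trans (Nat.mul_le_mul_left _ ?_)
          exact (hcl _).trans (Nat.mul_le_mul_left _ (hcl _))
      _ = _ := by rw [Finset.card_singleton]; ring
  obtain ⟨Y, hY1, hY2⟩ := exists_indep r hrs hrr ((Δ + 1) ^ 4)
    (fun x => by convert hrD x)
  -- distance two colouring
  let r2 : X → X → Prop := fun x y => x ≠ y ∧ (F.Adj x y ∨ ∃ z, F.Adj x z ∧ F.Adj z y)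
  have hr2s : ∀ x y, r2 x y → r2 y x := by
    rintro x y ⟨h1, h2 | ⟨z, h2, h3⟩⟩
    · exact ⟨h1.symm, Or.inl h2.symm⟩
    · exact ⟨h1.symm, Or.inr ⟨z, h3.symm, h2.symm⟩⟩
  have hr2D : ∀ x, (univ.filter (fun y => r2 x y)).card ≤ Δ + Δ * Δ := by
    intro x
    have : univ.filter (fun y => r2 x y) ⊆ (univ.filter (fun z => F.Adj x z)) ∪
        (univ.filter (fun z => F.Adj x z)).biUnion (fun z => univ.filter (fun w => F.Adj z w)) := by
      intro y hy
      simp only [Finset.mem_filter, Finset.mem_univ, true_and, Finset.mem_union,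
        Finset.mem_biUnion, r2] at hy ⊢
      exact hy.2
    calc _ ≤ _ := Finset.card_le_card this
      _ ≤ (univ.filter (fun z => F.Adj x z)).card + _ := Finset.card_union_le _ _
      _ ≤ Δ + Δ * Δ := by
          refine Nat.add_le_add (hΔ x) ?_
          calc _ ≤ ∑ z ∈ univ.filter (fun z => F.Adj x z), (univ.filter (fun w => F.Adj z w)).card :=
                Finset.card_biUnion_le
            _ ≤ ∑ z ∈ univ.filter (fun z => F.Adj x z), Δ := Finset.sum_le_sum fun z _ => hΔ z
            _ ≤ Δ * Δ := by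
                rw [Finset.sum_const, smul_eq_mul]
                exact Nat.mul_le_mul_right _ (hΔ x)
  obtain ⟨c, hc1, hc2⟩ := exists_col r2 hr2s (fun x h => h.1 rfl) (Δ + Δ * Δ)
    (fun x => by convert hr2D x) univ
  -- enumeration of neighbourhoods
  have henum : ∀ y : X, ∃ f : X → ℕ, (∀ x, F.Adj y x → f x < Δ) ∧
      ∀ x x', F.Adj y x → F.Adj y x' → f x = f x' → x = x' := by
    intro y
    set S := univ.filter (fun z => F.Adj y z) with hS
    refine ⟨fun x => if h : x ∈ S then (S.equivFin ⟨x, h⟩ : ℕ) else 0, ?_, ?_⟩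
    · intro x hx
      have hxS : x ∈ S := by simp [hS, hx]
      simp only [hxS, dite_true]
      exact lt_of_lt_of_le (Fin.is_lt _) (hΔ y)
    · intro x x' hx hx' h
      have hxS : x ∈ S := by simp [hS, hx]
      have hxS' : x' ∈ S := by simp [hS, hx']
      simp only [hxS, hxS', dite_true] at h
      have := S.equivFin.injective (Fin.ext h)
      exact congrArg Subtype.val this
  choose f hf1 hf2 using henum
  let q0 := Δ + Δ * Δ + 1
  let κ : X → Fin (q0 + Δ + 1) := fun x =>
    if x ∈ Y then Fin.last (q0 + Δ) else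
    if h : ∃ y ∈ Y, F.Adj y x then
      ⟨q0 + f h.choose x, by have := hf1 h.choose x h.choose_spec.2; omega⟩
    else ⟨c x, by have := hc1 x; omega⟩
  have near1 : ∀ {x y}, F.Adj x y → near x y := fun h => Or.inr h
  have sep1 : ∀ y ∈ Y, ∀ y' ∈ Y, ¬ F.Adj y y' := by
    intro y hy y' hy' h
    exact hY1 y hy y' hy' h.ne ⟨y, y, y, Or.inl rfl, Or.inl rfl, Or.inl rfl, Or.inr h⟩
  have sep2 : ∀ y ∈ Y, ∀ y' ∈ Y, y ≠ y' → ∀ x, F.Adj y x → ¬ F.Adj y' x := by
    intro y hy y' hy' hne x h h'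
    exact hY1 y hy y' hy' hne ⟨y, y, x, Or.inl rfl, Or.inl rfl, Or.inr h, Or.inr h'.symm⟩
  have sep3 : ∀ y ∈ Y, ∀ y' ∈ Y, y ≠ y' → ∀ x x', F.Adj y x → F.Adj y' x' → ¬ F.Adj x x' := by
    intro y hy y' hy' hne x x' h h' hxx
    exact hY1 y hy y' hy' hne ⟨y, x, x', Or.inl rfl, Or.inr h, Or.inr hxx, Or.inr h'.symm⟩
  have sep4 : ∀ y ∈ Y, ∀ y' ∈ Y, y ≠ y' → ∀ x x' w, F.Adj y x → F.Adj y' x' → F.Adj w x →
      ¬ F.Adj w x' := by
    intro y hy y' hy' hne x x' w h h' hxx hxx'
    exact hY1 y hy y' hy' hne ⟨x, w, x', Or.inr h, Or.inr hxx.symm, Or.inr hxx', Or.inr h'.symm⟩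
  have κY : ∀ y ∈ Y, κ y = Fin.last (q0 + Δ) := by
    intro y hy
    simp only [κ, hy, if_true]
  have κN : ∀ y ∈ Y, ∀ x, F.Adj y x → (κ x : ℕ) = q0 + f y x := by
    intro y hy x hx
    have hxY : x ∉ Y := fun h => sep1 y hy x h hx
    have hex : ∃ y ∈ Y, F.Adj y x := ⟨y, hy, hx⟩
    have : hex.choose = y := by
      by_contra hne
      exact sep2 _ hex.choose_spec.1 y hy hne x hex.choose_spec.2 hx
    simp only [κ, hxY, if_false, hex, dite_true]
    rw [this]
  have κR : ∀ x, x ∉ Y → (∀ y ∈ Y, ¬ F.Adj y x) → (κ x : ℕ) = c x := by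
    intro x hx hx'
    have hex : ¬ ∃ y ∈ Y, F.Adj y x := by push Not; exact hx'
    simp only [κ, hx, if_false, hex, dite_false]
  have hcol : ∀ x y, x ≠ y → (F.Adj x y ∨ ∃ z, F.Adj x z ∧ F.Adj z y) → c x ≠ c y :=
    fun x y h1 h2 => hc2 x (mem_univ _) y (mem_univ _) ⟨h1, h2⟩
  refine ⟨Y, κ, ⟨κY, ?_, ?_, sep1, sep2, sep3, ?_, ?_, ?_⟩, hY2⟩
  · intro y hy x hx
    have := κN y hy x hx
    have := hf1 y x hx
    omega
  · intro y hy x x' hx hx' h
    have h1 := κN y hy x hx
    have h2 := κN y hy x' hx'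
    rw [h] at h1
    exact hf2 y x x' hx hx' (by omega)
  · intro x hx hx'
    rw [κR x hx hx']
    exact hc1 x
  · intro x hx hx' z hxz h
    have hcx := κR x hx hx'
    have hcx' := hc1 x
    have hzY : z ∉ Y := fun hz => hx' z hz hxz.symm
    by_cases hz : ∃ y ∈ Y, F.Adj y z
    · obtain ⟨y, hy, hyz⟩ := hz
      have := κN y hy z hyz
      rw [h] at this
      omega
    · push Not at hz
      have := κR z hzY hz
      rw [h] at this
      exact hcol x z hxz.ne (Or.inl hxz) (by omega)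
  · intro x hx hx' z z' hxz hxz' h
    by_contra hne
    have hzY : z ∉ Y := fun hz => hx' z hz hxz.symm
    have hzY' : z' ∉ Y := fun hz => hx' z' hz hxz'.symm
    have hcz := hc1 z
    have hcz' := hc1 z'
    by_cases hz : ∃ y ∈ Y, F.Adj y z
    · obtain ⟨y, hy, hyz⟩ := hz
      have h1 := κN y hy z hyz
      by_cases hz' : ∃ y ∈ Y, F.Adj y z'
      · obtain ⟨y', hy', hyz'⟩ := hz'
        have h2 := κN y' hy' z' hyz'
        by_cases hyy : y = y'
        · subst hyy
          rw [h] at h1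
          exact hne (hf2 y z z' hyz hyz' (by omega))
        · exact sep4 y hy y' hy' hyy z z' x hyz hyz' hxz hxz'
      · push Not at hz'
        have h2 := κR z' hzY' hz'
        rw [h] at h1
        omega
    · push Not at hz
      have h1 := κR z hzY hz
      by_cases hz' : ∃ y ∈ Y, F.Adj y z'
      · obtain ⟨y', hy', hyz'⟩ := hz'
        have h2 := κN y' hy' z' hyz'
        rw [h] at h1
        omega
      · push Not at hz'
        have h2 := κR z' hzY' hz'
        rw [h] at h1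
        exact hcol z z' hne (Or.inr ⟨x, hxz.symm, hxz'⟩) (by omega)

end Run7.h755
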