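import Mathlib
import Pool.Agent.Run7.h755.Base
import Pool.Agent.Run7.h755.FS

open Finset
open scoped Classical

namespace Run7.h755

variable {X V : Type*} [Fintype X]

/-- all coordinates pairwise adjacent -/
def Clq {n : ℕ} (G : SimpleGraph V) (t : Fin n → V) : Prop := ∀ i j, i ≠ j → G.Adj (t i) (t j)

/-- `v` adjacent to all coordinates except the last one -/
def HitT {n : ℕ} (G : SimpleGraph V) (v : V) (t : Fin (n + 1) → V) : Prop :=
  ∀ j, j ≠ Fin.last n → G.Adj v (t j)

/-- embedded part after treating the centres in `S` -/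
noncomputable def EE (F : SimpleGraph X) (S : Finset X) : Finset X :=
  univ.filter (fun x => ∃ y ∈ S, x = y ∨ F.Adj y x)

/-- hit count -/
noncomputable def hits (F : SimpleGraph X) (G : SimpleGraph V) (S : Finset X) (φ : X → V) (v : V) : ℕ :=
  (S.filter (fun y => ∀ x, F.Adj y x → G.Adj v (φ x))).card

def IsRest (F : SimpleGraph X) (Y : Finset X) (x : X) : Prop := x ∉ Y ∧ ∀ y ∈ Y, ¬ F.Adj y x

structure ASys (G : SimpleGraph V) (q0 Δ : ℕ) (D : Fin (q0 + Δ + 1) → Finset V)
    (Inv : Fin (q0 + Δ + 1) → Finset (Fin (q0 + Δ + 1)) → Finset V → Prop)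
    (lam c : Fin (q0 + Δ + 1) → ℝ) : Prop where
  h0 : ∀ i : Fin (q0 + Δ + 1), (i : ℕ) < q0 → Inv i ∅ (D i)
  h1 : ∀ i : Fin (q0 + Δ + 1), (i : ℕ) < q0 → ∀ J C j, i < j → j ∉ J → J.card < Δ → (∀ j' ∈ J, i < j') → C ⊆ D i →
    Inv i J C →
    (((D j).filter (fun u => ¬ Inv i (insert j J) (C.filter (fun w => G.Adj u w)))).card : ℝ)
      ≤ lam i * (D j).card
  h2 : ∀ i : Fin (q0 + Δ + 1), (i : ℕ) < q0 → ∀ J C, J.card ≤ Δ → (∀ j' ∈ J, i < j') → C ⊆ D i → Inv i J C →
    c i ≤ C.card

section
variable {F : SimpleGraph X} {G : SimpleGraph V} {q0 Δ : ℕ} {Y : Finset X}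
  {κ : X → Fin (q0 + Δ + 1)} {D : Fin (q0 + Δ + 1) → Finset V}
  {Inv : Fin (q0 + Δ + 1) → Finset (Fin (q0 + Δ + 1)) → Finset V → Prop}
  {lam c : Fin (q0 + Δ + 1) → ℝ}

/-- the bad tuples for a rest vertex -/
lemma bad_tuples (hF : FStr F q0 Δ Y κ) (hS : ASys G q0 Δ D Inv lam c)
    (hΔ : ∀ x, (Finset.univ.filter (fun z => F.Adj x z)).card ≤ Δ)
    (x : X) (hx : IsRest F Y x) (A : Finset X) (hA : ∀ a ∈ A, F.Adj x a)
    (hA' : ∀ a ∈ A, κ x < κ a) (C : Finset V) (hC : C ⊆ D (κ x))
    (hInv : Inv (κ x) (A.image κ) C) (Z : Finset X) :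
    (∀ z ∈ Z, F.Adj x z) → (∀ z ∈ Z, κ x < κ z) → Disjoint Z A →
    (((Fintype.piFinset D).filter (fun t => ¬ Inv (κ x) ((A ∪ Z).image κ)
      (C.filter (fun w => ∀ z ∈ Z, G.Adj (t (κ z)) w)))).card : ℝ)
      ≤ Z.card * lam (κ x) * (Fintype.piFinset D).card := by
  induction Z using Finset.induction_on with
  | empty =>
    intro _ _ _
    have : C.filter (fun w => ∀ z ∈ (∅ : Finset X), G.Adj ((fun _ => w) z) w) = C := by
      ext; simp
    simp [hInv]
  | insert z Z hzZ ih =>
    intro h1 h2 h3
    have ih' := ih (fun a ha => h1 a (by simp [ha])) (fun a ha => h2 a (by simp [ha]))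
      (Finset.disjoint_of_subset_left (Finset.subset_insert _ _) h3)
    have hzA : z ∉ A := fun h => (Finset.disjoint_left.mp h3) (Finset.mem_insert_self _ _) h
    have hxz := h1 z (by simp)
    have hinj : ∀ a ∈ A ∪ Z, κ a ≠ κ z := by
      intro a ha h
      have haz : a ≠ z := by
        rintro rfl
        rcases Finset.mem_union.mp ha with h | h
        · exact hzA h
        · exact hzZ h
      have hxa : F.Adj x a := by
        rcases Finset.mem_union.mp ha with h | h
        · exact hA a h
        · exact h1 a (by simp [h])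
      exact haz (hF.rest3 x hx.1 hx.2 a z hxa hxz h)
    have hJ : κ z ∉ (A ∪ Z).image κ := by
      simp only [Finset.mem_image, not_exists, not_and]
      exact hinj
    have hJc : ((A ∪ Z).image κ).card < Δ := by
      have hsub : insert z (A ∪ Z) ⊆ Finset.univ.filter (fun z => F.Adj x z) := by
        intro a ha
        simp only [Finset.mem_filter, Finset.mem_univ, true_and]
        rcases Finset.mem_insert.mp ha with rfl | ha
        · exact hxz
        · rcases Finset.mem_union.mp ha with h | h
          · exact hA a h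
          · exact h1 a (by simp [h])
      have hz' : z ∉ A ∪ Z := by simp [hzA, hzZ]
      have e1 := (Finset.card_le_card hsub).trans (hΔ x)
      rw [Finset.card_insert_of_notMem hz'] at e1
      have e2 := Finset.card_image_le (s := A ∪ Z) (f := κ)
      omega
    have hJ' : ∀ j' ∈ (A ∪ Z).image κ, κ x < j' := by
      intro j' hj'
      obtain ⟨a, ha, rfl⟩ := Finset.mem_image.mp hj'
      rcases Finset.mem_union.mp ha with h | h
      · exact hA' a h
      · exact h2 a (by simp [h])
    have hun : (A ∪ insert z Z).image κ = insert (κ z) ((A ∪ Z).image κ) := by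
      rw [Finset.union_insert, Finset.image_insert]
    -- second piece
    have hfib := fiber_le D (κ z) (fun t => Inv (κ x) ((A ∪ Z).image κ)
        (C.filter (fun w => ∀ z ∈ Z, G.Adj (t (κ z)) w)) ∧
        ¬ Inv (κ x) (insert (κ z) ((A ∪ Z).image κ))
          ((C.filter (fun w => ∀ z ∈ Z, G.Adj (t (κ z)) w)).filter (fun w => G.Adj (t (κ z)) w)))
        (lam (κ x)) (by
      intro t _
      have hupd : ∀ u, C.filter (fun w => ∀ z' ∈ Z, G.Adj ((Function.update t (κ z) u) (κ z')) w)
          = C.filter (fun w => ∀ z' ∈ Z, G.Adj (t (κ z')) w) := by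
        intro u
        refine Finset.filter_congr fun w _ => ?_
        constructor
        · intro h z' hz'
          have := h z' hz'
          rwa [Function.update_of_ne (hinj z' (by simp [hz']))] at this
        · intro h z' hz'
          rw [Function.update_of_ne (hinj z' (by simp [hz']))]
          exact h z' hz'
      by_cases hI : Inv (κ x) ((A ∪ Z).image κ) (C.filter (fun w => ∀ z' ∈ Z, G.Adj (t (κ z')) w))
      · have := hS.h1 (κ x) (hF.rest1 x hx.1 hx.2) _ _ (κ z) (h2 z (by simp)) hJ hJc hJ'
          ((Finset.filter_subset _ _).trans hC) hI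
        refine le_trans ?_ this
        exact_mod_cast Finset.card_le_card (by
          intro u hu
          simp only [Finset.mem_filter] at hu ⊢
          refine ⟨hu.1, ?_⟩
          have := hu.2.2
          rw [hupd u] at this
          simpa using this)
      · have hl : 0 ≤ lam (κ x) * (D (κ z)).card := by
          have := hS.h1 (κ x) (hF.rest1 x hx.1 hx.2) (A.image κ) C (κ z) (h2 z (by simp))
            (fun h => hJ (Finset.image_subset_image Finset.subset_union_left h))
            (lt_of_le_of_lt (Finset.card_le_card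
              (Finset.image_subset_image Finset.subset_union_left)) hJc)
            (fun j' hj' => hJ' j' (Finset.image_subset_image Finset.subset_union_left hj')) hC hInv
          exact le_trans (by positivity) this
        refine le_trans ?_ hl
        rw [Nat.cast_nonpos, Finset.card_eq_zero, Finset.eq_empty_iff_forall_notMem]
        intro u hu
        simp only [Finset.mem_filter] at hu
        rw [hupd u] at hu
        exact hI hu.2.1)
    rw [Finset.card_insert_of_notMem hzZ]
    push_cast
    have hsplit : ∀ t ∈ Fintype.piFinset D, ¬ Inv (κ x) ((A ∪ insert z Z).image κ)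
        (C.filter (fun w => ∀ z' ∈ insert z Z, G.Adj (t (κ z')) w)) →
        (¬ Inv (κ x) ((A ∪ Z).image κ) (C.filter (fun w => ∀ z ∈ Z, G.Adj (t (κ z)) w))) ∨
        (Inv (κ x) ((A ∪ Z).image κ) (C.filter (fun w => ∀ z ∈ Z, G.Adj (t (κ z)) w)) ∧
        ¬ Inv (κ x) (insert (κ z) ((A ∪ Z).image κ))
          ((C.filter (fun w => ∀ z ∈ Z, G.Adj (t (κ z)) w)).filter (fun w => G.Adj (t (κ z)) w))) := by
      intro t _ ht
      by_cases hI : Inv (κ x) ((A ∪ Z).image κ) (C.filter (fun w => ∀ z' ∈ Z, G.Adj (t (κ z')) w))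
      · right
        refine ⟨hI, ?_⟩
        have heq : (C.filter (fun w => ∀ z ∈ Z, G.Adj (t (κ z)) w)).filter (fun w => G.Adj (t (κ z)) w)
            = C.filter (fun w => ∀ z' ∈ insert z Z, G.Adj (t (κ z')) w) := by
          ext w
          simp only [Finset.mem_filter, Finset.mem_insert, forall_eq_or_imp]
          tauto
        rw [heq, ← hun]
        exact ht
      · exact Or.inl hI
    refine ((card_filter_le_add _ _ _ _ hsplit).trans (add_le_add ih' hfib)).trans (le_of_eq ?_)
    ring

lemma mem_EE {S : Finset X} {x : X} : x ∈ EE F S ↔ ∃ y ∈ S, x = y ∨ F.Adj y x := by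
  simp [EE]

theorem phase1 (hF : FStr F q0 Δ Y κ) (hS : ASys G q0 Δ D Inv lam c)
    (hΔ : ∀ x, (Finset.univ.filter (fun z => F.Adj x z)).card ≤ Δ)
    (B 𝒱 : Finset V) (h𝒱 : 𝒱.Nonempty) (p τ lam1 : ℝ) (hp : 0 < p) (hp1 : p ≤ 1)
    (hΩ : 0 < (Fintype.piFinset D).card) (hlam0 : 0 ≤ lam1)
    (hlam : ∀ i : Fin (q0 + Δ + 1), (i : ℕ) < q0 → lam i ≤ lam1)
    (hτ : ∀ j, (Fintype.card X : ℝ) + ((D j) ∩ B).card ≤ τ * (D j).card)
    (hnum : ((q0 + Δ + 1 : ℕ) : ℝ) * τ + ((Δ * Δ : ℕ) : ℝ) * (Δ * lam1) ≤ p / 2)
    (hhit : ∀ v ∈ 𝒱, p * (Fintype.piFinset D).card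
      ≤ (((Fintype.piFinset D).filter (fun t => Clq G t ∧ HitT G v t)).card : ℝ)) :
    ∀ S : Finset X, S ⊆ Y → ∃ φ : X → V, PEmb F G (fun x => D (κ x)) B (EE F S) φ ∧
      (∀ x, IsRest F Y x → Inv (κ x) ((nin F (EE F S) x).image κ)
        (cand F G (fun x => D (κ x)) (EE F S) φ x)) ∧
      ∑ v ∈ 𝒱, (1 / 2 : ℝ) ^ (hits F G S φ v) ≤ 𝒱.card * (1 - p / 4) ^ S.card := by
  intro S
  induction S using Finset.induction_on with
  | empty =>
    intro _
    obtain ⟨v0, _⟩ := h𝒱
    have hE : EE F (∅ : Finset X) = ∅ := by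
      ext x; simp [EE]
    refine ⟨fun _ => v0, ?_, ?_, ?_⟩
    · rw [hE]
      exact ⟨by simp, by simp, by simp, by simp⟩
    · intro x hx
      rw [hE]
      have h1 : nin F (∅ : Finset X) x = ∅ := by simp [nin]
      have h2 : cand F G (fun x => D (κ x)) (∅ : Finset X) (fun _ => v0) x = D (κ x) := by
        simp [cand]
      rw [h1, h2, Finset.image_empty]
      exact hS.h0 _ (hF.rest1 x hx.1 hx.2)
    · simp [hits]
  | insert y S hyS ih =>
    intro hSY
    have hyY : y ∈ Y := hSY (Finset.mem_insert_self _ _)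
    have hSY' : S ⊆ Y := (Finset.subset_insert _ _).trans hSY
    obtain ⟨φ, hP, hI, hpot⟩ := ih hSY'
    set E := EE F S with hE
    set Ω := Fintype.piFinset D with hΩdef
    have hΩ' : (0 : ℝ) < Ω.card := by exact_mod_cast hΩ
    let U : Finset V := E.image φ ∪ B
    let Z : X → Finset X := fun x => univ.filter (fun z => F.Adj y z ∧ F.Adj x z)
    let RN : Finset X := univ.filter (fun x => IsRest F Y x ∧ ∃ z, F.Adj y z ∧ F.Adj z x)
    have hRN : RN.card ≤ Δ * Δ := by
      have : RN ⊆ (univ.filter (fun z => F.Adj y z)).biUnion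
          (fun z => univ.filter (fun w => F.Adj z w)) := by
        intro x hx
        simp only [RN, Finset.mem_filter, Finset.mem_univ, true_and, Finset.mem_biUnion] at hx ⊢
        exact hx.2
      calc RN.card ≤ _ := Finset.card_le_card this
        _ ≤ ∑ z ∈ univ.filter (fun z => F.Adj y z), (univ.filter (fun w => F.Adj z w)).card :=
            Finset.card_biUnion_le
        _ ≤ ∑ z ∈ univ.filter (fun z => F.Adj y z), Δ := Finset.sum_le_sum fun z _ => hΔ z
        _ ≤ Δ * Δ := by
            rw [Finset.sum_const, smul_eq_mul]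
            exact Nat.mul_le_mul_right _ (hΔ y)
    let good3 : (Fin (q0 + Δ + 1) → V) → X → Prop := fun t x =>
      Inv (κ x) ((nin F E x ∪ Z x).image κ)
        ((cand F G (fun x => D (κ x)) E φ x).filter (fun w => ∀ z ∈ Z x, G.Adj (t (κ z)) w))
    let allowed : (Fin (q0 + Δ + 1) → V) → Prop := fun t =>
      Clq G t ∧ (∀ j, t j ∉ U) ∧ ∀ x ∈ RN, good3 t x
    -- classes of embedded neighbours of rest vertices
    have hEcl : ∀ x, IsRest F Y x → ∀ a ∈ nin F E x, κ x < κ a := by
      intro x hx a ha
      have ha1 : F.Adj x a := (Finset.mem_filter.mp ha).2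
      obtain ⟨y', hy', h⟩ := mem_EE.mp (Finset.mem_filter.mp ha).1
      rcases h with rfl | h
      · exact absurd ha1.symm (hx.2 a (hSY' hy'))
      · have h1 := (hF.Nrange y' (hSY' hy') a h).1
        have h2 := hF.rest1 x hx.1 hx.2
        exact Fin.lt_def.mpr (by omega)
    have hZcl : ∀ x, IsRest F Y x → ∀ a ∈ Z x, κ x < κ a := by
      intro x hx a ha
      simp only [Z, Finset.mem_filter, Finset.mem_univ, true_and] at ha
      have h1 := (hF.Nrange y hyY a ha.1).1
      have h2 := hF.rest1 x hx.1 hx.2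
      exact Fin.lt_def.mpr (by omega)
    -- near y is disjoint from E
    have hdisj : ∀ a, (a = y ∨ F.Adj y a) → a ∉ E := by
      intro a ha haE
      obtain ⟨y', hy', h⟩ := mem_EE.mp haE
      have hne : y ≠ y' := by rintro rfl; exact hyS hy'
      rcases ha with rfl | ha
      · rcases h with rfl | h
        · exact hne rfl
        · exact hF.sep1 y' (hSY' hy') a hyY h
      · rcases h with rfl | h
        · exact hF.sep1 y hyY a (hSY' hy') ha
        · exact hF.sep2 y hyY y' (hSY' hy') hne a ha h
    -- no edges between near y and E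
    have hnoedge : ∀ a, (a = y ∨ F.Adj y a) → ∀ b ∈ E, ¬ F.Adj a b := by
      intro a ha b hb hab
      obtain ⟨y', hy', h⟩ := mem_EE.mp hb
      have hne : y ≠ y' := by rintro rfl; exact hyS hy'
      rcases ha with rfl | ha
      · rcases h with rfl | h
        · exact hF.sep1 a hyY b (hSY' hy') hab
        · exact hF.sep2 a hyY y' (hSY' hy') hne b hab h
      · rcases h with rfl | h
        · exact hF.sep2 y hyY b (hSY' hy') hne a ha hab.symm
        · exact hF.sep3 y hyY y' (hSY' hy') hne a b ha h hab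
    -- counting
    have hc2 : ((Ω.filter (fun t => ∃ j, t j ∈ U)).card : ℝ)
        ≤ ((q0 + Δ + 1 : ℕ) : ℝ) * (τ * Ω.card) := by
      have := card_filter_exists_le Ω (univ : Finset (Fin (q0 + Δ + 1)))
        (fun t => ∃ j, t j ∈ U) (fun j t => t j ∈ U) (τ * Ω.card)
        (by rintro t _ ⟨j, hj⟩; exact ⟨j, Finset.mem_univ _, hj⟩)
        (by
          intro j _
          refine fiber_le D j (fun t => t j ∈ U) τ ?_
          intro t _
          have h1 : (D j).filter (fun u => Function.update t j u j ∈ U) ⊆ E.image φ ∪ (D j ∩ B) := by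
            intro u hu
            simp only [Finset.mem_filter, Function.update_self, U, Finset.mem_union,
              Finset.mem_inter] at hu ⊢
            tauto
          have h2 := (Finset.card_le_card h1).trans (Finset.card_union_le _ _)
          have h3 : (E.image φ).card ≤ Fintype.card X :=
            (Finset.card_image_le).trans (Finset.card_le_univ E)
          refine le_trans ?_ (hτ j)
          exact_mod_cast h2.trans (by omega))
      simpa using this
    have hc3 : ((Ω.filter (fun t => ∃ x ∈ RN, ¬ good3 t x)).card : ℝ)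
        ≤ ((Δ * Δ : ℕ) : ℝ) * (Δ * lam1 * Ω.card) := by
      have := card_filter_exists_le Ω RN
        (fun t => ∃ x ∈ RN, ¬ good3 t x) (fun x t => ¬ good3 t x) (Δ * lam1 * Ω.card)
        (by rintro t _ ⟨j, hj, hj'⟩; exact ⟨j, hj, hj'⟩)
        (by
          intro x hx
          have hxR : IsRest F Y x := by
            simp only [RN, Finset.mem_filter, Finset.mem_univ, true_and] at hx; exact hx.1
          have hb := bad_tuples hF hS hΔ x hxR (nin F E x) (fun a ha => (Finset.mem_filter.mp ha).2)
            (hEcl x hxR) (cand F G (fun x => D (κ x)) E φ x) (cand_sub _ _ _ _ _ _) (hI x hxR)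
            (Z x) (fun z hz => by
              simp only [Z, Finset.mem_filter, Finset.mem_univ, true_and] at hz; exact hz.2)
            (hZcl x hxR) (by
              rw [Finset.disjoint_left]
              intro a ha ha'
              simp only [Z, Finset.mem_filter, Finset.mem_univ, true_and] at ha
              exact hdisj a (Or.inr ha.1) (Finset.mem_filter.mp ha').1)
          refine hb.trans ?_
          have hZc : ((Z x).card : ℝ) ≤ Δ := by
            have : Z x ⊆ univ.filter (fun z => F.Adj y z) := by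
              intro z hz
              simp only [Z, Finset.mem_filter, Finset.mem_univ, true_and] at hz ⊢
              exact hz.1
            exact_mod_cast (Finset.card_le_card this).trans (hΔ y)
          have hl := hlam (κ x) (hF.rest1 x hxR.1 hxR.2)
          apply mul_le_mul_of_nonneg_right _ hΩ'.le
          calc ((Z x).card : ℝ) * lam (κ x) ≤ (Z x).card * lam1 := by gcongr
            _ ≤ Δ * lam1 := by gcongr)
      refine this.trans ?_
      gcongr
    have hcount : ∀ v ∈ 𝒱, (p / 2) * Ω.card
        ≤ ((Ω.filter (fun t => allowed t ∧ HitT G v t)).card : ℝ) := by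
      intro v hv
      have h1 := card_filter_le_add Ω (fun t => Clq G t ∧ HitT G v t)
        (fun t => allowed t ∧ HitT G v t)
        (fun t => (∃ j, t j ∈ U) ∨ (∃ x ∈ RN, ¬ good3 t x)) (by
          rintro t _ ⟨ht1, ht2⟩
          by_cases ha : allowed t
          · exact Or.inl ⟨ha, ht2⟩
          · right
            by_contra hcon
            push Not at hcon
            exact ha ⟨ht1, hcon.1, hcon.2⟩)
      have h2 := card_filter_le_add Ω (fun t => (∃ j, t j ∈ U) ∨ (∃ x ∈ RN, ¬ good3 t x))
        (fun t => ∃ j, t j ∈ U) (fun t => ∃ x ∈ RN, ¬ good3 t x) (fun t _ h => h)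
      have h3 := hhit v hv
      have h4 : ((q0 + Δ + 1 : ℕ) : ℝ) * (τ * Ω.card) + ((Δ * Δ : ℕ) : ℝ) * (Δ * lam1 * Ω.card)
          ≤ p / 2 * Ω.card := by
        calc _ = (((q0 + Δ + 1 : ℕ) : ℝ) * τ + ((Δ * Δ : ℕ) : ℝ) * (Δ * lam1)) * Ω.card := by ring
          _ ≤ _ := by gcongr
      linarith
    -- weights
    let w : V → ℝ := fun v => (1 / 2 : ℝ) ^ (hits F G S φ v)
    have hw : ∀ v, 0 < w v := fun v => by positivity
    let 𝒜 := Ω.filter allowed
    have h𝒜 : 𝒜.Nonempty := by
      obtain ⟨v0, hv0⟩ := h𝒱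
      have h1 := hcount v0 hv0
      have h2 : (0 : ℝ) < ((Ω.filter (fun t => allowed t ∧ HitT G v0 t)).card : ℝ) :=
        lt_of_lt_of_le (by positivity) h1
      have h3 : 0 < (Ω.filter (fun t => allowed t ∧ HitT G v0 t)).card := by exact_mod_cast h2
      obtain ⟨t, ht⟩ := Finset.card_pos.mp h3
      rw [Finset.mem_filter] at ht
      exact ⟨t, Finset.mem_filter.mpr ⟨ht.1, ht.2.1⟩⟩
    obtain ⟨t, ht𝒜, htw⟩ : ∃ t ∈ 𝒜, (p / 2) * ∑ v ∈ 𝒱, w v
        ≤ ∑ v ∈ 𝒱, (if HitT G v t then w v else 0) := by
      refine Finset.exists_le_of_sum_le h𝒜 ?_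
      rw [Finset.sum_comm]
      have h1 : ∀ v ∈ 𝒱, w v * ((p / 2) * Ω.card)
          ≤ ∑ t ∈ 𝒜, (if HitT G v t then w v else 0) := by
        intro v hv
        rw [← Finset.sum_filter, Finset.sum_const, nsmul_eq_mul, mul_comm]
        apply mul_le_mul_of_nonneg_right _ (hw v).le
        refine (hcount v hv).trans ?_
        rw [Finset.filter_filter]
      calc ∑ t ∈ 𝒜, (p / 2) * ∑ v ∈ 𝒱, w v = 𝒜.card * ((p / 2) * ∑ v ∈ 𝒱, w v) := by
            rw [Finset.sum_const, nsmul_eq_mul]
        _ ≤ Ω.card * ((p / 2) * ∑ v ∈ 𝒱, w v) := by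
            apply mul_le_mul_of_nonneg_right _
              (mul_nonneg (by positivity) (Finset.sum_nonneg fun v _ => (hw v).le))
            exact_mod_cast Finset.card_le_card (Finset.filter_subset _ _)
        _ = ∑ v ∈ 𝒱, w v * ((p / 2) * Ω.card) := by rw [← Finset.sum_mul]; ring
        _ ≤ _ := Finset.sum_le_sum h1
    have htΩ : t ∈ Ω := (Finset.mem_filter.mp ht𝒜).1
    obtain ⟨htc, htU, ht3⟩ := (Finset.mem_filter.mp ht𝒜).2
    -- the new map
    let φ' : X → V := fun x => if x = y ∨ F.Adj y x then t (κ x) else φ x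
    have hφ1 : ∀ x, (x = y ∨ F.Adj y x) → φ' x = t (κ x) := by
      intro x hx; simp only [φ', hx, if_true]
    have hφ2 : ∀ x ∈ E, φ' x = φ x := by
      intro x hx
      have : ¬ (x = y ∨ F.Adj y x) := fun h => hdisj x h hx
      simp only [φ', this, if_false]
    have hE' : ∀ x, x ∈ EE F (insert y S) ↔ (x = y ∨ F.Adj y x) ∨ x ∈ E := by
      intro x
      rw [mem_EE, hE, mem_EE]
      simp only [Finset.mem_insert, exists_eq_or_imp]
    have hκne : ∀ a b, (a = y ∨ F.Adj y a) → (b = y ∨ F.Adj y b) → a ≠ b → κ a ≠ κ b := by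
      intro a b ha hb hab h
      have hlast := hF.Ylast y hyY
      rcases ha with rfl | ha <;> rcases hb with rfl | hb
      · exact hab rfl
      · have := (hF.Nrange a hyY b hb).2
        rw [← h, hlast, Fin.val_last] at this
        omega
      · have := (hF.Nrange b hyY a ha).2
        rw [h, hlast, Fin.val_last] at this
        omega
      · exact hab (hF.Ninj y hyY a b ha hb h)
    refine ⟨φ', ?_, ?_, ?_⟩
    · refine ⟨?_, ?_, ?_, ?_⟩
      · intro a ha b hb hab
        rw [Finset.mem_coe, hE'] at ha hb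
        by_contra hne
        rcases ha with ha | ha <;> rcases hb with hb | hb
        · rw [hφ1 a ha, hφ1 b hb] at hab
          exact (htc _ _ (hκne a b ha hb hne)).ne hab
        · rw [hφ1 a ha, hφ2 b hb] at hab
          exact htU (κ a) (by
            rw [hab]
            exact Finset.mem_union_left _ (Finset.mem_image_of_mem _ hb))
        · rw [hφ2 a ha, hφ1 b hb] at hab
          exact htU (κ b) (by
            rw [← hab]
            exact Finset.mem_union_left _ (Finset.mem_image_of_mem _ ha))
        · rw [hφ2 a ha, hφ2 b hb] at hab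
          exact hne (hP.inj ha hb hab)
      · intro a ha b hb hab
        rw [hE'] at ha hb
        rcases ha with ha | ha <;> rcases hb with hb | hb
        · rw [hφ1 a ha, hφ1 b hb]
          exact htc _ _ (hκne a b ha hb hab.ne)
        · exact absurd hab (hnoedge a ha b hb)
        · exact absurd hab.symm (hnoedge b hb a ha)
        · rw [hφ2 a ha, hφ2 b hb]
          exact hP.adj a ha b hb hab
      · intro a ha
        rw [hE'] at ha
        rcases ha with ha | ha
        · rw [hφ1 a ha]; exact (Fintype.mem_piFinset.mp htΩ) _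
        · rw [hφ2 a ha]; exact hP.tgt a ha
      · intro a ha
        rw [hE'] at ha
        rcases ha with ha | ha
        · rw [hφ1 a ha]; exact fun h => htU _ (Finset.mem_union_right _ h)
        · rw [hφ2 a ha]; exact hP.avoid a ha
    · intro x hx
      have hxy : ¬ F.Adj x y := fun h => hx.2 y hyY h.symm
      have hnin : nin F (EE F (insert y S)) x = nin F E x ∪ Z x := by
        ext a
        simp only [nin, Z, Finset.mem_filter, Finset.mem_union, hE', Finset.mem_univ, true_and]
        constructor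
        · rintro ⟨(rfl | h) | h, h2⟩
          · exact absurd h2 hxy
          · exact Or.inr ⟨h, h2⟩
          · exact Or.inl ⟨h, h2⟩
        · rintro (⟨h, h2⟩ | ⟨h, h2⟩)
          · exact ⟨Or.inr h, h2⟩
          · exact ⟨Or.inl (Or.inr h), h2⟩
      have hcand : cand F G (fun x => D (κ x)) (EE F (insert y S)) φ' x
          = (cand F G (fun x => D (κ x)) E φ x).filter (fun w => ∀ z ∈ Z x, G.Adj (t (κ z)) w) := by
        ext u
        simp only [cand, Finset.mem_filter, Z, hE', Finset.mem_univ, true_and]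
        constructor
        · rintro ⟨h1, h2⟩
          refine ⟨⟨h1, fun z hz hxz => ?_⟩, fun z hz => ?_⟩
          · have := h2 z (Or.inr hz) hxz
            rwa [hφ2 z hz] at this
          · have := h2 z (Or.inl (Or.inr hz.1)) hz.2
            rwa [hφ1 z (Or.inr hz.1)] at this
        · rintro ⟨⟨h1, h2⟩, h3⟩
          refine ⟨h1, fun z hz hxz => ?_⟩
          rcases hz with (rfl | hz) | hz
          · exact absurd hxz hxy
          · rw [hφ1 z (Or.inr hz)]; exact h3 z ⟨hz, hxz⟩
          · rw [hφ2 z hz]; exact h2 z hz hxz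
      rw [hnin, hcand]
      by_cases hxRN : x ∈ RN
      · exact ht3 x hxRN
      · have hZ : Z x = ∅ := by
          rw [Finset.eq_empty_iff_forall_notMem]
          intro z hz
          simp only [Z, Finset.mem_filter, Finset.mem_univ, true_and] at hz
          apply hxRN
          simp only [RN, Finset.mem_filter, Finset.mem_univ, true_and]
          exact ⟨hx, z, hz.1, hz.2.symm⟩
        rw [hZ]
        simpa using hI x hx
    · have hstep : ∀ v ∈ 𝒱, (1 / 2 : ℝ) ^ (hits F G (insert y S) φ' v)
          ≤ w v - (1 / 2) * (if HitT G v t then w v else 0) := by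
        intro v _
        have hS1 : S.filter (fun y => ∀ x, F.Adj y x → G.Adj v (φ' x))
            = S.filter (fun y => ∀ x, F.Adj y x → G.Adj v (φ x)) := by
          refine Finset.filter_congr fun y' hy' => ?_
          refine forall_congr' fun x => ?_
          constructor
          · intro h hx
            have := h hx
            rwa [hφ2 x (mem_EE.mpr ⟨y', hy', Or.inr hx⟩)] at this
          · intro h hx
            rw [hφ2 x (mem_EE.mpr ⟨y', hy', Or.inr hx⟩)]
            exact h hx
        by_cases hh : HitT G v t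
        · have hy1 : ∀ x, F.Adj y x → G.Adj v (φ' x) := by
            intro x hx
            rw [hφ1 x (Or.inr hx)]
            refine hh _ ?_
            intro h
            have := (hF.Nrange y hyY x hx).2
            rw [h, Fin.val_last] at this
            omega
          have : hits F G (insert y S) φ' v = hits F G S φ v + 1 := by
            unfold hits
            rw [Finset.filter_insert, if_pos hy1, Finset.card_insert_of_notMem (by
              simp [hyS]), hS1]
          rw [this, pow_succ]
          simp only [hh, if_true, w]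
          linarith
        · have : hits F G S φ v ≤ hits F G (insert y S) φ' v := by
            unfold hits
            rw [Finset.filter_insert, ← hS1]
            split_ifs
            · exact Finset.card_le_card (Finset.subset_insert _ _)
            · exact le_rfl
          simp only [hh, if_false, mul_zero, sub_zero, w]
          exact pow_le_pow_of_le_one (by norm_num) (by norm_num) this
      calc ∑ v ∈ 𝒱, (1 / 2 : ℝ) ^ (hits F G (insert y S) φ' v)
          ≤ ∑ v ∈ 𝒱, (w v - (1 / 2) * (if HitT G v t then w v else 0)) := Finset.sum_le_sum hstep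
        _ = ∑ v ∈ 𝒱, w v - (1 / 2) * ∑ v ∈ 𝒱, (if HitT G v t then w v else 0) := by
            rw [Finset.sum_sub_distrib, Finset.mul_sum]
        _ ≤ (1 - p / 4) * ∑ v ∈ 𝒱, w v := by linarith
        _ ≤ (1 - p / 4) * (𝒱.card * (1 - p / 4) ^ S.card) := by
            apply mul_le_mul_of_nonneg_left hpot; linarith
        _ = 𝒱.card * (1 - p / 4) ^ (insert y S).card := by
            rw [Finset.card_insert_of_notMem hyS, pow_succ]; ring

theorem abs_embed (hF : FStr F q0 Δ Y κ) (hS : ASys G q0 Δ D Inv lam c)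
    (hΔ : ∀ x, (Finset.univ.filter (fun z => F.Adj x z)).card ≤ Δ)
    (B 𝒱 : Finset V) (h𝒱 : 𝒱.Nonempty) (p τ lam1 : ℝ) (hp : 0 < p) (hp1 : p ≤ 1)
    (hΩ : 0 < (Fintype.piFinset D).card) (hlam0 : 0 ≤ lam1)
    (hlam : ∀ i : Fin (q0 + Δ + 1), (i : ℕ) < q0 → lam i ≤ lam1)
    (hτ : ∀ j, (Fintype.card X : ℝ) + ((D j) ∩ B).card ≤ τ * (D j).card)
    (hnum : ((q0 + Δ + 1 : ℕ) : ℝ) * τ + ((Δ * Δ : ℕ) : ℝ) * (Δ * lam1) ≤ p / 2)
    (hhit : ∀ v ∈ 𝒱, p * (Fintype.piFinset D).card
      ≤ (((Fintype.piFinset D).filter (fun t => Clq G t ∧ HitT G v t)).card : ℝ))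
    (bd : Fin (q0 + Δ + 1) → ℝ) (hbd0 : ∀ j, 0 ≤ bd j)
    (hbd : ∀ i j : Fin (q0 + Δ + 1), i < j → (j : ℕ) < q0 → lam i * (D j).card ≤ bd j)
    (hc : ∀ j : Fin (q0 + Δ + 1), (j : ℕ) < q0 →
      (Fintype.card X : ℝ) + ((D j) ∩ B).card + Δ * bd j < c j) :
    ∃ ψ : X → V, Function.Injective ψ ∧ (∀ a b, F.Adj a b → G.Adj (ψ a) (ψ b)) ∧
      (∀ a, ψ a ∈ D (κ a)) ∧ (∀ a, ψ a ∉ B) ∧
      ∀ v ∈ 𝒱, (1 / 2 : ℝ) ^ (hits F G Y ψ v) ≤ 𝒱.card * (1 - p / 4) ^ Y.card := by
  obtain ⟨φ, hP, hI, hpot⟩ := phase1 hF hS hΔ B 𝒱 h𝒱 p τ lam1 hp hp1 hΩ hlam0 hlam hτ hnum hhit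
    Y (Finset.Subset.refl _)
  set E := EE F Y with hE
  let r : X → X → Prop := fun a b => κ b ≤ κ a
  haveI : IsTrans X r := ⟨fun a b c h1 h2 => le_trans h2 h1⟩
  haveI : Std.Total r := ⟨fun a b => le_total _ _⟩
  let L : List X := (univ.filter (fun x => IsRest F Y x)).toList.insertionSort r
  have hLmem : ∀ x, x ∈ L ↔ IsRest F Y x := by
    intro x
    simp [L, List.mem_insertionSort]
  have hLnd : L.Nodup := by
    have := List.perm_insertionSort r (univ.filter (fun x => IsRest F Y x)).toList
    exact this.nodup_iff.mpr (Finset.nodup_toList _)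
  have hLpw : L.Pairwise r := List.pairwise_insertionSort r _
  have hrestE : ∀ x, x ∈ E ∨ IsRest F Y x := by
    intro x
    by_cases h : x ∈ E
    · exact Or.inl h
    · right
      rw [hE, mem_EE] at h
      push Not at h
      exact ⟨fun hx => (h x hx).1 rfl, fun y hy => (h y hy).2⟩
  have hnotE : ∀ x, IsRest F Y x → x ∉ E := by
    intro x hx h
    obtain ⟨y, hy, h | h⟩ := mem_EE.mp h
    · subst h; exact hx.1 hy
    · exact hx.2 y hy h
  let Inv' : X → Finset X → Finset V → Prop := fun x A C =>
    (∀ a ∈ A, κ x < κ a) ∧ Inv (κ x) (A.image κ) C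
  have hAcard : ∀ x (A : Finset X), (∀ a ∈ A, F.Adj x a) → A.card ≤ Δ := by
    intro x A hA
    refine (Finset.card_le_card ?_).trans (hΔ x)
    intro a ha
    simp [hA a ha]
  obtain ⟨ψ, hψ1, hψ2⟩ := seq_embed F G (fun x => D (κ x)) B Inv' (fun x => bd (κ x))
    (fun x => hbd0 _) Δ hΔ L E φ hLnd (fun x hx => hnotE x ((hLmem x).mp hx))
    (by
      refine hLpw.imp_of_mem ?_
      intro z x hz hx hzx hadj A C hzA hA hC hInv
      have hxR := (hLmem x).mp hx
      have hzR := (hLmem z).mp hz
      have hlt : κ x < κ z := lt_of_le_of_ne hzx (fun h => hF.rest2 x hxR.1 hxR.2 z hadj h.symm)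
      have hκz : κ z ∉ A.image κ := by
        simp only [Finset.mem_image, not_exists, not_and]
        intro a ha h
        have : a = z := hF.rest3 x hxR.1 hxR.2 a z (hA a ha) hadj h
        exact hzA (this ▸ ha)
      have hcardA : (A.image κ).card < Δ := by
        have h1 : (insert z A).card ≤ Δ := hAcard x _ (by
          intro a ha
          rcases Finset.mem_insert.mp ha with rfl | ha
          · exact hadj
          · exact hA a ha)
        rw [Finset.card_insert_of_notMem hzA] at h1
        have := Finset.card_image_le (s := A) (f := κ)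
        omega
      have h1 := hS.h1 (κ x) (hF.rest1 x hxR.1 hxR.2) (A.image κ) C (κ z) hlt hκz hcardA
        (by
          intro j hj
          obtain ⟨a, ha, rfl⟩ := Finset.mem_image.mp hj
          exact hInv.1 a ha) hC hInv.2
      refine le_trans ?_ (h1.trans (hbd _ _ hlt (hF.rest1 z hzR.1 hzR.2)))
      exact_mod_cast Finset.card_le_card (by
        intro u hu
        simp only [Finset.mem_filter] at hu ⊢
        refine ⟨hu.1, fun h => hu.2 ⟨?_, ?_⟩⟩
        · intro a ha
          rcases Finset.mem_insert.mp ha with rfl | ha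
          · exact hlt
          · exact hInv.1 a ha
        · rw [Finset.image_insert]; exact h))
    (by
      intro x hx A C hA hC hInv
      have hxR := (hLmem x).mp hx
      refine lt_of_lt_of_le (hc (κ x) (hF.rest1 x hxR.1 hxR.2)) ?_
      refine hS.h2 (κ x) (hF.rest1 x hxR.1 hxR.2) (A.image κ) C
        (Finset.card_image_le.trans (hAcard x A hA)) ?_ hC hInv.2
      intro j hj
      obtain ⟨a, ha, rfl⟩ := Finset.mem_image.mp hj
      exact hInv.1 a ha)
    hP
    (by
      intro x hx
      have hxR := (hLmem x).mp hx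
      refine ⟨?_, hI x hxR⟩
      intro a ha
      have ha1 : F.Adj x a := (Finset.mem_filter.mp ha).2
      obtain ⟨y', hy', h⟩ := mem_EE.mp (Finset.mem_filter.mp ha).1
      rcases h with rfl | h
      · exact absurd ha1.symm (hxR.2 a hy')
      · have h1 := (hF.Nrange y' hy' a h).1
        have h2 := hF.rest1 x hxR.1 hxR.2
        exact Fin.lt_def.mpr (by omega))
  have huniv : ∀ x, x ∈ E ∪ L.toFinset := by
    intro x
    rw [Finset.mem_union, List.mem_toFinset, hLmem]
    exact hrestE x
  refine ⟨ψ, ?_, ?_, ?_, ?_, ?_⟩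
  · intro a b hab
    exact hψ2.inj (by exact_mod_cast huniv a) (by exact_mod_cast huniv b) hab
  · intro a b hab
    exact hψ2.adj a (huniv a) b (huniv b) hab
  · intro a; exact hψ2.tgt a (huniv a)
  · intro a; exact hψ2.avoid a (huniv a)
  · intro v hv
    have hh : hits F G Y ψ v = hits F G Y φ v := by
      unfold hits
      congr 1
      refine Finset.filter_congr fun y hy => forall_congr' fun x => ?_
      constructor
      · intro h hx
        rw [← hψ1 x (mem_EE.mpr ⟨y, hy, Or.inr hx⟩)]; exact h hx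
      · intro h hx
        rw [hψ1 x (mem_EE.mpr ⟨y, hy, Or.inr hx⟩)]; exact h hx
    rw [hh]
    refine le_trans ?_ hpot
    exact Finset.single_le_sum (f := fun v => (1 / 2 : ℝ) ^ (hits F G Y φ v))
      (fun v _ => by positivity) hv

end

end Run7.h755
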