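import Mathlib

open Finset
open scoped Classical

namespace Run7.h755

variable {V : Type*}

/-- number of (ordered) edges between `X` and `Y` -/
noncomputable def ed (G : SimpleGraph V) (X Y : Finset V) : ℝ :=
  ∑ x ∈ X, ((Y.filter (fun y => G.Adj x y)).card : ℝ)

lemma ed_nonneg (G : SimpleGraph V) (X Y : Finset V) : 0 ≤ ed G X Y :=
  Finset.sum_nonneg fun _ _ => by positivity

lemma ed_comm (G : SimpleGraph V) (X Y : Finset V) : ed G X Y = ed G Y X := by
  unfold ed
  simp only [Finset.card_filter, Nat.cast_sum]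
  rw [Finset.sum_comm]
  refine Finset.sum_congr rfl fun y _ => Finset.sum_congr rfl fun x _ => ?_
  simp [G.adj_comm]

lemma ed_le (G : SimpleGraph V) (X Y : Finset V) : ed G X Y ≤ X.card * Y.card := by
  unfold ed
  calc ∑ x ∈ X, ((Y.filter (fun y => G.Adj x y)).card : ℝ) ≤ ∑ x ∈ X, (Y.card : ℝ) :=
        Finset.sum_le_sum fun x _ => by exact_mod_cast Finset.card_filter_le _ _
    _ = _ := by rw [Finset.sum_const, nsmul_eq_mul]

lemma ed_mono (G : SimpleGraph V) {X X' Y Y' : Finset V} (hX : X ⊆ X') (hY : Y ⊆ Y') :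
    ed G X Y ≤ ed G X' Y' := by
  unfold ed
  calc ∑ x ∈ X, ((Y.filter (fun y => G.Adj x y)).card : ℝ)
      ≤ ∑ x ∈ X, ((Y'.filter (fun y => G.Adj x y)).card : ℝ) :=
        Finset.sum_le_sum fun x _ => by
          exact_mod_cast Finset.card_le_card (Finset.filter_subset_filter _ hY)
    _ ≤ _ := Finset.sum_le_sum_of_subset_of_nonneg hX fun _ _ _ => by positivity

lemma ed_union_left (G : SimpleGraph V) {X X' : Finset V} (h : Disjoint X X') (Y : Finset V) :
    ed G (X ∪ X') Y = ed G X Y + ed G X' Y := by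
  unfold ed
  rw [Finset.sum_union h]

lemma ed_union_right (G : SimpleGraph V) (X : Finset V) {Y Y' : Finset V} (h : Disjoint Y Y') :
    ed G X (Y ∪ Y') = ed G X Y + ed G X Y' := by
  rw [ed_comm, ed_union_left G h, ed_comm G Y, ed_comm G Y']

/-- bi-density -/
def BiD (G : SimpleGraph V) (ε δ : ℝ) (W : Finset V) : Prop :=
  ∀ X ⊆ W, ∀ Y ⊆ W, ε * W.card ≤ X.card → ε * W.card ≤ Y.card →
    δ * X.card * Y.card ≤ ed G X Y

theorem sparse_or_bid (G : SimpleGraph V) (ε δ : ℝ) (hε : 0 < ε) (hε1 : ε ≤ 1) (hδ : 0 < δ)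
    (h : ℕ) : ∀ (s : ℕ) (P : Finset V), 1 ≤ s → (8 / ε) ^ h * s ≤ P.card →
    (∃ W ⊆ P, (ε / 4) ^ h * P.card ≤ W.card ∧ BiD G ε δ W) ∨
    (∃ P' ⊆ P, P'.card = 2 ^ h * s ∧
      ed G P' P' ≤ ((1 / 2) ^ h + 4 * δ) * (P'.card : ℝ) ^ 2) := by
  induction h with
  | zero =>
    intro s P hs hP
    right
    have hsP : s ≤ P.card := by
      have : (s : ℝ) ≤ P.card := by simpa using hP
      exact_mod_cast this
    obtain ⟨P', h1, h2⟩ := Finset.exists_subset_card_eq hsP
    refine ⟨P', h1, by simpa using h2, ?_⟩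
    calc ed G P' P' ≤ P'.card * P'.card := ed_le _ _ _
      _ = 1 * (P'.card : ℝ) ^ 2 := by ring
      _ ≤ ((1 / 2) ^ 0 + 4 * δ) * (P'.card : ℝ) ^ 2 := by gcongr; simp; positivity
  | succ h ih =>
    intro s P hs hP
    by_cases hPB : BiD G ε δ P
    · left
      refine ⟨P, Finset.Subset.refl _, ?_, hPB⟩
      have : (ε / 4) ^ (h + 1) ≤ 1 := pow_le_one₀ (by positivity) (by linarith)
      nlinarith [Nat.cast_nonneg (α := ℝ) P.card]
    simp only [BiD, not_forall, not_le] at hPB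
    obtain ⟨X, hXP, Y, hYP, hX, hY, hXY⟩ := hPB
    have hs0 : (1 : ℝ) ≤ s := by exact_mod_cast hs
    have h8 : (8 : ℝ) ≤ 8 / ε := by rw [le_div_iff₀ hε]; linarith
    have hpow : (1 : ℝ) ≤ (8 / ε) ^ h := one_le_pow₀ (by linarith)
    have hpow2 : (2 : ℝ) ^ h ≤ (8 / ε) ^ h := by
      apply pow_le_pow_left₀ (by norm_num); linarith
    have hPpos : (0 : ℝ) < P.card := by
      have : 0 < (8 / ε) ^ (h + 1) * s := by positivity
      linarith
    have hYpos : (0 : ℝ) < Y.card := lt_of_lt_of_le (by positivity) hY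
    have hXpos : (0 : ℝ) < X.card := lt_of_lt_of_le (by positivity) hX
    have hPs : 8 * ((8 / ε) ^ h * s) ≤ ε * P.card := by
      have : ε * ((8 / ε) ^ (h + 1) * s) = 8 * ((8 / ε) ^ h * s) := by
        rw [pow_succ]; field_simp
      rw [← this]
      exact mul_le_mul_of_nonneg_left hP hε.le
    -- X'
    set X' := X.filter (fun x => ((Y.filter (fun y => G.Adj x y)).card : ℝ) ≤ 2 * δ * Y.card) with hX'
    have hX'card : (X.card : ℝ) / 2 ≤ X'.card := by
      have h1 : ((X.filter (fun x => ¬ ((Y.filter (fun y => G.Adj x y)).card : ℝ)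
          ≤ 2 * δ * Y.card)).card : ℝ) * (2 * δ * Y.card) ≤ ed G X Y := by
        calc _ = ∑ x ∈ X.filter (fun x => ¬ ((Y.filter (fun y => G.Adj x y)).card : ℝ)
              ≤ 2 * δ * Y.card), (2 * δ * Y.card) := by rw [Finset.sum_const, nsmul_eq_mul]
          _ ≤ ∑ x ∈ X.filter (fun x => ¬ ((Y.filter (fun y => G.Adj x y)).card : ℝ)
              ≤ 2 * δ * Y.card), ((Y.filter (fun y => G.Adj x y)).card : ℝ) := by
              refine Finset.sum_le_sum fun x hx => ?_
              exact (not_le.mp (Finset.mem_filter.mp hx).2).le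
          _ ≤ _ := Finset.sum_le_sum_of_subset_of_nonneg (Finset.filter_subset _ _)
              fun _ _ _ => by positivity
      have h2 : (X'.card : ℝ) + ((X.filter (fun x => ¬ ((Y.filter (fun y => G.Adj x y)).card : ℝ)
          ≤ 2 * δ * Y.card)).card : ℝ) = X.card := by
        rw [hX']
        exact_mod_cast Finset.card_filter_add_card_filter_not _
      have h3 : ((X.filter (fun x => ¬ ((Y.filter (fun y => G.Adj x y)).card : ℝ)
          ≤ 2 * δ * Y.card)).card : ℝ) * (2 * δ * Y.card) < (X.card : ℝ) / 2 * (2 * δ * Y.card) := by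
        calc _ ≤ _ := h1
          _ < _ := hXY
          _ = _ := by ring
      have h4 := lt_of_mul_lt_mul_right h3 (by positivity)
      linarith
    have hX'X : X' ⊆ X := Finset.filter_subset _ _
    have hX's : (8 / ε) ^ h * s ≤ X'.card := by nlinarith
    rcases ih s X' hs hX's with ⟨W, hW1, hW2, hW3⟩ | ⟨Xs, hXs1, hXs2, hXs3⟩
    · left
      refine ⟨W, hW1.trans (hX'X.trans hXP), ?_, hW3⟩
      calc (ε / 4) ^ (h + 1) * P.card = (ε / 4) ^ h * (ε / 4 * P.card) := by ring
        _ ≤ (ε / 4) ^ h * X'.card := by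
            apply mul_le_mul_of_nonneg_left _ (by positivity)
            nlinarith
        _ ≤ _ := hW2
    have hXsc : (Xs.card : ℝ) = 2 ^ h * s := by rw [hXs2]; push_cast; ring
    have hXspos : (0 : ℝ) < Xs.card := by rw [hXsc]; positivity
    have hXsY : ed G Xs Y ≤ 2 * δ * Y.card * Xs.card := by
      unfold ed
      calc ∑ x ∈ Xs, ((Y.filter (fun y => G.Adj x y)).card : ℝ) ≤ ∑ x ∈ Xs, (2 * δ * Y.card) := by
            refine Finset.sum_le_sum fun x hx => ?_
            exact (Finset.mem_filter.mp (hXs1 hx)).2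
        _ = _ := by rw [Finset.sum_const, nsmul_eq_mul]; ring
    -- Y'
    set Y' := (Y.filter (fun y => ((Xs.filter (fun x => G.Adj y x)).card : ℝ)
      ≤ 4 * δ * Xs.card)) \ Xs with hY'
    have hY'Y : Y' ⊆ Y := Finset.sdiff_subset.trans (Finset.filter_subset _ _)
    have hY'card : (Y.card : ℝ) / 4 ≤ Y'.card := by
      have h1 : ((Y.filter (fun y => ¬ ((Xs.filter (fun x => G.Adj y x)).card : ℝ)
          ≤ 4 * δ * Xs.card)).card : ℝ) * (4 * δ * Xs.card) ≤ ed G Y Xs := by
        calc _ = ∑ y ∈ Y.filter (fun y => ¬ ((Xs.filter (fun x => G.Adj y x)).card : ℝ)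
              ≤ 4 * δ * Xs.card), (4 * δ * Xs.card) := by rw [Finset.sum_const, nsmul_eq_mul]
          _ ≤ ∑ y ∈ Y.filter (fun y => ¬ ((Xs.filter (fun x => G.Adj y x)).card : ℝ)
              ≤ 4 * δ * Xs.card), ((Xs.filter (fun x => G.Adj y x)).card : ℝ) := by
              refine Finset.sum_le_sum fun x hx => ?_
              exact (not_le.mp (Finset.mem_filter.mp hx).2).le
          _ ≤ _ := Finset.sum_le_sum_of_subset_of_nonneg (Finset.filter_subset _ _)
              fun _ _ _ => by positivity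
      have h2 : ((Y.filter (fun y => ((Xs.filter (fun x => G.Adj y x)).card : ℝ)
          ≤ 4 * δ * Xs.card)).card : ℝ) + ((Y.filter (fun y => ¬ ((Xs.filter (fun x => G.Adj y x)).card : ℝ)
          ≤ 4 * δ * Xs.card)).card : ℝ) = Y.card := by
        exact_mod_cast Finset.card_filter_add_card_filter_not _
      have h3 : ((Y.filter (fun y => ¬ ((Xs.filter (fun x => G.Adj y x)).card : ℝ)
          ≤ 4 * δ * Xs.card)).card : ℝ) * (4 * δ * Xs.card) ≤ (Y.card : ℝ) / 2 * (4 * δ * Xs.card) := by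
        calc _ ≤ _ := h1
          _ = ed G Xs Y := ed_comm _ _ _
          _ ≤ _ := hXsY
          _ = _ := by ring
      have h4 := le_of_mul_le_mul_right h3 (by positivity)
      have h5 : ((Y.filter (fun y => ((Xs.filter (fun x => G.Adj y x)).card : ℝ)
          ≤ 4 * δ * Xs.card)).card : ℝ) ≤ Y'.card + Xs.card := by
        have := Finset.le_card_sdiff Xs (Y.filter (fun y => ((Xs.filter (fun x => G.Adj y x)).card : ℝ)
          ≤ 4 * δ * Xs.card))
        rw [← hY'] at this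
        exact_mod_cast (by omega)
      have h6 : 4 * (Xs.card : ℝ) ≤ Y.card := by
        rw [hXsc]
        calc 4 * (2 ^ h * (s : ℝ)) ≤ 8 * ((8 / ε) ^ h * s) := by nlinarith
          _ ≤ ε * P.card := hPs
          _ ≤ Y.card := hY
      linarith
    have hY's : (8 / ε) ^ h * s ≤ Y'.card := by nlinarith
    rcases ih s Y' hs hY's with ⟨W, hW1, hW2, hW3⟩ | ⟨Ys, hYs1, hYs2, hYs3⟩
    · left
      refine ⟨W, hW1.trans (hY'Y.trans hYP), ?_, hW3⟩
      calc (ε / 4) ^ (h + 1) * P.card = (ε / 4) ^ h * (ε / 4 * P.card) := by ring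
        _ ≤ (ε / 4) ^ h * Y'.card := by
            apply mul_le_mul_of_nonneg_left _ (by positivity)
            nlinarith
        _ ≤ _ := hW2
    right
    have hdis : Disjoint Xs Ys := by
      rw [Finset.disjoint_left]
      intro a ha hb
      exact (Finset.mem_sdiff.mp (hYs1 hb)).2 ha
    refine ⟨Xs ∪ Ys, Finset.union_subset (hXs1.trans (hX'X.trans hXP)) (hYs1.trans (hY'Y.trans hYP)),
      ?_, ?_⟩
    · rw [Finset.card_union_of_disjoint hdis, hXs2, hYs2]; ring
    · have hYsc : (Ys.card : ℝ) = 2 ^ h * s := by rw [hYs2]; push_cast; ring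
      have hcr : ed G Ys Xs ≤ 4 * δ * Xs.card * Ys.card := by
        unfold ed
        calc ∑ y ∈ Ys, ((Xs.filter (fun x => G.Adj y x)).card : ℝ) ≤ ∑ y ∈ Ys, (4 * δ * Xs.card) := by
              refine Finset.sum_le_sum fun y hy => ?_
              exact (Finset.mem_filter.mp (Finset.mem_sdiff.mp (hYs1 hy)).1).2
          _ = _ := by rw [Finset.sum_const, nsmul_eq_mul]; ring
      rw [ed_union_left G hdis, ed_union_right G _ hdis, ed_union_right G _ hdis,
        ed_comm G Xs Ys, Finset.card_union_of_disjoint hdis]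
      push_cast
      rw [hXsc] at hXs3 hcr ⊢
      rw [hYsc] at hYs3 hcr ⊢
      have : (1 / 2 : ℝ) ^ (h + 1) = (1 / 2) ^ h / 2 := by rw [pow_succ]; ring
      rw [this]
      nlinarith

/-- exponents -/
def gp (M e t : ℕ) : ℕ := (t + 2) * (M * (t + 4) + e + 3)

def tt (M e : ℕ) : ℕ → ℕ
  | 0 => 2
  | j + 1 => tt M e j + 2 * gp M e (tt M e j) + 1

def gg (M e : ℕ) : ℕ → ℕ
  | 0 => 0
  | j + 1 => gg M e j + gp M e (tt M e j)

lemma tt_le_succ (M e j : ℕ) : tt M e j ≤ tt M e (j + 1) := by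
  simp only [tt]; omega

theorem bd_aux {K : ℕ} (G : Fin K → SimpleGraph V) (hcov : ∀ x y, x ≠ y → ∃ c, (G c).Adj x y)
    (M e : ℕ) (j : ℕ) : ∀ (S : Finset (Fin K)), S.card = j → ∀ P : Finset V,
    (2 : ℝ) ^ (gg M e j + 1) ≤ P.card →
    ∑ c ∈ Sᶜ, ed (G c) P P ≤ (1 / 2) ^ (tt M e j) * (P.card : ℝ) ^ 2 →
    ∃ W ⊆ P, ∃ c, ∃ d, d ≤ tt M e j + 4 ∧ (P.card : ℝ) ≤ 2 ^ (gg M e j) * W.card ∧
      BiD (G c) ((1 / 2) ^ (M * d + e)) ((1 / 2) ^ d) W := by
  induction j with
  | zero =>
    intro S hS P hP hsum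
    exfalso
    rw [Finset.card_eq_zero] at hS
    subst hS
    have h1 : (P.card : ℝ) * (P.card - 1) ≤ ∑ c, ed (G c) P P := by
      unfold ed
      rw [Finset.sum_comm]
      have : ∀ x ∈ P, (P.card : ℝ) - 1 ≤ ∑ c, ((P.filter (fun y => (G c).Adj x y)).card : ℝ) := by
        intro x hx
        have hsub : P.erase x ⊆ (Finset.univ : Finset (Fin K)).biUnion
            (fun c => P.filter (fun y => (G c).Adj x y)) := by
          intro y hy
          rw [Finset.mem_erase] at hy
          obtain ⟨c, hc⟩ := hcov x y (Ne.symm hy.1)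
          simp only [Finset.mem_biUnion, Finset.mem_univ, true_and, Finset.mem_filter]
          exact ⟨c, hy.2, hc⟩
        have h2 := (Finset.card_le_card hsub).trans Finset.card_biUnion_le
        rw [Finset.card_erase_of_mem hx] at h2
        have h3 : (P.card : ℝ) ≤ (∑ c : Fin K, (P.filter (fun y => (G c).Adj x y)).card : ℕ) + 1 := by
          exact_mod_cast (by omega)
        push_cast at h3
        linarith
      calc (P.card : ℝ) * (P.card - 1) = ∑ x ∈ P, ((P.card : ℝ) - 1) := by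
            rw [Finset.sum_const, nsmul_eq_mul]
        _ ≤ _ := Finset.sum_le_sum this
    simp only [Finset.compl_empty, tt, gg] at hsum hP
    norm_num at hsum hP
    have hP2 : (2 : ℝ) ≤ P.card := by exact_mod_cast hP
    nlinarith
  | succ j ih =>
    intro S hS P hP hsum
    obtain ⟨c0, hc0⟩ : S.Nonempty := by rw [← Finset.card_pos]; omega
    set t := tt M e j with ht
    set g := gp M e t with hg
    have hgg : gg M e (j + 1) = gg M e j + g := rfl
    have htt : tt M e (j + 1) = t + 2 * g + 1 := rfl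
    set ε : ℝ := (1 / 2) ^ (M * (t + 4) + e) with hε
    set δ : ℝ := (1 / 2) ^ (t + 4) with hδ
    have hεpos : 0 < ε := by positivity
    have hε1 : ε ≤ 1 := pow_le_one₀ (by norm_num) (by norm_num)
    have h8 : (8 / ε) ^ (t + 2) = 2 ^ g := by
      have : (8 : ℝ) / ε = 2 ^ (M * (t + 4) + e + 3) := by
        rw [hε, one_div, inv_pow, div_inv_eq_mul, pow_add 2 _ 3]; norm_num; ring
      rw [this, ← pow_mul, hg, gp]; ring_nf
    have h4 : (1 / 2 : ℝ) ^ g ≤ (ε / 4) ^ (t + 2) := by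
      have : ε / 4 = (1 / 2) ^ (M * (t + 4) + e + 2) := by
        rw [hε, pow_add (1 / 2 : ℝ) _ 2]; norm_num; ring
      rw [this, ← pow_mul, hg, gp]
      apply pow_le_pow_of_le_one (by norm_num) (by norm_num)
      nlinarith
    have hPg : (2 : ℝ) ^ g * 2 ≤ P.card := by
      refine le_trans ?_ hP
      rw [hgg, ← pow_succ]
      exact pow_le_pow_right₀ (by norm_num) (by omega)
    have h2g : (0 : ℝ) < 2 ^ g := by positivity
    set s := ⌊(P.card : ℝ) / 2 ^ g⌋₊ with hs
    have hs1 : (s : ℝ) ≤ P.card / 2 ^ g := Nat.floor_le (by positivity)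
    have hs2 : (P.card : ℝ) / 2 ^ g < s + 1 := Nat.lt_floor_add_one _
    have hs3 : 1 ≤ s := by
      rw [hs, Nat.one_le_floor_iff, le_div_iff₀ h2g]; linarith
    have hs4 : (1 : ℝ) ≤ s := by exact_mod_cast hs3
    have hsP : (8 / ε) ^ (t + 2) * s ≤ P.card := by
      rw [h8]; rw [le_div_iff₀ h2g] at hs1; linarith
    rcases sparse_or_bid (G c0) ε δ hεpos hε1 (by positivity) (t + 2) s P hs3 hsP with
      ⟨W, hW1, hW2, hW3⟩ | ⟨P', hP1, hP2, hP3⟩
    · refine ⟨W, hW1, c0, t + 4, by have := tt_le_succ M e j; omega, ?_, hW3⟩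
      have : (1 / 2 : ℝ) ^ g * P.card ≤ W.card :=
        le_trans (mul_le_mul_of_nonneg_right h4 (by positivity)) hW2
      rw [one_div, inv_pow, inv_mul_le_iff₀ h2g] at this
      refine this.trans ?_
      gcongr
      · norm_num
      · omega
    · have hP'P : (P.card : ℝ) ≤ 2 ^ g * P'.card := by
        have e1 : (P'.card : ℝ) = 2 ^ (t + 2) * s := by rw [hP2]; push_cast; ring
        have e2 : (4 : ℝ) ≤ 2 ^ (t + 2) := by
          calc (4 : ℝ) = 2 ^ 2 := by norm_num
            _ ≤ _ := pow_le_pow_right₀ (by norm_num) (by omega)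
        rw [div_lt_iff₀ h2g] at hs2
        rw [e1]
        nlinarith [mul_pos h2g (by linarith : (0 : ℝ) < s),
          mul_le_mul_of_nonneg_right e2 (mul_nonneg h2g.le (by linarith : (0 : ℝ) ≤ s))]
      have hcompl : (S.erase c0)ᶜ = insert c0 Sᶜ := by
        ext c
        simp only [Finset.mem_compl, Finset.mem_erase, Finset.mem_insert]
        tauto
      have hthr : (2 : ℝ) ^ (gg M e j + 1) ≤ P'.card := by
        have : (2 : ℝ) ^ (gg M e (j + 1) + 1) = 2 ^ g * 2 ^ (gg M e j + 1) := by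
          rw [hgg, ← pow_add]; ring_nf
        rw [this] at hP
        exact le_of_mul_le_mul_left (hP.trans hP'P) h2g
      have hsum' : ∑ c ∈ (S.erase c0)ᶜ, ed (G c) P' P' ≤ (1 / 2) ^ (tt M e j) * (P'.card : ℝ) ^ 2 := by
        rw [hcompl, Finset.sum_insert (by simpa using hc0)]
        have a1 : ∑ c ∈ Sᶜ, ed (G c) P' P' ≤ (1 / 2) ^ (t + 1) * (P'.card : ℝ) ^ 2 := by
          calc ∑ c ∈ Sᶜ, ed (G c) P' P' ≤ ∑ c ∈ Sᶜ, ed (G c) P P :=
                Finset.sum_le_sum fun c _ => ed_mono _ hP1 hP1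
            _ ≤ (1 / 2) ^ (tt M e (j + 1)) * (P.card : ℝ) ^ 2 := hsum
            _ ≤ (1 / 2) ^ (tt M e (j + 1)) * (2 ^ g * (P'.card : ℝ)) ^ 2 := by gcongr
            _ = (1 / 2) ^ (t + 1) * (P'.card : ℝ) ^ 2 := by
                rw [htt]
                have : (1 / 2 : ℝ) ^ (t + 2 * g + 1) = (1 / 2) ^ (t + 1) * ((1 / 2) ^ g) ^ 2 := by
                  rw [← pow_mul, ← pow_add]; ring_nf
                rw [this]
                have h1 : (1 / 2 : ℝ) ^ g * 2 ^ g = 1 := by
                  rw [← mul_pow]; norm_num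
                calc (1 / 2) ^ (t + 1) * ((1 / 2 : ℝ) ^ g) ^ 2 * (2 ^ g * (P'.card : ℝ)) ^ 2
                    = (1 / 2) ^ (t + 1) * ((1 / 2 : ℝ) ^ g * 2 ^ g) ^ 2 * (P'.card : ℝ) ^ 2 := by ring
                  _ = _ := by rw [h1]; ring
        have a2 : ed (G c0) P' P' ≤ (1 / 2) ^ (t + 1) * (P'.card : ℝ) ^ 2 := by
          refine hP3.trans (le_of_eq ?_)
          rw [hδ]
          congr 1
          rw [pow_add (1 / 2 : ℝ) t 2, pow_add (1 / 2 : ℝ) t 4, pow_add (1 / 2 : ℝ) t 1]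
          ring
        have a3 : (1 / 2 : ℝ) ^ (t + 1) = (1 / 2) ^ t / 2 := by rw [pow_succ]; ring
        rw [a3] at a1 a2
        rw [← ht]
        linarith
      obtain ⟨W, hW1, c, d, hd, hW2, hW3⟩ := ih (S.erase c0)
        (by rw [Finset.card_erase_of_mem hc0]; omega) P' hthr hsum'
      refine ⟨W, hW1.trans hP1, c, d, by have := tt_le_succ M e j; omega, ?_, hW3⟩
      calc (P.card : ℝ) ≤ 2 ^ g * P'.card := hP'P
        _ ≤ 2 ^ g * (2 ^ (gg M e j) * W.card) := by gcongr
        _ = _ := by rw [hgg, pow_add]; ring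

/-- every large set contains a large bi-dense set in one of the colours -/
theorem exists_bid {K : ℕ} (G : Fin K → SimpleGraph V)
    (hcov : ∀ x y, x ≠ y → ∃ c, (G c).Adj x y)
    (M e : ℕ) (P : Finset V) (hP : (2 : ℝ) ^ (gg M e K + 1) ≤ P.card) :
    ∃ W ⊆ P, ∃ c, ∃ d, d ≤ tt M e K + 4 ∧ (P.card : ℝ) ≤ 2 ^ (gg M e K) * W.card ∧
      BiD (G c) ((1 / 2) ^ (M * d + e)) ((1 / 2) ^ d) W :=
  bd_aux G hcov M e K Finset.univ (by simp) P hP (by
    simp only [Finset.compl_univ, Finset.sum_empty]; positivity)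

end Run7.h755
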