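import Mathlib
import Pool.Agent.Run7.h755.Base
import Pool.Agent.Run7.h755.Bid
import Pool.Agent.Run7.h755.Abs

open Finset
open scoped Classical

namespace Run7.h755

section
variable {V : Type*}

lemma bid_bad {G : SimpleGraph V} {ε δ : ℝ} {W : Finset V} (hB : BiD G ε δ W) (hε : 0 ≤ ε)
    {C Z : Finset V} (hC : C ⊆ W) (hCc : ε * W.card ≤ C.card) (hZ : Z ⊆ W) (s : ℝ)
    (hs : s ≤ δ * C.card) :
    ((Z.filter (fun u => ¬ s ≤ ((C.filter (fun w => G.Adj u w)).card : ℝ))).card : ℝ)
      ≤ ε * W.card := by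
  by_contra hcon
  set Z' := Z.filter (fun u => ¬ s ≤ ((C.filter (fun w => G.Adj u w)).card : ℝ)) with hZ'
  replace hcon := not_le.mp hcon
  have hεW : 0 ≤ ε * W.card := by positivity
  have hZW : Z' ⊆ W := (Finset.filter_subset _ _).trans hZ
  have hb := hB Z' hZW C hC hcon.le hCc
  have hZpos : (0 : ℝ) < Z'.card := lt_of_le_of_lt hεW hcon
  have hZne : Z'.Nonempty := by
    rw [← Finset.card_pos]; exact_mod_cast hZpos
  have hlt : ed G Z' C < ∑ u ∈ Z', δ * C.card := by
    unfold ed
    refine Finset.sum_lt_sum_of_nonempty hZne ?_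
    intro u hu
    have h1 := (Finset.mem_filter.mp hu).2
    exact lt_of_lt_of_le (not_le.mp h1) hs
  rw [Finset.sum_const, nsmul_eq_mul] at hlt
  linarith [hlt, hb, (by ring : δ * Z'.card * C.card = Z'.card * (δ * (C.card : ℝ)))]

lemma hits_lb {p : ℝ} (hp : 0 < p) (hp1 : p ≤ 1) (Yc h : ℕ) (Vc : ℝ) (hV0 : 0 ≤ Vc)
    (hV : Vc ≤ (p * Yc / 8) ^ 2 / 2) (hh : (1 / 2 : ℝ) ^ h ≤ Vc * (1 - p / 4) ^ Yc) :
    p * Yc / 8 ≤ h := by
  set x : ℝ := p * Yc / 8 with hx
  have hx0 : 0 ≤ x := by positivity
  have h1 : (1 - p / 4) ^ Yc ≤ Real.exp (-(2 * x)) := by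
    have : 1 - p / 4 ≤ Real.exp (-(p / 4)) := by
      have := Real.add_one_le_exp (-(p / 4)); linarith
    calc (1 - p / 4) ^ Yc ≤ (Real.exp (-(p / 4))) ^ Yc :=
          pow_le_pow_left₀ (by linarith) this _
      _ = Real.exp (-(2 * x)) := by
          rw [← Real.exp_nat_mul, hx]; congr 1; ring
  have h2 : Vc ≤ Real.exp x := by
    have := Real.quadratic_le_exp_of_nonneg hx0
    linarith
  have h3 : (1 / 2 : ℝ) ^ h ≤ Real.exp (-x) := by
    calc (1 / 2 : ℝ) ^ h ≤ Vc * (1 - p / 4) ^ Yc := hh
      _ ≤ Real.exp x * Real.exp (-(2 * x)) := by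
          apply mul_le_mul h2 h1 (pow_nonneg (by linarith) _) (Real.exp_nonneg _)
      _ = Real.exp (-x) := by rw [← Real.exp_add]; congr 1; ring
  have h4 : Real.exp (-(h : ℝ)) ≤ (1 / 2 : ℝ) ^ h := by
    have : Real.exp (-1) ≤ 1 / 2 := by
      have h5 := Real.add_one_le_exp (1 : ℝ)
      have h6 : Real.exp (-1) * Real.exp 1 = 1 := by rw [← Real.exp_add]; simp
      have h7 := Real.exp_pos (-1)
      nlinarith
    calc Real.exp (-(h : ℝ)) = (Real.exp (-1)) ^ h := by
          rw [← Real.exp_nat_mul]; congr 1; ring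
      _ ≤ _ := pow_le_pow_left₀ (Real.exp_nonneg _) this _
  have h5 := h4.trans h3
  rw [Real.exp_le_exp] at h5
  linarith

lemma sum_cons {n : ℕ} (D : Fin (n + 1) → Finset V) (f : (Fin (n + 1) → V) → ℝ) :
    ∑ t ∈ Fintype.piFinset D, f t
      = ∑ u ∈ D 0, ∑ b ∈ Fintype.piFinset (fun i : Fin n => D i.succ), f (Fin.cons u b) := by
  rw [← Finset.sum_product']
  refine Finset.sum_nbij' (fun t => (t 0, fun i => t i.succ)) (fun x => Fin.cons x.1 x.2)
    ?_ ?_ ?_ ?_ ?_
  · intro t ht
    rw [Fintype.mem_piFinset] at ht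
    simp only [Finset.mem_product, Fintype.mem_piFinset]
    exact ⟨ht 0, fun i => ht i.succ⟩
  · rintro ⟨u, b⟩ h
    simp only [Finset.mem_product, Fintype.mem_piFinset] at h
    rw [Fintype.mem_piFinset]
    intro i
    refine Fin.cases ?_ (fun j => ?_) i
    · simpa using h.1
    · simpa using h.2 j
  · intro t _
    funext i
    refine Fin.cases ?_ (fun j => ?_) i <;> simp
  · rintro ⟨u, b⟩ _
    simp
  · intro t _
    congr 1
    funext i
    refine Fin.cases ?_ (fun j => ?_) i <;> simp

lemma sum_snoc {n : ℕ} (D : Fin (n + 1) → Finset V) (f : (Fin (n + 1) → V) → ℝ) :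
    ∑ t ∈ Fintype.piFinset D, f t
      = ∑ b ∈ Fintype.piFinset (fun i : Fin n => D i.castSucc), ∑ u ∈ D (Fin.last n),
          f (Fin.snoc (α := fun _ => V) b u) := by
  rw [← Finset.sum_product']
  refine Finset.sum_nbij' (fun t => (fun i => t i.castSucc, t (Fin.last n)))
    (fun x => Fin.snoc (α := fun _ => V) x.1 x.2)
    ?_ ?_ ?_ ?_ ?_
  · intro t ht
    rw [Fintype.mem_piFinset] at ht
    simp only [Finset.mem_product, Fintype.mem_piFinset]
    exact ⟨fun i => ht i.castSucc, ht _⟩
  · rintro ⟨b, u⟩ h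
    simp only [Finset.mem_product, Fintype.mem_piFinset] at h
    rw [Fintype.mem_piFinset]
    intro i
    refine Fin.lastCases ?_ (fun j => ?_) i
    · simpa using h.2
    · simpa using h.1 j
  · intro t _
    funext i
    refine Fin.lastCases ?_ (fun j => ?_) i <;> simp
  · rintro ⟨b, u⟩ _
    simp
  · intro t _
    congr 1
    funext i
    refine Fin.lastCases ?_ (fun j => ?_) i <;> simp

lemma card_cons {n : ℕ} (D : Fin (n + 1) → Finset V) (P : (Fin (n + 1) → V) → Prop)
    [DecidablePred P] :
    (((Fintype.piFinset D).filter P).card : ℝ)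
      = ∑ u ∈ D 0, (((Fintype.piFinset (fun i : Fin n => D i.succ)).filter
          (fun b => P (Fin.cons u b))).card : ℝ) := by
  have := sum_cons D (fun t => if P t then (1 : ℝ) else 0)
  rw [Finset.sum_boole] at this
  rw [this]
  refine Finset.sum_congr rfl fun u _ => ?_
  rw [Finset.sum_boole]

lemma card_snoc {n : ℕ} (D : Fin (n + 1) → Finset V) (P : (Fin (n + 1) → V) → Prop)
    [DecidablePred P] :
    (((Fintype.piFinset D).filter P).card : ℝ)
      = ∑ b ∈ Fintype.piFinset (fun i : Fin n => D i.castSucc),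
          (((D (Fin.last n)).filter (fun u => P (Fin.snoc (α := fun _ => V) b u))).card : ℝ) := by
  have := sum_snoc D (fun t => if P t then (1 : ℝ) else 0)
  rw [Finset.sum_boole] at this
  rw [this]
  refine Finset.sum_congr rfl fun u _ => ?_
  rw [Finset.sum_boole]

lemma clq_cons {n : ℕ} (G : SimpleGraph V) (u : V) (t : Fin n → V) :
    Clq G (Fin.cons u t : Fin (n + 1) → V) ↔ (∀ j, G.Adj u (t j)) ∧ Clq G t := by
  constructor
  · intro h
    refine ⟨fun j => ?_, fun i j hij => ?_⟩
    · have := h 0 j.succ (Fin.succ_ne_zero j).symm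
      simpa using this
    · have := h i.succ j.succ (fun h => hij (Fin.succ_injective _ h))
      simpa using this
  · rintro ⟨h1, h2⟩ i j hij
    revert hij
    refine Fin.cases ?_ (fun i' => ?_) i <;> refine Fin.cases ?_ (fun j' => ?_) j
    · intro h; exact absurd rfl h
    · intro _; simpa using h1 j'
    · intro _; simpa using (h1 i').symm
    · intro h; simpa using h2 i' j' (fun h' => h (by rw [h']))

lemma clq_snoc {n : ℕ} (G : SimpleGraph V) (u : V) (t : Fin n → V) :
    Clq G (Fin.snoc (α := fun _ => V) t u : Fin (n + 1) → V) ↔ (∀ j, G.Adj u (t j)) ∧ Clq G t := by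
  constructor
  · intro h
    refine ⟨fun j => ?_, fun i j hij => ?_⟩
    · have := h (Fin.last n) j.castSucc (Fin.castSucc_lt_last j).ne'
      simpa using this
    · have := h i.castSucc j.castSucc (fun h => hij (Fin.castSucc_injective _ h))
      simpa using this
  · rintro ⟨h1, h2⟩ i j hij
    revert hij
    refine Fin.lastCases ?_ (fun i' => ?_) i <;> refine Fin.lastCases ?_ (fun j' => ?_) j
    · intro h; exact absurd rfl h
    · intro _; simpa using h1 j'
    · intro _; simpa using (h1 i').symm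
    · intro h; simpa using h2 i' j' (fun h' => h (by rw [h']))

theorem clq_count {G : SimpleGraph V} {ε δ : ℝ} {W : Finset V} (hB : BiD G ε δ W) (hε : 0 ≤ ε)
    (hδ0 : 0 < δ) (hδ1 : δ ≤ 1) (n : ℕ) : ∀ (C : Fin n → Finset V) (σ : ℝ), 0 ≤ σ →
    (∀ j, C j ⊆ W) → (∀ j, σ * W.card ≤ (C j).card) → 2 * n * ε ≤ δ ^ n * σ →
    (σ / 2 * δ ^ n * W.card) ^ n ≤ (((Fintype.piFinset C).filter (fun t => Clq G t)).card : ℝ) := by
  induction n with
  | zero =>
    intro C σ _ _ _ _
    have : (Fintype.piFinset C).filter (fun t => Clq G t) = univ := by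
      ext t
      simp only [Finset.mem_filter, Fintype.mem_piFinset, Finset.mem_univ, iff_true]
      exact ⟨fun i => i.elim0, fun i => i.elim0⟩
    rw [this]
    simp
  | succ n ih =>
    intro C σ hσ0 hCW hC hcond
    have hw : (0 : ℝ) ≤ W.card := by positivity
    have hδn : δ ^ n ≤ 1 := pow_le_one₀ hδ0.le hδ1
    have hδn0 : 0 < δ ^ n := by positivity
    push_cast at hcond
    have hn0 : (0 : ℝ) ≤ n := by positivity
    rw [pow_succ] at hcond
    have hσ1 : δ ^ n * δ * σ ≤ σ := by
      have : δ ^ n * δ ≤ 1 := mul_le_one₀ hδn hδ0.le hδ1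
      nlinarith
    -- good first coordinates
    let good : V → Prop := fun u => ∀ j : Fin n,
      δ * (σ * W.card) ≤ (((C j.succ).filter (fun w => G.Adj u w)).card : ℝ)
    have hbad : (((C 0).filter (fun u => ¬ good u)).card : ℝ) ≤ n * (ε * W.card) := by
      have := card_filter_exists_le (C 0) (univ : Finset (Fin n)) (fun u => ¬ good u)
        (fun j u => ¬ δ * (σ * W.card) ≤ (((C j.succ).filter (fun w => G.Adj u w)).card : ℝ))
        (ε * W.card) (by
          intro u _ hu
          simp only [good, not_forall] at hu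
          obtain ⟨j, hj⟩ := hu
          exact ⟨j, Finset.mem_univ _, hj⟩)
        (by
          intro j _
          refine bid_bad hB hε (hCW j.succ) ?_ (hCW 0) _ ?_
          · refine le_trans ?_ (hC j.succ)
            apply mul_le_mul_of_nonneg_right _ hw
            nlinarith
          · exact mul_le_mul_of_nonneg_left (hC j.succ) hδ0.le)
      simpa using this
    have hgood : σ / 2 * W.card ≤ (((C 0).filter good).card : ℝ) := by
      have h1 : (((C 0).filter good).card : ℝ) + (((C 0).filter (fun u => ¬ good u)).card : ℝ)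
          = (C 0).card := by
        exact_mod_cast Finset.card_filter_add_card_filter_not _
      have h2 := hC 0
      have h3 : n * (ε * W.card) ≤ σ / 2 * W.card := by
        have : n * ε ≤ σ / 2 := by nlinarith
        calc n * (ε * W.card) = n * ε * W.card := by ring
          _ ≤ _ := mul_le_mul_of_nonneg_right this hw
      linarith
    rw [card_cons]
    have hstep : ∀ u ∈ (C 0).filter good, (σ / 2 * δ ^ (n + 1) * W.card) ^ n
        ≤ (((Fintype.piFinset (fun i : Fin n => C i.succ)).filter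
          (fun b => Clq G (Fin.cons u b : Fin (n + 1) → V))).card : ℝ) := by
      intro u hu
      have hg := (Finset.mem_filter.mp hu).2
      have := ih (fun j => (C j.succ).filter (fun w => G.Adj u w)) (δ * σ) (by positivity)
        (fun j => (Finset.filter_subset _ _).trans (hCW _))
        (fun j => by have := hg j; calc δ * σ * W.card = δ * (σ * W.card) := by ring
          _ ≤ _ := this)
        (by nlinarith)
      calc (σ / 2 * δ ^ (n + 1) * W.card) ^ n = (δ * σ / 2 * δ ^ n * W.card) ^ n := by ring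
        _ ≤ _ := this
        _ ≤ _ := by
          exact_mod_cast Finset.card_le_card (by
            intro t ht
            simp only [Finset.mem_filter, Fintype.mem_piFinset] at ht ⊢
            exact ⟨fun i => (ht.1 i).1, (clq_cons G u t).mpr ⟨fun j => (ht.1 j).2, ht.2⟩⟩)
    calc (σ / 2 * δ ^ (n + 1) * W.card) ^ (n + 1)
        = (σ / 2 * δ ^ (n + 1) * W.card) * (σ / 2 * δ ^ (n + 1) * W.card) ^ n := by ring
      _ ≤ (((C 0).filter good).card : ℝ) * (σ / 2 * δ ^ (n + 1) * W.card) ^ n := by
          apply mul_le_mul_of_nonneg_right _ (by positivity)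
          refine le_trans ?_ hgood
          have : δ ^ (n + 1) ≤ 1 := pow_le_one₀ hδ0.le hδ1
          have h0 : 0 ≤ σ / 2 * (W.card : ℝ) := by positivity
          nlinarith
      _ = ∑ u ∈ (C 0).filter good, (σ / 2 * δ ^ (n + 1) * W.card) ^ n := by
          rw [Finset.sum_const, nsmul_eq_mul]
      _ ≤ ∑ u ∈ (C 0).filter good, (((Fintype.piFinset (fun i : Fin n => C i.succ)).filter
          (fun b => Clq G (Fin.cons u b : Fin (n + 1) → V))).card : ℝ) := Finset.sum_le_sum hstep
      _ ≤ _ := Finset.sum_le_sum_of_subset_of_nonneg (Finset.filter_subset _ _)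
          fun _ _ _ => by positivity

end

end Run7.h755
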