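import Mathlib
import Pool.Agent.Run7.h755.Base
import Pool.Agent.Run7.h755.Bid
import Pool.Agent.Run7.h755.Abs

open Finset
open scoped Classical

namespace Run7.h755

section embed
variable {X V : Type*} [Fintype X]

theorem bid_embed (F : SimpleGraph X) (G : SimpleGraph V) (W : Finset V) (ε δ : ℝ)
    (hB : BiD G ε δ W) (hε : 0 ≤ ε) (hδ0 : 0 < δ) (hδ1 : δ ≤ 1) (T : X → Finset V)
    (hT : ∀ x, T x ⊆ W) (σ : ℝ) (hσ : ∀ x, σ ≤ (T x).card) (Δ : ℕ)
    (hΔ : ∀ x, (Finset.univ.filter (fun z => F.Adj x z)).card ≤ Δ)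
    (hσ0 : 0 ≤ σ)
    (h2 : (Fintype.card X : ℝ) + (Δ + 1) * (ε * W.card) < δ ^ Δ * σ) :
    ∃ φ : X → V, Function.Injective φ ∧ (∀ a b, F.Adj a b → G.Adj (φ a) (φ b)) ∧
      ∀ x, φ x ∈ T x := by
  by_cases hX : IsEmpty X
  · exact ⟨fun x => (hX.false x).elim, fun x => (hX.false x).elim, fun x => (hX.false x).elim,
      fun x => (hX.false x).elim⟩
  rw [not_isEmpty_iff] at hX
  obtain ⟨x0⟩ := hX
  have hεW : 0 ≤ ε * W.card := by positivity
  have hTne : (T x0).Nonempty := by
    rw [← Finset.card_pos]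
    have h1 : δ ^ Δ * σ ≤ σ := by
      have : δ ^ Δ ≤ 1 := pow_le_one₀ hδ0.le hδ1
      nlinarith
    have h3 := hσ x0
    have : (0 : ℝ) < (T x0).card := by
      have : (0 : ℝ) ≤ (Fintype.card X : ℝ) := by positivity
      nlinarith
    exact_mod_cast this
  obtain ⟨v0, _⟩ := hTne
  have hpw : ∀ (L : List X), L.Pairwise (fun z x => F.Adj x z → ∀ (A : Finset X) (C : Finset V), z ∉ A →
      (∀ a ∈ A, F.Adj x a) → C ⊆ T x → δ ^ A.card * σ ≤ (C.card : ℝ) →
      (((T z).filter (fun u => ¬ (δ ^ (insert z A).card * σ ≤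
        ((C.filter (fun w => G.Adj u w)).card : ℝ)))).card : ℝ) ≤ ε * W.card) := by
    intro L
    refine List.pairwise_of_forall ?_
    intro z x hxz A C hzA hA hC hInv
    have hAc : A.card + 1 ≤ Δ := by
      have h1 : (insert z A).card ≤ Δ := by
        refine (Finset.card_le_card ?_).trans (hΔ x)
        intro a ha
        rcases Finset.mem_insert.mp ha with rfl | ha
        · simp [hxz]
        · simp [hA a ha]
      rwa [Finset.card_insert_of_notMem hzA] at h1
    by_contra hcon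
    set Z := (T z).filter (fun u => ¬ (δ ^ (insert z A).card * σ ≤
        ((C.filter (fun w => G.Adj u w)).card : ℝ))) with hZ
    replace hcon := not_le.mp hcon
    have hZW : Z ⊆ W := (Finset.filter_subset _ _).trans (hT z)
    have hCW : C ⊆ W := hC.trans (hT x)
    have hCε : ε * W.card ≤ C.card := by
      refine le_trans ?_ hInv
      have h3 : δ ^ Δ * σ ≤ δ ^ A.card * σ := by
        apply mul_le_mul_of_nonneg_right _ hσ0
        exact pow_le_pow_of_le_one hδ0.le hδ1 (by omega)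
      have h4 : (0 : ℝ) ≤ (Fintype.card X : ℝ) := by positivity
      have h5 : (0 : ℝ) ≤ (Δ : ℝ) := by positivity
      nlinarith
    have hb := hB Z hZW C hCW hcon.le hCε
    have hZpos : (0 : ℝ) < Z.card := lt_of_le_of_lt hεW hcon
    have hZne : Z.Nonempty := by
      rw [← Finset.card_pos]; exact_mod_cast hZpos
    have hlt : ed G Z C < ∑ u ∈ Z, δ * C.card := by
      unfold ed
      refine Finset.sum_lt_sum_of_nonempty hZne ?_
      intro u hu
      have h1 := (Finset.mem_filter.mp hu).2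
      push Not at h1
      rw [Finset.card_insert_of_notMem hzA] at h1
      calc ((C.filter (fun w => G.Adj u w)).card : ℝ) < δ ^ (A.card + 1) * σ := h1
        _ = δ * (δ ^ A.card * σ) := by ring
        _ ≤ δ * C.card := by gcongr
    rw [Finset.sum_const, nsmul_eq_mul] at hlt
    linarith [hlt, hb, (by ring : δ * Z.card * C.card = Z.card * (δ * (C.card : ℝ)))]
  obtain ⟨ψ, _, hψ⟩ := seq_embed F G T ∅ (fun _ A C => δ ^ A.card * σ ≤ (C.card : ℝ))
    (fun _ => ε * W.card) (fun _ => hεW) Δ hΔ (univ : Finset X).toList ∅ (fun _ => v0)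
    (Finset.nodup_toList _) (by simp) (hpw _)
    (by
      intro x _ A C hA _ hInv
      refine lt_of_lt_of_le ?_ hInv
      have h3 : δ ^ Δ * σ ≤ δ ^ A.card * σ := by
        apply mul_le_mul_of_nonneg_right _ hσ0
        refine pow_le_pow_of_le_one hδ0.le hδ1 ?_
        refine (Finset.card_le_card ?_).trans (hΔ x)
        intro a ha
        simp [hA a ha]
      simp only [Finset.inter_empty, Finset.card_empty, Nat.cast_zero, add_zero]
      nlinarith)
    ⟨by simp, by simp, by simp, by simp⟩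
    (by
      intro x _
      have h1 : nin F (∅ : Finset X) x = ∅ := by simp [nin]
      have h2 : cand F G T (∅ : Finset X) (fun _ => v0) x = T x := by simp [cand]
      rw [h1, h2]
      simpa using hσ x)
  have huniv : ∀ x, x ∈ (∅ : Finset X) ∪ (univ : Finset X).toList.toFinset := by
    intro x; simp
  exact ⟨ψ, fun a b h => hψ.inj (by exact_mod_cast huniv a) (by exact_mod_cast huniv b) h,
    fun a b h => hψ.adj a (huniv a) b (huniv b) h, fun a => hψ.tgt a (huniv a)⟩

end embed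

section cov
variable {V : Type*} {K : ℕ}

/-- `S` carries a monochromatic copy of the member of the family with `|S|` vertices -/
def IsCopy (Fam : ∀ r : ℕ, SimpleGraph (Fin r)) (G : Fin K → SimpleGraph V) (S : Finset V) : Prop :=
  ∃ c, ∃ φ : Fin S.card → V, Function.Injective φ ∧ (∀ a, φ a ∈ S) ∧
    ∀ a b, (Fam S.card).Adj a b → (G c).Adj (φ a) (φ b)

def Cov (Fam : ∀ r : ℕ, SimpleGraph (Fin r)) (G : Fin K → SimpleGraph V) (n : ℕ)
    (S : Finset V) : Prop :=
  ∃ PP : Finset (Finset V), PP.card ≤ n ∧ (∀ T ∈ PP, T.Nonempty ∧ IsCopy Fam G T) ∧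
    (∀ T ∈ PP, ∀ T' ∈ PP, T ≠ T' → Disjoint T T') ∧ PP.biUnion id = S

variable {Fam : ∀ r : ℕ, SimpleGraph (Fin r)} {G : Fin K → SimpleGraph V}

lemma Cov.mono {n m : ℕ} {S : Finset V} (h : Cov Fam G n S) (hnm : n ≤ m) : Cov Fam G m S := by
  obtain ⟨PP, h1, h2⟩ := h
  exact ⟨PP, h1.trans hnm, h2⟩

lemma cov_empty (n : ℕ) : Cov Fam G n ∅ := ⟨∅, by simp, by simp, by simp, by simp⟩

lemma Cov.union {n m : ℕ} {S T : Finset V} (hS : Cov Fam G n S) (hT : Cov Fam G m T)
    (hd : Disjoint S T) : Cov Fam G (n + m) (S ∪ T) := by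
  obtain ⟨PP, h1, h2, h3, h4⟩ := hS
  obtain ⟨QQ, k1, k2, k3, k4⟩ := hT
  have hsub : ∀ A ∈ PP, A ⊆ S := fun A hA => by
    rw [← h4]; exact Finset.subset_biUnion_of_mem id hA
  have hsub' : ∀ A ∈ QQ, A ⊆ T := fun A hA => by
    rw [← k4]; exact Finset.subset_biUnion_of_mem id hA
  refine ⟨PP ∪ QQ, (Finset.card_union_le _ _).trans (Nat.add_le_add h1 k1), ?_, ?_, ?_⟩
  · intro A hA
    rcases Finset.mem_union.mp hA with h | h
    · exact h2 A h
    · exact k2 A h
  · intro A hA B hB hAB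
    rcases Finset.mem_union.mp hA with h | h <;> rcases Finset.mem_union.mp hB with h' | h'
    · exact h3 A h B h' hAB
    · exact Finset.disjoint_of_subset_left (hsub A h) (Finset.disjoint_of_subset_right (hsub' B h') hd)
    · exact (Finset.disjoint_of_subset_left (hsub B h')
        (Finset.disjoint_of_subset_right (hsub' A h) hd)).symm
    · exact k3 A h B h' hAB
  · rw [Finset.union_biUnion, h4, k4]

lemma isCopy_of (S : Finset V) (r : ℕ) (h : S.card = r) (c : Fin K) (φ : Fin r → V)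
    (hφ : Function.Injective φ) (hS : ∀ a, φ a ∈ S)
    (hadj : ∀ a b, (Fam r).Adj a b → (G c).Adj (φ a) (φ b)) : IsCopy Fam G S := by
  subst h
  exact ⟨c, φ, hφ, hS, hadj⟩

lemma cov_one {S : Finset V} (h : IsCopy Fam G S) : Cov Fam G 1 S := by
  by_cases hS : S.Nonempty
  · exact ⟨{S}, by simp, by simpa using ⟨hS, h⟩, by simp, by simp⟩
  · rw [Finset.not_nonempty_iff_eq_empty] at hS
    subst hS
    exact cov_empty 1

lemma cov_of_map {r : ℕ} (c : Fin K) (φ : Fin r → V) (hφ : Function.Injective φ)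
    (hadj : ∀ a b, (Fam r).Adj a b → (G c).Adj (φ a) (φ b)) : Cov Fam G 1 (univ.image φ) :=
  cov_one (isCopy_of _ r (by rw [Finset.card_image_of_injective _ hφ]; simp) c φ hφ
    (fun a => Finset.mem_image_of_mem _ (Finset.mem_univ _)) hadj)

lemma cov_card (hK : 0 < K) (S : Finset V) : Cov Fam G S.card S := by
  induction S using Finset.induction_on with
  | empty => exact cov_empty _
  | insert a S ha ih =>
    have h1 : Cov Fam G 1 {a} := by
      refine cov_one (isCopy_of {a} 1 (by simp) ⟨0, hK⟩ (fun _ => a)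
        (fun x y _ => Subsingleton.elim _ _) (by simp) ?_)
      intro x y hxy
      exact absurd (Subsingleton.elim x y) hxy.ne
    have := ih.union h1 (by simpa using ha)
    rw [Finset.card_insert_of_notMem ha]
    convert this using 1
    rw [Finset.union_comm, Finset.insert_eq]

/-- the absorption step -/
theorem absorb {m : ℕ} {c c' : Fin K} (Δ : ℕ)
    (hFam : ∀ r, ∀ x : Fin r, (Finset.univ.filter (fun z => (Fam r).Adj x z)).card ≤ Δ)
    (ψ : Fin m → V) (hinj : Function.Injective ψ)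
    (hadj : ∀ a b, (Fam m).Adj a b → (G c).Adj (ψ a) (ψ b)) (Y : Finset (Fin m))
    (hY : ∀ y ∈ Y, ∀ y' ∈ Y, ¬ (Fam m).Adj y y') (W : Finset V) (hYW : ∀ y ∈ Y, ψ y ∈ W)
    (ε δ : ℝ) (hB : BiD (G c') ε δ W) (hε : 0 ≤ ε) (hδ0 : 0 < δ) (hδ1 : δ ≤ 1)
    (Q : Finset V) (hQ : Disjoint Q (univ.image ψ)) (σ : ℝ) (hσ0 : 0 ≤ σ)
    (hσ : ∀ v ∈ Q, σ ≤ hits (Fam m) (G c) Y ψ v)
    (h2 : (Q.card : ℝ) + (Δ + 1) * (ε * W.card) < δ ^ Δ * σ) :
    Cov Fam G 2 (univ.image ψ ∪ Q) := by
  set l := Q.card with hl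
  let e : Fin l ≃ Q := Q.equivFin.symm
  let T : Fin l → Finset V := fun i =>
    (Y.filter (fun y => ∀ x, (Fam m).Adj y x → (G c).Adj (e i) (ψ x))).image ψ
  have hTcard : ∀ i, (T i).card = hits (Fam m) (G c) Y ψ (e i) := by
    intro i
    simp only [T, hits]
    rw [Finset.card_image_of_injective _ hinj]
    congr
  have hTW : ∀ i, T i ⊆ W := by
    intro i u hu
    obtain ⟨y, hy, rfl⟩ := Finset.mem_image.mp hu
    exact hYW y (Finset.mem_filter.mp hy).1
  obtain ⟨ρ, hρ1, hρ2, hρ3⟩ := bid_embed (Fam l) (G c') W ε δ hB hε hδ0 hδ1 T hTW σ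
    (by intro i; rw [hTcard]; exact hσ _ (e i).2) Δ (hFam l) hσ0 (by simpa using h2)
  -- choose the switched vertices
  have hy : ∀ i, ∃ y ∈ Y, (∀ x, (Fam m).Adj y x → (G c).Adj (e i) (ψ x)) ∧ ψ y = ρ i := by
    intro i
    obtain ⟨y, hy, h⟩ := Finset.mem_image.mp (hρ3 i)
    rw [Finset.mem_filter] at hy
    exact ⟨y, hy.1, hy.2, h⟩
  choose s hs1 hs2 hs3 using hy
  have hsinj : Function.Injective s := by
    intro i j hij
    apply hρ1
    rw [← hs3 i, ← hs3 j, hij]
  let ψ' : Fin m → V := fun x => if h : ∃ i, s i = x then (e h.choose : V) else ψ x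
  have hψ1 : ∀ i, ψ' (s i) = e i := by
    intro i
    have hex : ∃ j, s j = s i := ⟨i, rfl⟩
    have : hex.choose = i := hsinj hex.choose_spec
    simp only [ψ', hex, dite_true]
    rw [this]
  have hψ2 : ∀ x, (∀ i, s i ≠ x) → ψ' x = ψ x := by
    intro x hx
    have : ¬ ∃ i, s i = x := by push Not; exact hx
    simp only [ψ', this, dite_false]
  have hQψ : ∀ (i : Fin l) (x : Fin m), (e i : V) ≠ ψ x := by
    intro i x h
    exact (Finset.disjoint_left.mp hQ) (e i).2 (h ▸ Finset.mem_image_of_mem _ (Finset.mem_univ _))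
  have hψ'inj : Function.Injective ψ' := by
    intro a b hab
    by_cases ha : ∃ i, s i = a
    · obtain ⟨i, rfl⟩ := ha
      by_cases hb : ∃ j, s j = b
      · obtain ⟨j, rfl⟩ := hb
        rw [hψ1, hψ1] at hab
        rw [e.injective (Subtype.ext hab)]
      · push Not at hb
        rw [hψ1, hψ2 b hb] at hab
        exact absurd hab (hQψ i b)
    · push Not at ha
      by_cases hb : ∃ j, s j = b
      · obtain ⟨j, rfl⟩ := hb
        rw [hψ1, hψ2 a ha] at hab
        exact absurd hab.symm (hQψ j a)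
      · push Not at hb
        rw [hψ2 a ha, hψ2 b hb] at hab
        exact hinj hab
  have hψ'adj : ∀ a b, (Fam m).Adj a b → (G c).Adj (ψ' a) (ψ' b) := by
    intro a b hab
    by_cases ha : ∃ i, s i = a
    · obtain ⟨i, rfl⟩ := ha
      have hb : ∀ j, s j ≠ b := by
        rintro j rfl
        exact hY _ (hs1 i) _ (hs1 j) hab
      rw [hψ1, hψ2 b hb]
      exact hs2 i b hab
    · push Not at ha
      by_cases hb : ∃ j, s j = b
      · obtain ⟨j, rfl⟩ := hb
        rw [hψ1, hψ2 a ha]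
        exact (hs2 j a hab.symm).symm
      · push Not at hb
        rw [hψ2 a ha, hψ2 b hb]
        exact hadj a b hab
  have c1 : Cov Fam G 1 (univ.image ψ') := cov_of_map c ψ' hψ'inj hψ'adj
  have c2 : Cov Fam G 1 (univ.image ρ) := cov_of_map c' ρ hρ1 hρ2
  have hdis : Disjoint (univ.image ψ') (univ.image ρ) := by
    rw [Finset.disjoint_left]
    rintro u hu hu'
    obtain ⟨x, _, rfl⟩ := Finset.mem_image.mp hu
    obtain ⟨i, _, hi⟩ := Finset.mem_image.mp hu'
    rw [← hs3 i] at hi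
    by_cases hx : ∃ j, s j = x
    · obtain ⟨j, rfl⟩ := hx
      rw [hψ1] at hi
      exact hQψ j _ hi.symm
    · push Not at hx
      rw [hψ2 x hx] at hi
      exact hx i (hinj hi)
  have := c1.union c2 hdis
  convert this using 1
  ext u
  simp only [Finset.mem_union, Finset.mem_image, Finset.mem_univ, true_and]
  constructor
  · rintro (⟨x, rfl⟩ | hu)
    · by_cases hx : ∃ i, s i = x
      · obtain ⟨i, rfl⟩ := hx
        exact Or.inr ⟨i, (hs3 i).symm⟩
      · push Not at hx
        exact Or.inl ⟨x, hψ2 x hx⟩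
    · left
      refine ⟨s (e.symm ⟨u, hu⟩), ?_⟩
      rw [hψ1]; simp
  · rintro (⟨x, rfl⟩ | ⟨i, rfl⟩)
    · by_cases hx : ∃ i, s i = x
      · obtain ⟨i, rfl⟩ := hx
        rw [hψ1]
        exact Or.inr (e i).2
      · push Not at hx
        rw [hψ2 x hx]
        exact Or.inl ⟨x, rfl⟩
    · exact Or.inl ⟨s i, hs3 i⟩

end cov

end Run7.h755
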