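import Mathlib
import Pool.Agent.Run7.h755.Cov

open Finset
open scoped Classical

namespace Run7.h755

section
variable {V : Type*} {K : ℕ} {Fam : ∀ r : ℕ, SimpleGraph (Fin r)} {G : Fin K → SimpleGraph V}

/-- exponent for one greedy step -/
def gR (Δ K : ℕ) : ℕ := gg Δ (Δ + 2) K + (tt Δ (Δ + 2) K + 4) * Δ + 3

theorem red_step (hcov : ∀ x y, x ≠ y → ∃ c, (G c).Adj x y) (Δ : ℕ)
    (hFam : ∀ r, ∀ x : Fin r, (Finset.univ.filter (fun z => (Fam r).Adj x z)).card ≤ Δ)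
    (P : Finset V) (hP : (2 : ℝ) ^ (gR Δ K) ≤ P.card) :
    ∃ S ⊆ P, (P.card : ℝ) ≤ 2 ^ (gR Δ K) * S.card ∧ Cov Fam G 1 S := by
  obtain ⟨W, hW, c, d, hd, hPW, hB⟩ := exists_bid G hcov Δ (Δ+2) P
    (le_trans (pow_le_pow_right₀ (by norm_num) (by unfold gR; omega)) hP)
  have hdΔ : d * Δ ≤ (tt Δ (Δ + 2) K + 4) * Δ := Nat.mul_le_mul_right _ hd
  have hsplit : (2 : ℝ) ^ (gR Δ K) = 2 ^ (gg Δ (Δ + 2) K) * 2 ^ ((tt Δ (Δ + 2) K + 4) * Δ + 3) := by
    rw [← pow_add]; congr 1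
  have hg0 : (0 : ℝ) < 2 ^ (gg Δ (Δ + 2) K) := by positivity
  have hWlb : (2 : ℝ) ^ (d * Δ + 3) ≤ W.card := by
    have h1 : (2 : ℝ) ^ (d * Δ + 3) ≤ 2 ^ ((tt Δ (Δ + 2) K + 4) * Δ + 3) :=
      pow_le_pow_right₀ (by norm_num) (by omega)
    refine h1.trans ?_
    have := hP.trans hPW
    rw [hsplit] at this
    exact le_of_mul_le_mul_left this hg0
  set x : ℝ := 2 ^ (d * Δ) with hx
  have hx0 : 0 < x := by positivity
  have hx3 : (2 : ℝ) ^ (d * Δ + 3) = 8 * x := by rw [pow_add, hx]; norm_num; ring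
  rw [hx3] at hWlb
  set r := ⌊(W.card : ℝ) / (2 * x)⌋₊ with hr
  have hr1 : (r : ℝ) ≤ W.card / (2 * x) := Nat.floor_le (by positivity)
  have hr2 : (W.card : ℝ) / (2 * x) < r + 1 := Nat.lt_floor_add_one _
  have hW0 : (0 : ℝ) < W.card := by linarith
  have hδ : ((1 / 2 : ℝ) ^ d) ^ Δ = 1 / x := by
    rw [← pow_mul, hx, one_div, inv_pow, one_div]
  have hΔ2 : ((Δ : ℝ) + 1) * (1 / 2) ^ (Δ + 2) < 1 / 2 := by
    have h1 : ((Δ + 1 : ℕ) : ℝ) < 2 ^ (Δ + 1) := by exact_mod_cast Nat.lt_two_pow_self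
    push_cast at h1
    have h2 : (1 / 2 : ℝ) ^ (Δ + 2) = 1 / (2 ^ (Δ + 1) * 2) := by
      rw [← pow_succ, one_div, inv_pow, one_div]
    rw [h2, mul_one_div, div_lt_iff₀ (by positivity)]
    linarith
  obtain ⟨φ, hφ1, hφ2, hφ3⟩ := bid_embed (Fam r) (G c) W ((1 / 2) ^ (Δ * d + (Δ + 2)))
    ((1 / 2) ^ d) hB (by positivity) (by positivity) (pow_le_one₀ (by norm_num) (by norm_num))
    (fun _ => W) (fun _ => Finset.Subset.refl _) (W.card : ℝ) (fun _ => le_rfl) Δ (hFam r)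
    hW0.le (by
      rw [hδ, Fintype.card_fin]
      have e1 : (1 / 2 : ℝ) ^ (Δ * d + (Δ + 2)) = (1 / x) * (1 / 2) ^ (Δ + 2) := by
        rw [pow_add, ← hδ, ← pow_mul, mul_comm d Δ]
      rw [e1]
      have e2 : ((Δ : ℝ) + 1) * (1 / x * (1 / 2) ^ (Δ + 2) * W.card)
          < 1 / 2 * (1 / x * W.card) := by
        have := mul_lt_mul_of_pos_right hΔ2 (by positivity : 0 < 1 / x * (W.card : ℝ))
        calc _ = ((Δ : ℝ) + 1) * (1 / 2) ^ (Δ + 2) * (1 / x * W.card) := by ring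
          _ < _ := this
      have e3 : (W.card : ℝ) / (2 * x) = 1 / 2 * (1 / x * W.card) := by
        field_simp
      rw [e3] at hr1
      linarith)
  refine ⟨univ.image φ, ?_, ?_, cov_of_map c φ hφ1 hφ2⟩
  · intro v hv
    obtain ⟨a, _, rfl⟩ := Finset.mem_image.mp hv
    exact hW (hφ3 a)
  · rw [Finset.card_image_of_injective _ hφ1, Finset.card_univ, Fintype.card_fin]
    have h4 : (W.card : ℝ) ≤ 4 * x * r := by
      rw [div_lt_iff₀ (by positivity)] at hr2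
      nlinarith
    have h5 : x ≤ 2 ^ ((tt Δ (Δ + 2) K + 4) * Δ) := pow_le_pow_right₀ (by norm_num) hdΔ
    calc (P.card : ℝ) ≤ 2 ^ (gg Δ (Δ + 2) K) * W.card := hPW
      _ ≤ 2 ^ (gg Δ (Δ + 2) K) * (4 * x * r) := by gcongr
      _ ≤ 2 ^ (gg Δ (Δ + 2) K) * (8 * 2 ^ ((tt Δ (Δ + 2) K + 4) * Δ) * r) := by
          gcongr
          norm_num
      _ = _ := by rw [hsplit, pow_add]; norm_num; ring

theorem half (hK : 0 < K) (hcov : ∀ x y, x ≠ y → ∃ c, (G c).Adj x y) (Δ : ℕ)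
    (hFam : ∀ r, ∀ x : Fin r, (Finset.univ.filter (fun z => (Fam r).Adj x z)).card ≤ Δ)
    (P : Finset V) :
    ∃ P' ⊆ P, 2 * P'.card ≤ P.card ∧ Cov Fam G (2 ^ (gR Δ K + 2)) (P \ P') := by
  by_cases hP : P.card < 2 ^ (gR Δ K + 1)
  · refine ⟨∅, by simp, by simp, ?_⟩
    rw [Finset.sdiff_empty]
    refine (cov_card hK P).mono (hP.le.trans ?_)
    exact Nat.pow_le_pow_right (by norm_num) (by omega)
  push Not at hP
  have main : ∀ n : ℕ, ∃ P' ⊆ P, Cov Fam G n (P \ P') ∧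
      (2 * P'.card ≤ P.card ∨ n * P.card ≤ 2 ^ (gR Δ K + 1) * (P \ P').card) := by
    intro n
    induction n with
    | zero => exact ⟨P, Finset.Subset.refl _, by rw [Finset.sdiff_self]; exact cov_empty 0,
        Or.inr (by simp)⟩
    | succ n ih =>
      obtain ⟨P', h1, h2, h3⟩ := ih
      by_cases h4 : 2 * P'.card ≤ P.card
      · exact ⟨P', h1, h2.mono (by omega), Or.inl h4⟩
      have h3' := h3.resolve_left h4
      push Not at h4
      have h5 : (2 : ℝ) ^ (gR Δ K) ≤ P'.card := by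
        have : 2 ^ (gR Δ K) ≤ P'.card := by
          rw [pow_succ] at hP; omega
        exact_mod_cast this
      obtain ⟨S, hS1, hS2, hS3⟩ := red_step hcov Δ hFam P' h5
      have hS2' : P'.card ≤ 2 ^ (gR Δ K) * S.card := by exact_mod_cast hS2
      have e1 : P \ (P' \ S) = (P \ P') ∪ S := by
        ext v
        simp only [Finset.mem_sdiff, Finset.mem_union]
        constructor
        · rintro ⟨a, b⟩
          by_cases hv : v ∈ P'
          · right; by_contra hh; exact b ⟨hv, hh⟩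
          · exact Or.inl ⟨a, hv⟩
        · rintro (⟨a, b⟩ | a)
          · exact ⟨a, fun h => b h.1⟩
          · exact ⟨h1 (hS1 a), fun h => h.2 a⟩
      have hdis : Disjoint (P \ P') S := by
        rw [Finset.disjoint_left]
        intro v hv hv'
        exact (Finset.mem_sdiff.mp hv).2 (hS1 hv')
      refine ⟨P' \ S, Finset.sdiff_subset.trans h1, ?_, Or.inr ?_⟩
      · rw [e1]; exact h2.union hS3 hdis
      · rw [e1, Finset.card_union_of_disjoint hdis]
        have : P.card ≤ 2 ^ (gR Δ K + 1) * S.card := by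
          rw [pow_succ]; nlinarith
        calc (n + 1) * P.card = n * P.card + P.card := by ring
          _ ≤ 2 ^ (gR Δ K + 1) * (P \ P').card + 2 ^ (gR Δ K + 1) * S.card :=
              Nat.add_le_add h3' this
          _ = _ := by ring
  obtain ⟨P', h1, h2, h3⟩ := main (2 ^ (gR Δ K + 1) + 1)
  refine ⟨P', h1, ?_, h2.mono (by rw [pow_succ 2 (gR Δ K + 1)]; have := Nat.one_le_two_pow (n := gR Δ K + 1); omega)⟩
  rcases h3 with h3 | h3
  · exact h3
  · exfalso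
    have h4 : (P \ P').card ≤ P.card := Finset.card_le_card Finset.sdiff_subset
    have h5 : 0 < P.card := lt_of_lt_of_le (by positivity) hP
    have h6 : 2 ^ (gR Δ K + 1) * (P \ P').card ≤ 2 ^ (gR Δ K + 1) * P.card :=
      Nat.mul_le_mul_left _ h4
    nlinarith

theorem red (hK : 0 < K) (hcov : ∀ x y, x ≠ y → ∃ c, (G c).Adj x y) (Δ : ℕ)
    (hFam : ∀ r, ∀ x : Fin r, (Finset.univ.filter (fun z => (Fam r).Adj x z)).card ≤ Δ)
    (t : ℕ) (P : Finset V) :
    ∃ P' ⊆ P, 2 ^ t * P'.card ≤ P.card ∧ Cov Fam G (t * 2 ^ (gR Δ K + 2)) (P \ P') := by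
  induction t with
  | zero => exact ⟨P, Finset.Subset.refl _, by simp, by rw [Finset.sdiff_self]; exact cov_empty _⟩
  | succ t ih =>
    obtain ⟨P', h1, h2, h3⟩ := ih
    obtain ⟨P'', k1, k2, k3⟩ := half hK hcov Δ hFam P'
    refine ⟨P'', k1.trans h1, ?_, ?_⟩
    · calc 2 ^ (t + 1) * P''.card = 2 ^ t * (2 * P''.card) := by ring
        _ ≤ 2 ^ t * P'.card := Nat.mul_le_mul_left _ k2
        _ ≤ _ := h2
    · have e1 : P \ P'' = (P \ P') ∪ (P' \ P'') := by
        ext v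
        simp only [Finset.mem_sdiff, Finset.mem_union]
        constructor
        · rintro ⟨a, b⟩
          by_cases hv : v ∈ P'
          · exact Or.inr ⟨hv, b⟩
          · exact Or.inl ⟨a, hv⟩
        · rintro (⟨a, b⟩ | ⟨a, b⟩)
          · exact ⟨a, fun h => b (k1 h)⟩
          · exact ⟨h1 a, b⟩
      rw [e1]
      have := h3.union k3 (by
        rw [Finset.disjoint_left]
        intro v hv hv'
        exact (Finset.mem_sdiff.mp hv).2 (Finset.mem_sdiff.mp hv').1)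
      exact this.mono (le_of_eq (by ring))

end

end Run7.h755
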