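import Mathlib
import Pool.Agent.Run7.h755.Own

namespace Run7.h755

/-- polynomially bounded -/
def PB (f : ℕ → ℕ) : Prop := ∃ C, ∀ x, 2 ≤ x → f x ≤ x ^ C

/-- bounded by two to a polynomially bounded function -/
def PE (f : ℕ → ℕ) : Prop := ∃ g, PB g ∧ ∀ x, 2 ≤ x → f x ≤ 2 ^ g x

lemma PB.mono {f g : ℕ → ℕ} (hg : PB g) (h : ∀ x, 2 ≤ x → f x ≤ g x) : PB f := by
  obtain ⟨C, hC⟩ := hg
  exact ⟨C, fun x hx => (h x hx).trans (hC x hx)⟩

lemma PB.const (c : ℕ) : PB (fun _ => c) := by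
  refine ⟨c, fun x hx => ?_⟩
  calc c ≤ 2 ^ c := Nat.lt_two_pow_self.le
    _ ≤ x ^ c := Nat.pow_le_pow_left hx c

lemma PB.id : PB (fun x => x) := ⟨1, fun x _ => by simp⟩

lemma PB.add {f g : ℕ → ℕ} (hf : PB f) (hg : PB g) : PB (fun x => f x + g x) := by
  obtain ⟨a, ha⟩ := hf
  obtain ⟨b, hb⟩ := hg
  refine ⟨a + b + 1, fun x hx => ?_⟩
  have h1 : x ^ a ≤ x ^ (a + b) := Nat.pow_le_pow_right (by omega) (by omega)
  have h2 : x ^ b ≤ x ^ (a + b) := Nat.pow_le_pow_right (by omega) (by omega)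
  calc f x + g x ≤ x ^ (a + b) + x ^ (a + b) :=
        Nat.add_le_add ((ha x hx).trans h1) ((hb x hx).trans h2)
    _ = x ^ (a + b) * 2 := by ring
    _ ≤ x ^ (a + b) * x := Nat.mul_le_mul_left _ hx
    _ = _ := by rw [pow_succ]

lemma PB.mul {f g : ℕ → ℕ} (hf : PB f) (hg : PB g) : PB (fun x => f x * g x) := by
  obtain ⟨a, ha⟩ := hf
  obtain ⟨b, hb⟩ := hg
  refine ⟨a + b, fun x hx => ?_⟩
  rw [pow_add]
  exact Nat.mul_le_mul (ha x hx) (hb x hx)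

lemma PE.of_PB {f : ℕ → ℕ} (hf : PB f) : PE f :=
  ⟨f, hf, fun _ _ => Nat.lt_two_pow_self.le⟩

lemma PE.mono {f g : ℕ → ℕ} (hg : PE g) (h : ∀ x, 2 ≤ x → f x ≤ g x) : PE f := by
  obtain ⟨u, hu, hu'⟩ := hg
  exact ⟨u, hu, fun x hx => (h x hx).trans (hu' x hx)⟩

lemma PE.two_pow {f : ℕ → ℕ} (hf : PB f) : PE (fun x => 2 ^ f x) := ⟨f, hf, fun _ _ => le_rfl⟩

lemma PE.mul {f g : ℕ → ℕ} (hf : PE f) (hg : PE g) : PE (fun x => f x * g x) := by
  obtain ⟨u, hu, hu'⟩ := hf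
  obtain ⟨v, hv, hv'⟩ := hg
  refine ⟨fun x => u x + v x, hu.add hv, fun x hx => ?_⟩
  rw [pow_add]
  exact Nat.mul_le_mul (hu' x hx) (hv' x hx)

lemma PE.add {f g : ℕ → ℕ} (hf : PE f) (hg : PE g) : PE (fun x => f x + g x) := by
  obtain ⟨u, hu, hu'⟩ := hf
  obtain ⟨v, hv, hv'⟩ := hg
  refine ⟨fun x => u x + v x + 1, (hu.add hv).add (PB.const 1), fun x hx => ?_⟩
  have h1 : 2 ^ u x ≤ 2 ^ (u x + v x) := Nat.pow_le_pow_right (by omega) (by omega)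
  have h2 : 2 ^ v x ≤ 2 ^ (u x + v x) := Nat.pow_le_pow_right (by omega) (by omega)
  calc f x + g x ≤ 2 ^ (u x + v x) + 2 ^ (u x + v x) :=
        Nat.add_le_add ((hu' x hx).trans h1) ((hv' x hx).trans h2)
    _ = _ := by rw [pow_succ 2 (u x + v x)]; ring

lemma PE.exists {f : ℕ → ℕ} (hf : PE f) : ∃ C, ∀ x, 2 ≤ x → f x ≤ 2 ^ (x ^ C) := by
  obtain ⟨u, ⟨C, hC⟩, hu'⟩ := hf
  exact ⟨C, fun x hx => (hu' x hx).trans (Nat.pow_le_pow_right (by omega) (hC x hx))⟩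

lemma PB.tt {M e : ℕ → ℕ} (hM : PB M) (he : PB e) (j : ℕ) : PB (fun x => tt (M x) (e x) j) := by
  induction j with
  | zero => exact PB.const 2
  | succ j ih =>
    have hgp : PB (fun x => gp (M x) (e x) (Run7.h755.tt (M x) (e x) j)) := by
      unfold gp
      exact (ih.add (PB.const 2)).mul (((hM.mul (ih.add (PB.const 4))).add he).add (PB.const 3))
    exact (ih.add ((PB.const 2).mul hgp)).add (PB.const 1)

lemma PB.gg {M e : ℕ → ℕ} (hM : PB M) (he : PB e) (j : ℕ) : PB (fun x => gg (M x) (e x) j) := by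
  induction j with
  | zero => exact PB.const 0
  | succ j ih =>
    have htt := PB.tt hM he j
    have hgp : PB (fun x => gp (M x) (e x) (Run7.h755.tt (M x) (e x) j)) := by
      unfold gp
      exact (htt.add (PB.const 2)).mul (((hM.mul (htt.add (PB.const 4))).add he).add (PB.const 3))
    exact ih.add hgp

def zn (x : ℕ) : ℕ := x + x * x + 1 + x
def zlE (K x : ℕ) : ℕ := (K + 1) * (K * (zn x + 1))
def zb (K x : ℕ) : ℕ := zlE K x * (zn x + 1) + K + 1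
def zH (K x : ℕ) : ℕ := K + zlE K x * (zn x + 1) + 1
def zt (K x : ℕ) : ℕ := zH K x + 1 + 1 + qc x
def zh0 (K x : ℕ) : ℕ := zt K x * zn x
def ztE (K x : ℕ) : ℕ := zb K x + (zh0 K x + 1)
def zh' (K x : ℕ) : ℕ := ztE K x + zH K x + 1 + zh0 K x + 1
def zhp (K x : ℕ) : ℕ := zh' K x + (zh0 K x + 1)
def ze (K x : ℕ) : ℕ := 2 * zhp K x + qc x + 5 * x + 10
def zg (K x : ℕ) : ℕ := gg x (ze K x) K
def zD (K x : ℕ) : ℕ := tt x (ze K x) K + 4
def zg' (K x : ℕ) : ℕ := zg K x + (zH K x + 1) + 2 + zb K x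
def zC1 (K x : ℕ) : ℕ := zg' K x + x * zD K x + 2 * zhp K x + qc x + 4 * x + 10
def zCs (K x : ℕ) : ℕ := 4 * zhp K x + 2 * qc x + 8 * x + 15 + 2 * zg' K x
def zc (K x : ℕ) : ℕ := 5 + qc x + 2 * (zH K x + 1) + zh0 K x + zg K x
def zl0 (K x : ℕ) : ℕ := zhp K x + 3 * x + 3

def lsq (x l0 c : ℕ) : ℕ → ℕ
  | 0 => l0
  | j + 1 => (x + 1) * lsq x l0 c j + c + x + 2

def esq (x l0 c j : ℕ) : ℕ := (x + 1) * lsq x l0 c j + c

def zE0 (K x : ℕ) : ℕ :=
  esq x (zl0 K x) (zc K x) (x + x * x + 1) + 3 + zhp K x + qc x + zh0 K x + 4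
def zE (K x : ℕ) : ℕ := zE0 K x + ztE K x
def zn1 (K x : ℕ) : ℕ :=
  ((zE K x + zb K x + gO x K) * 2 ^ (gR x K + 2) + nO x K) + (zC1 K x * 2 ^ (gR x K + 2) + 2)
def zCb (K x : ℕ) : ℕ := zCs K x + (zb K x + gO x K)
def ztot (K x : ℕ) : ℕ := (2 ^ ztE K x + 1) * zn1 K x + 2 ^ zCb K x

lemma pb_qc : PB qc := by
  unfold qc
  exact (((PB.id.add (PB.id.mul PB.id)).add (PB.const 1)).add PB.id).add (PB.const 1)

lemma pb_zn : PB zn := ((PB.id.add (PB.id.mul PB.id)).add (PB.const 1)).add PB.id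

lemma pb_zlE (K : ℕ) : PB (zlE K) :=
  (PB.const _).mul ((PB.const _).mul (pb_zn.add (PB.const 1)))

lemma pb_zb (K : ℕ) : PB (zb K) :=
  (((pb_zlE K).mul (pb_zn.add (PB.const 1))).add (PB.const K)).add (PB.const 1)

lemma pb_zH (K : ℕ) : PB (zH K) :=
  ((PB.const K).add ((pb_zlE K).mul (pb_zn.add (PB.const 1)))).add (PB.const 1)

lemma pb_zt (K : ℕ) : PB (zt K) :=
  (((pb_zH K).add (PB.const 1)).add (PB.const 1)).add pb_qc

lemma pb_zh0 (K : ℕ) : PB (zh0 K) := (pb_zt K).mul pb_zn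

lemma pb_ztE (K : ℕ) : PB (ztE K) := (pb_zb K).add ((pb_zh0 K).add (PB.const 1))

lemma pb_zh' (K : ℕ) : PB (zh' K) :=
  ((((pb_ztE K).add (pb_zH K)).add (PB.const 1)).add (pb_zh0 K)).add (PB.const 1)

lemma pb_zhp (K : ℕ) : PB (zhp K) := (pb_zh' K).add ((pb_zh0 K).add (PB.const 1))

lemma pb_ze (K : ℕ) : PB (ze K) :=
  ((((PB.const 2).mul (pb_zhp K)).add pb_qc).add ((PB.const 5).mul PB.id)).add (PB.const 10)

lemma pb_zg (K : ℕ) : PB (zg K) := PB.gg PB.id (pb_ze K) K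

lemma pb_zD (K : ℕ) : PB (zD K) := (PB.tt PB.id (pb_ze K) K).add (PB.const 4)

lemma pb_zg' (K : ℕ) : PB (zg' K) :=
  (((pb_zg K).add ((pb_zH K).add (PB.const 1))).add (PB.const 2)).add (pb_zb K)

lemma pb_zC1 (K : ℕ) : PB (zC1 K) :=
  (((((pb_zg' K).add (PB.id.mul (pb_zD K))).add ((PB.const 2).mul (pb_zhp K))).add pb_qc).add
    ((PB.const 4).mul PB.id)).add (PB.const 10)

lemma pb_zCs (K : ℕ) : PB (zCs K) :=
  (((((PB.const 4).mul (pb_zhp K)).add ((PB.const 2).mul pb_qc)).add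
    ((PB.const 8).mul PB.id)).add (PB.const 15)).add ((PB.const 2).mul (pb_zg' K))

lemma pb_zc (K : ℕ) : PB (zc K) :=
  ((((PB.const 5).add pb_qc).add ((PB.const 2).mul ((pb_zH K).add (PB.const 1)))).add
    (pb_zh0 K)).add (pb_zg K)

lemma pb_zl0 (K : ℕ) : PB (zl0 K) := ((pb_zhp K).add ((PB.const 3).mul PB.id)).add (PB.const 3)

lemma pb_gR (K : ℕ) : PB (fun x => gR x K) := by
  unfold gR
  have he : PB (fun x => x + 2) := PB.id.add (PB.const 2)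
  exact ((PB.gg PB.id he K).add (((PB.tt PB.id he K).add (PB.const 4)).mul PB.id)).add (PB.const 3)

lemma pb_MO : PB MO := by
  unfold MO
  exact (((PB.const 2).mul (pb_qc.add (PB.const 1))).mul pb_qc).add PB.id

lemma pb_eO : PB eO := by
  unfold eO
  exact (((PB.const 3).mul pb_qc).add ((PB.const 5).mul PB.id)).add (PB.const 10)

lemma pb_dO (K : ℕ) : PB (fun x => dO x K) := by
  unfold dO
  exact (PB.tt pb_MO pb_eO K).add (PB.const 4)

lemma pb_hO (K : ℕ) : PB (fun x => hO x K) := by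
  unfold hO
  exact (((pb_dO K).mul (pb_qc.add (PB.const 1))).add (PB.const 1)).mul pb_qc

lemma pb_tO (K : ℕ) : PB (fun x => tO x K) := by
  unfold tO
  exact ((((PB.id.mul (pb_dO K)).add ((PB.const 2).mul (pb_hO K))).add pb_qc).add
    ((PB.const 4).mul PB.id)).add (PB.const 10)

lemma pb_wO (K : ℕ) : PB (fun x => wO x K) := by
  unfold wO
  exact ((((PB.const 4).mul (pb_hO K)).add ((PB.const 2).mul pb_qc)).add
    ((PB.const 8).mul PB.id)).add (PB.const 15)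

lemma pb_gO (K : ℕ) : PB (fun x => gO x K) := by
  unfold gO
  exact ((PB.gg pb_MO pb_eO K).add (pb_wO K)).add (PB.const 1)

lemma pe_gR2 (K : ℕ) : PE (fun x => 2 ^ (gR x K + 2)) :=
  PE.two_pow ((pb_gR K).add (PB.const 2))

lemma pe_nO (K : ℕ) : PE (fun x => nO x K) := by
  unfold nO
  exact ((PE.of_PB (pb_tO K)).mul (pe_gR2 K)).add (PE.of_PB (PB.const 2))

lemma lsq_le (x l0 c j : ℕ) : lsq x l0 c j + (c + x + 2) ≤ (x + 2) ^ j * (l0 + (c + x + 2)) := by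
  induction j with
  | zero => simp [lsq]
  | succ j ih =>
    have h1 : lsq x l0 c (j + 1) + (c + x + 2) ≤ (x + 2) * (lsq x l0 c j + (c + x + 2)) := by
      simp only [lsq]
      nlinarith
    calc _ ≤ _ := h1
      _ ≤ (x + 2) * ((x + 2) ^ j * (l0 + (c + x + 2))) := Nat.mul_le_mul_left _ ih
      _ = _ := by ring

lemma pe_lsq (K : ℕ) : PE (fun x => lsq x (zl0 K x) (zc K x) (x + x * x + 1)) := by
  have h1 : PE (fun x => 2 ^ ((x + 2) * (x + x * x + 1)) *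
      (zl0 K x + (zc K x + x + 2))) := by
    refine PE.mul (PE.two_pow ?_) (PE.of_PB ?_)
    · exact (PB.id.add (PB.const 2)).mul ((PB.id.add (PB.id.mul PB.id)).add (PB.const 1))
    · exact (pb_zl0 K).add (((pb_zc K).add PB.id).add (PB.const 2))
  refine h1.mono fun x _ => ?_
  have h2 := lsq_le x (zl0 K x) (zc K x) (x + x * x + 1)
  have h3 : (x + 2) ^ (x + x * x + 1) ≤ 2 ^ ((x + 2) * (x + x * x + 1)) := by
    rw [pow_mul]
    exact Nat.pow_le_pow_left Nat.lt_two_pow_self.le _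
  calc lsq x (zl0 K x) (zc K x) (x + x * x + 1)
      ≤ (x + 2) ^ (x + x * x + 1) * (zl0 K x + (zc K x + x + 2)) := by omega
    _ ≤ _ := Nat.mul_le_mul_right _ h3

lemma pe_zE0 (K : ℕ) : PE (zE0 K) := by
  have h1 : PE (fun x => esq x (zl0 K x) (zc K x) (x + x * x + 1)) := by
    unfold esq
    exact ((PE.of_PB (PB.id.add (PB.const 1))).mul (pe_lsq K)).add (PE.of_PB (pb_zc K))
  exact ((((h1.add (PE.of_PB (PB.const 3))).add (PE.of_PB (pb_zhp K))).add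
    (PE.of_PB pb_qc)).add (PE.of_PB (pb_zh0 K))).add (PE.of_PB (PB.const 4))

lemma pe_zE (K : ℕ) : PE (zE K) := (pe_zE0 K).add (PE.of_PB (pb_ztE K))

lemma pe_zn1 (K : ℕ) : PE (zn1 K) := by
  have h1 : PE (fun x => (zE K x + zb K x + gO x K) * 2 ^ (gR x K + 2) + nO x K) :=
    ((((pe_zE K).add (PE.of_PB (pb_zb K))).add (PE.of_PB (pb_gO K))).mul (pe_gR2 K)).add (pe_nO K)
  exact h1.add (((PE.of_PB (pb_zC1 K)).mul (pe_gR2 K)).add (PE.of_PB (PB.const 2)))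

lemma pb_zCb (K : ℕ) : PB (zCb K) := (pb_zCs K).add ((pb_zb K).add (pb_gO K))

theorem pe_ztot (K : ℕ) : PE (ztot K) :=
  (((PE.two_pow (pb_ztE K)).add (PE.of_PB (PB.const 1))).mul (pe_zn1 K)).add
    (PE.two_pow (pb_zCb K))

end Run7.h755
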