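import Mathlib
import Pool.Agent.Run7.h755.Own

open Finset
open scoped Classical

namespace Run7.h755

section
variable {V : Type*} {K : ℕ} {Fam : ∀ r : ℕ, SimpleGraph (Fin r)} {G : Fin K → SimpleGraph V}

theorem own2 (hcov : ∀ x y, x ≠ y → ∃ c, (G c).Adj x y) (Δ R : ℕ)
    (hFam : ∀ r, ∀ x : Fin r, (Finset.univ.filter (fun z => (Fam r).Adj x z)).card ≤ Δ)
    (hred : ∀ (t : ℕ) (P : Finset V), ∃ P' ⊆ P, 2 ^ t * P'.card ≤ P.card ∧
      Cov Fam G (t * R) (P \ P'))
    (X : Finset V) (hX : (2 : ℝ) ^ (gO Δ K) ≤ X.card) :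
    ∃ A ⊆ X, ∃ U ⊆ X, Disjoint A U ∧ (X.card : ℝ) ≤ 2 ^ (gO Δ K) * U.card ∧
      ∀ S ⊆ U, Cov Fam G (tO Δ K * R + 2) (A ∪ S) := by
  obtain ⟨W, hWX, c, d, hd, hXW, hB⟩ := exists_bid G hcov (MO Δ) (eO Δ) X
    (le_trans (pow_le_pow_right₀ (by norm_num) (by unfold gO; omega)) hX)
  set q := qc Δ with hq
  have hqΔ : Δ + 2 ≤ q := by rw [hq, qc]; nlinarith
  set w : ℝ := (W.card : ℝ) with hw
  set δ : ℝ := (1 / 2) ^ d with hδ
  set ε : ℝ := (1 / 2) ^ (MO Δ * d + eO Δ) with hε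
  have hd' : d ≤ dO Δ K := hd
  set h : ℕ := (d * (q + 1) + 1) * q with hh
  have hhO : h ≤ hO Δ K := by
    rw [hh, hO]
    exact Nat.mul_le_mul_right _ (Nat.add_le_add_right (Nat.mul_le_mul_right _ hd') _)
  set p : ℝ := (1 / 2) ^ h with hp
  have hp0 : 0 < p := by positivity
  have hp1 : p ≤ 1 := pow_le_one₀ (by norm_num) (by norm_num)
  have hδ0 : 0 < δ := by positivity
  have hδ1 : δ ≤ 1 := pow_le_one₀ (by norm_num) (by norm_num)
  have hε0 : 0 < ε := by positivity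
  have hgg0 : (0 : ℝ) < 2 ^ (gg (MO Δ) (eO Δ) K) := by positivity
  have hwlb : (2 : ℝ) ^ (wO Δ K) ≤ w := by
    have h1 := hX.trans hXW
    have h2 : (2 : ℝ) ^ (gO Δ K) = 2 ^ (gg (MO Δ) (eO Δ) K) * 2 ^ (wO Δ K + 1) := by
      rw [← pow_add]; rfl
    rw [h2] at h1
    have h3 := le_of_mul_le_mul_left h1 hgg0
    refine le_trans ?_ h3
    exact pow_le_pow_right₀ (by norm_num) (by omega)
  have hwlb2 : (2 : ℝ) ^ (4 * h + 2 * q + 8 * Δ + 15) ≤ w := by
    refine le_trans (pow_le_pow_right₀ (by norm_num) ?_) hwlb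
    rw [wO]; omega
  have hw0 : 0 < w := lt_of_lt_of_le (by positivity) hwlb
  -- exponents
  have hhexp : h = d * ((q + 1) * q) + q := by rw [hh]; ring
  have hMexp : MO Δ * d + eO Δ = 2 * (d * ((q + 1) * q)) + d * Δ + 3 * q + 5 * Δ + 10 := by
    rw [MO, eO, ← hq]; ring
  have hdq : d * (q + 1) ≤ d * ((q + 1) * q) := by
    apply Nat.mul_le_mul_left
    nlinarith
  have hdΔ : d * Δ ≤ d * ((q + 1) * q) := by
    apply Nat.mul_le_mul_left
    nlinarith
  have hq2 : (q : ℝ) ≤ 2 ^ q := nat_le_two_pow q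
  have hq1 : (1 : ℝ) ≤ q := by exact_mod_cast (by omega : 1 ≤ q)
  have hΔ2 : (Δ : ℝ) + 1 ≤ 2 ^ Δ := succ_le_two_pow Δ
  have hΔ0 : (0 : ℝ) ≤ Δ := by positivity
  -- F1
  have F1 : 2 * q * ε ≤ δ ^ q * δ := by
    calc 2 * q * ε ≤ 2 * 2 ^ q * ε := by gcongr
      _ = 2 ^ (q + 1) * (1 / 2) ^ (MO Δ * d + eO Δ) := by rw [pow_succ]; ring
      _ ≤ (1 / 2) ^ (d * (q + 1)) := pow_help (by rw [hMexp]; omega)
      _ = δ ^ q * δ := by rw [← pow_succ, hδ, ← pow_mul]
  -- the vertices to be hit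
  set 𝒱 := W.filter (fun v => δ * w ≤ ((W.filter (fun u => (G c).Adj v u)).card : ℝ)) with h𝒱
  have h𝒱c : w - ε * w ≤ (𝒱.card : ℝ) := by
    have h1 : ((W.filter (fun v => ¬ δ * w ≤ ((W.filter (fun u => (G c).Adj v u)).card : ℝ))).card : ℝ)
        ≤ ε * w := by
      refine bid_bad hB hε0.le (Finset.Subset.refl _) ?_ (Finset.Subset.refl _) _ le_rfl
      have : ε ≤ 1 := pow_le_one₀ (by norm_num) (by norm_num)
      nlinarith
    have h2 : (𝒱.card : ℝ) + ((W.filter (fun v => ¬ δ * w ≤ ((W.filter (fun u => (G c).Adj v u)).card : ℝ))).card : ℝ)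
          = w := by
      rw [h𝒱, hw]
      exact_mod_cast Finset.card_filter_add_card_filter_not _
    linarith
  have hε4 : ε ≤ 1 / 4 := by
    have : ε ≤ (1 / 2) ^ 2 := pow_le_pow_of_le_one (by norm_num) (by norm_num) (by rw [hMexp]; omega)
    norm_num at this ⊢
    exact this
  have h𝒱ne : 𝒱.Nonempty := by
    rw [← Finset.card_pos]
    have : (0 : ℝ) < 𝒱.card := by nlinarith
    exact_mod_cast this
  -- size of the absorber
  have hpw : (2 : ℝ) ^ (q + 5) ≤ p * w := by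
    have h1 : (2 : ℝ) ^ (q + 5) = p * 2 ^ (h + q + 5) := by
      rw [hp, show h + q + 5 = h + (q + 5) by ring, pow_add 2 h, ← mul_assoc, ← mul_pow]
      norm_num
    rw [h1]
    apply mul_le_mul_of_nonneg_left _ hp0.le
    exact le_trans (pow_le_pow_right₀ (by norm_num) (by omega)) hwlb2
  set m := ⌊p * w / (8 * q)⌋₊ with hm
  have hm1 : (m : ℝ) ≤ p * w / (8 * q) := Nat.floor_le (by positivity)
  have hm2 : p * w / (16 * q) ≤ m := by
    have h1 : p * w / (8 * q) < m + 1 := Nat.lt_floor_add_one _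
    have h2 : 1 ≤ p * w / (16 * q) := by
      rw [le_div_iff₀ (by positivity)]
      have : (2 : ℝ) ^ (q + 5) = 32 * 2 ^ q := by rw [pow_add]; norm_num; ring
      linarith
    have h3 : p * w / (8 * q) = 2 * (p * w / (16 * q)) := by field_simp; ring
    linarith
  have hm3 : (m : ℝ) ≤ p * w / 8 := by
    refine hm1.trans ?_
    apply div_le_div_of_nonneg_left (by positivity) (by norm_num)
    linarith
  obtain ⟨Y, κ, hF, hYc⟩ := exists_FStr (Fam m) Δ (fun x => by convert hFam m x)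
  have hεδ : ε ≤ δ ^ Δ := by
    rw [hδ, ← pow_mul]
    exact pow_le_pow_of_le_one (by norm_num) (by norm_num) (by rw [hMexp]; omega)
  have hS := ASys_bid hB hε0.le hδ0 hδ1 (Δ + Δ * Δ + 1) Δ hεδ
  have hΔε : (Δ : ℝ) * ε ≤ δ ^ Δ / 4 := by
    calc (Δ : ℝ) * ε ≤ 2 ^ Δ * ε := by gcongr; linarith
      _ ≤ (1 / 2) ^ (d * Δ + 2) := pow_help (by rw [hMexp]; omega)
      _ = δ ^ Δ / 4 := by rw [pow_add, hδ, ← pow_mul]; norm_num; ring
  have hpδ : p ≤ δ ^ Δ := by
    rw [hδ, ← pow_mul]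
    exact pow_le_pow_of_le_one (by norm_num) (by norm_num) (by rw [hhexp]; omega)
  have hcardpi : ((Fintype.piFinset (fun _ : Fin (Δ + Δ * Δ + 1 + Δ + 1) => W)).card : ℝ) = w ^ q := by
    rw [Fintype.card_piFinset]; simp [hw, hq, qc]
  obtain ⟨ψ, hψ1, hψ2, hψ3, hψ4, hψ5⟩ := abs_embed hF hS (fun x => by convert hFam m x)
    ∅ 𝒱 h𝒱ne p (p / (4 * q)) ε hp0 hp1
    (by
      have : (0 : ℝ) < ((Fintype.piFinset (fun _ : Fin (Δ + Δ * Δ + 1 + Δ + 1) => W)).card : ℝ) := by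
        rw [hcardpi]; positivity
      exact_mod_cast this)
    hε0.le (fun _ _ => le_rfl)
    (by
      intro j
      rw [Finset.inter_empty, Finset.card_empty, Nat.cast_zero, add_zero, Fintype.card_fin]
      refine hm1.trans ?_
      rw [div_mul_eq_mul_div]
      apply div_le_div_of_nonneg_left (by positivity) (by positivity)
      linarith)
    (by
      have e1 : ((Δ + Δ * Δ + 1 + Δ + 1 : ℕ) : ℝ) = q := by rw [hq, qc]
      rw [e1]
      have e2 : (q : ℝ) * (p / (4 * q)) = p / 4 := by field_simp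
      rw [e2]
      have e3 : ((Δ * Δ : ℕ) : ℝ) * (Δ * ε) ≤ p / 4 := by
        push_cast
        calc (Δ : ℝ) * Δ * (Δ * ε) ≤ 2 ^ Δ * 2 ^ Δ * (2 ^ Δ * ε) := by gcongr <;> linarith
          _ = 2 ^ (3 * Δ) * (1 / 2) ^ (MO Δ * d + eO Δ) := by
              rw [hε, show 3 * Δ = Δ + Δ + Δ by ring, pow_add, pow_add]; ring
          _ ≤ (1 / 2) ^ (h + 2) := pow_help (by rw [hMexp, hhexp]; omega)
          _ = p / 4 := by rw [pow_add, hp]; norm_num; ring
      linarith)
    (by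
      intro v hv
      rw [hcardpi]
      have hdeg : δ * w ≤ ((W.filter (fun u => (G c).Adj v u)).card : ℝ) :=
        (Finset.mem_filter.mp hv).2
      have := hit_count hB hε0.le hδ0 hδ1 (Δ + Δ * Δ + 1 + Δ) v hdeg F1
      have e1 : (δ / 2 * δ ^ q * w) ^ q = p * w ^ q := by
        rw [mul_pow (δ / 2 * δ ^ q) w, hp, hhexp, hδ]
        have : (1 / 2 : ℝ) ^ d / 2 * ((1 / 2) ^ d) ^ q = (1 / 2) ^ (d * (q + 1) + 1) := by
          rw [← pow_mul, pow_succ, mul_add, mul_one, pow_add]; ring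
        rw [this, ← pow_mul, show (d * (q + 1) + 1) * q = d * ((q + 1) * q) + q by ring]
      exact e1.symm.le.trans this)
    (fun _ => ε * w) (fun _ => by positivity) (fun _ _ _ _ => le_rfl)
    (by
      intro j _
      rw [Finset.inter_empty, Finset.card_empty, Nat.cast_zero, add_zero, Fintype.card_fin]
      have e1 : (Δ : ℝ) * (ε * w) ≤ δ ^ Δ / 4 * w := by
        rw [← mul_assoc]; exact mul_le_mul_of_nonneg_right hΔε hw0.le
      have e2 : p * w / 8 ≤ δ ^ Δ * w / 8 := by gcongr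
      have e3 : 0 < δ ^ Δ * w := by positivity
      linarith)
  -- consequences
  set y : ℝ := (Y.card : ℝ) with hy
  have hylb : p * w * (1 / 2) ^ (4 + q + 4 * Δ) ≤ y := by
    refine num_y (by omega) (by positivity) hm2 ?_
    rw [Fintype.card_fin] at hYc
    have : ((m : ℕ) : ℝ) ≤ (((Δ + 1) ^ 4 * Y.card : ℕ) : ℝ) := by exact_mod_cast hYc
    push_cast at this
    exact this
  set σ : ℝ := p ^ 2 * w * (1 / 2) ^ (7 + q + 4 * Δ) with hσ
  have hσy : σ ≤ p * y / 8 := num_sig hp0 hylb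
  have hσ0 : 0 ≤ σ := by rw [hσ]; exact mul_nonneg (mul_nonneg (sq_nonneg _) hw0.le) (pow_nonneg (by norm_num) _)
  have hhits : ∀ v ∈ 𝒱, σ ≤ hits (Fam m) (G c) Y ψ v := by
    intro v hv
    refine hσy.trans (hits_lb hp0 hp1 Y.card _ (𝒱.card : ℝ) (Nat.cast_nonneg _) ?_ (hψ5 v hv))
    have h1 : (𝒱.card : ℝ) ≤ w := Nat.cast_le.mpr (Finset.card_le_card (Finset.filter_subset _ _))
    exact h1.trans (num_sq' hw0 hwlb2 hσy)
  have hAc : ((univ.image ψ).card : ℝ) ≤ w / 8 := by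
    have h1 : ((univ.image ψ).card : ℝ) ≤ m := by
      have := Finset.card_image_le (s := (univ : Finset (Fin m))) (f := ψ)
      rw [Finset.card_univ, Fintype.card_fin] at this
      exact_mod_cast this
    refine h1.trans (hm3.trans ?_)
    nlinarith
  have hAW : univ.image ψ ⊆ W := by
    intro u hu
    obtain ⟨a, _, rfl⟩ := Finset.mem_image.mp hu
    exact hψ3 a
  refine ⟨univ.image ψ, hAW.trans hWX, 𝒱 \ univ.image ψ,
    Finset.sdiff_subset.trans ((Finset.filter_subset _ _).trans hWX), Finset.disjoint_sdiff, ?_, ?_⟩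
  · have h1 : w / 2 ≤ ((𝒱 \ univ.image ψ).card : ℝ) := by
      have h2 := Finset.le_card_sdiff (univ.image ψ) 𝒱
      have h3 : (𝒱.card : ℝ) ≤ (𝒱 \ univ.image ψ).card + (univ.image ψ).card := by
        exact_mod_cast (by omega)
      nlinarith
    exact card_chain hXW h1 hw0.le (by unfold gO; omega)
  · intro S hS
    obtain ⟨S', hS'S, hS'c, hS'cov⟩ := hred (tO Δ K) S
    have hS𝒱 : S' ⊆ 𝒱 := hS'S.trans (hS.trans Finset.sdiff_subset)
    have hdis1 : Disjoint S (univ.image ψ) := by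
      rw [Finset.disjoint_left]
      intro v hv
      exact (Finset.mem_sdiff.mp (hS hv)).2
    have hScard : (S.card : ℝ) ≤ w :=
      Nat.cast_le.mpr (Finset.card_le_card (hS.trans (Finset.sdiff_subset.trans (Finset.filter_subset _ _))))
    have hS'c2 : (S'.card : ℝ) ≤ (1 / 2) ^ (tO Δ K) * w := by
      have h1 : (2 : ℝ) ^ (tO Δ K) * S'.card ≤ w := by
        refine le_trans ?_ hScard
        exact_mod_cast hS'c
      calc (S'.card : ℝ) = (1 / 2) ^ (tO Δ K) * (2 ^ (tO Δ K) * S'.card) := by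
            rw [← mul_assoc, ← mul_pow]; norm_num
        _ ≤ _ := by gcongr
    have habs := absorb (c := c) (c' := c) Δ hFam ψ hψ1 hψ2 Y hF.sep1 W (fun y _ => hψ3 y) ε δ hB
      hε0.le hδ0 hδ1 S' (Finset.disjoint_of_subset_left hS'S hdis1) σ hσ0
      (fun v hv => hhits v (hS𝒱 hv)) (by
        refine num_abs hw0 hS'c2 ?_ (pow_help (by rw [hMexp, hhexp]; omega)) hε0.le
        rw [tO, ← hq]
        have : d * Δ ≤ Δ * dO Δ K := by rw [mul_comm]; exact Nat.mul_le_mul_left _ hd'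
        omega)
    have hun : univ.image ψ ∪ S = (S \ S') ∪ (univ.image ψ ∪ S') := by
      ext v
      simp only [Finset.mem_union, Finset.mem_sdiff]
      constructor
      · rintro (h | h)
        · exact Or.inr (Or.inl h)
        · by_cases hv : v ∈ S'
          · exact Or.inr (Or.inr hv)
          · exact Or.inl ⟨h, hv⟩
      · rintro (h | h | h)
        · exact Or.inr h.1
        · exact Or.inl h
        · exact Or.inr (hS'S h)
    rw [hun]
    refine hS'cov.union habs ?_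
    rw [Finset.disjoint_left]
    intro v hv hv'
    rcases Finset.mem_union.mp hv' with h | h
    · exact (Finset.disjoint_left.mp hdis1) (Finset.mem_sdiff.mp hv).1 h
    · exact (Finset.mem_sdiff.mp hv).2 h

end

end Run7.h755
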