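import Mathlib
import Pool.Agent.Run7.h755.Bid

open Finset
open scoped Classical

namespace Run7.h755

section
variable {V : Type*} {K : ℕ}

/-- bi-density of a pair -/
def BiP (G : SimpleGraph V) (ε δ : ℝ) (D W : Finset V) : Prop :=
  ∀ A ⊆ D, ∀ B ⊆ W, ε * D.card ≤ A.card → ε * W.card ≤ B.card →
    δ * A.card * B.card ≤ ed G A B

lemma BiP.mono {G : SimpleGraph V} {ε ε' δ : ℝ} {D W D' W' : Finset V} (h : BiP G ε δ D W)
    (hD : D' ⊆ D) (hW : W' ⊆ W) (h1 : ε * D.card ≤ ε' * D'.card) (h2 : ε * W.card ≤ ε' * W'.card) :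
    BiP G ε' δ D' W' := fun A hA B hB h3 h4 =>
  h A (hA.trans hD) B (hB.trans hW) (h1.trans h3) (h2.trans h4)

/-- few vertices of `W` have small degree into a large subset of `D` -/
lemma bip_bad_right {G : SimpleGraph V} {ε δ : ℝ} {D W : Finset V} (h : BiP G ε δ D W)
    {C Z : Finset V} (hC : C ⊆ D) (hCc : ε * D.card ≤ C.card) (hZ : Z ⊆ W) (s : ℝ)
    (hε : 0 ≤ ε) (hs : s ≤ δ * C.card) :
    ((Z.filter (fun u => ¬ s ≤ ((C.filter (fun w => G.Adj u w)).card : ℝ))).card : ℝ)
      ≤ ε * W.card := by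
  by_contra hcon
  set Z' := Z.filter (fun u => ¬ s ≤ ((C.filter (fun w => G.Adj u w)).card : ℝ)) with hZ'
  replace hcon := not_le.mp hcon
  have hεW : 0 ≤ ε * W.card := by positivity
  have hZW : Z' ⊆ W := (Finset.filter_subset _ _).trans hZ
  have hb := h C hC Z' hZW hCc hcon.le
  have hZpos : (0 : ℝ) < Z'.card := lt_of_le_of_lt hεW hcon
  have hZne : Z'.Nonempty := by
    rw [← Finset.card_pos]; exact_mod_cast hZpos
  have hlt : ed G Z' C < ∑ u ∈ Z', δ * C.card := by
    unfold ed
    refine Finset.sum_lt_sum_of_nonempty hZne ?_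
    intro u hu
    have h1 := (Finset.mem_filter.mp hu).2
    exact lt_of_lt_of_le (not_le.mp h1) hs
  rw [Finset.sum_const, nsmul_eq_mul, ed_comm] at hlt
  linarith [hlt, hb, (by ring : δ * C.card * Z'.card = Z'.card * (δ * (C.card : ℝ)))]

/-- few vertices of `D` have small degree into a large subset of `W` -/
lemma bip_bad_left {G : SimpleGraph V} {ε δ : ℝ} {D W : Finset V} (h : BiP G ε δ D W)
    {C Z : Finset V} (hC : C ⊆ W) (hCc : ε * W.card ≤ C.card) (hZ : Z ⊆ D) (s : ℝ)
    (hε : 0 ≤ ε) (hs : s ≤ δ * C.card) :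
    ((Z.filter (fun u => ¬ s ≤ ((C.filter (fun w => G.Adj u w)).card : ℝ))).card : ℝ)
      ≤ ε * D.card := by
  by_contra hcon
  set Z' := Z.filter (fun u => ¬ s ≤ ((C.filter (fun w => G.Adj u w)).card : ℝ)) with hZ'
  replace hcon := not_le.mp hcon
  have hεW : 0 ≤ ε * D.card := by positivity
  have hZW : Z' ⊆ D := (Finset.filter_subset _ _).trans hZ
  have hb := h Z' hZW C hC hcon.le hCc
  have hZpos : (0 : ℝ) < Z'.card := lt_of_le_of_lt hεW hcon
  have hZne : Z'.Nonempty := by
    rw [← Finset.card_pos]; exact_mod_cast hZpos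
  have hlt : ed G Z' C < ∑ u ∈ Z', δ * C.card := by
    unfold ed
    refine Finset.sum_lt_sum_of_nonempty hZne ?_
    intro u hu
    have h1 := (Finset.mem_filter.mp hu).2
    exact lt_of_lt_of_le (not_le.mp h1) hs
  rw [Finset.sum_const, nsmul_eq_mul] at hlt
  linarith [hlt, hb, (by ring : δ * Z'.card * C.card = Z'.card * (δ * (C.card : ℝ)))]

theorem simul (G : Fin K → SimpleGraph V) (κ : ℝ) (hκ : 0 < κ) (e n0 : ℕ)
    (hn0 : (1 - (1 / 2 : ℝ) ^ e) ^ n0 < κ / 4) (d : ℕ) (D : ℕ → Finset V) (c : ℕ → Fin K)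
    (U : Finset V) (hU : U.Nonempty) (hD : ∀ i < d, (D i).Nonempty)
    (hdeg : ∀ v ∈ U, ∀ i < d,
      κ / 2 * (D i).card ≤ (((D i).filter (fun u => (G (c i)).Adj v u)).card : ℝ)) :
    ∃ W ⊆ U, ∃ D' : ℕ → Finset V, (U.card : ℝ) ≤ 2 ^ ((e + 1) * (d * n0)) * W.card ∧
      ∀ i < d, D' i ⊆ D i ∧ κ / 4 * (D i).card ≤ (D' i).card ∧
        BiP (G (c i)) ((1 / 2) ^ e) (κ / 8) (D' i) W := by
  obtain ⟨ε, hε⟩ : ∃ ε : ℝ, ε = (1 / 2) ^ e := ⟨_, rfl⟩
  have hε0 : 0 < ε := by rw [hε]; positivity
  have hε1 : ε ≤ 1 := by rw [hε]; exact pow_le_one₀ (by norm_num) (by norm_num)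
  rw [← hε] at hn0 ⊢
  let St : (ℕ → ℕ) → (ℕ → Finset V) → Finset V → Prop := fun n D' W =>
    W ⊆ U ∧ W.Nonempty ∧ (1 / 2 : ℝ) ^ ((e + 1) * ∑ i ∈ Finset.range d, n i) * U.card ≤ W.card ∧
    (∀ i < d, D' i ⊆ D i ∧ ((D' i).card : ℝ) ≤ (1 - ε) ^ n i * (D i).card) ∧
    ∀ v ∈ W, ∀ i < d, κ / 2 * (D i).card - κ / 4 * ((D i).card - (D' i).card)
      ≤ (((D' i).filter (fun u => (G (c i)).Adj v u)).card : ℝ)
  have hlow : ∀ n D' W, St n D' W → ∀ i < d, κ / 4 * (D i).card ≤ (D' i).card := by
    rintro n D' W ⟨_, ⟨v, hv⟩, _, _, h5⟩ i hi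
    have h6 := h5 v hv i hi
    have h7 : (((D' i).filter (fun u => (G (c i)).Adj v u)).card : ℝ) ≤ (D' i).card :=
      Nat.cast_le.mpr (Finset.card_le_card (Finset.filter_subset _ _))
    have h8 : (0 : ℝ) ≤ κ / 4 * (D' i).card := by positivity
    linarith
  have hnlt : ∀ n D' W, St n D' W → ∀ i < d, n i < n0 := by
    intro n D' W hSt i hi
    by_contra hcon
    push Not at hcon
    have h1 := hlow n D' W hSt i hi
    have h2 := (hSt.2.2.2.1 i hi).2
    have hDpos : (0 : ℝ) < (D i).card := by exact_mod_cast Finset.card_pos.mpr (hD i hi)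
    have h3 : (1 - ε) ^ n i ≤ (1 - ε) ^ n0 :=
      pow_le_pow_of_le_one (by linarith) (by linarith) hcon
    have h4 : (1 - ε) ^ n i * (D i).card < κ / 4 * (D i).card :=
      mul_lt_mul_of_pos_right (lt_of_le_of_lt h3 hn0) hDpos
    linarith
  by_contra hfin
  have main : ∀ f : ℕ, ∃ n D' W, St n D' W ∧ ∑ i ∈ Finset.range d, n i = f := by
    intro f
    induction f with
    | zero =>
      refine ⟨fun _ => 0, D, U, ⟨Finset.Subset.refl _, hU, by simp, fun i _ => by simp, ?_⟩,
        by simp⟩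
      intro v hv i hi
      have := hdeg v hv i hi
      simpa using this
    | succ f ih =>
      obtain ⟨n, D', W, hSt, hf⟩ := ih
      have hSt' := hSt
      obtain ⟨h1, h2, h3, h4, h5⟩ := hSt'
      have hlow' := hlow n D' W hSt
      have hnlt' := hnlt n D' W hSt
      have hsum : ∑ i ∈ Finset.range d, n i ≤ d * n0 := by
        calc ∑ i ∈ Finset.range d, n i ≤ ∑ i ∈ Finset.range d, n0 :=
              Finset.sum_le_sum fun i hi => (hnlt' i (Finset.mem_range.mp hi)).le
          _ = _ := by rw [Finset.sum_const, Finset.card_range, smul_eq_mul]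
      have hnot : ∃ i < d, ¬ BiP (G (c i)) ε (κ / 8) (D' i) W := by
        by_contra hcon
        push Not at hcon
        refine hfin ⟨W, h1, D', ?_, fun i hi => ⟨(h4 i hi).1, hlow' i hi, hcon i hi⟩⟩
        have h6 : (1 / 2 : ℝ) ^ ((e + 1) * (d * n0)) * U.card ≤ W.card := by
          refine le_trans ?_ h3
          apply mul_le_mul_of_nonneg_right _ (Nat.cast_nonneg _)
          exact pow_le_pow_of_le_one (by norm_num) (by norm_num) (Nat.mul_le_mul_left _ hsum)
        calc (U.card : ℝ) = 2 ^ ((e + 1) * (d * n0)) * ((1 / 2) ^ ((e + 1) * (d * n0)) * U.card) := by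
              rw [← mul_assoc, ← mul_pow]; norm_num
          _ ≤ _ := mul_le_mul_of_nonneg_left h6 (by positivity)
      obtain ⟨i, hi, hbi⟩ := hnot
      simp only [BiP, not_forall, not_le] at hbi
      obtain ⟨A, hA, B, hB, hAc, hBc, hAB⟩ := hbi
      have hApos : (0 : ℝ) < A.card := by
        by_contra hcon
        have h0 : (A.card : ℝ) = 0 := le_antisymm (not_lt.mp hcon) (Nat.cast_nonneg _)
        have := ed_nonneg (G (c i)) A B
        rw [h0] at hAB
        simp only [mul_zero, zero_mul] at hAB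
        linarith
      have hWpos : (0 : ℝ) < W.card := by exact_mod_cast Finset.card_pos.mpr h2
      have hBpos : (0 : ℝ) < B.card := lt_of_lt_of_le (by positivity) hBc
      set B' := B.filter (fun b => ((A.filter (fun a => (G (c i)).Adj b a)).card : ℝ)
        ≤ κ / 4 * A.card) with hB'
      have hB'c : (B.card : ℝ) / 2 ≤ B'.card := by
        have g1 : ((B.filter (fun b => ¬ ((A.filter (fun a => (G (c i)).Adj b a)).card : ℝ)
            ≤ κ / 4 * A.card)).card : ℝ) * (κ / 4 * A.card) ≤ ed (G (c i)) B A := by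
          calc _ = ∑ x ∈ B.filter (fun b => ¬ ((A.filter (fun a => (G (c i)).Adj b a)).card : ℝ)
                ≤ κ / 4 * A.card), (κ / 4 * A.card) := by rw [Finset.sum_const, nsmul_eq_mul]
            _ ≤ ∑ x ∈ B.filter (fun b => ¬ ((A.filter (fun a => (G (c i)).Adj b a)).card : ℝ)
                ≤ κ / 4 * A.card), ((A.filter (fun a => (G (c i)).Adj x a)).card : ℝ) := by
                refine Finset.sum_le_sum fun x hx => ?_
                exact (not_le.mp (Finset.mem_filter.mp hx).2).le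
            _ ≤ _ := Finset.sum_le_sum_of_subset_of_nonneg (Finset.filter_subset _ _)
                fun _ _ _ => by positivity
        have g2 : (B'.card : ℝ) + ((B.filter (fun b => ¬ ((A.filter (fun a => (G (c i)).Adj b a)).card : ℝ)
            ≤ κ / 4 * A.card)).card : ℝ) = B.card := by
          rw [hB']
          exact_mod_cast Finset.card_filter_add_card_filter_not _
        have g3 : ((B.filter (fun b => ¬ ((A.filter (fun a => (G (c i)).Adj b a)).card : ℝ)
            ≤ κ / 4 * A.card)).card : ℝ) * (κ / 4 * A.card)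
            < (B.card : ℝ) / 2 * (κ / 4 * A.card) := by
          calc _ ≤ _ := g1
            _ = ed (G (c i)) A B := ed_comm _ _ _
            _ < _ := hAB
            _ = _ := by ring
        have g4 := lt_of_mul_lt_mul_right g3 (by positivity)
        linarith
      have hB'W : B' ⊆ W := (Finset.filter_subset _ _).trans hB
      have hεe : ε / 2 = (1 / 2) ^ (e + 1) := by rw [hε, pow_succ]; ring
      have hirange : i ∈ Finset.range d := Finset.mem_range.mpr hi
      have hsumn : ∑ j ∈ Finset.range d, Function.update n i (n i + 1) j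
          = ∑ j ∈ Finset.range d, n j + 1 := by
        rw [Finset.sum_update_of_mem hirange, ← Finset.add_sum_erase _ _ hirange,
          Finset.sdiff_singleton_eq_erase]
        ring
      have hcardA : (((D' i) \ A).card : ℝ) = (D' i).card - A.card := by
        rw [Finset.card_sdiff_of_subset hA, Nat.cast_sub (Finset.card_le_card hA)]
      refine ⟨Function.update n i (n i + 1), Function.update D' i (D' i \ A), B',
        ⟨hB'W.trans h1, ?_, ?_, ?_, ?_⟩, ?_⟩
      · rw [← Finset.card_pos]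
        have : (0 : ℝ) < B'.card := by linarith
        exact_mod_cast this
      · rw [hsumn, mul_add, mul_one, pow_add, ← hεe]
        calc (1 / 2 : ℝ) ^ ((e + 1) * ∑ i ∈ Finset.range d, n i) * (ε / 2) * U.card
            = ε / 2 * ((1 / 2 : ℝ) ^ ((e + 1) * ∑ i ∈ Finset.range d, n i) * U.card) := by ring
          _ ≤ ε / 2 * W.card := mul_le_mul_of_nonneg_left h3 (by positivity)
          _ ≤ B.card / 2 := by linarith
          _ ≤ _ := hB'c
      · intro j hj
        by_cases hji : j = i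
        · subst hji
          rw [Function.update_self, Function.update_self]
          refine ⟨Finset.sdiff_subset.trans (h4 j hj).1, ?_⟩
          rw [hcardA, pow_succ]
          have h6 := (h4 j hj).2
          have h7 : ((D' j).card : ℝ) - A.card ≤ (1 - ε) * (D' j).card := by linarith
          calc ((D' j).card : ℝ) - A.card ≤ (1 - ε) * (D' j).card := h7
            _ ≤ (1 - ε) * ((1 - ε) ^ n j * (D j).card) :=
                mul_le_mul_of_nonneg_left h6 (by linarith)
            _ = _ := by ring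
        · rw [Function.update_of_ne hji, Function.update_of_ne hji]
          exact h4 j hj
      · intro v hv j hj
        have hvW := hB'W hv
        by_cases hji : j = i
        · subst hji
          rw [Function.update_self, hcardA]
          have h6 := h5 v hvW j hj
          have h7 : ((A.filter (fun a => (G (c j)).Adj v a)).card : ℝ) ≤ κ / 4 * A.card :=
            (Finset.mem_filter.mp hv).2
          have h8 : (((D' j).filter (fun u => (G (c j)).Adj v u)).card : ℝ)
              ≤ (((D' j \ A).filter (fun u => (G (c j)).Adj v u)).card : ℝ)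
                + ((A.filter (fun a => (G (c j)).Adj v a)).card : ℝ) := by
            have : (D' j).filter (fun u => (G (c j)).Adj v u)
                ⊆ (D' j \ A).filter (fun u => (G (c j)).Adj v u)
                  ∪ A.filter (fun a => (G (c j)).Adj v a) := by
              intro u hu
              rw [Finset.mem_filter] at hu
              rw [Finset.mem_union, Finset.mem_filter, Finset.mem_filter, Finset.mem_sdiff]
              by_cases huA : u ∈ A
              · exact Or.inr ⟨huA, hu.2⟩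
              · exact Or.inl ⟨⟨hu.1, huA⟩, hu.2⟩
            exact_mod_cast (Finset.card_le_card this).trans (Finset.card_union_le _ _)
          linarith
        · rw [Function.update_of_ne hji]
          exact h5 v hvW j hj
      · rw [hsumn, hf]
  obtain ⟨n, D', W, hSt, hf⟩ := main (d * n0 + 1)
  have hnlt' := hnlt n D' W hSt
  have hsum : ∑ i ∈ Finset.range d, n i ≤ d * n0 := by
    calc ∑ i ∈ Finset.range d, n i ≤ ∑ i ∈ Finset.range d, n0 :=
          Finset.sum_le_sum fun i hi => (hnlt' i (Finset.mem_range.mp hi)).le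
      _ = _ := by rw [Finset.sum_const, Finset.card_range, smul_eq_mul]
  omega

lemma num_n0 (K e : ℕ) (hK : 0 < K) :
    (1 - (1 / 2 : ℝ) ^ e) ^ (2 ^ e * (K + 2)) < 1 / (K : ℝ) / 4 := by
  have hK' : (0 : ℝ) < K := by exact_mod_cast hK
  have h1 : 1 - (1 / 2 : ℝ) ^ e ≤ Real.exp (-(1 / 2 : ℝ) ^ e) := by
    have := Real.add_one_le_exp (-(1 / 2 : ℝ) ^ e); linarith
  have h0 : 0 ≤ 1 - (1 / 2 : ℝ) ^ e := by
    have : (1 / 2 : ℝ) ^ e ≤ 1 := pow_le_one₀ (by norm_num) (by norm_num)
    linarith
  have h2 : (1 - (1 / 2 : ℝ) ^ e) ^ (2 ^ e * (K + 2)) ≤ Real.exp (-((K : ℝ) + 2)) := by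
    calc (1 - (1 / 2 : ℝ) ^ e) ^ (2 ^ e * (K + 2))
        ≤ (Real.exp (-(1 / 2 : ℝ) ^ e)) ^ (2 ^ e * (K + 2)) := pow_le_pow_left₀ h0 h1 _
      _ = Real.exp (-((K : ℝ) + 2)) := by
          rw [← Real.exp_nat_mul]
          congr 1
          push_cast
          have : (2 : ℝ) ^ e * (1 / 2) ^ e = 1 := by rw [← mul_pow]; norm_num
          calc (2 : ℝ) ^ e * (K + 2) * -(1 / 2) ^ e = -((2 : ℝ) ^ e * (1 / 2) ^ e) * (K + 2) := by ring
            _ = _ := by rw [this]; ring
  refine lt_of_le_of_lt h2 ?_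
  rw [Real.exp_neg, div_div, one_div]
  apply inv_strictAnti₀ (by positivity)
  have h3 : (2 : ℝ) < Real.exp 1 := by
    have := Real.exp_one_gt_d9; linarith
  have h4 : (K : ℝ) < 2 ^ K := by exact_mod_cast Nat.lt_two_pow_self
  calc (K : ℝ) * 4 < 2 ^ K * 4 := by linarith
    _ = 2 ^ (K + 2) := by rw [pow_add]; norm_num
    _ ≤ (Real.exp 1) ^ (K + 2) := pow_le_pow_left₀ (by norm_num) h3.le _
    _ = Real.exp ((K : ℝ) + 2) := by
        rw [← Real.exp_nat_mul]; push_cast; ring_nf

end

end Run7.h755
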