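import Mathlib
import Pool.Agent.Run7.h755.BiP
import Pool.Agent.Run7.h755.Cov

open Finset
open scoped Classical

namespace Run7.h755

section
variable {X V : Type*} [Fintype X] {k : ℕ}

theorem tile_embed (F : SimpleGraph X) (G : SimpleGraph V) (Δ : ℕ)
    (hΔ : ∀ x, (Finset.univ.filter (fun z => F.Adj x z)).card ≤ Δ)
    (col : X → Fin k) (hcol : ∀ x y, F.Adj x y → col x ≠ col y)
    (Y : Finset X) (hs1 : ∀ y ∈ Y, ∀ y' ∈ Y, ¬ F.Adj y y')
    (hs2 : ∀ y ∈ Y, ∀ y' ∈ Y, y ≠ y' → ∀ x, F.Adj y x → ¬ F.Adj y' x)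
    (Q B : Finset V) (hQ : Q.Nonempty) (hYQ : Y.card = Q.card)
    (D : Fin k → Finset V) (ε δ η : ℝ) (hε : 0 ≤ ε) (hδ0 : 0 < δ) (hδ1 : δ ≤ 1) (hη0 : 0 < η)
    (hη1 : η ≤ 1) (hεδ : ε ≤ δ ^ Δ * η)
    (hB : ∀ i j, i < j → BiP G ε δ (D i) (D j))
    (hdeg : ∀ v ∈ Q, ∀ j, η * (D j).card ≤ (((D j).filter (fun u => G.Adj v u)).card : ℝ))
    (hdis : ∀ j, Disjoint Q (D j))
    (hsize : ∀ j, (Fintype.card X : ℝ) + ((D j) ∩ B).card + Δ * (ε * (D j).card)
      < δ ^ Δ * (η * (D j).card)) :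
    ∃ ψ : X → V, Function.Injective ψ ∧ (∀ a b, F.Adj a b → G.Adj (ψ a) (ψ b)) ∧
      Q ⊆ univ.image ψ ∧ ∀ x, ψ x ∈ Q ∨ ∃ j, ψ x ∈ D j ∧ ψ x ∉ B := by
  obtain ⟨v0, hv0⟩ := hQ
  let e : Y ≃ Q := Finset.equivOfCardEq hYQ
  let q : X → V := fun y => if h : y ∈ Y then (e ⟨y, h⟩ : V) else v0
  have hqQ : ∀ y, q y ∈ Q := by
    intro y
    by_cases h : y ∈ Y
    · simp only [q, h, dite_true]; exact (e ⟨y, h⟩).2
    · simp only [q, h, dite_false]; exact hv0
  have hqinj : ∀ y ∈ Y, ∀ y' ∈ Y, q y = q y' → y = y' := by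
    intro y hy y' hy' h
    simp only [q, hy, hy', dite_true] at h
    have := e.injective (Subtype.ext h)
    exact congrArg Subtype.val this
  have hqsurj : ∀ v ∈ Q, ∃ y ∈ Y, q y = v := by
    intro v hv
    refine ⟨e.symm ⟨v, hv⟩, (e.symm ⟨v, hv⟩).2, ?_⟩
    have h1 : ((e.symm ⟨v, hv⟩ : Y) : X) ∈ Y := (e.symm ⟨v, hv⟩).2
    simp only [q, h1, dite_true]
    simp
  let T : X → Finset V := fun x => if h : ∃ y ∈ Y, F.Adj y x then
    (D (col x)).filter (fun u => G.Adj (q h.choose) u) else D (col x)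
  have hT1 : ∀ x, T x ⊆ D (col x) := by
    intro x
    by_cases h : ∃ y ∈ Y, F.Adj y x
    · simp only [T, h, dite_true]; exact Finset.filter_subset _ _
    · simp only [T, h, dite_false]; exact Finset.Subset.refl _
  have hT2 : ∀ x, ∀ y ∈ Y, F.Adj y x → ∀ u ∈ T x, G.Adj (q y) u := by
    intro x y hy hyx u hu
    have h : ∃ y ∈ Y, F.Adj y x := ⟨y, hy, hyx⟩
    simp only [T, h, dite_true] at hu
    have : h.choose = y := by
      by_contra hne
      exact hs2 _ h.choose_spec.1 y hy hne x h.choose_spec.2 hyx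
    rw [this] at hu
    exact (Finset.mem_filter.mp hu).2
  have hT3 : ∀ x, η * (D (col x)).card ≤ ((T x).card : ℝ) := by
    intro x
    by_cases h : ∃ y ∈ Y, F.Adj y x
    · simp only [T, h, dite_true]; exact hdeg _ (hqQ _) _
    · simp only [T, h, dite_false]
      have : (0 : ℝ) ≤ (D (col x)).card := Nat.cast_nonneg _
      nlinarith
  have hAcard : ∀ x (A : Finset X), (∀ a ∈ A, F.Adj x a) → A.card ≤ Δ := by
    intro x A hA
    refine (Finset.card_le_card ?_).trans (hΔ x)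
    intro a ha
    simp [hA a ha]
  set L := (univ \ Y).toList with hL
  have hpw : L.Pairwise (fun z x => F.Adj x z → ∀ (A : Finset X) (C : Finset V), z ∉ A →
      (∀ a ∈ A, F.Adj x a) → C ⊆ T x → δ ^ A.card * (η * (D (col x)).card) ≤ (C.card : ℝ) →
      (((T z).filter (fun u => ¬ (δ ^ (insert z A).card * (η * (D (col x)).card) ≤
        ((C.filter (fun w => G.Adj u w)).card : ℝ)))).card : ℝ) ≤ ε * (D (col z)).card) := by
    refine List.pairwise_of_forall ?_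
    intro z x hxz A C hzA hA hC hInv
    have hcA := hAcard x A hA
    have hC' : C ⊆ D (col x) := hC.trans (hT1 x)
    have hD0 : (0 : ℝ) ≤ (D (col x)).card := Nat.cast_nonneg _
    have hCε : ε * (D (col x)).card ≤ C.card := by
      refine le_trans ?_ hInv
      have h3 : δ ^ Δ ≤ δ ^ A.card := pow_le_pow_of_le_one hδ0.le hδ1 hcA
      calc ε * (D (col x)).card ≤ δ ^ Δ * η * (D (col x)).card :=
            mul_le_mul_of_nonneg_right hεδ hD0
        _ = δ ^ Δ * (η * (D (col x)).card) := by ring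
        _ ≤ _ := mul_le_mul_of_nonneg_right h3 (by positivity)
    have hs : δ ^ (insert z A).card * (η * (D (col x)).card) ≤ δ * C.card := by
      rw [Finset.card_insert_of_notMem hzA, pow_succ]
      calc δ ^ A.card * δ * (η * (D (col x)).card)
          = δ * (δ ^ A.card * (η * (D (col x)).card)) := by ring
        _ ≤ _ := mul_le_mul_of_nonneg_left hInv hδ0.le
    rcases lt_or_gt_of_ne (hcol x z hxz) with h | h
    · exact bip_bad_right (hB _ _ h) hC' hCε (hT1 z) _ hε hs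
    · exact bip_bad_left (hB _ _ h) hC' hCε (hT1 z) _ hε hs
  obtain ⟨ψ, _, hψ⟩ := seq_embed F G T B (fun x A C => δ ^ A.card * (η * (D (col x)).card) ≤ (C.card : ℝ))
    (fun z => ε * (D (col z)).card) (fun z => by positivity) Δ hΔ L ∅ (fun _ => v0)
    (Finset.nodup_toList _) (by simp) hpw
    (by
      intro x _ A C hA _ hInv
      refine lt_of_lt_of_le ?_ hInv
      have hcA := hAcard x A hA
      have h3 : δ ^ Δ * (η * (D (col x)).card) ≤ δ ^ A.card * (η * (D (col x)).card) :=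
        mul_le_mul_of_nonneg_right (pow_le_pow_of_le_one hδ0.le hδ1 hcA) (by positivity)
      refine lt_of_lt_of_le ?_ h3
      refine lt_of_le_of_lt ?_ (hsize (col x))
      have h4 : (((T x) ∩ B).card : ℝ) ≤ ((D (col x)) ∩ B).card :=
        Nat.cast_le.mpr (Finset.card_le_card (Finset.inter_subset_inter_right (hT1 x)))
      linarith)
    ⟨by simp, by simp, by simp, by simp⟩
    (by
      intro x _
      have h1 : nin F (∅ : Finset X) x = ∅ := by simp [nin]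
      have h2 : cand F G T (∅ : Finset X) (fun _ => v0) x = T x := by simp [cand]
      rw [h1, h2]
      simpa using hT3 x)
  have hmem : ∀ x, x ∉ Y → x ∈ (∅ : Finset X) ∪ L.toFinset := by
    intro x hx; simp [hL, hx]
  let ψ' : X → V := fun x => if x ∈ Y then q x else ψ x
  have hψY : ∀ x ∈ Y, ψ' x = q x := fun x hx => by simp only [ψ', hx, if_true]
  have hψN : ∀ x, x ∉ Y → ψ' x = ψ x := fun x hx => by simp only [ψ', hx, if_false]
  have hcross : ∀ x y, x ∉ Y → y ∈ Y → ψ x ≠ q y := by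
    intro x y hx _ h
    have h1 := hT1 x (hψ.tgt x (hmem x hx))
    rw [h] at h1
    exact (Finset.disjoint_left.mp (hdis (col x))) (hqQ y) h1
  refine ⟨ψ', ?_, ?_, ?_, ?_⟩
  · intro a b hab
    by_cases ha : a ∈ Y <;> by_cases hb : b ∈ Y
    · rw [hψY a ha, hψY b hb] at hab
      exact hqinj a ha b hb hab
    · rw [hψY a ha, hψN b hb] at hab
      exact absurd hab.symm (hcross b a hb ha)
    · rw [hψN a ha, hψY b hb] at hab
      exact absurd hab (hcross a b ha hb)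
    · rw [hψN a ha, hψN b hb] at hab
      exact hψ.inj (by exact_mod_cast hmem a ha) (by exact_mod_cast hmem b hb) hab
  · intro a b hab
    by_cases ha : a ∈ Y <;> by_cases hb : b ∈ Y
    · exact absurd hab (hs1 a ha b hb)
    · rw [hψY a ha, hψN b hb]
      exact hT2 b a ha hab _ (hψ.tgt b (hmem b hb))
    · rw [hψN a ha, hψY b hb]
      exact (hT2 a b hb hab.symm _ (hψ.tgt a (hmem a ha))).symm
    · rw [hψN a ha, hψN b hb]
      exact hψ.adj a (hmem a ha) b (hmem b hb) hab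
  · intro v hv
    obtain ⟨y, hy, rfl⟩ := hqsurj v hv
    rw [← hψY y hy]
    exact Finset.mem_image_of_mem _ (Finset.mem_univ _)
  · intro x
    by_cases hx : x ∈ Y
    · left; rw [hψY x hx]; exact hqQ x
    · right
      rw [hψN x hx]
      exact ⟨col x, hT1 x (hψ.tgt x (hmem x hx)), hψ.avoid x (hmem x hx)⟩

end

section
variable {V : Type*} {K : ℕ} {Fam : ∀ r : ℕ, SimpleGraph (Fin r)} {G : Fin K → SimpleGraph V}

theorem tile_cov (Δ : ℕ)
    (hFam : ∀ r, ∀ x : Fin r, (Finset.univ.filter (fun z => (Fam r).Adj x z)).card ≤ Δ)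
    (k : ℕ) (hcol : ∀ r, ∃ col : Fin r → Fin k, ∀ x y, (Fam r).Adj x y → col x ≠ col y)
    (c : Fin K) (Q B : Finset V)
    (D : Fin k → Finset V) (ε δ η : ℝ) (hε : 0 ≤ ε) (hδ0 : 0 < δ) (hδ1 : δ ≤ 1) (hη0 : 0 < η)
    (hη1 : η ≤ 1) (hεδ : ε ≤ δ ^ Δ * η)
    (hB : ∀ i j, i < j → BiP (G c) ε δ (D i) (D j))
    (hdeg : ∀ v ∈ Q, ∀ j, η * (D j).card ≤ (((D j).filter (fun u => (G c).Adj v u)).card : ℝ))
    (hdis : ∀ j, Disjoint Q (D j))
    (hsize : ∀ j, ((((Δ + 1) ^ 4 * Q.card : ℕ)) : ℝ) + ((D j) ∩ B).card + Δ * (ε * (D j).card)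
      < δ ^ Δ * (η * (D j).card)) :
    ∃ Z : Finset V, Q ⊆ Z ∧ (∀ v ∈ Z, v ∈ Q ∨ ∃ j, v ∈ D j ∧ v ∉ B) ∧
      (Z \ Q).card ≤ (Δ + 1) ^ 4 * Q.card ∧ Cov Fam G 1 Z := by
  by_cases hQ : Q.Nonempty
  swap
  · rw [Finset.not_nonempty_iff_eq_empty] at hQ
    subst hQ
    exact ⟨∅, by simp, by simp, by simp, cov_empty 1⟩
  obtain ⟨Y, κ, hF, hYc⟩ := exists_FStr (Fam ((Δ + 1) ^ 4 * Q.card)) Δ
    (fun x => by convert hFam _ x)
  rw [Fintype.card_fin] at hYc
  have hYQ : Q.card ≤ Y.card := Nat.le_of_mul_le_mul_left hYc (by positivity)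
  obtain ⟨Y', hY', hY'c⟩ := Finset.exists_subset_card_eq hYQ
  obtain ⟨col, hcolx⟩ := hcol ((Δ + 1) ^ 4 * Q.card)
  obtain ⟨ψ, h1, h2, h3, h4⟩ := tile_embed (Fam ((Δ + 1) ^ 4 * Q.card)) (G c) Δ
    (fun x => by convert hFam _ x) col hcolx Y'
    (fun y hy y' hy' => hF.sep1 y (hY' hy) y' (hY' hy'))
    (fun y hy y' hy' hne => hF.sep2 y (hY' hy) y' (hY' hy') hne)
    Q B hQ hY'c D ε δ η hε hδ0 hδ1 hη0 hη1 hεδ hB hdeg hdis
    (by intro j; rw [Fintype.card_fin]; exact hsize j)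
  refine ⟨univ.image ψ, h3, ?_, ?_, cov_of_map c ψ h1 h2⟩
  · intro v hv
    obtain ⟨x, _, rfl⟩ := Finset.mem_image.mp hv
    exact h4 x
  · refine (Finset.card_le_card Finset.sdiff_subset).trans ?_
    refine Finset.card_image_le.trans ?_
    rw [Finset.card_univ, Fintype.card_fin]

end

end Run7.h755
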