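import Mathlib
import Pool.Agent.Run7.h755.Tile

open Finset
open scoped Classical

namespace Run7.h755

section
variable {V : Type*} {K : ℕ}

/-- state of the path recursion -/
structure PSt (G : Fin K → SimpleGraph V) (m J : ℕ) (κ : ℝ) (ρ : ℕ → ℝ) (ε δ : ℝ) (E : ℕ)
    (r d : ℕ) (D0 D : ℕ → Finset V) (c : ℕ → Fin K) (s : ℕ → ℕ) (Q B : Finset V) : Prop where
  hd : d ≤ m
  fuel : (m - d) * (m * J + 1) + ∑ i ∈ Finset.range d, (J - s i) ≤ r
  sJ : ∀ i < d, s i ≤ J
  sub : ∀ i < d, D i ⊆ D0 i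
  shr : ∀ i < d, ((D i).card : ℝ) ≤ (1 - κ / 4) ^ (s i) * (D0 i).card
  bip : ∀ i j, i < j → j < d → BiP (G (c i)) ε δ (D i) (D j)
  deg : ∀ v ∈ Q, ∀ i < d, ρ d * (D0 i).card - ρ (d + 1) * ((D0 i).card - (D i).card)
    ≤ (((D i).filter (fun u => (G (c i)).Adj v u)).card : ℝ)
  szQ : ∀ i < d, (2 : ℝ) ^ E * Q.card ≤ (D i).card
  szB : ∀ i < d, (2 : ℝ) ^ E * ((B ∩ D i).card : ℝ) ≤ (D i).card
  disD : ∀ i < d, Disjoint Q (D i)
  disB : Disjoint Q B

variable {G : Fin K → SimpleGraph V} {m J : ℕ} {κ : ℝ} {ρ : ℕ → ℝ} {ε ε' δ : ℝ} {E E' : ℕ}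
  {r d : ℕ} {D0 D : ℕ → Finset V} {c : ℕ → Fin K} {s : ℕ → ℕ} {Q B : Finset V}

lemma PSt.deg_low (h : PSt G m J κ ρ ε δ E r d D0 D c s Q B)
    (hρ1 : ∀ d ≤ m, κ / 2 ≤ ρ d) (hρ3 : ∀ d ≤ m, ρ (d + 1) ≤ ρ d)
    {v : V} (hv : v ∈ Q) {i : ℕ} (hi : i < d) :
    κ / 2 * (D i).card ≤ (((D i).filter (fun u => (G (c i)).Adj v u)).card : ℝ) := by
  have h1 := h.deg v hv i hi
  have h2 : ((D i).card : ℝ) ≤ (D0 i).card := Nat.cast_le.mpr (Finset.card_le_card (h.sub i hi))
  have h3 := hρ1 d h.hd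
  have h4 := hρ3 d h.hd
  have h5 : (0 : ℝ) ≤ (D i).card := Nat.cast_nonneg _
  have h6 : 0 ≤ (ρ d - ρ (d + 1)) * (((D0 i).card : ℝ) - (D i).card) :=
    mul_nonneg (by linarith) (by linarith)
  have h7 : κ / 2 * (D i).card ≤ ρ d * (D i).card := mul_le_mul_of_nonneg_right h3 h5
  nlinarith

theorem pst_inc (h : PSt G m J κ ρ ε δ E (r + 1) d D0 D c s Q B)
    (hκ0 : 0 < κ) (hκ1 : κ ≤ 1) (g : ℝ) (hg0 : 0 < g) (hg1 : g ≤ 1)
    (hρ3 : ∀ d ≤ m, ρ d - ρ (d + 1) = g) (hρ4 : ∀ d ≤ m, 0 ≤ ρ (d + 1))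
    (hJ : (1 - κ / 4) ^ (J + 1) < g)
    (x : ℕ) (hx : 2 * (1 / 2 : ℝ) ^ x ≤ g) (hε0 : 0 ≤ ε') (hεε : ε = ε' * (1 / 2) ^ x)
    (hE : E = E' + x)
    (i0 : ℕ) (hi0 : i0 < d) (D' : Finset V) (hD' : D' ⊆ D i0)
    (hD'c : κ / 4 * (D i0).card ≤ D'.card)
    (q B' : Finset V) (hq : q ⊆ Q) (hqne : q.Nonempty)
    (hinc : ∀ v ∈ q, ((D'.filter (fun u => (G (c i0)).Adj v u)).card : ℝ) < ρ (d + 1) * D'.card)
    (hB' : ∀ j < d, (2 : ℝ) ^ E * ((B' \ B).card : ℝ) ≤ (D j).card)
    (hqB : Disjoint q B') :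
    PSt G m J κ ρ ε' δ E' r d D0 (Function.update D i0 (D i0 \ D')) c
      (Function.update s i0 (s i0 + 1)) q B' := by
  have hirange : i0 ∈ Finset.range d := Finset.mem_range.mpr hi0
  have hcardD : (((D i0) \ D').card : ℝ) = (D i0).card - D'.card := by
    rw [Finset.card_sdiff_of_subset hD', Nat.cast_sub (Finset.card_le_card hD')]
  -- degrees into the new core
  have hdeg : ∀ v ∈ q, ρ d * (D0 i0).card - ρ (d + 1) * ((D0 i0).card - ((D i0) \ D').card)
      ≤ ((((D i0) \ D').filter (fun u => (G (c i0)).Adj v u)).card : ℝ) := by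
    intro v hv
    have h1 := h.deg v (hq hv) i0 hi0
    have h2 := hinc v hv
    have h3 : (((D i0).filter (fun u => (G (c i0)).Adj v u)).card : ℝ)
        ≤ ((((D i0) \ D').filter (fun u => (G (c i0)).Adj v u)).card : ℝ)
          + ((D'.filter (fun u => (G (c i0)).Adj v u)).card : ℝ) := by
      have : (D i0).filter (fun u => (G (c i0)).Adj v u)
          ⊆ ((D i0) \ D').filter (fun u => (G (c i0)).Adj v u)
            ∪ D'.filter (fun u => (G (c i0)).Adj v u) := by
        intro u hu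
        rw [Finset.mem_filter] at hu
        rw [Finset.mem_union, Finset.mem_filter, Finset.mem_filter, Finset.mem_sdiff]
        by_cases huA : u ∈ D'
        · exact Or.inr ⟨huA, hu.2⟩
        · exact Or.inl ⟨⟨hu.1, huA⟩, hu.2⟩
      exact_mod_cast (Finset.card_le_card this).trans (Finset.card_union_le _ _)
    rw [hcardD]
    nlinarith
  have hρd := hρ3 d h.hd
  have hρd1 := hρ4 d h.hd
  -- size of the new core
  obtain ⟨v1, hv1⟩ := hqne
  have hnew0 : g * (D0 i0).card ≤ (((D i0) \ D').card : ℝ) := by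
    have h1 := hdeg v1 hv1
    have h2 : ((((D i0) \ D').filter (fun u => (G (c i0)).Adj v1 u)).card : ℝ)
        ≤ (((D i0) \ D').card : ℝ) :=
      Nat.cast_le.mpr (Finset.card_le_card (Finset.filter_subset _ _))
    have h3 : 0 ≤ ρ (d + 1) * (((D i0) \ D').card : ℝ) := mul_nonneg hρd1 (Nat.cast_nonneg _)
    have h4 : ρ d * ((D0 i0).card : ℝ) - ρ (d + 1) * (D0 i0).card = g * (D0 i0).card := by
      rw [← hρd]; ring
    linarith
  have hDD0 : ((D i0).card : ℝ) ≤ (D0 i0).card :=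
    Nat.cast_le.mpr (Finset.card_le_card (h.sub i0 hi0))
  have hnew : g * (D i0).card ≤ (((D i0) \ D').card : ℝ) :=
    (mul_le_mul_of_nonneg_left hDD0 hg0.le).trans hnew0
  have hQpos : (0 : ℝ) < Q.card := by
    exact_mod_cast Finset.card_pos.mpr ⟨v1, hq hv1⟩
  have hDpos : ∀ i < d, (0 : ℝ) < (D i).card := by
    intro i hi
    exact lt_of_lt_of_le (by positivity) (h.szQ i hi)
  have hshr : (((D i0) \ D').card : ℝ) ≤ (1 - κ / 4) ^ (s i0 + 1) * (D0 i0).card := by
    rw [hcardD, pow_succ]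
    have h1 := h.shr i0 hi0
    calc ((D i0).card : ℝ) - D'.card ≤ (1 - κ / 4) * (D i0).card := by linarith
      _ ≤ (1 - κ / 4) * ((1 - κ / 4) ^ (s i0) * (D0 i0).card) :=
          mul_le_mul_of_nonneg_left h1 (by linarith)
      _ = _ := by ring
  have hsJ : s i0 < J := by
    by_contra hcon
    have hcon' : s i0 = J := le_antisymm (h.sJ i0 hi0) (not_lt.mp hcon)
    rw [hcon'] at hshr
    have hD0pos : (0 : ℝ) < (D0 i0).card := lt_of_lt_of_le (hDpos i0 hi0) hDD0
    have := mul_lt_mul_of_pos_right hJ hD0pos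
    linarith
  have hx1 : (1 / 2 : ℝ) ^ x ≤ g := by
    have : (0 : ℝ) ≤ (1 / 2) ^ x := by positivity
    linarith
  have hDn : ∀ j < d, Function.update D i0 (D i0 \ D') j ⊆ D j ∧
      g * (D j).card ≤ ((Function.update D i0 (D i0 \ D') j).card : ℝ) := by
    intro j hj
    by_cases hji : j = i0
    · subst hji
      rw [Function.update_self]
      exact ⟨Finset.sdiff_subset, hnew⟩
    · rw [Function.update_of_ne hji]
      refine ⟨Finset.Subset.refl _, ?_⟩
      have := hDpos j hj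
      nlinarith
  have hεm : ∀ j < d, ε * (D j).card ≤ ε' * ((Function.update D i0 (D i0 \ D') j).card : ℝ) := by
    intro j hj
    have h1 := (hDn j hj).2
    have h2 := hDpos j hj
    calc ε * (D j).card = ε' * ((1 / 2) ^ x * (D j).card) := by rw [hεε]; ring
      _ ≤ ε' * (g * (D j).card) := by gcongr
      _ ≤ _ := mul_le_mul_of_nonneg_left h1 hε0
  have h2E : (2 : ℝ) ^ E = 2 ^ E' * 2 ^ x := by rw [hE, pow_add]
  have hxx : (2 : ℝ) ^ x * (1 / 2) ^ x = 1 := by rw [← mul_pow]; norm_num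
  refine ⟨h.hd, ?_, ?_, ?_, ?_, ?_, ?_, ?_, ?_, ?_, hqB⟩
  · have h1 : ∑ i ∈ Finset.range d, (J - Function.update s i0 (s i0 + 1) i) + 1
        = ∑ i ∈ Finset.range d, (J - s i) := by
      rw [← Finset.add_sum_erase _ _ hirange, ← Finset.add_sum_erase _ (fun i => J - s i) hirange,
        Function.update_self]
      have h2 : ∑ i ∈ (Finset.range d).erase i0, (J - Function.update s i0 (s i0 + 1) i)
          = ∑ i ∈ (Finset.range d).erase i0, (J - s i) := by
        refine Finset.sum_congr rfl fun i hi => ?_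
        rw [Function.update_of_ne (Finset.ne_of_mem_erase hi)]
      rw [h2]
      omega
    have h3 := h.fuel
    omega
  · intro i hi
    by_cases hii : i = i0
    · subst hii; rw [Function.update_self]; omega
    · rw [Function.update_of_ne hii]; exact h.sJ i hi
  · intro i hi
    exact (hDn i hi).1.trans (h.sub i hi)
  · intro i hi
    by_cases hii : i = i0
    · subst hii; rw [Function.update_self, Function.update_self]; exact hshr
    · rw [Function.update_of_ne hii, Function.update_of_ne hii]; exact h.shr i hi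
  · intro i j hij hj
    exact (h.bip i j hij hj).mono (hDn i (by omega)).1 (hDn j hj).1 (hεm i (by omega)) (hεm j hj)
  · intro v hv i hi
    by_cases hii : i = i0
    · subst hii; rw [Function.update_self]; exact hdeg v hv
    · rw [Function.update_of_ne hii]; exact h.deg v (hq hv) i hi
  · intro i hi
    have h1 := h.szQ i hi
    have h2 := (hDn i hi).2
    have h3 : (q.card : ℝ) ≤ Q.card := Nat.cast_le.mpr (Finset.card_le_card hq)
    have h4 := hDpos i hi
    calc (2 : ℝ) ^ E' * q.card ≤ 2 ^ E' * Q.card := by gcongr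
      _ = (1 / 2) ^ x * (2 ^ E * Q.card) := by
          rw [h2E]
          calc (2 : ℝ) ^ E' * Q.card = 2 ^ E' * Q.card * 1 := by ring
            _ = 2 ^ E' * Q.card * (2 ^ x * (1 / 2) ^ x) := by rw [hxx]
            _ = _ := by ring
      _ ≤ (1 / 2) ^ x * (D i).card := by gcongr
      _ ≤ g * (D i).card := by gcongr
      _ ≤ _ := h2
  · intro i hi
    have h1 := h.szB i hi
    have h2 := (hDn i hi).2
    have h3 := hB' i hi
    have h4 := hDpos i hi
    have h5 : ((B' ∩ Function.update D i0 (D i0 \ D') i).card : ℝ)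
        ≤ ((B ∩ D i).card : ℝ) + ((B' \ B).card : ℝ) := by
      have : B' ∩ Function.update D i0 (D i0 \ D') i ⊆ (B ∩ D i) ∪ (B' \ B) := by
        intro u hu
        rw [Finset.mem_inter] at hu
        rw [Finset.mem_union, Finset.mem_inter, Finset.mem_sdiff]
        by_cases huB : u ∈ B
        · exact Or.inl ⟨huB, (hDn i hi).1 hu.2⟩
        · exact Or.inr ⟨hu.1, huB⟩
      exact_mod_cast (Finset.card_le_card this).trans (Finset.card_union_le _ _)
    calc (2 : ℝ) ^ E' * ((B' ∩ Function.update D i0 (D i0 \ D') i).card : ℝ)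
        ≤ 2 ^ E' * (((B ∩ D i).card : ℝ) + ((B' \ B).card : ℝ)) := by gcongr
      _ = (1 / 2) ^ x * (2 ^ E * ((B ∩ D i).card : ℝ) + 2 ^ E * ((B' \ B).card : ℝ)) := by
          rw [h2E]
          calc (2 : ℝ) ^ E' * (((B ∩ D i).card : ℝ) + ((B' \ B).card : ℝ))
              = 2 ^ E' * (((B ∩ D i).card : ℝ) + ((B' \ B).card : ℝ)) * 1 := by ring
            _ = 2 ^ E' * (((B ∩ D i).card : ℝ) + ((B' \ B).card : ℝ)) * (2 ^ x * (1 / 2) ^ x) := by
                rw [hxx]
            _ = _ := by ring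
      _ ≤ (1 / 2) ^ x * ((D i).card + (D i).card) := by gcongr
      _ = 2 * (1 / 2) ^ x * (D i).card := by ring
      _ ≤ g * (D i).card := by gcongr
      _ ≤ _ := h2
  · intro i hi
    exact Finset.disjoint_of_subset_left hq
      (Finset.disjoint_of_subset_right (hDn i hi).1 (h.disD i hi))

theorem pst_cmp (h : PSt G m J κ ρ ε δ E (r + 1) d D0 D c s Q B) (hdm : d < m)
    (hκ0 : 0 < κ) (hκ1 : κ ≤ 1) (g : ℝ) (hg0 : 0 < g) (hg1 : g ≤ κ / 4)
    (hρ2 : ∀ d ≤ m, ρ d ≤ κ)
    (x : ℕ) (hx : 2 * (1 / 2 : ℝ) ^ x ≤ g) (hε0 : 0 ≤ ε') (hεε : ε = ε' * (1 / 2) ^ x)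
    (hE : E = E' + x)
    (D' : ℕ → Finset V) (hD' : ∀ i < d, D' i ⊆ D i)
    (hD'c : ∀ i < d, κ / 4 * (D i).card ≤ (D' i).card)
    (W : Finset V) (hW : W ⊆ Q) (hbW : ∀ i < d, BiP (G (c i)) ε δ (D' i) W)
    (q B' : Finset V) (hq : q ⊆ Q) (hqW : Disjoint q W) (c' : Fin K)
    (hcmp : ∀ v ∈ q, ∀ i < d, ρ (d + 1) * (D' i).card
      ≤ (((D' i).filter (fun u => (G (c i)).Adj v u)).card : ℝ))
    (hmaj : ∀ v ∈ q, κ * W.card ≤ ((W.filter (fun u => (G c').Adj v u)).card : ℝ))
    (hB' : ∀ j < d, (2 : ℝ) ^ E * ((B' \ B).card : ℝ) ≤ (D j).card)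
    (hBW : (2 : ℝ) ^ E' * ((B' \ B).card : ℝ) ≤ W.card)
    (hqWc : (2 : ℝ) ^ E' * q.card ≤ W.card)
    (hqB : Disjoint q B') :
    PSt G m J κ ρ ε' δ E' r (d + 1) (fun i => if i < d then D' i else W)
      (fun i => if i < d then D' i else W) (fun i => if i < d then c i else c')
      (fun _ => 0) q B' := by
  have hx1 : (1 / 2 : ℝ) ^ x ≤ g := by
    have : (0 : ℝ) ≤ (1 / 2) ^ x := by positivity
    linarith
  have hx2 : (1 / 2 : ℝ) ^ x ≤ 1 := pow_le_one₀ (by norm_num) (by norm_num)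
  have h2E : (2 : ℝ) ^ E = 2 ^ E' * 2 ^ x := by rw [hE, pow_add]
  have hxx : (2 : ℝ) ^ x * (1 / 2) ^ x = 1 := by rw [← mul_pow]; norm_num
  have hgD : ∀ i < d, g * (D i).card ≤ ((D' i).card : ℝ) := fun i hi =>
    (mul_le_mul_of_nonneg_right hg1 (Nat.cast_nonneg _)).trans (hD'c i hi)
  have hεm : ∀ j < d, ε * (D j).card ≤ ε' * ((D' j).card : ℝ) := by
    intro j hj
    have h1 := hgD j hj
    calc ε * (D j).card = ε' * ((1 / 2) ^ x * (D j).card) := by rw [hεε]; ring
      _ ≤ ε' * (g * (D j).card) := by gcongr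
      _ ≤ _ := mul_le_mul_of_nonneg_left h1 hε0
  have hεe : ε ≤ ε' := by
    rw [hεε]
    nlinarith
  refine ⟨by omega, ?_, ?_, ?_, ?_, ?_, ?_, ?_, ?_, ?_, hqB⟩
  · have h1 := h.fuel
    have h2 : ∑ i ∈ Finset.range (d + 1), (J - (fun _ : ℕ => 0) i) = (d + 1) * J := by
      simp
    rw [h2]
    have h3 : (d + 1) * J ≤ m * J := Nat.mul_le_mul_right _ (by omega)
    have h4 : (m - d) * (m * J + 1) = (m - (d + 1)) * (m * J + 1) + (m * J + 1) := by
      have : m - d = (m - (d + 1)) + 1 := by omega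
      rw [this, add_mul, one_mul]
    omega
  · intro i _; exact Nat.zero_le _
  · intro i _; exact Finset.Subset.refl _
  · intro i _; simp
  · intro i j hij hj
    have hid : i < d := by omega
    simp only [hid, if_true]
    by_cases hjd : j < d
    · simp only [hjd, if_true]
      exact (h.bip i j hij hjd).mono (hD' i hid) (hD' j hjd) (hεm i hid) (hεm j hjd)
    · simp only [hjd, if_false]
      exact (hbW i hid).mono (Finset.Subset.refl _) (Finset.Subset.refl _)
        (mul_le_mul_of_nonneg_right hεe (Nat.cast_nonneg _))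
        (mul_le_mul_of_nonneg_right hεe (Nat.cast_nonneg _))
  · intro v hv i hi
    by_cases hid : i < d
    · simp only [hid, if_true]
      have := hcmp v hv i hid
      linarith
    · simp only [hid, if_false]
      have h1 := hmaj v hv
      have h2 := hρ2 (d + 1) (by omega)
      have h3 : ρ (d + 1) * W.card ≤ κ * W.card := mul_le_mul_of_nonneg_right h2 (Nat.cast_nonneg _)
      linarith
  · intro i hi
    by_cases hid : i < d
    · simp only [hid, if_true]
      have h1 := h.szQ i hid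
      have h3 : (q.card : ℝ) ≤ Q.card := Nat.cast_le.mpr (Finset.card_le_card hq)
      have hc0 : (0 : ℝ) ≤ (D i).card := Nat.cast_nonneg _
      calc (2 : ℝ) ^ E' * q.card ≤ 2 ^ E' * Q.card := by gcongr
        _ = (1 / 2) ^ x * (2 ^ E * Q.card) := by
            rw [h2E]
            calc (2 : ℝ) ^ E' * Q.card = 2 ^ E' * Q.card * 1 := by ring
              _ = 2 ^ E' * Q.card * (2 ^ x * (1 / 2) ^ x) := by rw [hxx]
              _ = _ := by ring
        _ ≤ (1 / 2) ^ x * (D i).card := by gcongr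
        _ ≤ g * (D i).card := by gcongr
        _ ≤ _ := hgD i hid
    · simp only [hid, if_false]
      exact hqWc
  · intro i hi
    by_cases hid : i < d
    · simp only [hid, if_true]
      have h1 := h.szB i hid
      have h3 := hB' i hid
      have h5 : ((B' ∩ D' i).card : ℝ) ≤ ((B ∩ D i).card : ℝ) + ((B' \ B).card : ℝ) := by
        have : B' ∩ D' i ⊆ (B ∩ D i) ∪ (B' \ B) := by
          intro u hu
          rw [Finset.mem_inter] at hu
          rw [Finset.mem_union, Finset.mem_inter, Finset.mem_sdiff]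
          by_cases huB : u ∈ B
          · exact Or.inl ⟨huB, hD' i hid hu.2⟩
          · exact Or.inr ⟨hu.1, huB⟩
        exact_mod_cast (Finset.card_le_card this).trans (Finset.card_union_le _ _)
      calc (2 : ℝ) ^ E' * ((B' ∩ D' i).card : ℝ)
          ≤ 2 ^ E' * (((B ∩ D i).card : ℝ) + ((B' \ B).card : ℝ)) := by gcongr
        _ = (1 / 2) ^ x * (2 ^ E * ((B ∩ D i).card : ℝ) + 2 ^ E * ((B' \ B).card : ℝ)) := by
            rw [h2E]
            calc (2 : ℝ) ^ E' * (((B ∩ D i).card : ℝ) + ((B' \ B).card : ℝ))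
                = 2 ^ E' * (((B ∩ D i).card : ℝ) + ((B' \ B).card : ℝ)) * 1 := by ring
              _ = 2 ^ E' * (((B ∩ D i).card : ℝ) + ((B' \ B).card : ℝ)) * (2 ^ x * (1 / 2) ^ x) := by
                  rw [hxx]
              _ = _ := by ring
        _ ≤ (1 / 2) ^ x * ((D i).card + (D i).card) := by gcongr
        _ = 2 * (1 / 2) ^ x * (D i).card := by ring
        _ ≤ g * (D i).card := by gcongr
        _ ≤ _ := hgD i hid
    · simp only [hid, if_false]
      refine le_trans ?_ hBW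
      apply mul_le_mul_of_nonneg_left _ (by positivity)
      refine Nat.cast_le.mpr (Finset.card_le_card ?_)
      intro u hu
      rw [Finset.mem_inter] at hu
      rw [Finset.mem_sdiff]
      exact ⟨hu.1, fun huB => (Finset.disjoint_left.mp h.disB) (hW hu.2) huB⟩
  · intro i hi
    by_cases hid : i < d
    · simp only [hid, if_true]
      exact Finset.disjoint_of_subset_left hq
        (Finset.disjoint_of_subset_right (hD' i hid) (h.disD i hid))
    · simp only [hid, if_false]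
      exact hqW

end

end Run7.h755
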