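import Mathlib
import Pool.Agent.Run7.h755.Base

open Finset
open scoped Classical

namespace Run7.h755

section
variable {V : Type*} {K : ℕ}

/-- common neighbourhood of a tuple inside `P` -/
noncomputable def cnb (G : SimpleGraph V) (P : Finset V) {r : ℕ} (z : Fin r → V) : Finset V :=
  P.filter (fun u => ∀ s, G.Adj (z s) u)

/-- the bad `r`-tuples of `P'` -/
noncomputable def btp (G : SimpleGraph V) (P P' : Finset V) (β : ℝ) (r : ℕ) :
    Finset (Fin r → V) :=
  (Fintype.piFinset (fun _ : Fin r => P')).filter (fun z => ((cnb G P z).card : ℝ) < β * P.card)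

lemma maj_colour (hK : 0 < K) (G : Fin K → SimpleGraph V)
    (hcov : ∀ x y, x ≠ y → ∃ c, (G c).Adj x y) (P : Finset V) (hP : 2 ≤ P.card) (w : V) :
    ∃ c, P.card ≤ 2 * K * (P.filter (fun u => (G c).Adj w u)).card := by
  by_contra hcon
  push Not at hcon
  have hsub : P.erase w ⊆ (Finset.univ : Finset (Fin K)).biUnion
      (fun c => P.filter (fun y => (G c).Adj w y)) := by
    intro y hy
    rw [Finset.mem_erase] at hy
    obtain ⟨c, hc⟩ := hcov w y (Ne.symm hy.1)
    simp only [Finset.mem_biUnion, Finset.mem_univ, true_and, Finset.mem_filter]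
    exact ⟨c, hy.2, hc⟩
  have h2 := (Finset.card_le_card hsub).trans Finset.card_biUnion_le
  have h3 : P.card ≤ (P.erase w).card + 1 := by
    have := Finset.card_erase_add_one (s := P) (a := w)
    by_cases hw : w ∈ P
    · exact (this hw).symm.le
    · rw [Finset.erase_eq_of_notMem hw]; omega
  have h4 : 2 * K * ∑ c : Fin K, (P.filter (fun y => (G c).Adj w y)).card
      < K * P.card := by
    have : ∑ c : Fin K, 2 * K * (P.filter (fun y => (G c).Adj w y)).card
        < ∑ c : Fin K, P.card := by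
      refine Finset.sum_lt_sum_of_nonempty ⟨⟨0, hK⟩, Finset.mem_univ _⟩ fun c _ => hcon c
    rw [← Finset.mul_sum, Finset.sum_const, Finset.card_univ, Fintype.card_fin,
      smul_eq_mul] at this
    exact this
  have h5 : P.card ≤ ∑ c : Fin K, (P.filter (fun y => (G c).Adj w y)).card + 1 := by omega
  set s := ∑ c : Fin K, (P.filter (fun y => (G c).Adj w y)).card with hs
  have h6 : 2 * s < P.card := by
    have : K * (2 * s) < K * P.card := by
      calc K * (2 * s) = 2 * K * s := by ring
        _ < _ := h4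
    exact lt_of_mul_lt_mul_left this (Nat.zero_le _)
  omega

theorem nst_step (hK : 0 < K) (G : Fin K → SimpleGraph V)
    (hcov : ∀ x y, x ≠ y → ∃ c, (G c).Adj x y) (Δ t : ℕ) (β : ℝ) (hβ : 0 < β)
    (P : Finset V) (hP : 2 ≤ P.card) :
    ∃ c, ∃ P' ⊆ P, (P.card : ℝ) ≤ 2 * K * (2 * K) ^ t * P'.card ∧
      ∀ r ≤ Δ, ((btp (G c) P P' β r).card : ℝ)
        ≤ 2 * (Δ + 1) * K * (2 * K * β) ^ t * (P.card : ℝ) ^ r := by
  have hK' : (0 : ℝ) < K := by exact_mod_cast hK
  have hp : (2 : ℝ) ≤ P.card := by exact_mod_cast hP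
  set p : ℝ := (P.card : ℝ) with hpd
  have hp0 : 0 < p := by linarith
  have hcol := fun w => maj_colour hK G hcov P hP w
  choose col hcol using hcol
  -- majority colour
  obtain ⟨c, _, hc⟩ := Finset.exists_max_image (univ : Finset (Fin K))
    (fun c => (P.filter (fun w => col w = c)).card) ⟨⟨0, hK⟩, Finset.mem_univ _⟩
  set Pc := P.filter (fun w => col w = c) with hPc
  have hPcc : p ≤ K * Pc.card := by
    have h1 : P.card = ∑ c' : Fin K, (P.filter (fun w => col w = c')).card :=
      Finset.card_eq_sum_card_fiberwise (fun _ _ => Finset.mem_coe.mpr (Finset.mem_univ _))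
    have h2 : P.card ≤ K * Pc.card := by
      rw [h1]
      calc ∑ c' : Fin K, (P.filter (fun w => col w = c')).card ≤ ∑ c' : Fin K, Pc.card :=
            Finset.sum_le_sum fun c' hc' => hc c' hc'
        _ = _ := by rw [Finset.sum_const, Finset.card_univ, Fintype.card_fin, smul_eq_mul]
    rw [hpd]
    exact_mod_cast h2
  set Ω := Fintype.piFinset (fun _ : Fin t => P) with hΩ
  have hΩc : (Ω.card : ℝ) = p ^ t := by
    rw [hΩ, Fintype.card_piFinset]
    simp [hpd]
  have hΩ0 : (0 : ℝ) < Ω.card := by rw [hΩc]; positivity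
  have hΩne : Ω.Nonempty := by
    rw [← Finset.card_pos]; exact_mod_cast hΩ0
  let P' : (Fin t → V) → Finset V := fun a => Pc.filter (fun w => ∀ s, (G c).Adj w (a s))
  -- sum of sizes
  have sumR : (p / (2 * K)) ^ t * Pc.card ≤ ∑ a ∈ Ω, ((P' a).card : ℝ) := by
    have h1 : ∑ a ∈ Ω, ((P' a).card : ℝ)
        = ∑ w ∈ Pc, ((Ω.filter (fun a => ∀ s, (G c).Adj w (a s))).card : ℝ) := by
      simp only [P', Finset.card_filter, Nat.cast_sum]
      rw [Finset.sum_comm]
    rw [h1]
    have h2 : ∀ w ∈ Pc, (p / (2 * K)) ^ t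
        ≤ ((Ω.filter (fun a => ∀ s, (G c).Adj w (a s))).card : ℝ) := by
      intro w hw
      have h3 : Ω.filter (fun a => ∀ s, (G c).Adj w (a s))
          = Fintype.piFinset (fun _ : Fin t => P.filter (fun u => (G c).Adj w u)) := by
        ext a
        simp only [hΩ, Finset.mem_filter, Fintype.mem_piFinset]
        exact ⟨fun h s => ⟨h.1 s, h.2 s⟩, fun h => ⟨fun s => (h s).1, fun s => (h s).2⟩⟩
      rw [h3, Fintype.card_piFinset]
      simp only [Finset.prod_const, Finset.card_univ, Fintype.card_fin]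
      push_cast
      have h4 := hcol w
      rw [(Finset.mem_filter.mp hw).2] at h4
      have h5 : p ≤ 2 * K * ((P.filter (fun u => (G c).Adj w u)).card : ℝ) := by
        rw [hpd]; exact_mod_cast h4
      apply pow_le_pow_left₀ (by positivity)
      rw [div_le_iff₀ (by positivity)]
      linarith
    calc (p / (2 * K)) ^ t * Pc.card = ∑ w ∈ Pc, (p / (2 * K)) ^ t := by
          rw [Finset.sum_const, nsmul_eq_mul]; ring
      _ ≤ _ := Finset.sum_le_sum h2
  -- bad tuples
  have sumB : ∀ r, ∑ a ∈ Ω, ((btp (G c) P (P' a) β r).card : ℝ) ≤ p ^ r * (β * p) ^ t := by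
    intro r
    set Z := btp (G c) P P β r with hZ
    have h1 : ∀ a ∈ Ω, ((btp (G c) P (P' a) β r).card : ℝ)
        ≤ ((Z.filter (fun z => ∀ s, a s ∈ cnb (G c) P z)).card : ℝ) := by
      intro a ha
      refine Nat.cast_le.mpr (Finset.card_le_card ?_)
      intro z hz
      simp only [hZ, btp, Finset.mem_filter, Fintype.mem_piFinset, P', hPc, cnb] at hz ⊢
      rw [hΩ, Fintype.mem_piFinset] at ha
      exact ⟨⟨fun i => (hz.1 i).1.1, hz.2⟩, fun s => ⟨ha s, fun i => (hz.1 i).2 s⟩⟩
    refine (Finset.sum_le_sum h1).trans ?_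
    have h2 : ∑ a ∈ Ω, ((Z.filter (fun z => ∀ s, a s ∈ cnb (G c) P z)).card : ℝ)
        = ∑ z ∈ Z, ((Ω.filter (fun a => ∀ s, a s ∈ cnb (G c) P z)).card : ℝ) := by
      simp only [Finset.card_filter, Nat.cast_sum]
      rw [Finset.sum_comm]
    rw [h2]
    have h3 : ∀ z ∈ Z, ((Ω.filter (fun a => ∀ s, a s ∈ cnb (G c) P z)).card : ℝ) ≤ (β * p) ^ t := by
      intro z hz
      have h4 : Ω.filter (fun a => ∀ s, a s ∈ cnb (G c) P z)
          ⊆ Fintype.piFinset (fun _ : Fin t => cnb (G c) P z) := by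
        intro a ha
        rw [Fintype.mem_piFinset]
        exact (Finset.mem_filter.mp ha).2
      have h5 := Finset.card_le_card h4
      rw [Fintype.card_piFinset] at h5
      simp only [Finset.prod_const, Finset.card_univ, Fintype.card_fin] at h5
      have h6 : ((Ω.filter (fun a => ∀ s, a s ∈ cnb (G c) P z)).card : ℝ)
          ≤ ((cnb (G c) P z).card : ℝ) ^ t := by exact_mod_cast h5
      refine h6.trans ?_
      apply pow_le_pow_left₀ (by positivity)
      exact (Finset.mem_filter.mp hz).2.le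
    calc ∑ z ∈ Z, ((Ω.filter (fun a => ∀ s, a s ∈ cnb (G c) P z)).card : ℝ)
        ≤ ∑ z ∈ Z, (β * p) ^ t := Finset.sum_le_sum h3
      _ = Z.card * (β * p) ^ t := by rw [Finset.sum_const, nsmul_eq_mul]
      _ ≤ p ^ r * (β * p) ^ t := by
          apply mul_le_mul_of_nonneg_right _ (by positivity)
          have h7 : Z.card ≤ (Fintype.piFinset (fun _ : Fin r => P)).card :=
            Finset.card_le_card (Finset.filter_subset _ _)
          rw [Fintype.card_piFinset] at h7
          simp only [Finset.prod_const, Finset.card_univ, Fintype.card_fin] at h7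
          rw [hpd]
          exact_mod_cast h7
  -- choose a
  set μ : ℝ := 1 / (K * (2 * K) ^ t) with hμ
  have hμ0 : 0 < μ := by positivity
  let om : ℕ → ℝ := fun r => (μ * p / 2) / ((Δ + 1) * (β ^ t * p ^ r))
  have hom : ∀ r, 0 < om r := fun r => by positivity
  let Φ : (Fin t → V) → ℝ := fun a => ((P' a).card : ℝ)
    - ∑ r ∈ Finset.range (Δ + 1), om r * ((btp (G c) P (P' a) β r).card : ℝ)
  have hex : ∃ a ∈ Ω, μ * p / 2 ≤ Φ a := by
    refine Finset.exists_le_of_sum_le hΩne ?_
    have h1 : ∑ a ∈ Ω, Φ a = ∑ a ∈ Ω, ((P' a).card : ℝ)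
        - ∑ r ∈ Finset.range (Δ + 1), om r * ∑ a ∈ Ω, ((btp (G c) P (P' a) β r).card : ℝ) := by
      simp only [Φ, Finset.sum_sub_distrib]
      rw [Finset.sum_comm]
      congr 1
      refine Finset.sum_congr rfl fun i _ => ?_
      rw [Finset.mul_sum]
    rw [h1, Finset.sum_const, nsmul_eq_mul, hΩc]
    have h2 : ∑ r ∈ Finset.range (Δ + 1), om r * ∑ a ∈ Ω, ((btp (G c) P (P' a) β r).card : ℝ)
        ≤ μ * p / 2 * p ^ t := by
      calc ∑ r ∈ Finset.range (Δ + 1), om r * ∑ a ∈ Ω, ((btp (G c) P (P' a) β r).card : ℝ)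
          ≤ ∑ r ∈ Finset.range (Δ + 1), (μ * p / 2) * p ^ t / (Δ + 1) := by
            refine Finset.sum_le_sum fun r _ => ?_
            calc om r * ∑ a ∈ Ω, ((btp (G c) P (P' a) β r).card : ℝ)
                ≤ om r * (p ^ r * (β * p) ^ t) :=
                  mul_le_mul_of_nonneg_left (sumB r) (hom r).le
              _ = (μ * p / 2) * p ^ t / (Δ + 1) := by
                  simp only [om]
                  rw [mul_pow]
                  field_simp
        _ = (μ * p / 2) * p ^ t := by
            rw [Finset.sum_const, Finset.card_range, nsmul_eq_mul]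
            push_cast
            field_simp
    have h3 : μ * p * p ^ t ≤ ∑ a ∈ Ω, ((P' a).card : ℝ) := by
      refine le_trans ?_ sumR
      have h4 : μ * p * p ^ t = (p / (2 * K)) ^ t * (p / K) := by
        rw [hμ, div_pow]; field_simp
      rw [h4]
      apply mul_le_mul_of_nonneg_left _ (by positivity)
      rw [div_le_iff₀ hK']
      linarith
    linarith
  obtain ⟨a, ha, hΦ⟩ := hex
  have hterm0 : ∀ r ∈ Finset.range (Δ + 1),
      0 ≤ om r * ((btp (G c) P (P' a) β r).card : ℝ) := fun r _ =>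
    mul_nonneg (hom r).le (Nat.cast_nonneg _)
  have hΦ' : μ * p / 2 ≤ ((P' a).card : ℝ)
    - ∑ r ∈ Finset.range (Δ + 1), om r * ((btp (G c) P (P' a) β r).card : ℝ) := hΦ
  have hP'P : P' a ⊆ P := (Finset.filter_subset _ _).trans (Finset.filter_subset _ _)
  refine ⟨c, P' a, hP'P, ?_, ?_⟩
  · have h1 := Finset.sum_nonneg hterm0
    have h2 : μ * p / 2 ≤ ((P' a).card : ℝ) := by linarith
    have h3 : p = 2 * K * (2 * K) ^ t * (μ * p / 2) := by
      rw [hμ]; field_simp
    calc p = 2 * K * (2 * K) ^ t * (μ * p / 2) := h3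
      _ ≤ _ := mul_le_mul_of_nonneg_left h2 (by positivity)
  · intro r hr
    have h1 : om r * ((btp (G c) P (P' a) β r).card : ℝ)
        ≤ ∑ r ∈ Finset.range (Δ + 1), om r * ((btp (G c) P (P' a) β r).card : ℝ) :=
      Finset.single_le_sum hterm0 (Finset.mem_range.mpr (by omega))
    have h2 : ((P' a).card : ℝ) ≤ p := Nat.cast_le.mpr (Finset.card_le_card hP'P)
    have h3 : om r * ((btp (G c) P (P' a) β r).card : ℝ) ≤ p := by
      have : 0 ≤ μ * p / 2 := by positivity
      linarith
    calc ((btp (G c) P (P' a) β r).card : ℝ)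
        = (1 / om r) * (om r * ((btp (G c) P (P' a) β r).card : ℝ)) := by
          have := (hom r).ne'
          field_simp
      _ ≤ (1 / om r) * p := mul_le_mul_of_nonneg_left h3 (by have := hom r; positivity)
      _ = 2 * (Δ + 1) * K * (2 * K * β) ^ t * p ^ r := by
          simp only [om, hμ]
          rw [mul_pow]
          field_simp
          rw [mul_pow, mul_pow]
          ring

end

end Run7.h755
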