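import Mathlib
import Pool.Agent.Run7.h755.Base
import Pool.Agent.Run7.h755.Abs

open Finset
open scoped Classical

namespace Run7.h755

section
variable {V : Type*} {n : ℕ}

lemma fiber_ge {ι : Type*} [Fintype ι] [DecidableEq ι] (D : ι → Finset V) (j : ι)
    (P Q : (ι → V) → Prop) [DecidablePred P] [DecidablePred Q] (θ : ℝ)
    (h : ∀ t ∈ Fintype.piFinset D, Q t →
      θ * (D j).card ≤ (((D j).filter (fun u => P (Function.update t j u))).card : ℝ)) :
    θ * (((Fintype.piFinset D).filter Q).card : ℝ) ≤ (((Fintype.piFinset D).filter P).card : ℝ) := by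
  have h1 := sum_update D j (fun t => if P t then (1 : ℝ) else 0)
  have h2 : ∑ t ∈ Fintype.piFinset D, (if P t then (1 : ℝ) else 0)
      = (((Fintype.piFinset D).filter P).card : ℝ) := by
    rw [Finset.sum_boole]
  have h3 : ∑ t ∈ (Fintype.piFinset D).filter Q, θ * ((D j).card : ℝ)
      ≤ ∑ t ∈ Fintype.piFinset D, ∑ u ∈ D j, (if P (Function.update t j u) then (1 : ℝ) else 0) := by
    calc ∑ t ∈ (Fintype.piFinset D).filter Q, θ * ((D j).card : ℝ)
        ≤ ∑ t ∈ (Fintype.piFinset D).filter Q,
          ∑ u ∈ D j, (if P (Function.update t j u) then (1 : ℝ) else 0) := by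
          refine Finset.sum_le_sum fun t ht => ?_
          rw [Finset.mem_filter] at ht
          rw [Finset.sum_boole]
          exact h t ht.1 ht.2
      _ ≤ _ := Finset.sum_le_sum_of_subset_of_nonneg (Finset.filter_subset _ _)
          fun t _ _ => Finset.sum_nonneg fun u _ => by split_ifs <;> norm_num
  rw [h1, h2, Finset.sum_const, nsmul_eq_mul] at h3
  rcases Nat.eq_zero_or_pos (D j).card with h0 | h0
  · have : Fintype.piFinset D = ∅ := by
      rw [Finset.card_eq_zero] at h0
      rw [Finset.eq_empty_iff_forall_notMem]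
      intro t ht
      rw [Fintype.mem_piFinset] at ht
      have := ht j
      rw [h0] at this
      exact absurd this (Finset.notMem_empty _)
    rw [this]
    simp
  · have h0' : (0 : ℝ) < (D j).card := by exact_mod_cast h0
    have : ((D j).card : ℝ) * (θ * (((Fintype.piFinset D).filter Q).card : ℝ))
        ≤ ((D j).card : ℝ) * (((Fintype.piFinset D).filter P).card : ℝ) := by
      calc _ = (((Fintype.piFinset D).filter Q).card : ℝ) * (θ * ((D j).card : ℝ)) := by ring
        _ ≤ _ := h3
    exact le_of_mul_le_mul_left this h0'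

/-- successive filters -/
noncomputable def filt (U : Fin n → Finset V) (θ : ℝ) (L : Finset (Fin n → V)) :
    ℕ → Finset (Fin n → V)
  | 0 => L
  | j + 1 => (filt U θ L j).filter (fun x => ∀ h : j < n,
      θ * ((U ⟨j, h⟩).card : ℝ) ≤
        (((U ⟨j, h⟩).filter (fun u => Function.update x ⟨j, h⟩ u ∈ filt U θ L j)).card : ℝ))

lemma filt_succ_sub (U : Fin n → Finset V) (θ : ℝ) (L : Finset (Fin n → V)) (j : ℕ) :
    filt U θ L (j + 1) ⊆ filt U θ L j := Finset.filter_subset _ _

lemma filt_sub (U : Fin n → Finset V) (θ : ℝ) (L : Finset (Fin n → V)) (j : ℕ) :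
    filt U θ L j ⊆ L := by
  induction j with
  | zero => exact Finset.Subset.refl _
  | succ j ih => exact (filt_succ_sub U θ L j).trans ih

lemma filt_card (U : Fin n → Finset V) {θ : ℝ} (hθ : 0 ≤ θ) (L : Finset (Fin n → V))
    (hL : L ⊆ Fintype.piFinset U) (j : ℕ) (hj : j ≤ n) :
    (L.card : ℝ) - j * (θ * (Fintype.piFinset U).card) ≤ ((filt U θ L j).card : ℝ) := by
  induction j with
  | zero => simp [filt]
  | succ j ih =>
    have ih' := ih (by omega)
    have hjn : j < n := hj
    have key : (((Fintype.piFinset U).filter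
        (fun t => t ∈ filt U θ L j ∧ t ∉ filt U θ L (j + 1))).card : ℝ)
        ≤ θ * (Fintype.piFinset U).card := by
      refine fiber_le U ⟨j, hjn⟩ _ θ ?_
      intro t _
      by_cases hex : ∃ u0, Function.update t ⟨j, hjn⟩ u0 ∈ filt U θ L j ∧
          Function.update t ⟨j, hjn⟩ u0 ∉ filt U θ L (j + 1)
      · obtain ⟨u0, h1, h2⟩ := hex
        have h3 : ¬ ∀ h : j < n, θ * ((U ⟨j, h⟩).card : ℝ) ≤
            (((U ⟨j, h⟩).filter (fun u => Function.update
              (Function.update t ⟨j, hjn⟩ u0) ⟨j, h⟩ u ∈ filt U θ L j)).card : ℝ) := by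
          intro h
          exact h2 (Finset.mem_filter.mpr ⟨h1, h⟩)
        simp only [Function.update_idem] at h3
        rw [not_forall] at h3
        obtain ⟨_, h3⟩ := h3
        refine le_trans ?_ (not_le.mp h3).le
        exact_mod_cast Finset.card_le_card (by
          intro u hu
          simp only [Finset.mem_filter] at hu ⊢
          exact ⟨hu.1, hu.2.1⟩)
      · have : (U ⟨j, hjn⟩).filter (fun u => Function.update t ⟨j, hjn⟩ u ∈ filt U θ L j ∧
            Function.update t ⟨j, hjn⟩ u ∉ filt U θ L (j + 1)) = ∅ := by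
          rw [Finset.filter_eq_empty_iff]
          intro u _ hu
          exact hex ⟨u, hu⟩
        rw [this]
        simp
        positivity
    have h1 : filt U θ L j ⊆ filt U θ L (j + 1) ∪ (Fintype.piFinset U).filter
        (fun t => t ∈ filt U θ L j ∧ t ∉ filt U θ L (j + 1)) := by
      intro t ht
      rw [Finset.mem_union, Finset.mem_filter]
      by_cases h : t ∈ filt U θ L (j + 1)
      · exact Or.inl h
      · exact Or.inr ⟨hL (filt_sub U θ L j ht), ht, h⟩
    have h2 : ((filt U θ L j).card : ℝ) ≤ ((filt U θ L (j + 1)).card : ℝ) +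
        (((Fintype.piFinset U).filter
          (fun t => t ∈ filt U θ L j ∧ t ∉ filt U θ L (j + 1))).card : ℝ) := by
      exact_mod_cast (Finset.card_le_card h1).trans (Finset.card_union_le _ _)
    push_cast
    linarith

/-- hybrid of two tuples -/
def hyb (a b : Fin n → V) (j : ℕ) : Fin n → V := fun i => if (i : ℕ) < j then a i else b i

lemma stair_aux (U : Fin n → Finset V) {θ : ℝ} (hθ : 0 ≤ θ) (L : Finset (Fin n → V))
    (a : Fin n → V) (ha : a ∈ filt U θ L n) (k : ℕ) : k ≤ n →
    θ ^ k * ((Fintype.piFinset U).card : ℝ) ≤ (((Fintype.piFinset U).filter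
      (fun b => ∀ j, n - k ≤ j → j ≤ n → hyb a b j ∈ filt U θ L j)).card : ℝ) := by
  induction k with
  | zero =>
    intro _
    have : (Fintype.piFinset U).filter
        (fun b => ∀ j, n - 0 ≤ j → j ≤ n → hyb a b j ∈ filt U θ L j) = Fintype.piFinset U := by
      rw [Finset.filter_eq_self]
      intro b _ j hj hj'
      have hjn : j = n := by omega
      subst hjn
      have : hyb a b j = a := by
        funext i; simp [hyb, i.is_lt]
      rw [this]; exact ha
    rw [this]; simp
  | succ k ih =>
    intro hk
    have ih' := ih (by omega)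
    have hlt : n - (k + 1) < n := by omega
    have := fiber_ge U ⟨n - (k + 1), hlt⟩
      (fun b => ∀ j, n - (k + 1) ≤ j → j ≤ n → hyb a b j ∈ filt U θ L j)
      (fun b => ∀ j, n - k ≤ j → j ≤ n → hyb a b j ∈ filt U θ L j) θ (by
        intro t _ ht
        have h1 := ht (n - (k + 1) + 1) (by omega) (by omega)
        have h2 := (Finset.mem_filter.mp h1).2 hlt
        refine h2.trans ?_
        exact_mod_cast Finset.card_le_card (by
          intro u hu
          simp only [Finset.mem_filter] at hu ⊢
          refine ⟨hu.1, fun j hj hj' => ?_⟩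
          by_cases hjk : j = n - (k + 1)
          · subst hjk
            have : hyb a (Function.update t ⟨n - (k + 1), hlt⟩ u) (n - (k + 1))
                = Function.update (hyb a t (n - (k + 1) + 1)) ⟨n - (k + 1), hlt⟩ u := by
              funext i
              by_cases hi : i = ⟨n - (k + 1), hlt⟩
              · subst hi; simp [hyb]
              · have hi' : (i : ℕ) ≠ n - (k + 1) := fun h => hi (Fin.ext h)
                simp only [hyb, Function.update_of_ne hi]
                by_cases hlt' : (i : ℕ) < n - (k + 1)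
                · rw [if_pos hlt', if_pos (by omega)]
                · rw [if_neg hlt', if_neg (by omega)]
            rw [this]; exact hu.2
          · have : hyb a (Function.update t ⟨n - (k + 1), hlt⟩ u) j = hyb a t j := by
              funext i
              simp only [hyb]
              split_ifs with hi
              · rfl
              · rw [Function.update_of_ne]
                rintro rfl
                simp only at hi
                omega
            rw [this]
            exact ht j (by omega) hj'))
    refine le_trans ?_ this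
    calc θ ^ (k + 1) * ((Fintype.piFinset U).card : ℝ)
        = θ * (θ ^ k * ((Fintype.piFinset U).card : ℝ)) := by ring
      _ ≤ _ := mul_le_mul_of_nonneg_left ih' hθ

/-- the later classes -/
noncomputable def Da (G : SimpleGraph V) (U : Fin n → Finset V) (a : Fin n → V) (i : Fin n) :
    Finset V := (U i).filter (fun u => ∀ j, j < i → G.Adj (a j) u)

theorem stair (G : SimpleGraph V) (U : Fin n → Finset V) {θ : ℝ} (hθ : 0 ≤ θ)
    (L : Finset (Fin n → V)) (hclq : ∀ x ∈ L, Clq G x)
    (a : Fin n → V) (ha : a ∈ filt U θ L n) :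
    θ ^ n * ((Fintype.piFinset U).card : ℝ)
      ≤ ((L.filter (fun b => b ∈ Fintype.piFinset (Da G U a))).card : ℝ) := by
  refine (stair_aux U hθ L a ha n le_rfl).trans ?_
  exact_mod_cast Finset.card_le_card (by
    intro b hb
    simp only [Finset.mem_filter, Fintype.mem_piFinset] at hb ⊢
    have h0 := hb.2 0 (by omega) (by omega)
    have hb0 : hyb a b 0 = b := by funext i; simp [hyb]
    rw [hb0] at h0
    refine ⟨h0, fun i => Finset.mem_filter.mpr ⟨hb.1 i, fun j hj => ?_⟩⟩
    have h1 := filt_sub U θ L _ (hb.2 ((j : ℕ) + 1) (by omega) (by omega))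
    have h2 := hclq _ h1 j i (ne_of_lt hj)
    have hj' : (j : ℕ) < i := hj
    simp only [hyb] at h2
    rw [if_pos (by omega), if_neg (by omega)] at h2
    exact h2)

end

end Run7.h755
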