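import Mathlib
import Pool.Agent.Run7.h755.Filt

open Finset
open scoped Classical

namespace Run7.h755

section
variable {V : Type*} {n : ℕ}

/-- common neighbourhood for class `i` -/
noncomputable def cn (G : SimpleGraph V) (U : Fin n → Finset V) (a : Fin n → V) (i : Fin n)
    (z : Fin n → V) (w : V) : Finset V :=
  (U i).filter (fun u => (∀ j, j < i → G.Adj (a j) u) ∧ (∀ j, i < j → G.Adj (z j) u) ∧ G.Adj w u)

def badp (G : SimpleGraph V) (U : Fin n → Finset V) (η : Fin n → ℝ) (i : Fin n) (a : Fin n → V)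
    (z : Fin n → V) (w : V) : Prop :=
  a i ∈ cn G U a i z w ∧ ((cn G U a i z w).card : ℝ) < η i * (U i).card

lemma badp_count (G : SimpleGraph V) (U : Fin n → Finset V) (η : Fin n → ℝ) (i : Fin n)
    (hη : 0 ≤ η i) (z : Fin n → V) (w : V) :
    (((Fintype.piFinset U).filter (fun a => badp G U η i a z w)).card : ℝ)
      ≤ η i * (Fintype.piFinset U).card := by
  refine fiber_le U i _ (η i) ?_
  intro t _
  have hcn : ∀ u, cn G U (Function.update t i u) i z w = cn G U t i z w := by
    intro u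
    unfold cn
    refine Finset.filter_congr fun x _ => ?_
    have : (∀ j, j < i → G.Adj (Function.update t i u j) x) ↔ (∀ j, j < i → G.Adj (t j) x) := by
      refine forall_congr' fun j => ?_
      constructor
      · intro h hj
        have := h hj
        rwa [Function.update_of_ne hj.ne] at this
      · intro h hj
        rw [Function.update_of_ne hj.ne]
        exact h hj
    rw [this]
  by_cases hc : ((cn G U t i z w).card : ℝ) < η i * (U i).card
  · refine le_trans ?_ hc.le
    exact_mod_cast Finset.card_le_card (by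
      intro u hu
      rw [Finset.mem_filter] at hu
      have := hu.2.1
      rw [hcn, Function.update_self] at this
      exact this)
  · have : (U i).filter (fun u => badp G U η i (Function.update t i u) z w) = ∅ := by
      rw [Finset.filter_eq_empty_iff]
      intro u _ hu
      have := hu.2
      rw [hcn] at this
      exact hc this
    rw [this]
    simp only [Finset.card_empty, Nat.cast_zero]
    positivity

theorem drc (G : SimpleGraph V) (U : Fin n → Finset V) (X : Finset V)
    (L : V → Finset (Fin n → V)) (hL : ∀ w ∈ X, L w ⊆ Fintype.piFinset U) (η θ : ℝ) (hη : 0 < η)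
    (hθ0 : 0 ≤ θ) (hθ : n * θ ≤ η / 2)
    (hLc : ∀ w ∈ X, η * (Fintype.piFinset U).card ≤ ((L w).card : ℝ))
    (hΩ : 0 < (Fintype.piFinset U).card) (S : Finset (Fin n)) (s : ℝ) (hs : 0 < s)
    (hS : (S.card : ℝ) ≤ s) (ηs : Fin n → ℝ) (hηs : ∀ i ∈ S, 0 < ηs i) :
    ∃ a ∈ Fintype.piFinset U,
      η / 4 * X.card ≤ ((X.filter (fun w => a ∈ filt U θ (L w) n)).card : ℝ) ∧
      ∀ i ∈ S, ((((Fintype.piFinset U) ×ˢ X).filter
        (fun z => badp G U ηs i a z.1 z.2)).card : ℝ)
        ≤ 4 * s * ηs i / η * ((Fintype.piFinset U).card * X.card) := by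
  set Ω := Fintype.piFinset U with hΩd
  have hΩ' : (0 : ℝ) < Ω.card := by exact_mod_cast hΩ
  have hX0 : (0 : ℝ) ≤ X.card := Nat.cast_nonneg _
  let R : (Fin n → V) → ℝ := fun a => ((X.filter (fun w => a ∈ filt U θ (L w) n)).card : ℝ)
  let bd : Fin n → (Fin n → V) → ℝ := fun i a =>
    ((Ω ×ˢ X).filter (fun z => badp G U ηs i a z.1 z.2)).card
  have hΩne : Ω.Nonempty := Finset.card_pos.mp hΩ
  have hR : ∀ a, R a ≤ X.card := fun a =>
    Nat.cast_le.mpr (Finset.card_le_card (Finset.filter_subset _ _))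
  have hbd0 : ∀ i a, 0 ≤ bd i a := fun i a => Nat.cast_nonneg _
  have sumR : η / 2 * (Ω.card * X.card) ≤ ∑ a ∈ Ω, R a := by
    have h1 : ∑ a ∈ Ω, R a = ∑ w ∈ X, ((Ω.filter (fun a => a ∈ filt U θ (L w) n)).card : ℝ) := by
      simp only [R, Finset.card_filter, Nat.cast_sum]
      rw [Finset.sum_comm]
    rw [h1]
    have h2 : ∀ w ∈ X, η / 2 * Ω.card ≤ ((Ω.filter (fun a => a ∈ filt U θ (L w) n)).card : ℝ) := by
      intro w hw
      have h3 := filt_card U hθ0 (L w) (hL w hw) n le_rfl
      have h4 : filt U θ (L w) n ⊆ Ω.filter (fun a => a ∈ filt U θ (L w) n) := by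
        intro a ha
        rw [Finset.mem_filter]
        exact ⟨hL w hw (filt_sub U θ (L w) n ha), ha⟩
      have h5 : ((filt U θ (L w) n).card : ℝ)
          ≤ ((Ω.filter (fun a => a ∈ filt U θ (L w) n)).card : ℝ) := by
        exact_mod_cast Finset.card_le_card h4
      have h6 := hLc w hw
      have h7 : (n : ℝ) * (θ * Ω.card) ≤ η / 2 * Ω.card := by
        rw [← mul_assoc]; exact mul_le_mul_of_nonneg_right hθ hΩ'.le
      linarith
    calc η / 2 * (Ω.card * X.card) = ∑ w ∈ X, η / 2 * Ω.card := by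
          rw [Finset.sum_const, nsmul_eq_mul]; ring
      _ ≤ _ := Finset.sum_le_sum h2
  have sumB : ∀ i ∈ S, ∑ a ∈ Ω, bd i a ≤ ηs i * Ω.card * (Ω.card * X.card) := by
    intro i hi
    have h1 : ∑ a ∈ Ω, bd i a
        = ∑ z ∈ Ω ×ˢ X, ((Ω.filter (fun a => badp G U ηs i a z.1 z.2)).card : ℝ) := by
      simp only [bd, Finset.card_filter, Nat.cast_sum]
      rw [Finset.sum_comm]
    rw [h1]
    calc _ ≤ ∑ z ∈ Ω ×ˢ X, ηs i * Ω.card := Finset.sum_le_sum fun z _ =>
          badp_count G U ηs i (hηs i hi).le z.1 z.2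
      _ = _ := by
          rw [Finset.sum_const, nsmul_eq_mul, Finset.card_product]; push_cast; ring
  let Φ : (Fin n → V) → ℝ := fun a => R a - ∑ i ∈ S, η / (4 * s * ηs i) * (bd i a / Ω.card)
  have hex : ∃ a ∈ Ω, η / 4 * X.card ≤ Φ a := by
    refine Finset.exists_le_of_sum_le hΩne ?_
    have h1 : ∑ a ∈ Ω, Φ a = ∑ a ∈ Ω, R a
        - ∑ i ∈ S, η / (4 * s * ηs i) * ((∑ a ∈ Ω, bd i a) / Ω.card) := by
      simp only [Φ, Finset.sum_sub_distrib]
      rw [Finset.sum_comm]
      congr 1
      refine Finset.sum_congr rfl fun i _ => ?_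
      rw [Finset.sum_div, Finset.mul_sum]
    rw [h1, Finset.sum_const, nsmul_eq_mul]
    have h2 : ∑ i ∈ S, η / (4 * s * ηs i) * ((∑ a ∈ Ω, bd i a) / Ω.card)
        ≤ η / 4 * (Ω.card * X.card) := by
      calc ∑ i ∈ S, η / (4 * s * ηs i) * ((∑ a ∈ Ω, bd i a) / Ω.card)
          ≤ ∑ i ∈ S, η / (4 * s) * (Ω.card * X.card) := by
            refine Finset.sum_le_sum fun i hi => ?_
            have h3 := hηs i hi
            have h4 : (∑ a ∈ Ω, bd i a) / Ω.card ≤ ηs i * (Ω.card * X.card) := by
              rw [div_le_iff₀ hΩ']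
              refine (sumB i hi).trans (le_of_eq ?_)
              ring
            calc η / (4 * s * ηs i) * ((∑ a ∈ Ω, bd i a) / Ω.card)
                ≤ η / (4 * s * ηs i) * (ηs i * (Ω.card * X.card)) := by
                  apply mul_le_mul_of_nonneg_left h4; positivity
              _ = _ := by field_simp
        _ = S.card * (η / (4 * s) * (Ω.card * X.card)) := by
            rw [Finset.sum_const, nsmul_eq_mul]
        _ ≤ s * (η / (4 * s) * (Ω.card * X.card)) := by
            apply mul_le_mul_of_nonneg_right hS; positivity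
        _ = _ := by field_simp
    linarith
  obtain ⟨a, ha, hΦ⟩ := hex
  have hterm0 : ∀ i ∈ S, 0 ≤ η / (4 * s * ηs i) * (bd i a / Ω.card) := by
    intro i hi
    have h3 := hηs i hi
    have := hbd0 i a
    positivity
  refine ⟨a, ha, ?_, ?_⟩
  · have := Finset.sum_nonneg hterm0
    have h2 : η / 4 * X.card ≤ R a - ∑ i ∈ S, η / (4 * s * ηs i) * (bd i a / Ω.card) := hΦ
    change η / 4 * X.card ≤ R a
    linarith
  · intro i hi
    have h3 := hηs i hi
    have h1 : η / (4 * s * ηs i) * (bd i a / Ω.card)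
        ≤ ∑ i ∈ S, η / (4 * s * ηs i) * (bd i a / Ω.card) :=
      Finset.single_le_sum hterm0 hi
    have h2 : η / 4 * X.card ≤ R a - ∑ i ∈ S, η / (4 * s * ηs i) * (bd i a / Ω.card) := hΦ
    have h4 : η / (4 * s * ηs i) * (bd i a / Ω.card) ≤ X.card := by
      have := hR a
      have h5 : 0 ≤ η / 4 * (X.card : ℝ) := by positivity
      linarith
    change bd i a ≤ _
    calc bd i a = (4 * s * ηs i / η * Ω.card) * (η / (4 * s * ηs i) * (bd i a / Ω.card)) := by
          field_simp
      _ ≤ (4 * s * ηs i / η * Ω.card) * X.card := by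
          apply mul_le_mul_of_nonneg_left h4; positivity
      _ = _ := by ring

end

end Run7.h755
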