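import Mathlib
import Pool.Agent.Run7.h755.Base
import Pool.Agent.Run7.h755.Abs

open Finset
open scoped Classical

namespace Run7.h755

section
variable {V : Type*} {q0 Δ : ℕ}

/-- refinement of a candidate set by the later coordinates not in `J` -/
noncomputable def refn (G : SimpleGraph V) (i : Fin (q0 + Δ + 1)) (J : Finset (Fin (q0 + Δ + 1)))
    (C : Finset V) (z : Fin (q0 + Δ + 1) → V) : Finset V :=
  C.filter (fun w => ∀ j, i < j → j ∉ J → G.Adj (z j) w)

/-- number of bad tuples -/
noncomputable def nbad (G : SimpleGraph V) (D : Fin (q0 + Δ + 1) → Finset V)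
    (thr : Fin (q0 + Δ + 1) → ℝ) (i : Fin (q0 + Δ + 1)) (J : Finset (Fin (q0 + Δ + 1)))
    (C : Finset V) : ℝ :=
  (((Fintype.piFinset D).filter (fun z => ((refn G i J C z).card : ℝ) < thr i)).card : ℝ)

theorem asys_frac (G : SimpleGraph V) (D : Fin (q0 + Δ + 1) → Finset V)
    (thr lam bt : Fin (q0 + Δ + 1) → ℝ)
    (hlam0 : ∀ i : Fin (q0 + Δ + 1), (i : ℕ) < q0 → 0 < lam i)
    (hlam1 : ∀ i : Fin (q0 + Δ + 1), (i : ℕ) < q0 → lam i ≤ 1)
    (hbt0 : ∀ i : Fin (q0 + Δ + 1), (i : ℕ) < q0 → 0 < bt i)
    (hbt : ∀ i : Fin (q0 + Δ + 1), (i : ℕ) < q0 → bt i < lam i ^ Δ)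
    (hinit : ∀ i : Fin (q0 + Δ + 1), (i : ℕ) < q0 →
      nbad G D thr i ∅ (D i) ≤ bt i * (Fintype.piFinset D).card)
    (hΩ : 0 < (Fintype.piFinset D).card) :
    ASys G q0 Δ D
      (fun i J C => nbad G D thr i J C * lam i ^ J.card ≤ bt i * (Fintype.piFinset D).card)
      lam thr := by
  have hΩ' : (0 : ℝ) < (Fintype.piFinset D).card := by exact_mod_cast hΩ
  refine ⟨?_, ?_, ?_⟩
  · intro i hi
    simpa using hinit i hi
  · intro i hi J C j hij hjJ _ _ _ hInv
    have hl0 := hlam0 i hi
    have hb0 := hbt0 i hi
    set Z := (D j).filter (fun u => ¬ nbad G D thr i (insert j J) (C.filter (fun w => G.Adj u w))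
      * lam i ^ (insert j J).card ≤ bt i * (Fintype.piFinset D).card) with hZ
    have hcard : (insert j J).card = J.card + 1 := Finset.card_insert_of_notMem hjJ
    -- averaging identity
    have hrefn : ∀ (t : Fin (q0 + Δ + 1) → V) u, refn G i J C (Function.update t j u)
        = refn G i (insert j J) (C.filter (fun w => G.Adj u w)) t := by
      intro t u
      ext w
      simp only [refn, Finset.mem_filter]
      constructor
      · rintro ⟨h1, h2⟩
        refine ⟨⟨h1, ?_⟩, fun j' hj' hj'J => ?_⟩
        · have := h2 j hij hjJ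
          rwa [Function.update_self] at this
        · rw [Finset.mem_insert, not_or] at hj'J
          have := h2 j' hj' hj'J.2
          rwa [Function.update_of_ne hj'J.1] at this
      · rintro ⟨⟨h1, h2⟩, h3⟩
        refine ⟨h1, fun j' hj' hj'J => ?_⟩
        by_cases hjj : j' = j
        · subst hjj; rwa [Function.update_self]
        · rw [Function.update_of_ne hjj]
          refine h3 j' hj' ?_
          rw [Finset.mem_insert, not_or]
          exact ⟨hjj, hj'J⟩
    have hsum : ∑ u ∈ D j, nbad G D thr i (insert j J) (C.filter (fun w => G.Adj u w))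
        = ((D j).card : ℝ) * nbad G D thr i J C := by
      have h1 := sum_update D j (fun t => if ((refn G i J C t).card : ℝ) < thr i then (1 : ℝ) else 0)
      rw [Finset.sum_boole] at h1
      unfold nbad
      rw [← h1, Finset.sum_comm]
      refine Finset.sum_congr rfl fun u _ => ?_
      rw [← Finset.sum_boole]
      refine Finset.sum_congr rfl fun t _ => ?_
      rw [hrefn]
    have hn0 : ∀ u, 0 ≤ nbad G D thr i (insert j J) (C.filter (fun w => G.Adj u w)) :=
      fun u => Nat.cast_nonneg _
    have h1 : (Z.card : ℝ) * (bt i * (Fintype.piFinset D).card)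
        ≤ ∑ u ∈ D j, nbad G D thr i (insert j J) (C.filter (fun w => G.Adj u w))
          * lam i ^ (J.card + 1) := by
      calc (Z.card : ℝ) * (bt i * (Fintype.piFinset D).card)
          = ∑ u ∈ Z, (bt i * (Fintype.piFinset D).card) := by rw [Finset.sum_const, nsmul_eq_mul]
        _ ≤ ∑ u ∈ Z, nbad G D thr i (insert j J) (C.filter (fun w => G.Adj u w))
          * lam i ^ (J.card + 1) := by
            refine Finset.sum_le_sum fun u hu => ?_
            have := (Finset.mem_filter.mp hu).2
            rw [hcard] at this
            exact (not_le.mp this).le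
        _ ≤ _ := Finset.sum_le_sum_of_subset_of_nonneg (Finset.filter_subset _ _)
            fun u _ _ => mul_nonneg (hn0 u) (by positivity)
    rw [← Finset.sum_mul, hsum] at h1
    have h2 : ((D j).card : ℝ) * nbad G D thr i J C * lam i ^ (J.card + 1)
        ≤ lam i * (D j).card * (bt i * (Fintype.piFinset D).card) := by
      calc ((D j).card : ℝ) * nbad G D thr i J C * lam i ^ (J.card + 1)
          = lam i * (D j).card * (nbad G D thr i J C * lam i ^ J.card) := by ring
        _ ≤ _ := mul_le_mul_of_nonneg_left hInv (by positivity)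
    exact le_of_mul_le_mul_right (h1.trans h2) (by positivity)
  · intro i hi J C hJ _ _ hInv
    have hl0 := hlam0 i hi
    have hl1 := hlam1 i hi
    have h1 : nbad G D thr i J C < (Fintype.piFinset D).card := by
      have h2 : nbad G D thr i J C * lam i ^ J.card
          < ((Fintype.piFinset D).card : ℝ) * lam i ^ J.card := by
        calc nbad G D thr i J C * lam i ^ J.card ≤ bt i * (Fintype.piFinset D).card := hInv
          _ < lam i ^ Δ * (Fintype.piFinset D).card := mul_lt_mul_of_pos_right (hbt i hi) hΩ'
          _ ≤ lam i ^ J.card * (Fintype.piFinset D).card := by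
              apply mul_le_mul_of_nonneg_right _ hΩ'.le
              exact pow_le_pow_of_le_one hl0.le hl1 hJ
          _ = _ := by ring
      exact lt_of_mul_lt_mul_right h2 (by positivity)
    unfold nbad at h1
    have h3 : ((Fintype.piFinset D).filter
        (fun z => ((refn G i J C z).card : ℝ) < thr i)).card < (Fintype.piFinset D).card := by
      exact_mod_cast h1
    obtain ⟨z, hz, hz'⟩ : ∃ z ∈ Fintype.piFinset D, ¬ ((refn G i J C z).card : ℝ) < thr i := by
      by_contra hcon
      push Not at hcon
      have : (Fintype.piFinset D).filter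
        (fun z => ((refn G i J C z).card : ℝ) < thr i) = Fintype.piFinset D := by
        rw [Finset.filter_eq_self]
        exact hcon
      rw [this] at h3
      exact lt_irrefl _ h3
    refine (not_lt.mp hz').trans ?_
    exact_mod_cast Finset.card_le_card (Finset.filter_subset _ _)

end

end Run7.h755
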