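import Mathlib
import Pool.Agent.Run7.h755.Drc
import Pool.Agent.Run7.h755.Frac
import Pool.Agent.Run7.h755.Count

open Finset
open scoped Classical

namespace Run7.h755

section
variable {V : Type*}

/-- cliques inside the neighbourhood of `v` -/
noncomputable def Lf {n : ℕ} (G : SimpleGraph V) (U : Fin n → Finset V) (v : V) :
    Finset (Fin n → V) :=
  (Fintype.piFinset U).filter (fun x => Clq G x ∧ ∀ i, G.Adj v (x i))

/-- cliques with many extensions -/
noncomputable def DD {n : ℕ} (G : SimpleGraph V) (U : Fin n → Finset V) (a : Fin n → V)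
    (W : Finset V) (UU : Finset (Fin n → V)) (ζ : ℝ) : Finset (Fin n → V) :=
  (Fintype.piFinset (Da G U a)).filter (fun b => Clq G b ∧
    ζ * W.card ≤ ((W.filter (fun w => ∀ i, G.Adj w (b i))).card : ℝ) ∧ b ∉ UU)

lemma Da_sub {n : ℕ} (G : SimpleGraph V) (U : Fin n → Finset V) (a : Fin n → V) (i : Fin n) :
    Da G U a i ⊆ U i := Finset.filter_subset _ _

lemma piDa_sub {n : ℕ} (G : SimpleGraph V) (U : Fin n → Finset V) (a : Fin n → V) :
    Fintype.piFinset (Da G U a) ⊆ Fintype.piFinset U := by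
  intro b hb
  rw [Fintype.mem_piFinset] at hb ⊢
  exact fun i => Da_sub G U a i (hb i)

lemma DD_sub {n : ℕ} (G : SimpleGraph V) (U : Fin n → Finset V) (a : Fin n → V)
    (W : Finset V) (UU : Finset (Fin n → V)) (ζ : ℝ) : DD G U a W UU ζ ⊆ Fintype.piFinset U :=
  (Finset.filter_subset _ _).trans (piDa_sub G U a)

lemma scp_stair {n : ℕ} (G : SimpleGraph V) (U : Fin n → Finset V) (a : Fin n → V)
    (UU : Finset (Fin n → V)) {θ : ℝ} (hθ : 0 ≤ θ) (w : V)
    (ha : a ∈ filt U θ (Lf G U w \ UU) n) :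
    θ ^ n * ((Fintype.piFinset U).card : ℝ)
      ≤ (((Lf G U w \ UU).filter (fun b => b ∈ Fintype.piFinset (Da G U a))).card : ℝ) := by
  refine stair G U hθ _ ?_ a ha
  intro x hx
  exact (Finset.mem_filter.mp (Finset.mem_sdiff.mp hx).1).2.1

lemma scp_pi {n : ℕ} (G : SimpleGraph V) (U : Fin n → Finset V) (a : Fin n → V)
    (UU : Finset (Fin n → V)) {θ : ℝ} (hθ : 0 ≤ θ) (w : V)
    (ha : a ∈ filt U θ (Lf G U w \ UU) n) :
    θ ^ n * ((Fintype.piFinset U).card : ℝ) ≤ ((Fintype.piFinset (Da G U a)).card : ℝ) := by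
  refine (scp_stair G U a UU hθ w ha).trans ?_
  exact_mod_cast Finset.card_le_card (by
    intro b hb
    exact (Finset.mem_filter.mp hb).2)

lemma scp_Da {n : ℕ} (G : SimpleGraph V) (U : Fin n → Finset V) (a : Fin n → V)
    (UU : Finset (Fin n → V)) {θ : ℝ} (hθ : 0 ≤ θ) (w : V)
    (ha : a ∈ filt U θ (Lf G U w \ UU) n) (hΩ : 0 < (Fintype.piFinset U).card) (i : Fin n) :
    θ ^ n * ((U i).card : ℝ) ≤ ((Da G U a i).card : ℝ) := by
  have hΩ' : (0 : ℝ) < (Fintype.piFinset U).card := by exact_mod_cast hΩ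
  have hUi : (0 : ℝ) < (U i).card := by
    have : 0 < (U i).card := by
      rw [Finset.card_pos]
      obtain ⟨x, hx⟩ := Finset.card_pos.mp hΩ
      exact ⟨x i, Fintype.mem_piFinset.mp hx i⟩
    exact_mod_cast this
  have h1 := fiber_le U i (fun b => b i ∈ Da G U a i) ((Da G U a i).card / (U i).card) (by
    intro t _
    rw [div_mul_cancel₀ _ hUi.ne']
    exact_mod_cast Finset.card_le_card (by
      intro u hu
      rw [Finset.mem_filter, Function.update_self] at hu
      exact hu.2))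
  have h2 := (scp_pi G U a UU hθ w ha)
  have h3 : ((Fintype.piFinset (Da G U a)).card : ℝ)
      ≤ (((Fintype.piFinset U).filter (fun b => b i ∈ Da G U a i)).card : ℝ) := by
    exact_mod_cast Finset.card_le_card (by
      intro b hb
      rw [Finset.mem_filter]
      exact ⟨piDa_sub G U a hb, Fintype.mem_piFinset.mp hb i⟩)
  have h4 := le_of_mul_le_mul_right (h2.trans (h3.trans h1)) hΩ'
  rw [le_div_iff₀ hUi] at h4
  exact h4

lemma scp_ii {n : ℕ} (G : SimpleGraph V) (U : Fin n → Finset V) (a : Fin n → V)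
    (UU : Finset (Fin n → V)) {θ ζ : ℝ} (hθ : 0 ≤ θ) (W : Finset V) (hW : W.Nonempty) (hζ : 0 ≤ ζ)
    (ha : ∀ w ∈ W, a ∈ filt U θ (Lf G U w \ UU) n) :
    ∃ w ∈ W, (θ ^ n - ζ) * ((Fintype.piFinset U).card : ℝ)
      ≤ ((Lf G U w ∩ DD G U a W UU ζ).card : ℝ) := by
  refine Finset.exists_le_of_sum_le hW ?_
  set Ω := Fintype.piFinset U with hΩd
  have h1 : ∑ w ∈ W, θ ^ n * (Ω.card : ℝ)
      ≤ ∑ w ∈ W, (((Lf G U w \ UU).filter (fun b => b ∈ Fintype.piFinset (Da G U a))).card : ℝ) :=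
    Finset.sum_le_sum fun w hw => scp_stair G U a UU hθ w (ha w hw)
  have h2 : ∀ w ∈ W,
      (((Lf G U w \ UU).filter (fun b => b ∈ Fintype.piFinset (Da G U a))).card : ℝ)
      ≤ ((Lf G U w ∩ DD G U a W UU ζ).card : ℝ) +
        ((Ω.filter (fun b => (b ∈ Lf G U w ∧ b ∈ Fintype.piFinset (Da G U a) ∧ b ∉ UU) ∧
          b ∉ DD G U a W UU ζ)).card : ℝ) := by
    intro w _
    have : (Lf G U w \ UU).filter (fun b => b ∈ Fintype.piFinset (Da G U a))
        ⊆ (Lf G U w ∩ DD G U a W UU ζ) ∪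
        (Ω.filter (fun b => (b ∈ Lf G U w ∧ b ∈ Fintype.piFinset (Da G U a) ∧ b ∉ UU) ∧
          b ∉ DD G U a W UU ζ)) := by
      intro b hb
      rw [Finset.mem_filter, Finset.mem_sdiff] at hb
      rw [Finset.mem_union, Finset.mem_inter, Finset.mem_filter]
      by_cases hbD : b ∈ DD G U a W UU ζ
      · exact Or.inl ⟨hb.1.1, hbD⟩
      · exact Or.inr ⟨(Finset.mem_filter.mp hb.1.1).1, ⟨hb.1.1, hb.2, hb.1.2⟩, hbD⟩
    exact_mod_cast (Finset.card_le_card this).trans (Finset.card_union_le _ _)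
  have h3 : ∑ w ∈ W, ((Ω.filter (fun b => (b ∈ Lf G U w ∧ b ∈ Fintype.piFinset (Da G U a) ∧
      b ∉ UU) ∧ b ∉ DD G U a W UU ζ)).card : ℝ) ≤ ∑ b ∈ Ω, ζ * W.card := by
    simp only [Finset.card_filter, Nat.cast_sum]
    rw [Finset.sum_comm]
    refine Finset.sum_le_sum fun b _ => ?_
    have : ∑ w ∈ W, ((if (b ∈ Lf G U w ∧ b ∈ Fintype.piFinset (Da G U a) ∧ b ∉ UU) ∧
        b ∉ DD G U a W UU ζ then 1 else 0 : ℕ) : ℝ)
        = ((W.filter (fun w => (b ∈ Lf G U w ∧ b ∈ Fintype.piFinset (Da G U a) ∧ b ∉ UU) ∧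
        b ∉ DD G U a W UU ζ)).card : ℝ) := by
      rw [Finset.card_filter]; push_cast; rfl
    rw [this]
    by_cases hex : ∃ w0, (b ∈ Lf G U w0 ∧ b ∈ Fintype.piFinset (Da G U a) ∧ b ∉ UU) ∧
        b ∉ DD G U a W UU ζ
    · obtain ⟨w0, ⟨h4, h5, h6⟩, h7⟩ := hex
      have hclq := (Finset.mem_filter.mp h4).2.1
      have h8 : ¬ ζ * W.card ≤ ((W.filter (fun w => ∀ i, G.Adj w (b i))).card : ℝ) := by
        intro h9
        exact h7 (Finset.mem_filter.mpr ⟨h5, hclq, h9, h6⟩)
      refine le_trans ?_ (not_le.mp h8).le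
      exact_mod_cast Finset.card_le_card (by
        intro w hw
        rw [Finset.mem_filter] at hw ⊢
        exact ⟨hw.1, (Finset.mem_filter.mp hw.2.1.1).2.2⟩)
    · have : W.filter (fun w => (b ∈ Lf G U w ∧ b ∈ Fintype.piFinset (Da G U a) ∧ b ∉ UU) ∧
        b ∉ DD G U a W UU ζ) = ∅ := by
        rw [Finset.filter_eq_empty_iff]
        intro w _ hw
        exact hex ⟨w, hw⟩
      rw [this]
      simp only [Finset.card_empty, Nat.cast_zero]
      positivity
  have h4 := Finset.sum_le_sum h2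
  rw [Finset.sum_add_distrib] at h4
  rw [Finset.sum_const, nsmul_eq_mul] at h1 h3 ⊢
  nlinarith

/-- the system of sets -/
noncomputable def DW {n : ℕ} (G : SimpleGraph V) (U : Fin n → Finset V) (a : Fin n → V)
    (W : Finset V) : Fin (n + 1) → Finset V :=
  Fin.snoc (α := fun _ => Finset V) (Da G U a) W

lemma DW_castSucc {n : ℕ} (G : SimpleGraph V) (U : Fin n → Finset V) (a : Fin n → V)
    (W : Finset V) (i : Fin n) : DW G U a W i.castSucc = Da G U a i := by
  simp [DW]

lemma DW_last {n : ℕ} (G : SimpleGraph V) (U : Fin n → Finset V) (a : Fin n → V)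
    (W : Finset V) : DW G U a W (Fin.last n) = W := by
  simp [DW]

lemma DW_card {n : ℕ} (G : SimpleGraph V) (U : Fin n → Finset V) (a : Fin n → V)
    (W : Finset V) : (Fintype.piFinset (DW G U a W)).card
      = (Fintype.piFinset (Da G U a)).card * W.card := by
  rw [Fintype.card_piFinset, Fin.prod_univ_castSucc, Fintype.card_piFinset]
  simp only [DW_castSucc, DW_last]

lemma scp_hit {n : ℕ} (G : SimpleGraph V) (U : Fin n → Finset V) (a : Fin n → V)
    (UU : Finset (Fin n → V)) {η' ζ : ℝ} (W : Finset V) (hζ : 0 ≤ ζ) (hη' : 0 ≤ η') (v : V)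
    (hv : η' * ((Fintype.piFinset U).card : ℝ) ≤ ((Lf G U v ∩ DD G U a W UU ζ).card : ℝ)) :
    η' * ζ * ((Fintype.piFinset (DW G U a W)).card : ℝ)
      ≤ (((Fintype.piFinset (DW G U a W)).filter (fun t => Clq G t ∧ HitT G v t)).card : ℝ) := by
  rw [card_snoc]
  simp only [DW_castSucc, DW_last]
  have h1 : ∀ b ∈ Lf G U v ∩ DD G U a W UU ζ, ζ * W.card ≤
      ((W.filter (fun u => Clq G (Fin.snoc (α := fun _ => V) b u : Fin (n + 1) → V) ∧
        HitT G v (Fin.snoc (α := fun _ => V) b u : Fin (n + 1) → V))).card : ℝ) := by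
    intro b hb
    rw [Finset.mem_inter] at hb
    have hb1 := (Finset.mem_filter.mp hb.1).2
    have hb2 := (Finset.mem_filter.mp hb.2).2
    refine hb2.2.1.trans ?_
    exact_mod_cast Finset.card_le_card (by
      intro w hw
      rw [Finset.mem_filter] at hw ⊢
      refine ⟨hw.1, (clq_snoc G w b).mpr ⟨hw.2, hb1.1⟩, ?_⟩
      intro j
      refine Fin.lastCases ?_ (fun i => ?_) j
      · intro h; exact absurd rfl h
      · intro _; simpa using hb1.2 i)
  have hsub : Lf G U v ∩ DD G U a W UU ζ ⊆ Fintype.piFinset (Da G U a) := by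
    intro b hb
    exact (Finset.mem_filter.mp (Finset.mem_inter.mp hb).2).1
  calc η' * ζ * ((Fintype.piFinset (DW G U a W)).card : ℝ)
      ≤ η' * ζ * (((Fintype.piFinset U).card : ℝ) * W.card) := by
        apply mul_le_mul_of_nonneg_left _ (mul_nonneg hη' hζ)
        rw [DW_card]
        push_cast
        apply mul_le_mul_of_nonneg_right _ (Nat.cast_nonneg _)
        exact_mod_cast Finset.card_le_card (piDa_sub G U a)
    _ = (η' * ((Fintype.piFinset U).card : ℝ)) * (ζ * W.card) := by ring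
    _ ≤ ((Lf G U v ∩ DD G U a W UU ζ).card : ℝ) * (ζ * W.card) := by
        apply mul_le_mul_of_nonneg_right hv; positivity
    _ = ∑ b ∈ Lf G U v ∩ DD G U a W UU ζ, ζ * W.card := by
        rw [Finset.sum_const, nsmul_eq_mul]
    _ ≤ ∑ b ∈ Lf G U v ∩ DD G U a W UU ζ,
      ((W.filter (fun u => Clq G (Fin.snoc (α := fun _ => V) b u : Fin (n + 1) → V) ∧
        HitT G v (Fin.snoc (α := fun _ => V) b u : Fin (n + 1) → V))).card : ℝ) :=
        Finset.sum_le_sum h1
    _ ≤ _ := Finset.sum_le_sum_of_subset_of_nonneg hsub fun _ _ _ => Nat.cast_nonneg _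

lemma scp_init {q0 Δ : ℕ} (G : SimpleGraph V) (U : Fin (q0 + Δ) → Finset V)
    (a : Fin (q0 + Δ) → V) (UU : Finset (Fin (q0 + Δ) → V)) (W X : Finset V) (hWX : W ⊆ X)
    {θ : ℝ} (ha : ∀ w ∈ W, a ∈ filt U θ (Lf G U w \ UU) (q0 + Δ))
    (ηs : Fin (q0 + Δ) → ℝ) (thr : Fin (q0 + Δ + 1) → ℝ) (i : Fin (q0 + Δ))
    (hthr : thr i.castSucc = ηs i * (U i).card) :
    nbad G (DW G U a W) thr i.castSucc ∅ (DW G U a W i.castSucc)
      ≤ ((((Fintype.piFinset U) ×ˢ X).filter
        (fun z => badp G U ηs i a z.1 z.2)).card : ℝ) := by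
  unfold nbad
  rw [card_snoc]
  simp only [DW_castSucc, DW_last]
  have h1 : ((((Fintype.piFinset U) ×ˢ X).filter (fun z => badp G U ηs i a z.1 z.2)).card : ℝ)
      = ∑ b ∈ Fintype.piFinset U, ((X.filter (fun w => badp G U ηs i a b w)).card : ℝ) := by
    simp only [Finset.card_filter, Nat.cast_sum]
    rw [Finset.sum_product]
  rw [h1]
  refine le_trans ?_ (Finset.sum_le_sum_of_subset_of_nonneg (piDa_sub G U a)
    fun _ _ _ => Nat.cast_nonneg _)
  refine Finset.sum_le_sum fun b hb => ?_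
  rw [Fintype.mem_piFinset] at hb
  exact_mod_cast Finset.card_le_card (by
    intro w hw
    rw [Finset.mem_filter] at hw ⊢
    refine ⟨hWX hw.1, ?_⟩
    have haL := filt_sub U θ _ _ (ha w hw.1)
    have haL1 := Finset.mem_filter.mp (Finset.mem_sdiff.mp haL).1
    have haU := Fintype.mem_piFinset.mp haL1.1
    have hcn : cn G U a i b w = refn G i.castSucc ∅ (Da G U a i)
        (Fin.snoc (α := fun _ => V) b w : Fin (q0 + Δ + 1) → V) := by
      ext u
      simp only [cn, refn, Da, Finset.mem_filter, Finset.notMem_empty, not_false_eq_true,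
        forall_true_left]
      constructor
      · rintro ⟨h1, h2, h3, h4⟩
        refine ⟨⟨h1, h2⟩, fun j => ?_⟩
        refine Fin.lastCases ?_ (fun j' => ?_) j
        · intro _; simpa using h4
        · intro hj
          simpa using h3 j' (by simpa using hj)
      · rintro ⟨⟨h1, h2⟩, h3⟩
        refine ⟨h1, h2, fun j hj => ?_, ?_⟩
        · have := h3 j.castSucc (by simpa using hj)
          simpa using this
        · have := h3 (Fin.last _) (Fin.castSucc_lt_last i)
          simpa using this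
    refine ⟨?_, ?_⟩
    · unfold cn
      rw [Finset.mem_filter]
      refine ⟨haU i, fun j hj => haL1.2.1 j i hj.ne, fun j hj => ?_, haL1.2.2 i⟩
      exact ((Finset.mem_filter.mp (hb j)).2 i hj).symm
    · rw [hcn, ← hthr]
      exact hw.2)

end

end Run7.h755
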