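import Mathlib
import Pool.Agent.Run7.h755.Scp1

open Finset
open scoped Classical

namespace Run7.h755

lemma ramsey {ι : Type*} [LinearOrder ι] {K : ℕ} (hK : 0 < K) (col : ι → ι → Fin K) (N : ℕ) :
    ∀ (a : Fin K → ℕ), ∑ c, a c = N → ∀ S : Finset ι, (K + 1) ^ N ≤ S.card →
    ∃ c, ∃ T ⊆ S, T.card = a c ∧ ∀ i ∈ T, ∀ j ∈ T, i < j → col i j = c := by
  induction N with
  | zero =>
    intro a ha S _
    refine ⟨⟨0, hK⟩, ∅, by simp, ?_, by simp⟩
    rw [Finset.sum_eq_zero_iff] at ha
    rw [ha _ (Finset.mem_univ _)]; simp
  | succ N ih =>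
    intro a ha S hS
    by_cases hz : ∃ c, a c = 0
    · obtain ⟨c, hc⟩ := hz
      exact ⟨c, ∅, by simp, by rw [hc]; simp, by simp⟩
    push Not at hz
    have hSne : S.Nonempty := by
      rw [← Finset.card_pos]
      exact lt_of_lt_of_le (by positivity) hS
    set s := S.min' hSne with hs
    have hsS : s ∈ S := Finset.min'_mem _ _
    have hcard : K * (K + 1) ^ N ≤ (S.erase s).card := by
      rw [Finset.card_erase_of_mem hsS]
      have h1 : 1 ≤ (K + 1) ^ N := Nat.one_le_pow _ _ (by omega)
      have h2 : (K + 1) ^ (N + 1) = K * (K + 1) ^ N + (K + 1) ^ N := by ring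
      omega
    obtain ⟨c, _, hc⟩ := Finset.exists_le_card_fiber_of_mul_le_card_of_maps_to
      (s := S.erase s) (t := (univ : Finset (Fin K))) (f := fun j => col s j) (n := (K + 1) ^ N)
      (fun _ _ => Finset.mem_univ _) ⟨⟨0, hK⟩, Finset.mem_univ _⟩ (by simpa using hcard)
    have hac := hz c
    obtain ⟨c', T, hT, hTc, hTm⟩ := ih (Function.update a c (a c - 1)) (by
      rw [Finset.sum_update_of_mem (Finset.mem_univ _)]
      have : ∑ x, a x = a c + ∑ x ∈ univ \ {c}, a x := by
        rw [← Finset.add_sum_erase univ a (Finset.mem_univ c), Finset.sdiff_singleton_eq_erase]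
      omega) _ hc
    have hTS : T ⊆ S := hT.trans ((Finset.filter_subset _ _).trans (Finset.erase_subset _ _))
    by_cases hcc : c' = c
    · subst hcc
      rw [Function.update_self] at hTc
      have hsT : s ∉ T := by
        intro h
        have := (Finset.mem_filter.mp (hT h)).1
        exact (Finset.mem_erase.mp this).1 rfl
      refine ⟨c', insert s T, ?_, ?_, ?_⟩
      · intro x hx
        rcases Finset.mem_insert.mp hx with rfl | hx
        · exact hsS
        · exact hTS hx
      · rw [Finset.card_insert_of_notMem hsT, hTc]; omega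
      · intro i hi j hj hij
        rcases Finset.mem_insert.mp hi with rfl | hi <;> rcases Finset.mem_insert.mp hj with rfl | hj
        · exact absurd hij (lt_irrefl _)
        · exact (Finset.mem_filter.mp (hT hj)).2
        · exact absurd hij (not_lt.mpr (Finset.min'_le _ _ (hTS hi)))
        · exact hTm i hi j hj hij
    · refine ⟨c', T, hTS, ?_, hTm⟩
      rw [hTc, Function.update_of_ne hcc]

section marg

variable {α ι V : Type*} [Fintype α] [DecidableEq α] [Fintype ι] [DecidableEq ι]

lemma marg (U : ι → Finset V) (g : α → ι) (hg : Function.Injective g) :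
    ∃ C : ℕ, ∀ A : Finset (α → V), A ⊆ Fintype.piFinset (fun a => U (g a)) →
    ((Fintype.piFinset U).filter (fun x => (fun a => x (g a)) ∈ A)).card = A.card * C := by
  refine ⟨∏ i, (if ∃ a, g a = i then 1 else (U i).card), fun A hA => ?_⟩
  rw [Finset.card_eq_sum_card_fiberwise (f := fun (x : ι → V) (a : α) => x (g a)) (t := A)]
  · rw [← smul_eq_mul, ← Finset.sum_const]
    refine Finset.sum_congr rfl fun y hy => ?_
    have hy' := Fintype.mem_piFinset.mp (hA hy)
    have : ((Fintype.piFinset U).filter (fun x => (fun a => x (g a)) ∈ A)).filter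
        (fun x => (fun a => x (g a)) = y)
        = Fintype.piFinset (fun i => if h : ∃ a, g a = i then {y h.choose} else U i) := by
      ext x
      simp only [Finset.mem_filter, Fintype.mem_piFinset]
      constructor
      · rintro ⟨⟨h1, h2⟩, h3⟩ i
        split_ifs with h
        · rw [Finset.mem_singleton, ← h3]
          exact congrArg x h.choose_spec.symm
        · exact h1 i
      · intro h
        have hx : (fun a => x (g a)) = y := by
          funext a
          have h1 := h (g a)
          have hex : ∃ a', g a' = g a := ⟨a, rfl⟩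
          rw [dif_pos hex, Finset.mem_singleton] at h1
          rw [h1]
          exact congrArg y (hg hex.choose_spec)
        refine ⟨⟨fun i => ?_, ?_⟩, hx⟩
        · have h1 := h i
          split_ifs at h1 with h2
          · obtain ⟨a, rfl⟩ := h2
            have : x (g a) = y a := congrFun hx a
            rw [this]
            exact hy' a
          · exact h1
        · rw [hx]; exact hy
    rw [this, Fintype.card_piFinset]
    refine Finset.prod_congr rfl fun i _ => ?_
    split_ifs <;> simp
  · intro x hx
    exact (Finset.mem_filter.mp hx).2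

end marg

section
variable {V : Type*} {K : ℕ} {G : Fin K → SimpleGraph V}

theorem level_bound (hK : 0 < K) (hcov : ∀ x y, x ≠ y → ∃ c, (G c).Adj x y) (n l : ℕ)
    (U : Fin l → Finset V) (hne : ∀ i, (U i).Nonempty) (hdis : ∀ i j, i < j → Disjoint (U i) (U j))
    (η : ℝ) (hη : 0 ≤ η) (hl : (K + 1) ^ (K * (n + 1)) ≤ l) (hηl : K * (l : ℝ) ^ (n + 1) * η < 1)
    (hcv : ∀ (c : Fin K) (f : Fin n → Fin l) (j : Fin l), (∀ i, f i < j) → ∀ v ∈ U j,
      ((Lf (G c) (fun i => U (f i)) v).card : ℝ)
        ≤ η * ((Fintype.piFinset (fun i => U (f i))).card : ℝ)) : False := by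
  set Ω := Fintype.piFinset U with hΩ
  have hΩpos : (0 : ℝ) < Ω.card := by
    have : 0 < Ω.card := by
      rw [hΩ, Fintype.card_piFinset]
      exact Finset.prod_pos fun i _ => Finset.card_pos.mpr (hne i)
    exact_mod_cast this
  have hbad : ∀ b ∈ (univ : Finset (Fin K × (Fin (n + 1) → Fin l))),
      ((Ω.filter (fun x => StrictMono b.2 ∧ Clq (G b.1) (fun a => x (b.2 a)))).card : ℝ)
        ≤ η * Ω.card := by
    rintro ⟨c, g⟩ _
    by_cases hg : StrictMono g
    swap
    · have : Ω.filter (fun x => StrictMono g ∧ Clq (G c) (fun a => x (g a))) = ∅ := by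
        rw [Finset.filter_eq_empty_iff]
        intro x _ h
        exact hg h.1
      simp only [this, Finset.card_empty, Nat.cast_zero]
      positivity
    simp only [hg, true_and]
    set A := (Fintype.piFinset (fun a => U (g a))).filter (fun y => Clq (G c) y) with hA
    obtain ⟨C, hC⟩ := marg U g hg.injective
    have hm1 := hC A (Finset.filter_subset _ _)
    have hm2 := hC (Fintype.piFinset (fun a => U (g a))) (Finset.Subset.refl _)
    have e1 : (Fintype.piFinset U).filter (fun x => (fun a => x (g a)) ∈ A)
        = Ω.filter (fun x => Clq (G c) (fun a => x (g a))) := by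
      refine Finset.filter_congr fun x hx => ?_
      rw [Fintype.mem_piFinset] at hx
      rw [hA, Finset.mem_filter, Fintype.mem_piFinset]
      exact ⟨fun h => h.2, fun h => ⟨fun a => hx (g a), h⟩⟩
    have e2 : (Fintype.piFinset U).filter
        (fun x => (fun a => x (g a)) ∈ Fintype.piFinset (fun a => U (g a))) = Ω := by
      rw [Finset.filter_eq_self]
      intro x hx
      rw [Fintype.mem_piFinset] at hx ⊢
      exact fun a => hx (g a)
    rw [e1] at hm1
    rw [e2] at hm2
    have hAc : (A.card : ℝ) ≤ η * ((Fintype.piFinset (fun a => U (g a))).card : ℝ) := by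
      rw [hA, card_snoc]
      have e3 : ∑ b ∈ Fintype.piFinset (fun i : Fin n => U (g i.castSucc)),
          (((U (g (Fin.last n))).filter (fun u => Clq (G c)
            (Fin.snoc (α := fun _ => V) b u : Fin (n + 1) → V))).card : ℝ)
          = ∑ u ∈ U (g (Fin.last n)), ((Lf (G c) (fun i : Fin n => U (g i.castSucc)) u).card : ℝ) := by
        unfold Lf
        simp only [Finset.card_filter, Nat.cast_sum]
        rw [Finset.sum_comm]
        refine Finset.sum_congr rfl fun u _ => Finset.sum_congr rfl fun b _ => ?_
        have : Clq (G c) (Fin.snoc (α := fun _ => V) b u : Fin (n + 1) → V)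
            ↔ (Clq (G c) b ∧ ∀ i, (G c).Adj u (b i)) := by
          rw [clq_snoc]; exact and_comm
        by_cases h : Clq (G c) b ∧ ∀ i, (G c).Adj u (b i)
        · rw [if_pos h, if_pos (this.mpr h)]
        · rw [if_neg h, if_neg (fun h' => h (this.mp h'))]
      rw [e3]
      calc ∑ u ∈ U (g (Fin.last n)), ((Lf (G c) (fun i : Fin n => U (g i.castSucc)) u).card : ℝ)
          ≤ ∑ u ∈ U (g (Fin.last n)),
            η * ((Fintype.piFinset (fun i : Fin n => U (g i.castSucc))).card : ℝ) :=
            Finset.sum_le_sum fun u hu =>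
              hcv c (fun i => g i.castSucc) (g (Fin.last n)) (fun i => hg (Fin.castSucc_lt_last i)) u hu
        _ = _ := by
            rw [Finset.sum_const, nsmul_eq_mul, Fintype.card_piFinset, Fintype.card_piFinset,
              Fin.prod_univ_castSucc]
            push_cast
            ring
    have hm1' : ((Ω.filter (fun x => Clq (G c) (fun a => x (g a)))).card : ℝ)
        = A.card * (C : ℝ) := by
      exact_mod_cast hm1
    have hm2' : (Ω.card : ℝ) = ((Fintype.piFinset (fun a => U (g a))).card : ℝ) * (C : ℝ) := by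
      exact_mod_cast hm2
    rw [hm1', hm2']
    calc _ ≤ η * ((Fintype.piFinset (fun a => U (g a))).card : ℝ) * (C : ℝ) :=
          mul_le_mul_of_nonneg_right hAc (Nat.cast_nonneg _)
      _ = _ := by ring
  have hall := card_filter_exists_le Ω (univ : Finset (Fin K × (Fin (n + 1) → Fin l)))
    (fun _ => True) (fun b x => StrictMono b.2 ∧ Clq (G b.1) (fun a => x (b.2 a))) (η * Ω.card)
    (by
      intro x hx _
      rw [hΩ, Fintype.mem_piFinset] at hx
      have hxne : ∀ i j, i < j → x i ≠ x j := by
        intro i j hij h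
        exact (Finset.disjoint_left.mp (hdis i j hij)) (hx i) (h ▸ hx j)
      have hcol : ∀ i j, ∃ c : Fin K, i < j → (G c).Adj (x i) (x j) := by
        intro i j
        by_cases h : i < j
        · obtain ⟨c, hc⟩ := hcov _ _ (hxne i j h)
          exact ⟨c, fun _ => hc⟩
        · exact ⟨⟨0, hK⟩, fun h' => absurd h' h⟩
      choose col hcol using hcol
      obtain ⟨c, T, _, hTc, hTm⟩ := ramsey hK col (K * (n + 1)) (fun _ => n + 1)
        (by simp) univ (by simpa using hl)
      refine ⟨(c, T.orderEmbOfFin hTc), Finset.mem_univ _, (T.orderEmbOfFin hTc).strictMono, ?_⟩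
      have hmem : ∀ a, T.orderEmbOfFin hTc a ∈ T := fun a => Finset.orderEmbOfFin_mem _ _ _
      intro a b hab
      rcases lt_or_gt_of_ne hab with h | h
      · have h1 : T.orderEmbOfFin hTc a < T.orderEmbOfFin hTc b := (T.orderEmbOfFin hTc).strictMono h
        have h2 := hTm _ (hmem a) _ (hmem b) h1
        have h3 := hcol _ _ h1
        rw [h2] at h3
        exact h3
      · have h1 : T.orderEmbOfFin hTc b < T.orderEmbOfFin hTc a := (T.orderEmbOfFin hTc).strictMono h
        have h2 := hTm _ (hmem b) _ (hmem a) h1
        have h3 := hcol _ _ h1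
        rw [h2] at h3
        exact h3.symm)
    hbad
  rw [Finset.filter_true, Finset.card_univ, Fintype.card_prod, Fintype.card_fin, Fintype.card_fun,
    Fintype.card_fin, Fintype.card_fin] at hall
  push_cast at hall
  have : (K : ℝ) * (l : ℝ) ^ (n + 1) * (η * Ω.card) < 1 * Ω.card := by
    calc (K : ℝ) * (l : ℝ) ^ (n + 1) * (η * Ω.card) = (K * (l : ℝ) ^ (n + 1) * η) * Ω.card := by ring
      _ < _ := mul_lt_mul_of_pos_right hηl hΩpos
  linarith

end

end Run7.h755
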