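import Mathlib
import Pool.Agent.Run7.h755.Nst
import Pool.Agent.Run7.h755.Ram

open Finset
open scoped Classical

namespace Run7.h755

section
variable {X V : Type*} [Fintype X] {k : ℕ}

/-- refinement of a candidate set by the later neighbours not in `A` -/
noncomputable def refx (F : SimpleGraph X) (G : SimpleGraph V) (κ : X → Fin k) (x : X)
    (A : Finset X) (C : Finset V) (z : X → V) : Finset V :=
  C.filter (fun u => ∀ y, F.Adj x y → κ x < κ y → y ∉ A → G.Adj (z y) u)

/-- number of bad assignments -/
noncomputable def nbx (F : SimpleGraph X) (G : SimpleGraph V) (κ : X → Fin k) (T : X → Finset V)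
    (s : ℝ) (x : X) (A : Finset X) (C : Finset V) : ℝ :=
  (((Fintype.piFinset T).filter (fun z => ((refx F G κ x A C z).card : ℝ) < s)).card : ℝ)

lemma nbx_sum (F : SimpleGraph X) (G : SimpleGraph V) (κ : X → Fin k) (T : X → Finset V)
    (s : ℝ) (x : X) (A : Finset X) (C : Finset V) (y : X) (hxy : F.Adj x y) (hκ : κ x < κ y)
    (hyA : y ∉ A) :
    ∑ u ∈ T y, nbx F G κ T s x (insert y A) (C.filter (fun w => G.Adj u w))
      = ((T y).card : ℝ) * nbx F G κ T s x A C := by
  have hrefn : ∀ (t : X → V) u, refx F G κ x A C (Function.update t y u)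
      = refx F G κ x (insert y A) (C.filter (fun w => G.Adj u w)) t := by
    intro t u
    ext w
    simp only [refx, Finset.mem_filter]
    constructor
    · rintro ⟨h1, h2⟩
      refine ⟨⟨h1, ?_⟩, fun j' hj1 hj2 hj3 => ?_⟩
      · have := h2 y hxy hκ hyA
        rwa [Function.update_self] at this
      · rw [Finset.mem_insert, not_or] at hj3
        have := h2 j' hj1 hj2 hj3.2
        rwa [Function.update_of_ne hj3.1] at this
    · rintro ⟨⟨h1, h2⟩, h3⟩
      refine ⟨h1, fun j' hj1 hj2 hj3 => ?_⟩
      by_cases hjj : j' = y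
      · subst hjj; rwa [Function.update_self]
      · rw [Function.update_of_ne hjj]
        refine h3 j' hj1 hj2 ?_
        rw [Finset.mem_insert, not_or]
        exact ⟨hjj, hj3⟩
  have h1 := sum_update T y (fun t => if ((refx F G κ x A C t).card : ℝ) < s then (1 : ℝ) else 0)
  rw [Finset.sum_boole] at h1
  unfold nbx
  rw [← h1, Finset.sum_comm]
  refine Finset.sum_congr rfl fun u _ => ?_
  rw [← Finset.sum_boole]
  refine Finset.sum_congr rfl fun t _ => ?_
  rw [hrefn]

theorem nst_embed (F : SimpleGraph X) (G : SimpleGraph V) (Δ : ℕ)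
    (hΔ : ∀ x, (Finset.univ.filter (fun z => F.Adj x z)).card ≤ Δ)
    (κ : X → Fin k) (hκ : ∀ x y, F.Adj x y → κ x ≠ κ y)
    (Wt Wn : Fin k → Finset V) (hne : ∀ j, (Wt j).Nonempty)
    (hsub : ∀ i j, i < j → Wt j ⊆ Wn i)
    (R : ℝ) (hR1 : 1 ≤ R) (hR : ∀ i j, i < j → ((Wt i).card : ℝ) ≤ R * (Wt j).card)
    (β ε lam : ℝ) (hε : 0 < ε) (hlam0 : 0 < lam) (hlam1 : lam ≤ 1)
    (hbad : ∀ j, ∀ r ≤ Δ, ((btp G (Wt j) (Wn j) β r).card : ℝ) ≤ ε * ((Wt j).card : ℝ) ^ r)
    (hbt : ε * R ^ Δ < lam ^ Δ)
    (hsize : ∀ j, (Fintype.card X : ℝ) + Δ * (lam * (Wt j).card) < β * (Wt j).card) :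
    ∃ φ : X → V, Function.Injective φ ∧ (∀ a b, F.Adj a b → G.Adj (φ a) (φ b)) ∧
      ∀ x, φ x ∈ Wt (κ x) := by
  by_cases hX : IsEmpty X
  · exact ⟨fun x => (hX.false x).elim, fun x => (hX.false x).elim, fun x => (hX.false x).elim,
      fun x => (hX.false x).elim⟩
  rw [not_isEmpty_iff] at hX
  obtain ⟨x0⟩ := hX
  obtain ⟨v0, _⟩ := hne (κ x0)
  set T : X → Finset V := fun x => Wt (κ x) with hT
  set Ω := Fintype.piFinset T with hΩ
  have hΩ0 : 0 < Ω.card := by
    rw [hΩ, Fintype.card_piFinset]
    exact Finset.prod_pos fun i _ => Finset.card_pos.mpr (hne _)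
  have hΩ' : (0 : ℝ) < Ω.card := by exact_mod_cast hΩ0
  obtain ⟨bt, hbtd⟩ : ∃ bt, bt = ε * R ^ Δ := ⟨_, rfl⟩
  have hR0 : 0 < R := by linarith
  have hbt0 : 0 < bt := by rw [hbtd]; positivity
  rw [← hbtd] at hbt
  let thr : X → ℝ := fun x => β * (T x).card
  let Inv : X → Finset X → Finset V → Prop := fun x A C =>
    nbx F G κ T (thr x) x A C * lam ^ A.card ≤ bt * Ω.card
  have hn0 : ∀ x A C, 0 ≤ nbx F G κ T (thr x) x A C := fun _ _ _ => Nat.cast_nonneg _
  let r : X → X → Prop := fun a b => κ b ≤ κ a
  haveI : IsTrans X r := ⟨fun a b c h1 h2 => le_trans h2 h1⟩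
  haveI : Std.Total r := ⟨fun a b => le_total _ _⟩
  let L : List X := (univ : Finset X).toList.insertionSort r
  have hLmem : ∀ x, x ∈ L := by
    intro x
    simp [L, List.mem_insertionSort]
  have hLnd : L.Nodup := by
    have := List.perm_insertionSort r (univ : Finset X).toList
    exact this.nodup_iff.mpr (Finset.nodup_toList _)
  have hLpw : L.Pairwise r := List.pairwise_insertionSort r _
  have hAcard : ∀ x (A : Finset X), (∀ a ∈ A, F.Adj x a) → A.card ≤ Δ := by
    intro x A hA
    refine (Finset.card_le_card ?_).trans (hΔ x)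
    intro a ha
    simp [hA a ha]
  have hinit : ∀ x, Inv x ∅ (T x) := by
    intro x
    set Nx := univ.filter (fun y => F.Adj x y ∧ κ x < κ y) with hNx
    have hNxΔ : Nx.card ≤ Δ := by
      refine (Finset.card_le_card ?_).trans (hΔ x)
      intro a ha
      simp only [hNx, Finset.mem_filter, Finset.mem_univ, true_and] at ha ⊢
      exact ha.1
    let g : Fin Nx.card → X := fun i => (Nx.equivFin.symm i : X)
    have hg : Function.Injective g := fun i j h =>
      Nx.equivFin.symm.injective (Subtype.ext h)
    have hgm : ∀ i, F.Adj x (g i) ∧ κ x < κ (g i) := by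
      intro i
      exact (Finset.mem_filter.mp (Nx.equivFin.symm i).2).2
    have hgs : ∀ y, F.Adj x y → κ x < κ y → ∃ i, g i = y := by
      intro y h1 h2
      have hy : y ∈ Nx := by simp [hNx, h1, h2]
      exact ⟨Nx.equivFin ⟨y, hy⟩, by simp [g]⟩
    obtain ⟨Cm, hCm⟩ := marg T g hg
    set A := (Fintype.piFinset (fun a => T (g a))).filter
      (fun z => ((cnb G (T x) z).card : ℝ) < β * (T x).card) with hA
    have hm1 := hCm A (Finset.filter_subset _ _)
    have hm2 := hCm (Fintype.piFinset (fun a => T (g a))) (Finset.Subset.refl _)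
    have e1 : (Fintype.piFinset T).filter (fun z => ((refx F G κ x ∅ (T x) z).card : ℝ) < thr x)
        = (Fintype.piFinset T).filter (fun z => (fun a => z (g a)) ∈ A) := by
      refine Finset.filter_congr fun z hz => ?_
      rw [Fintype.mem_piFinset] at hz
      have h1 : refx F G κ x ∅ (T x) z = cnb G (T x) (fun a => z (g a)) := by
        ext u
        simp only [refx, cnb, Finset.mem_filter, Finset.notMem_empty, not_false_eq_true,
          true_implies]
        refine and_congr_right fun _ => ⟨fun h s => h (g s) (hgm s).1 (hgm s).2, ?_⟩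
        intro h y hy1 hy2
        obtain ⟨i, rfl⟩ := hgs y hy1 hy2
        exact h i
      rw [h1, hA, Finset.mem_filter, Fintype.mem_piFinset]
      exact ⟨fun h => ⟨fun a => hz (g a), h⟩, fun h => h.2⟩
    have e2 : (Fintype.piFinset T).filter
        (fun z => (fun a => z (g a)) ∈ Fintype.piFinset (fun a => T (g a))) = Ω := by
      rw [Finset.filter_eq_self]
      intro z hz
      rw [Fintype.mem_piFinset] at hz ⊢
      exact fun a => hz (g a)
    rw [e2] at hm2
    have hAc : (A.card : ℝ) ≤ ε * ((T x).card : ℝ) ^ Nx.card := by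
      refine le_trans ?_ (hbad (κ x) Nx.card hNxΔ)
      refine Nat.cast_le.mpr (Finset.card_le_card ?_)
      intro z hz
      rw [hA, Finset.mem_filter, Fintype.mem_piFinset] at hz
      rw [btp, Finset.mem_filter, Fintype.mem_piFinset]
      exact ⟨fun a => hsub _ _ (hgm a).2 (hz.1 a), hz.2⟩
    have hprod : ((T x).card : ℝ) ^ Nx.card
        ≤ R ^ Δ * ((Fintype.piFinset (fun a => T (g a))).card : ℝ) := by
      rw [Fintype.card_piFinset]
      push_cast
      calc ((T x).card : ℝ) ^ Nx.card = ∏ a : Fin Nx.card, ((T x).card : ℝ) := by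
            rw [Finset.prod_const, Finset.card_univ, Fintype.card_fin]
        _ ≤ ∏ a : Fin Nx.card, (R * ((T (g a)).card : ℝ)) :=
            Finset.prod_le_prod (fun _ _ => Nat.cast_nonneg _)
              (fun a _ => hR _ _ (hgm a).2)
        _ = R ^ Nx.card * ∏ a : Fin Nx.card, ((T (g a)).card : ℝ) := by
            rw [Finset.prod_mul_distrib, Finset.prod_const, Finset.card_univ, Fintype.card_fin]
        _ ≤ _ := by
            apply mul_le_mul_of_nonneg_right _ (Finset.prod_nonneg fun _ _ => Nat.cast_nonneg _)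
            exact pow_le_pow_right₀ hR1 hNxΔ
    have h3 : nbx F G κ T (thr x) x ∅ (T x) = A.card * (Cm : ℝ) := by
      unfold nbx
      rw [e1, hm1]; push_cast; ring
    have h4 : (Ω.card : ℝ) = ((Fintype.piFinset (fun a => T (g a))).card : ℝ) * (Cm : ℝ) := by
      exact_mod_cast hm2
    change nbx F G κ T (thr x) x ∅ (T x) * lam ^ (∅ : Finset X).card ≤ bt * Ω.card
    rw [Finset.card_empty, pow_zero, mul_one, h3, h4, hbtd]
    calc (A.card : ℝ) * Cm ≤ (ε * ((T x).card : ℝ) ^ Nx.card) * Cm :=
          mul_le_mul_of_nonneg_right hAc (Nat.cast_nonneg _)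
      _ ≤ (ε * (R ^ Δ * ((Fintype.piFinset (fun a => T (g a))).card : ℝ))) * Cm :=
          mul_le_mul_of_nonneg_right (mul_le_mul_of_nonneg_left hprod hε.le) (Nat.cast_nonneg _)
      _ = _ := by ring
  obtain ⟨ψ, _, hψ⟩ := seq_embed F G T ∅ Inv
    (fun x => lam * (T x).card) (fun x => by positivity) Δ hΔ L ∅ (fun _ => v0)
    hLnd (by simp) (by
      refine hLpw.imp_of_mem ?_
      intro z x _ _ hzx hadj A C hzA hA hC hInv
      have hlt : κ x < κ z := lt_of_le_of_ne hzx (hκ x z hadj)
      set Z := (T z).filter (fun u => ¬ Inv x (insert z A) (C.filter (fun w => G.Adj u w))) with hZ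
      have hcard : (insert z A).card = A.card + 1 := Finset.card_insert_of_notMem hzA
      have h1 : (Z.card : ℝ) * (bt * Ω.card)
          ≤ ∑ u ∈ T z, nbx F G κ T (thr x) x (insert z A) (C.filter (fun w => G.Adj u w))
            * lam ^ (A.card + 1) := by
        calc (Z.card : ℝ) * (bt * Ω.card) = ∑ u ∈ Z, (bt * Ω.card) := by
              rw [Finset.sum_const, nsmul_eq_mul]
          _ ≤ ∑ u ∈ Z, nbx F G κ T (thr x) x (insert z A) (C.filter (fun w => G.Adj u w))
            * lam ^ (A.card + 1) := by
              refine Finset.sum_le_sum fun u hu => ?_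
              have := (Finset.mem_filter.mp hu).2
              change ¬ (nbx F G κ T (thr x) x (insert z A) (C.filter (fun w => G.Adj u w))
                * lam ^ (insert z A).card ≤ bt * Ω.card) at this
              rw [hcard] at this
              exact (not_le.mp this).le
          _ ≤ _ := Finset.sum_le_sum_of_subset_of_nonneg (Finset.filter_subset _ _)
              fun u _ _ => mul_nonneg (hn0 _ _ _) (by positivity)
      rw [← Finset.sum_mul, nbx_sum F G κ T (thr x) x A C z hadj hlt hzA] at h1
      have h2 : ((T z).card : ℝ) * nbx F G κ T (thr x) x A C * lam ^ (A.card + 1)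
          ≤ lam * (T z).card * (bt * Ω.card) := by
        calc ((T z).card : ℝ) * nbx F G κ T (thr x) x A C * lam ^ (A.card + 1)
            = lam * (T z).card * (nbx F G κ T (thr x) x A C * lam ^ A.card) := by ring
          _ ≤ _ := mul_le_mul_of_nonneg_left hInv (by positivity)
      exact le_of_mul_le_mul_right (h1.trans h2) (by positivity))
    (by
      intro x _ A C hA hC hInv
      have hcA := hAcard x A hA
      have h1 : nbx F G κ T (thr x) x A C < Ω.card := by
        have h2 : nbx F G κ T (thr x) x A C * lam ^ A.card < (Ω.card : ℝ) * lam ^ A.card := by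
          calc nbx F G κ T (thr x) x A C * lam ^ A.card ≤ bt * Ω.card := hInv
            _ < lam ^ Δ * Ω.card := mul_lt_mul_of_pos_right hbt hΩ'
            _ ≤ lam ^ A.card * Ω.card := by
                apply mul_le_mul_of_nonneg_right _ hΩ'.le
                exact pow_le_pow_of_le_one hlam0.le hlam1 hcA
            _ = _ := by ring
        exact lt_of_mul_lt_mul_right h2 (by positivity)
      unfold nbx at h1
      have h3 : ((Fintype.piFinset T).filter
          (fun z => ((refx F G κ x A C z).card : ℝ) < thr x)).card < Ω.card := by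
        exact_mod_cast h1
      obtain ⟨z, hz, hz'⟩ : ∃ z ∈ Fintype.piFinset T, ¬ ((refx F G κ x A C z).card : ℝ) < thr x := by
        by_contra hcon
        push Not at hcon
        have : (Fintype.piFinset T).filter
          (fun z => ((refx F G κ x A C z).card : ℝ) < thr x) = Ω := by
          rw [Finset.filter_eq_self]
          exact hcon
        rw [this] at h3
        exact lt_irrefl _ h3
      have h4 : thr x ≤ (C.card : ℝ) := by
        refine (not_lt.mp hz').trans ?_
        exact Nat.cast_le.mpr (Finset.card_le_card (Finset.filter_subset _ _))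
      rw [Finset.inter_empty, Finset.card_empty, Nat.cast_zero, add_zero]
      exact lt_of_lt_of_le (hsize (κ x)) h4)
    ⟨by simp, by simp, by simp, by simp⟩
    (by
      intro x _
      have h1 : nin F (∅ : Finset X) x = ∅ := by simp [nin]
      have h2 : cand F G T (∅ : Finset X) (fun _ => v0) x = T x := by simp [cand]
      rw [h1, h2]
      exact hinit x)
  have huniv : ∀ x, x ∈ (∅ : Finset X) ∪ L.toFinset := by
    intro x; simp [hLmem x]
  exact ⟨ψ, fun a b h => hψ.inj (by exact_mod_cast huniv a) (by exact_mod_cast huniv b) h,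
    fun a b h => hψ.adj a (huniv a) b (huniv b) h, fun a => hψ.tgt a (huniv a)⟩

end

end Run7.h755
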