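import Mathlib
import Pool.Agent.Run7.h755.NstEmb
import Pool.Agent.Run7.h755.Own

open Finset
open scoped Classical

namespace Run7.h755

/-- loss per nested step -/
def sK (K Δ : ℕ) : ℕ := (K + 1) * (2 * Δ + 1)

/-- number of nested steps -/
def mK (K k : ℕ) : ℕ := K * k + 1

def bK (K Δ k : ℕ) : ℕ := sK K Δ * mK K k + 2 * (K + 1) + K + Δ + 5

def gK (K Δ k : ℕ) : ℕ := sK K Δ * mK K k + bK K Δ k + 3

section
variable {V : Type*} {K : ℕ}

theorem nested (hK : 0 < K) (G : Fin K → SimpleGraph V)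
    (hcov : ∀ x y, x ≠ y → ∃ c, (G c).Adj x y) (Δ m : ℕ) (β : ℝ) (hβ : 0 < β)
    (P : Finset V) (hP : (2 : ℝ) ^ (sK K Δ * m + 1) ≤ P.card) (n : ℕ) (hn : n ≤ m) :
    ∃ (W : ℕ → Finset V) (c : ℕ → Fin K), W 0 = P ∧
      (P.card : ℝ) ≤ 2 ^ (sK K Δ * n) * (W n).card ∧
      ∀ i < n, W (i + 1) ⊆ W i ∧ ((W i).card : ℝ) ≤ 2 ^ (sK K Δ) * (W (i + 1)).card ∧
        ∀ r ≤ Δ, ((btp (G (c i)) (W i) (W (i + 1)) β r).card : ℝ)
          ≤ 2 * (Δ + 1) * K * (2 * K * β) ^ (2 * Δ) * ((W i).card : ℝ) ^ r := by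
  induction n with
  | zero => exact ⟨fun _ => P, fun _ => ⟨0, hK⟩, rfl, by simp, fun i hi => absurd hi (Nat.not_lt_zero i)⟩
  | succ n ih =>
    obtain ⟨W, c, h0, h1, h2⟩ := ih (by omega)
    have hWn : 2 ≤ (W n).card := by
      have h3 : (2 : ℝ) ^ (sK K Δ * n) * 2 ≤ 2 ^ (sK K Δ * n) * (W n).card := by
        refine le_trans ?_ (hP.trans h1)
        rw [← pow_succ]
        apply pow_le_pow_right₀ (by norm_num)
        have : sK K Δ * n ≤ sK K Δ * m := Nat.mul_le_mul_left _ (by omega)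
        omega
      have h4 := le_of_mul_le_mul_left h3 (by positivity)
      exact_mod_cast h4
    obtain ⟨c', P', hP', hc', hb'⟩ := nst_step hK G hcov Δ (2 * Δ) β hβ (W n) hWn
    have hsz : ((W n).card : ℝ) ≤ 2 ^ (sK K Δ) * P'.card := by
      refine hc'.trans ?_
      apply mul_le_mul_of_nonneg_right _ (Nat.cast_nonneg _)
      have h5 : (2 : ℝ) * K ≤ 2 ^ (K + 1) := by
        rw [pow_succ]
        have := nat_le_two_pow K
        linarith
      have hK0 : (0 : ℝ) ≤ K := Nat.cast_nonneg _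
      calc (2 : ℝ) * K * (2 * K) ^ (2 * Δ) = (2 * K) ^ (2 * Δ + 1) := by ring
        _ ≤ (2 ^ (K + 1)) ^ (2 * Δ + 1) := pow_le_pow_left₀ (by positivity) h5 _
        _ = _ := by rw [← pow_mul]; rfl
    refine ⟨fun i => if i ≤ n then W i else P', fun i => if i < n then c i else c', ?_, ?_, ?_⟩
    · simp [h0]
    · simp only [show ¬ (n + 1 ≤ n) by omega, if_false]
      calc (P.card : ℝ) ≤ 2 ^ (sK K Δ * n) * (W n).card := h1
        _ ≤ 2 ^ (sK K Δ * n) * (2 ^ (sK K Δ) * P'.card) := by gcongr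
        _ = _ := by rw [mul_add, mul_one, pow_add]; ring
    · intro i hi
      rcases Nat.lt_succ_iff_lt_or_eq.mp hi with h | h
      · simp only [show i + 1 ≤ n by omega, show i ≤ n by omega, h, if_true]
        exact h2 i h
      · subst h
        simp only [le_refl, show ¬ (i + 1 ≤ i) by omega, lt_irrefl, if_false, if_true]
        exact ⟨hP', hsz, hb'⟩

lemma pigeon_col (K k : ℕ) (c : ℕ → Fin K) (hK : 0 < K) :
    ∃ c0 : Fin K, ∃ g : Fin k → ℕ, StrictMono g ∧ (∀ j, g j < mK K k) ∧ ∀ j, c (g j) = c0 := by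
  obtain ⟨c0, _, hc⟩ := Finset.exists_le_card_fiber_of_mul_le_card_of_maps_to
    (s := Finset.range (mK K k)) (t := (univ : Finset (Fin K))) (f := c) (n := k)
    (fun _ _ => Finset.mem_univ _) ⟨⟨0, hK⟩, Finset.mem_univ _⟩ (by simp [mK])
  obtain ⟨T, hT, hTc⟩ := Finset.exists_subset_card_eq hc
  refine ⟨c0, T.orderEmbOfFin hTc, (T.orderEmbOfFin hTc).strictMono, fun j => ?_, fun j => ?_⟩
  · have := hT (Finset.orderEmbOfFin_mem T hTc j)
    exact Finset.mem_range.mp (Finset.mem_filter.mp this).1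
  · have := hT (Finset.orderEmbOfFin_mem T hTc j)
    exact (Finset.mem_filter.mp this).2

lemma num_bt (K Δ k : ℕ) (hΔ : 1 ≤ Δ) :
    2 * ((Δ : ℝ) + 1) * K * (2 * K * (1 / 2) ^ bK K Δ k) ^ (2 * Δ)
      * (2 ^ (sK K Δ * mK K k)) ^ Δ < ((1 / 2) ^ (bK K Δ k + Δ + 2)) ^ Δ := by
  have hb : bK K Δ k = sK K Δ * mK K k + 2 * (K + 1) + K + Δ + 5 := rfl
  generalize bK K Δ k = b at *
  generalize sK K Δ * mK K k = s at *
  have h1 : (2 : ℝ) * (Δ + 1) * K ≤ 2 ^ (1 + Δ + K) := by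
    have := succ_le_two_pow Δ
    have := nat_le_two_pow K
    calc (2 : ℝ) * (Δ + 1) * K ≤ 2 * 2 ^ Δ * 2 ^ K := by gcongr
      _ = _ := by rw [pow_add, pow_add, pow_one]
  have h5 : (2 : ℝ) * K ≤ 2 ^ (K + 1) := by
    rw [pow_succ]
    have := nat_le_two_pow K
    linarith
  have h2 : (2 * (K : ℝ) * (1 / 2) ^ b) ^ (2 * Δ)
      ≤ 2 ^ ((K + 1) * (2 * Δ)) * (1 / 2) ^ (b * (2 * Δ)) := by
    rw [mul_pow, pow_mul 2 (K + 1), pow_mul (1 / 2 : ℝ) b]
    apply mul_le_mul_of_nonneg_right _ (by positivity)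
    exact pow_le_pow_left₀ (by positivity) h5 _
  calc 2 * ((Δ : ℝ) + 1) * K * (2 * K * (1 / 2) ^ b) ^ (2 * Δ) * (2 ^ s) ^ Δ
      ≤ 2 ^ (1 + Δ + K) * (2 ^ ((K + 1) * (2 * Δ)) * (1 / 2) ^ (b * (2 * Δ))) * (2 ^ s) ^ Δ := by
        gcongr
    _ = 2 ^ (1 + Δ + K + (K + 1) * (2 * Δ) + s * Δ) * (1 / 2) ^ (b * (2 * Δ)) := by
        rw [← pow_mul, pow_add 2 (1 + Δ + K + (K + 1) * (2 * Δ)), pow_add 2 (1 + Δ + K)]
        ring
    _ ≤ (1 / 2) ^ ((b + Δ + 2) * Δ + 1) := by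
        apply pow_help
        subst hb
        nlinarith
    _ < (1 / 2) ^ ((b + Δ + 2) * Δ) := by
        rw [pow_succ]
        have : (0 : ℝ) < (1 / 2) ^ ((b + Δ + 2) * Δ) := by positivity
        linarith
    _ = _ := by rw [pow_mul]

lemma num_lam (Δ b : ℕ) : (Δ : ℝ) * (1 / 2) ^ (b + Δ + 2) ≤ (1 / 2) ^ b / 4 := by
  have := nat_le_two_pow Δ
  calc (Δ : ℝ) * (1 / 2) ^ (b + Δ + 2) ≤ 2 ^ Δ * (1 / 2) ^ (b + Δ + 2) := by gcongr
    _ ≤ (1 / 2) ^ (b + 2) := pow_help (by omega)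
    _ = _ := by rw [pow_add]; norm_num; ring

variable {Fam : ∀ r : ℕ, SimpleGraph (Fin r)} {G : Fin K → SimpleGraph V}

theorem red_stepK (hK : 0 < K) (hcov : ∀ x y, x ≠ y → ∃ c, (G c).Adj x y) (Δ : ℕ) (hΔ1 : 1 ≤ Δ)
    (hFam : ∀ r, ∀ x : Fin r, (Finset.univ.filter (fun z => (Fam r).Adj x z)).card ≤ Δ)
    (k : ℕ) (hcol : ∀ r, ∃ col : Fin r → Fin k, ∀ x y, (Fam r).Adj x y → col x ≠ col y)
    (P : Finset V) (hP : (2 : ℝ) ^ (gK K Δ k) ≤ P.card) :
    ∃ S ⊆ P, (P.card : ℝ) ≤ 2 ^ (gK K Δ k) * S.card ∧ Cov Fam G 1 S := by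
  obtain ⟨β, hβ⟩ : ∃ β : ℝ, β = (1 / 2) ^ bK K Δ k := ⟨_, rfl⟩
  have hβ0 : 0 < β := by rw [hβ]; positivity
  obtain ⟨W, c, hW0, hWm, hW⟩ := nested hK G hcov Δ (mK K k) β hβ0 P
    (le_trans (pow_le_pow_right₀ (by norm_num) (by unfold gK; omega)) hP) (mK K k) le_rfl
  obtain ⟨c0, g, hg1, hg2, hg3⟩ := pigeon_col K k c hK
  have hanti : ∀ i j, i ≤ j → j ≤ mK K k → W j ⊆ W i := by
    intro i j hij
    induction j, hij using Nat.le_induction with
    | base => intro _; exact Finset.Subset.refl _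
    | succ j _ ih => intro hj; exact (hW j (by omega)).1.trans (ih (by omega))
  have hszj : ∀ j, j ≤ mK K k → (P.card : ℝ) ≤ 2 ^ (sK K Δ * mK K k) * (W j).card := by
    intro j hj
    have := hanti j (mK K k) hj le_rfl
    calc (P.card : ℝ) ≤ 2 ^ (sK K Δ * mK K k) * (W (mK K k)).card := hWm
      _ ≤ _ := mul_le_mul_of_nonneg_left (Nat.cast_le.mpr (Finset.card_le_card this)) (by positivity)
  obtain ⟨Y, hY⟩ : ∃ Y : ℝ, Y = 2 ^ (sK K Δ * mK K k + bK K Δ k + 2) := ⟨_, rfl⟩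
  have hY0 : 0 < Y := by rw [hY]; positivity
  have hPY : 2 * Y ≤ P.card := by
    refine le_trans (le_of_eq ?_) hP
    rw [hY, gK, pow_succ 2 (sK K Δ * mK K k + bK K Δ k + 2)]; ring
  have hYβ : 2 ^ (sK K Δ * mK K k) / Y = β / 4 := by
    rw [hY, hβ, pow_add, pow_add, one_div, inv_pow]
    field_simp
    norm_num
  set x := ⌊(P.card : ℝ) / Y⌋₊ with hx
  have hx1 : (x : ℝ) ≤ P.card / Y := Nat.floor_le (by positivity)
  have hx2 : (P.card : ℝ) / Y < x + 1 := Nat.lt_floor_add_one _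
  have hx3 : 1 ≤ x := by
    rw [hx, Nat.one_le_floor_iff, le_div_iff₀ hY0]; linarith
  have hx3' : (1 : ℝ) ≤ x := by exact_mod_cast hx3
  have hP0 : (0 : ℝ) < P.card := by linarith
  have hWpos : ∀ j, j ≤ mK K k → (0 : ℝ) < (W j).card := by
    intro j hj
    have := hszj j hj
    by_contra hcon
    have h0 : ((W j).card : ℝ) = 0 := le_antisymm (not_lt.mp hcon) (Nat.cast_nonneg _)
    rw [h0, mul_zero] at this
    linarith
  obtain ⟨col, hcolx⟩ := hcol x
  obtain ⟨φ, hφ1, hφ2, hφ3⟩ := nst_embed (Fam x) (G c0) Δ (hFam x) col hcolx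
    (fun j => W (g j)) (fun j => W (g j + 1))
    (fun j => by
      have := hWpos (g j) (hg2 j).le
      rw [← Finset.card_pos]; exact_mod_cast this)
    (fun i j hij => hanti _ _ (hg1 hij) (hg2 j).le)
    (2 ^ (sK K Δ * mK K k)) (one_le_pow₀ (by norm_num))
    (fun i j _ => by
      refine le_trans ?_ (hszj (g j) (hg2 j).le)
      have := hanti 0 (g i) (Nat.zero_le _) (hg2 i).le
      rw [hW0] at this
      exact Nat.cast_le.mpr (Finset.card_le_card this))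
    β (2 * (Δ + 1) * K * (2 * K * β) ^ (2 * Δ)) ((1 / 2) ^ (bK K Δ k + Δ + 2))
    (by have : (0 : ℝ) < K := by exact_mod_cast hK
        positivity)
    (by positivity) (pow_le_one₀ (by norm_num) (by norm_num))
    (fun j r hr => by
      have := (hW (g j) (hg2 j)).2.2 r hr
      rw [hg3 j] at this
      exact this)
    (by rw [hβ]; exact num_bt K Δ k hΔ1)
    (fun j => by
      rw [Fintype.card_fin]
      have h1 : (x : ℝ) ≤ β / 4 * (W (g j)).card := by
        refine hx1.trans ?_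
        rw [div_le_iff₀ hY0, ← hYβ]
        refine (hszj (g j) (hg2 j).le).trans (le_of_eq ?_)
        field_simp
      have h2 : (Δ : ℝ) * ((1 / 2) ^ (bK K Δ k + Δ + 2) * (W (g j)).card) ≤ β / 4 * (W (g j)).card := by
        rw [← mul_assoc, hβ]
        exact mul_le_mul_of_nonneg_right (num_lam Δ _) (Nat.cast_nonneg _)
      have h3 : 0 < β * ((W (g j)).card : ℝ) := mul_pos hβ0 (hWpos (g j) (hg2 j).le)
      linarith)
  refine ⟨univ.image φ, ?_, ?_, cov_of_map c0 φ hφ1 hφ2⟩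
  · intro v hv
    obtain ⟨a, _, rfl⟩ := Finset.mem_image.mp hv
    have := hanti 0 (g (col a)) (Nat.zero_le _) (hg2 _).le (hφ3 a)
    rwa [hW0] at this
  · rw [Finset.card_image_of_injective _ hφ1, Finset.card_univ, Fintype.card_fin]
    rw [div_lt_iff₀ hY0] at hx2
    have h5 : (2 : ℝ) ^ gK K Δ k = 2 * Y := by
      rw [hY, gK, pow_succ 2 (sK K Δ * mK K k + bK K Δ k + 2)]; ring
    rw [h5]
    nlinarith

theorem halfg (hK : 0 < K) (γ : ℕ)
    (hstep : ∀ P : Finset V, (2 : ℝ) ^ γ ≤ P.card →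
      ∃ S ⊆ P, (P.card : ℝ) ≤ 2 ^ γ * S.card ∧ Cov Fam G 1 S)
    (P : Finset V) :
    ∃ P' ⊆ P, 2 * P'.card ≤ P.card ∧ Cov Fam G (2 ^ (γ + 2)) (P \ P') := by
  by_cases hP : P.card < 2 ^ (γ + 1)
  · refine ⟨∅, by simp, by simp, ?_⟩
    rw [Finset.sdiff_empty]
    refine (cov_card hK P).mono (hP.le.trans ?_)
    exact Nat.pow_le_pow_right (by norm_num) (by omega)
  push Not at hP
  have main : ∀ n : ℕ, ∃ P' ⊆ P, Cov Fam G n (P \ P') ∧
      (2 * P'.card ≤ P.card ∨ n * P.card ≤ 2 ^ (γ + 1) * (P \ P').card) := by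
    intro n
    induction n with
    | zero => exact ⟨P, Finset.Subset.refl _, by rw [Finset.sdiff_self]; exact cov_empty 0,
        Or.inr (by simp)⟩
    | succ n ih =>
      obtain ⟨P', h1, h2, h3⟩ := ih
      by_cases h4 : 2 * P'.card ≤ P.card
      · exact ⟨P', h1, h2.mono (by omega), Or.inl h4⟩
      have h3' := h3.resolve_left h4
      push Not at h4
      have h5 : (2 : ℝ) ^ γ ≤ P'.card := by
        have : 2 ^ γ ≤ P'.card := by
          rw [pow_succ] at hP; omega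
        exact_mod_cast this
      obtain ⟨S, hS1, hS2, hS3⟩ := hstep P' h5
      have hS2' : P'.card ≤ 2 ^ γ * S.card := by exact_mod_cast hS2
      have e1 : P \ (P' \ S) = (P \ P') ∪ S := by
        ext v
        simp only [Finset.mem_sdiff, Finset.mem_union]
        constructor
        · rintro ⟨a, b⟩
          by_cases hv : v ∈ P'
          · right; by_contra hh; exact b ⟨hv, hh⟩
          · exact Or.inl ⟨a, hv⟩
        · rintro (⟨a, b⟩ | a)
          · exact ⟨a, fun h => b h.1⟩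
          · exact ⟨h1 (hS1 a), fun h => h.2 a⟩
      have hdis : Disjoint (P \ P') S := by
        rw [Finset.disjoint_left]
        intro v hv hv'
        exact (Finset.mem_sdiff.mp hv).2 (hS1 hv')
      refine ⟨P' \ S, Finset.sdiff_subset.trans h1, ?_, Or.inr ?_⟩
      · rw [e1]; exact h2.union hS3 hdis
      · rw [e1, Finset.card_union_of_disjoint hdis]
        have : P.card ≤ 2 ^ (γ + 1) * S.card := by
          rw [pow_succ]; nlinarith
        calc (n + 1) * P.card = n * P.card + P.card := by ring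
          _ ≤ 2 ^ (γ + 1) * (P \ P').card + 2 ^ (γ + 1) * S.card :=
              Nat.add_le_add h3' this
          _ = _ := by ring
  obtain ⟨P', h1, h2, h3⟩ := main (2 ^ (γ + 1) + 1)
  refine ⟨P', h1, ?_, h2.mono (by rw [pow_succ 2 (γ + 1)]; have := Nat.one_le_two_pow (n := γ + 1); omega)⟩
  rcases h3 with h3 | h3
  · exact h3
  · exfalso
    have h4 : (P \ P').card ≤ P.card := Finset.card_le_card Finset.sdiff_subset
    have h5 : 0 < P.card := lt_of_lt_of_le (by positivity) hP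
    have h6 : 2 ^ (γ + 1) * (P \ P').card ≤ 2 ^ (γ + 1) * P.card :=
      Nat.mul_le_mul_left _ h4
    nlinarith

theorem redg (hK : 0 < K) (γ : ℕ)
    (hstep : ∀ P : Finset V, (2 : ℝ) ^ γ ≤ P.card →
      ∃ S ⊆ P, (P.card : ℝ) ≤ 2 ^ γ * S.card ∧ Cov Fam G 1 S)
    (t : ℕ) (P : Finset V) :
    ∃ P' ⊆ P, 2 ^ t * P'.card ≤ P.card ∧ Cov Fam G (t * 2 ^ (γ + 2)) (P \ P') := by
  induction t with
  | zero => exact ⟨P, Finset.Subset.refl _, by simp, by rw [Finset.sdiff_self]; exact cov_empty _⟩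
  | succ t ih =>
    obtain ⟨P', h1, h2, h3⟩ := ih
    obtain ⟨P'', k1, k2, k3⟩ := halfg hK γ hstep P'
    refine ⟨P'', k1.trans h1, ?_, ?_⟩
    · calc 2 ^ (t + 1) * P''.card = 2 ^ t * (2 * P''.card) := by ring
        _ ≤ 2 ^ t * P'.card := Nat.mul_le_mul_left _ k2
        _ ≤ _ := h2
    · have e1 : P \ P'' = (P \ P') ∪ (P' \ P'') := by
        ext v
        simp only [Finset.mem_sdiff, Finset.mem_union]
        constructor
        · rintro ⟨a, b⟩
          by_cases hv : v ∈ P'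
          · exact Or.inr ⟨hv, b⟩
          · exact Or.inl ⟨a, hv⟩
        · rintro (⟨a, b⟩ | ⟨a, b⟩)
          · exact ⟨a, fun h => b (k1 h)⟩
          · exact ⟨h1 a, b⟩
      rw [e1]
      have := h3.union k3 (by
        rw [Finset.disjoint_left]
        intro v hv hv'
        exact (Finset.mem_sdiff.mp hv).2 (Finset.mem_sdiff.mp hv').1)
      exact this.mono (le_of_eq (by ring))

end

end Run7.h755
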