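import Mathlib
import Pool.Agent.Run7.h755.Cov

open Finset
open scoped Classical

namespace Run7.h755

section
variable {V : Type*} {K : ℕ} {Fam : ∀ r : ℕ, SimpleGraph (Fin r)} {G : Fin K → SimpleGraph V}

theorem seq_classes (n N M : ℕ) (q : ℕ → Finset V)
    (hq : ∀ i < n, ∀ j < n, i ≠ j → Disjoint (q i) (q j)) (R B0 : Finset V)
    (hqR : ∀ l < n, Disjoint (q l) R)
    (h : ∀ l < n, ∀ B' : Finset V, B0 ⊆ B' → B' ⊆ B0 ∪ R →
      (B' \ B0).card ≤ M * ∑ l ∈ Finset.range n, (q l).card →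
      ∃ Z : Finset V, q l ⊆ Z ∧ (∀ v ∈ Z, v ∈ q l ∨ (v ∈ R ∧ v ∉ B')) ∧
        (Z \ q l).card ≤ M * (q l).card ∧ Cov Fam G N Z) :
    ∀ n' ≤ n, ∃ Z : Finset V, (∀ l < n', q l ⊆ Z) ∧
      (∀ v ∈ Z, (∃ l < n', v ∈ q l) ∨ (v ∈ R ∧ v ∉ B0)) ∧
      (Z ∩ R).card ≤ M * ∑ l ∈ Finset.range n', (q l).card ∧ Cov Fam G (n' * N) Z := by
  intro n'
  induction n' with
  | zero =>
    intro _
    exact ⟨∅, by simp, by simp, by simp, cov_empty _⟩
  | succ n' ih =>
    intro hn
    obtain ⟨Z, h1, h2, h3, h4⟩ := ih (by omega)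
    have hn' : n' < n := hn
    have hB : (B0 ∪ (Z ∩ R)) \ B0 ⊆ Z ∩ R := by
      intro v hv
      rw [Finset.mem_sdiff, Finset.mem_union] at hv
      exact hv.1.resolve_left hv.2
    obtain ⟨Z', k1, k2, k3, k4⟩ := h n' hn' (B0 ∪ (Z ∩ R)) Finset.subset_union_left
      (Finset.union_subset_union_right Finset.inter_subset_right)
      ((Finset.card_le_card hB).trans (h3.trans (Nat.mul_le_mul_left _
        (Finset.sum_le_sum_of_subset (Finset.range_subset_range.mpr (by omega))))))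
    have hdis : Disjoint Z Z' := by
      rw [Finset.disjoint_left]
      intro v hv hv'
      rcases k2 v hv' with h5 | ⟨h5, h6⟩
      · rcases h2 v hv with ⟨l, hl, h7⟩ | ⟨h7, _⟩
        · exact (Finset.disjoint_left.mp (hq l (by omega) n' hn' (by omega))) h7 h5
        · exact (Finset.disjoint_left.mp (hqR n' hn')) h5 h7
      · exact h6 (Finset.mem_union_right _ (Finset.mem_inter.mpr ⟨hv, h5⟩))
    refine ⟨Z ∪ Z', ?_, ?_, ?_, ?_⟩
    · intro l hl
      rcases Nat.lt_succ_iff_lt_or_eq.mp hl with h5 | h5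
      · exact (h1 l h5).trans Finset.subset_union_left
      · subst h5; exact k1.trans Finset.subset_union_right
    · intro v hv
      rcases Finset.mem_union.mp hv with hv | hv
      · rcases h2 v hv with ⟨l, hl, h5⟩ | h5
        · exact Or.inl ⟨l, by omega, h5⟩
        · exact Or.inr h5
      · rcases k2 v hv with h5 | ⟨h5, h6⟩
        · exact Or.inl ⟨n', by omega, h5⟩
        · exact Or.inr ⟨h5, fun h7 => h6 (Finset.mem_union_left _ h7)⟩
    · have h5 : (Z ∪ Z') ∩ R ⊆ (Z ∩ R) ∪ (Z' \ q n') := by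
        intro v hv
        rw [Finset.mem_inter, Finset.mem_union] at hv
        rw [Finset.mem_union, Finset.mem_inter, Finset.mem_sdiff]
        rcases hv.1 with h6 | h6
        · exact Or.inl ⟨h6, hv.2⟩
        · exact Or.inr ⟨h6, fun h7 => (Finset.disjoint_left.mp (hqR n' hn')) h7 hv.2⟩
      have h6 := (Finset.card_le_card h5).trans (Finset.card_union_le _ _)
      rw [Finset.sum_range_succ, mul_add]
      omega
    · have := h4.union k4 hdis
      exact this.mono (by rw [add_mul, one_mul])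

lemma maj_out (hK : 0 < K) (hcov : ∀ x y, x ≠ y → ∃ c, (G c).Adj x y) (W : Finset V) (v : V)
    (hv : v ∉ W) : ∃ c, 1 / (K : ℝ) * W.card ≤ ((W.filter (fun u => (G c).Adj v u)).card : ℝ) := by
  by_contra hcon
  push Not at hcon
  have hK' : (0 : ℝ) < K := by exact_mod_cast hK
  have hsub : W ⊆ (Finset.univ : Finset (Fin K)).biUnion
      (fun c => W.filter (fun y => (G c).Adj v y)) := by
    intro y hy
    obtain ⟨c, hc⟩ := hcov v y (by rintro rfl; exact hv hy)
    simp only [Finset.mem_biUnion, Finset.mem_univ, true_and, Finset.mem_filter]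
    exact ⟨c, hy, hc⟩
  have h2 := (Finset.card_le_card hsub).trans Finset.card_biUnion_le
  have h3 : (W.card : ℝ) ≤ ∑ c : Fin K, ((W.filter (fun y => (G c).Adj v y)).card : ℝ) := by
    exact_mod_cast h2
  have h4 : ∑ c : Fin K, ((W.filter (fun y => (G c).Adj v y)).card : ℝ)
      < ∑ c : Fin K, 1 / (K : ℝ) * W.card :=
    Finset.sum_lt_sum_of_nonempty ⟨⟨0, hK⟩, Finset.mem_univ _⟩ fun c _ => hcon c
  rw [Finset.sum_const, Finset.card_univ, Fintype.card_fin, nsmul_eq_mul] at h4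
  have h5 : (K : ℝ) * (1 / (K : ℝ) * W.card) = W.card := by field_simp
  linarith

end

end Run7.h755
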