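import Mathlib
import Pool.Agent.Run7.h755.Pst
import Pool.Agent.Run7.h755.Seqc
import Pool.Agent.Run7.h755.Own2
import Pool.Agent.Run7.h755.RedK

open Finset
open scoped Classical

namespace Run7.h755

lemma tile_num {P0 q b D M ε : ℝ} {u Δ E : ℕ} (hP0 : (1 / 2 : ℝ) ^ u ≤ P0)
    (hE : u + 4 * Δ + 2 ≤ E) (hε : (Δ : ℝ) * ε ≤ (1 / 2) ^ (u + 2)) (hD : 0 < D)
    (hM : M ≤ 2 ^ (4 * Δ)) (hM0 : 0 ≤ M) (hq0 : 0 ≤ q)
    (hq : (2 : ℝ) ^ E * q ≤ D) (hb : (2 : ℝ) ^ E * b ≤ D) :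
    M * q + b + Δ * (ε * D) < P0 * D := by
  obtain ⟨z, hz⟩ : ∃ z : ℝ, z = (1 / 2) ^ u := ⟨_, rfl⟩
  have hz0 : 0 < z := by rw [hz]; positivity
  have e1 : (1 / 2 : ℝ) ^ (u + 2) = z / 4 := by rw [pow_add, hz]; norm_num; ring
  have h1 : q ≤ (1 / 2) ^ E * D := by
    calc q = (1 / 2) ^ E * (2 ^ E * q) := by rw [← mul_assoc, half_mul_two, one_mul]
      _ ≤ _ := by gcongr
  have h2 : b ≤ (1 / 2) ^ E * D := by
    calc b = (1 / 2) ^ E * (2 ^ E * b) := by rw [← mul_assoc, half_mul_two, one_mul]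
      _ ≤ _ := by gcongr
  have h3 : M * q ≤ z / 4 * D := by
    calc M * q ≤ 2 ^ (4 * Δ) * ((1 / 2) ^ E * D) := by gcongr
      _ = (2 ^ (4 * Δ) * (1 / 2) ^ E) * D := by ring
      _ ≤ (1 / 2) ^ (u + 2) * D := by
          gcongr
          exact pow_help (by omega)
      _ = _ := by rw [e1]
  have h4 : b ≤ z / 4 * D := by
    refine h2.trans ?_
    rw [← e1]
    gcongr ?_ * D
    exact pow_le_pow_of_le_one (by norm_num) (by norm_num) (by omega)
  have h5 : (Δ : ℝ) * (ε * D) ≤ z / 4 * D := by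
    rw [← mul_assoc, ← e1]
    exact mul_le_mul_of_nonneg_right hε hD.le
  rw [← hz] at hP0
  have h6 : z * D ≤ P0 * D := mul_le_mul_of_nonneg_right hP0 hD.le
  have h7 : 0 < z * D := by positivity
  linarith

section
variable {V : Type*} {K : ℕ} {Fam : ∀ r : ℕ, SimpleGraph (Fin r)} {G : Fin K → SimpleGraph V}
  {J : ℕ} {κ : ℝ} {ρ : ℕ → ℝ} {ε ε' : ℝ} {E E' : ℕ}
  {r d : ℕ} {D0 D : ℕ → Finset V} {c : ℕ → Fin K} {s : ℕ → ℕ} {Q B : Finset V}

theorem pst_tile (hK : 0 < K) (Δ : ℕ)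
    (hFam : ∀ r, ∀ x : Fin r, (Finset.univ.filter (fun z => (Fam r).Adj x z)).card ≤ Δ)
    (k : ℕ) (hcol : ∀ r, ∃ col : Fin r → Fin k, ∀ x y, (Fam r).Adj x y → col x ≠ col y)
    (h : PSt G (mK K k) J κ ρ ε (κ / 8) E r (mK K k) D0 D c s Q B)
    (hκ0 : 0 < κ) (hκ1 : κ ≤ 1)
    (hρ1 : ∀ d ≤ mK K k, κ / 2 ≤ ρ d) (hρ3 : ∀ d ≤ mK K k, ρ (d + 1) ≤ ρ d)
    (u : ℕ) (hu : (1 / 2 : ℝ) ^ u ≤ (κ / 8) ^ Δ * (κ / 2)) (hE : u + 4 * Δ + 2 ≤ E)
    (hε0 : 0 ≤ ε) (hε1 : ε ≤ (1 / 2) ^ (u + Δ + 2)) :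
    ∃ Z : Finset V, Q ⊆ Z ∧ (∀ v ∈ Z, v ∈ Q ∨ ∃ i < mK K k, v ∈ D i ∧ v ∉ B) ∧
      (Z \ Q).card ≤ (Δ + 1) ^ 4 * Q.card ∧ Cov Fam G 1 Z := by
  by_cases hQ : Q.Nonempty
  swap
  · rw [Finset.not_nonempty_iff_eq_empty] at hQ
    subst hQ
    exact ⟨∅, by simp, by simp, by simp, cov_empty 1⟩
  have hQpos : (0 : ℝ) < Q.card := by exact_mod_cast Finset.card_pos.mpr hQ
  have hDpos : ∀ i < mK K k, (0 : ℝ) < (D i).card := fun i hi =>
    lt_of_lt_of_le (by positivity) (h.szQ i hi)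
  obtain ⟨c0, g, hg1, hg2, hg3⟩ := pigeon_col K k c hK
  have hεu : ε ≤ (κ / 8) ^ Δ * (κ / 2) := by
    refine hε1.trans (le_trans ?_ hu)
    exact pow_le_pow_of_le_one (by norm_num) (by norm_num) (by omega)
  have hΔε : (Δ : ℝ) * ε ≤ (1 / 2) ^ (u + 2) := by
    have := nat_le_two_pow Δ
    calc (Δ : ℝ) * ε ≤ 2 ^ Δ * (1 / 2) ^ (u + Δ + 2) := by gcongr
      _ ≤ _ := pow_help (by omega)
  obtain ⟨Z, h1, h2, h3, h4⟩ := tile_cov (G := G) Δ hFam k hcol c0 Q B (fun j => D (g j)) ε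
    (κ / 8) (κ / 2) hε0 (by positivity) (by linarith) (by positivity) (by linarith) hεu
    (fun i j hij => by
      have := h.bip (g i) (g j) (hg1 hij) (hg2 j)
      rw [hg3 i] at this
      exact this)
    (fun v hv j => by
      have := h.deg_low hρ1 hρ3 hv (hg2 j)
      rw [hg3 j] at this
      exact this)
    (fun j => h.disD _ (hg2 j))
    (fun j => by
      have hM : (((Δ + 1) ^ 4 : ℕ) : ℝ) ≤ 2 ^ (4 * Δ) := by
        push_cast
        have := succ_le_two_pow Δ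
        calc ((Δ : ℝ) + 1) ^ 4 ≤ (2 ^ Δ) ^ 4 := by gcongr
          _ = _ := by rw [← pow_mul, mul_comm]
      have := tile_num (M := (((Δ + 1) ^ 4 : ℕ) : ℝ)) (b := ((D (g j) ∩ B).card : ℝ)) hu hE hΔε
        (hDpos _ (hg2 j)) hM (Nat.cast_nonneg _) hQpos.le (h.szQ _ (hg2 j))
        (by rw [Finset.inter_comm]; exact h.szB _ (hg2 j))
      rw [Nat.cast_mul]
      exact lt_of_lt_of_eq this (mul_assoc _ _ _))
  refine ⟨Z, h1, ?_, h3, h4⟩
  intro v hv
  rcases h2 v hv with h5 | ⟨j, h5, h6⟩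
  · exact Or.inl h5
  · exact Or.inr ⟨g j, hg2 j, h5, h6⟩

theorem pst_step (hK : 0 < K) (hcov : ∀ x y, x ≠ y → ∃ c, (G c).Adj x y) (Δ m R N' T n0 : ℕ)
    (hFam : ∀ r, ∀ x : Fin r, (Finset.univ.filter (fun z => (Fam r).Adj x z)).card ≤ Δ)
    (hred : ∀ (t : ℕ) (P : Finset V), ∃ P' ⊆ P, 2 ^ t * P'.card ≤ P.card ∧
      Cov Fam G (t * R) (P \ P'))
    (h : PSt G m J κ ρ ε (κ / 8) E (r + 1) d D0 D c s Q B) (hdm : d < m)
    (hκ : κ = 1 / (K : ℝ)) (g : ℝ) (hg0 : 0 < g) (hg1 : g ≤ κ / 4)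
    (hρ1 : ∀ d ≤ m, κ / 2 ≤ ρ d) (hρ2 : ∀ d ≤ m, ρ d ≤ κ)
    (hρ3 : ∀ d ≤ m, ρ d - ρ (d + 1) = g) (hρ4 : ∀ d ≤ m, 0 ≤ ρ (d + 1))
    (hJ : (1 - κ / 4) ^ (J + 1) < g)
    (x e : ℕ) (hx : 2 * (1 / 2 : ℝ) ^ x ≤ g) (hε0 : 0 ≤ ε') (hεε : ε = ε' * (1 / 2) ^ x)
    (hεe : ε = (1 / 2) ^ e) (hn0 : (1 - (1 / 2 : ℝ) ^ e) ^ n0 < κ / 4)
    (hE : E = E' + x) (hT : E' + 4 * Δ + (e + 1) * (m * n0) + gO Δ K ≤ T)
    (ih : ∀ (d : ℕ) (D0 D : ℕ → Finset V) (c : ℕ → Fin K) (s : ℕ → ℕ) (Q B : Finset V),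
      PSt G m J κ ρ ε' (κ / 8) E' r d D0 D c s Q B →
      ∃ Z : Finset V, Q ⊆ Z ∧ (∀ v ∈ Z, v ∈ Q ∨ ∃ i < d, v ∈ D i ∧ v ∉ B) ∧
        (Z \ Q).card ≤ (Δ + 1) ^ 4 * Q.card ∧ Cov Fam G N' Z) :
    ∃ Z : Finset V, Q ⊆ Z ∧ (∀ v ∈ Z, v ∈ Q ∨ ∃ i < d, v ∈ D i ∧ v ∉ B) ∧
      (Z \ Q).card ≤ (Δ + 1) ^ 4 * Q.card ∧
      Cov Fam G ((m + K) * N' + (T * R + (tO Δ K * R + 2) + gO Δ K * R)) Z := by
  have hK' : (0 : ℝ) < K := by exact_mod_cast hK
  have hK1 : (1 : ℝ) ≤ K := by exact_mod_cast hK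
  have hκ0 : 0 < κ := by rw [hκ]; positivity
  have hκ1 : κ ≤ 1 := by
    rw [hκ, div_le_one hK']; exact hK1
  by_cases hQe : Q = ∅
  · subst hQe
    exact ⟨∅, by simp, by simp, by simp, cov_empty _⟩
  have hQne : Q.Nonempty := Finset.nonempty_iff_ne_empty.mpr hQe
  have hQpos : (0 : ℝ) < Q.card := by exact_mod_cast Finset.card_pos.mpr hQne
  by_cases hsm : Q.card < 2 ^ (gO Δ K)
  · obtain ⟨P', h1, h2, h3⟩ := hred (gO Δ K) Q
    have hP' : P' = ∅ := by
      rw [← Finset.card_eq_zero]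
      by_contra hne
      have : 1 ≤ P'.card := Nat.one_le_iff_ne_zero.mpr hne
      have : 2 ^ (gO Δ K) * 1 ≤ 2 ^ (gO Δ K) * P'.card := Nat.mul_le_mul_left _ this
      omega
    rw [hP', Finset.sdiff_empty] at h3
    exact ⟨Q, Finset.Subset.refl _, fun v hv => Or.inl hv, by simp, h3.mono (by omega)⟩
  push Not at hsm
  obtain ⟨A, hA, U, hU, hAU, hUc, hcovU⟩ := own2 hcov Δ R hFam hred Q (by exact_mod_cast hsm)
  have hUpos : (0 : ℝ) < U.card := by
    by_contra hcon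
    have h0 : (U.card : ℝ) = 0 := le_antisymm (not_lt.mp hcon) (Nat.cast_nonneg _)
    rw [h0, mul_zero] at hUc
    linarith
  have hUne : U.Nonempty := by
    rw [← Finset.card_pos]; exact_mod_cast hUpos
  have hDpos : ∀ i < d, (0 : ℝ) < (D i).card := fun i hi =>
    lt_of_lt_of_le (by positivity) (h.szQ i hi)
  have hρ3' : ∀ d ≤ m, ρ (d + 1) ≤ ρ d := fun d hd => by have := hρ3 d hd; linarith
  obtain ⟨W, hWU, D', hWc, hD'⟩ := simul G κ hκ0 e n0 hn0 d D c U hUne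
    (fun i hi => by rw [← Finset.card_pos]; exact_mod_cast hDpos i hi)
    (fun v hv i hi => h.deg_low hρ1 hρ3' (hU hv) hi)
  obtain ⟨Q', hQ', hQ'c, hQ'cov⟩ := hred T (Q \ (A ∪ U))
  have hWQ : W ⊆ Q := hWU.trans hU
  have hQ'Q : Q' ⊆ Q := hQ'.trans Finset.sdiff_subset
  have hQ'W : Disjoint Q' W := by
    rw [Finset.disjoint_left]
    intro v hv hv'
    exact (Finset.mem_sdiff.mp (hQ' hv)).2 (Finset.mem_union_right _ (hWU hv'))
  have hQ'A : Disjoint Q' A := by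
    rw [Finset.disjoint_left]
    intro v hv hv'
    exact (Finset.mem_sdiff.mp (hQ' hv)).2 (Finset.mem_union_left _ hv')
  -- sizes
  have hQ'r : (2 : ℝ) ^ T * Q'.card ≤ Q.card := by
    have h1 : 2 ^ T * Q'.card ≤ Q.card := hQ'c.trans (Finset.card_le_card Finset.sdiff_subset)
    exact_mod_cast h1
  have hM : (((Δ + 1) ^ 4 : ℕ) : ℝ) ≤ 2 ^ (4 * Δ) := by
    push_cast
    have := succ_le_two_pow Δ
    calc ((Δ : ℝ) + 1) ^ 4 ≤ (2 ^ Δ) ^ 4 := by gcongr
      _ = _ := by rw [← pow_mul, mul_comm]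
  have hMQ' : (((Δ + 1) ^ 4 * Q'.card : ℕ) : ℝ) ≤ 2 ^ (4 * Δ) * Q'.card := by
    rw [Nat.cast_mul]
    exact mul_le_mul_of_nonneg_right hM (Nat.cast_nonneg _)
  have hq0 : (0 : ℝ) ≤ Q'.card := Nat.cast_nonneg _
  have hMQ1 : (((Δ + 1) ^ 4 * Q'.card : ℕ) : ℝ) ≤ Q.card := by
    refine hMQ'.trans (le_trans ?_ hQ'r)
    apply mul_le_mul_of_nonneg_right _ hq0
    exact pow_le_pow_right₀ (by norm_num) (by omega)
  have hQW : (Q.card : ℝ) ≤ 2 ^ (gO Δ K + (e + 1) * (m * n0)) * W.card := by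
    calc (Q.card : ℝ) ≤ 2 ^ (gO Δ K) * U.card := hUc
      _ ≤ 2 ^ (gO Δ K) * (2 ^ ((e + 1) * (d * n0)) * W.card) := by gcongr
      _ ≤ 2 ^ (gO Δ K) * (2 ^ ((e + 1) * (m * n0)) * W.card) := by
          gcongr
          · norm_num
      _ = _ := by rw [pow_add]; ring
  have hMQ2 : (2 : ℝ) ^ E' * (((Δ + 1) ^ 4 * Q'.card : ℕ) : ℝ) ≤ W.card := by
    have hW0 : (0 : ℝ) ≤ W.card := Nat.cast_nonneg _
    have h1 : (2 : ℝ) ^ (gO Δ K + (e + 1) * (m * n0)) * (2 ^ (E' + 4 * Δ) * Q'.card)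
        ≤ 2 ^ (gO Δ K + (e + 1) * (m * n0)) * W.card := by
      calc (2 : ℝ) ^ (gO Δ K + (e + 1) * (m * n0)) * (2 ^ (E' + 4 * Δ) * Q'.card)
          = 2 ^ (gO Δ K + (e + 1) * (m * n0) + (E' + 4 * Δ)) * Q'.card := by
            rw [pow_add 2 (gO Δ K + (e + 1) * (m * n0))]; ring
        _ ≤ 2 ^ T * Q'.card := by
            apply mul_le_mul_of_nonneg_right _ hq0
            exact pow_le_pow_right₀ (by norm_num) (by omega)
        _ ≤ Q.card := hQ'r
        _ ≤ _ := hQW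
    have h2 := le_of_mul_le_mul_left h1 (by positivity)
    refine le_trans ?_ h2
    calc (2 : ℝ) ^ E' * (((Δ + 1) ^ 4 * Q'.card : ℕ) : ℝ) ≤ 2 ^ E' * (2 ^ (4 * Δ) * Q'.card) := by
          gcongr
      _ = _ := by rw [pow_add]; ring
  have hQ'W2 : (2 : ℝ) ^ E' * Q'.card ≤ W.card := by
    refine le_trans ?_ hMQ2
    apply mul_le_mul_of_nonneg_left _ (by positivity)
    have : Q'.card ≤ (Δ + 1) ^ 4 * Q'.card := Nat.le_mul_of_pos_left _ (by positivity)
    exact_mod_cast this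
  -- labels
  have hmaj : ∀ v, ∃ c', v ∉ W →
      κ * W.card ≤ ((W.filter (fun u => (G c').Adj v u)).card : ℝ) := by
    intro v
    by_cases hv : v ∉ W
    · obtain ⟨c', hc'⟩ := maj_out hK hcov W v hv
      exact ⟨c', fun _ => by rw [hκ]; exact hc'⟩
    · exact ⟨⟨0, hK⟩, fun h' => absurd h' hv⟩
  choose mc hmc using hmaj
  let bad : V → ℕ → Prop := fun v i => i < d ∧
    (((D' i).filter (fun u => (G (c i)).Adj v u)).card : ℝ) < ρ (d + 1) * (D' i).card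
  have hlab : ∀ v, ∃ l : ℕ, l < d + K ∧ ((l < d ∧ bad v l) ∨
      ((∀ i, ¬ bad v i) ∧ l = d + (mc v : ℕ))) := by
    intro v
    by_cases hb : ∃ i, bad v i
    · obtain ⟨i, hi⟩ := hb
      exact ⟨i, by have := hi.1; omega, Or.inl ⟨hi.1, hi⟩⟩
    · push Not at hb
      exact ⟨d + (mc v : ℕ), by have := (mc v).2; omega, Or.inr ⟨hb, rfl⟩⟩
  choose lab hlab1 hlab2 using hlab
  let q : ℕ → Finset V := fun l => Q'.filter (fun v => lab v = l)
  have hqQ' : ∀ l, q l ⊆ Q' := fun l => Finset.filter_subset _ _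
  have hqlab : ∀ l, ∀ v ∈ q l, lab v = l := fun l v hv => (Finset.mem_filter.mp hv).2
  have hqdis : ∀ i < d + K, ∀ j < d + K, i ≠ j → Disjoint (q i) (q j) := by
    intro i _ j _ hij
    rw [Finset.disjoint_left]
    intro v hv hv'
    exact hij ((hqlab i v hv).symm.trans (hqlab j v hv'))
  have hqsum : ∑ l ∈ Finset.range (d + K), (q l).card = Q'.card :=
    (Finset.card_eq_sum_card_fiberwise (fun v _ =>
      Finset.mem_coe.mpr (Finset.mem_range.mpr (hlab1 v)))).symm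
  set Reg := (Finset.range d).biUnion D ∪ W with hReg
  have hQ'Reg : Disjoint Q' Reg := by
    rw [Finset.disjoint_left]
    intro v hv hv'
    rw [hReg, Finset.mem_union, Finset.mem_biUnion] at hv'
    rcases hv' with ⟨i, hi, hvi⟩ | hvW
    · exact (Finset.disjoint_left.mp (h.disD i (Finset.mem_range.mp hi))) (hQ'Q hv) hvi
    · exact (Finset.disjoint_left.mp hQ'W) hv hvW
  obtain ⟨Z0, hZ1, hZ2, hZ3, hZ4⟩ := seq_classes (Fam := Fam) (G := G) (d + K) N' ((Δ + 1) ^ 4) q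
    hqdis Reg B (fun l _ => Finset.disjoint_of_subset_left (hqQ' l) hQ'Reg)
    (by
      intro l hl B' hBB' hB'R hB'c
      rw [hqsum] at hB'c
      by_cases hqe : q l = ∅
      · rw [hqe]
        exact ⟨∅, by simp, by simp, by simp, cov_empty _⟩
      have hqne : (q l).Nonempty := Finset.nonempty_iff_ne_empty.mpr hqe
      have hB'r : ((B' \ B).card : ℝ) ≤ (((Δ + 1) ^ 4 * Q'.card : ℕ) : ℝ) := by
        exact_mod_cast hB'c
      have hB1 : ∀ j < d, (2 : ℝ) ^ E * ((B' \ B).card : ℝ) ≤ (D j).card := by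
        intro j hj
        refine le_trans ?_ (h.szQ j hj)
        apply mul_le_mul_of_nonneg_left _ (by positivity)
        exact hB'r.trans hMQ1
      have hB2 : (2 : ℝ) ^ E' * ((B' \ B).card : ℝ) ≤ W.card := by
        refine le_trans ?_ hMQ2
        exact mul_le_mul_of_nonneg_left hB'r (by positivity)
      have hqB' : Disjoint (q l) B' := by
        rw [Finset.disjoint_left]
        intro v hv hv'
        rcases Finset.mem_union.mp (hB'R hv') with h1 | h1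
        · exact (Finset.disjoint_left.mp h.disB) (hQ'Q (hqQ' l hv)) h1
        · exact (Finset.disjoint_left.mp hQ'Reg) (hqQ' l hv) h1
      by_cases hld : l < d
      · have hst := pst_inc (ε' := ε') (E' := E') h hκ0 hκ1 g hg0 (by linarith) hρ3 hρ4 hJ x hx hε0
          hεε hE l hld (D' l) (hD' l hld).1 (hD' l hld).2.1 (q l) B' ((hqQ' l).trans hQ'Q) hqne
          (by
            intro v hv
            rcases hlab2 v with ⟨_, h2⟩ | ⟨_, h2⟩
            · rw [hqlab l v hv] at h2; exact h2.2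
            · rw [hqlab l v hv] at h2; omega)
          hB1 hqB'
        obtain ⟨Z, k1, k2, k3, k4⟩ := ih _ _ _ _ _ _ _ hst
        refine ⟨Z, k1, ?_, k3, k4⟩
        intro v hv
        rcases k2 v hv with h1 | ⟨i, hi, h1, h2⟩
        · exact Or.inl h1
        · refine Or.inr ⟨?_, h2⟩
          rw [hReg, Finset.mem_union, Finset.mem_biUnion]
          refine Or.inl ⟨i, Finset.mem_range.mpr hi, ?_⟩
          by_cases hil : i = l
          · subst hil
            rw [Function.update_self] at h1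
            exact (Finset.mem_sdiff.mp h1).1
          · rwa [Function.update_of_ne hil] at h1
      · have hlK : l - d < K := by omega
        have hcls : ∀ v ∈ q l, (∀ i, ¬ bad v i) ∧ mc v = ⟨l - d, hlK⟩ := by
          intro v hv
          rcases hlab2 v with ⟨h1, _⟩ | ⟨h1, h2⟩
          · rw [hqlab l v hv] at h1; exact absurd h1 hld
          · refine ⟨h1, ?_⟩
            rw [hqlab l v hv] at h2
            exact Fin.ext (by simp only; omega)
        have hst := pst_cmp (ε' := ε') (E' := E') h hdm hκ0 hκ1 g hg0 hg1 hρ2 x hx hε0 hεε hE D'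
          (fun i hi => (hD' i hi).1) (fun i hi => (hD' i hi).2.1) W hWQ
          (fun i hi => by rw [hεe]; exact (hD' i hi).2.2) (q l) B' ((hqQ' l).trans hQ'Q)
          (Finset.disjoint_of_subset_left (hqQ' l) hQ'W) ⟨l - d, hlK⟩
          (by
            intro v hv i hi
            have := (hcls v hv).1 i
            simp only [bad, not_and, not_lt] at this
            exact this hi)
          (by
            intro v hv
            have := hmc v (fun hvW => (Finset.disjoint_left.mp hQ'W) (hqQ' l hv) hvW)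
            rwa [(hcls v hv).2] at this)
          hB1 hB2
          (by
            refine le_trans ?_ hQ'W2
            apply mul_le_mul_of_nonneg_left _ (by positivity)
            exact Nat.cast_le.mpr (Finset.card_le_card (hqQ' l)))
          hqB'
        obtain ⟨Z, k1, k2, k3, k4⟩ := ih _ _ _ _ _ _ _ hst
        refine ⟨Z, k1, ?_, k3, k4⟩
        intro v hv
        rcases k2 v hv with h1 | ⟨i, hi, h1, h2⟩
        · exact Or.inl h1
        · refine Or.inr ⟨?_, h2⟩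
          rw [hReg, Finset.mem_union, Finset.mem_biUnion]
          by_cases hid : i < d
          · rw [if_pos hid] at h1
            exact Or.inl ⟨i, Finset.mem_range.mpr hid, (hD' i hid).1 h1⟩
          · rw [if_neg hid] at h1
            exact Or.inr h1)
    (d + K) le_rfl
  rw [hqsum] at hZ3
  have hQ'Z0 : Q' ⊆ Z0 := fun v hv => hZ1 (lab v) (hlab1 v) (Finset.mem_filter.mpr ⟨hv, rfl⟩)
  have hZ2' : ∀ v ∈ Z0, v ∈ Q' ∨ (v ∈ Reg ∧ v ∉ B) := by
    intro v hv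
    rcases hZ2 v hv with ⟨l, _, h1⟩ | h1
    · exact Or.inl (hqQ' l h1)
    · exact Or.inr h1
  have hZ0Q : ∀ v ∈ Z0, v ∈ Q → v ∈ Q' ∨ v ∈ W := by
    intro v hv hvQ
    rcases hZ2' v hv with h1 | ⟨h1, _⟩
    · exact Or.inl h1
    · rw [hReg, Finset.mem_union, Finset.mem_biUnion] at h1
      rcases h1 with ⟨i, hi, h1⟩ | h1
      · exact absurd h1 ((Finset.disjoint_left.mp (h.disD i (Finset.mem_range.mp hi))) hvQ)
      · exact Or.inr h1
  have hA' := hcovU (U \ Z0) Finset.sdiff_subset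
  have hdis1 : Disjoint ((Q \ (A ∪ U)) \ Q') (A ∪ (U \ Z0)) := by
    rw [Finset.disjoint_left]
    intro v hv hv'
    apply (Finset.mem_sdiff.mp (Finset.mem_sdiff.mp hv).1).2
    rcases Finset.mem_union.mp hv' with h1 | h1
    · exact Finset.mem_union_left _ h1
    · exact Finset.mem_union_right _ (Finset.mem_sdiff.mp h1).1
  have hdis2 : Disjoint Z0 (((Q \ (A ∪ U)) \ Q') ∪ (A ∪ (U \ Z0))) := by
    rw [Finset.disjoint_left]
    intro v hv hv'
    rcases Finset.mem_union.mp hv' with h1 | h1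
    · rw [Finset.mem_sdiff, Finset.mem_sdiff] at h1
      rcases hZ0Q v hv h1.1.1 with h2 | h2
      · exact h1.2 h2
      · exact h1.1.2 (Finset.mem_union_right _ (hWU h2))
    · rcases Finset.mem_union.mp h1 with h2 | h2
      · rcases hZ0Q v hv (hA h2) with h3 | h3
        · exact (Finset.disjoint_left.mp hQ'A) h3 h2
        · exact (Finset.disjoint_left.mp hAU) h2 (hWU h3)
      · exact (Finset.mem_sdiff.mp h2).2 hv
  have hcovT := hZ4.union (hQ'cov.union hA' hdis1) hdis2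
  refine ⟨Z0 ∪ (((Q \ (A ∪ U)) \ Q') ∪ (A ∪ (U \ Z0))), ?_, ?_, ?_, hcovT.mono ?_⟩
  · intro v hv
    rw [Finset.mem_union, Finset.mem_union, Finset.mem_union, Finset.mem_sdiff, Finset.mem_sdiff,
      Finset.mem_sdiff, Finset.mem_union]
    by_cases h1 : v ∈ A
    · exact Or.inr (Or.inr (Or.inl h1))
    by_cases h2 : v ∈ U
    · by_cases h3 : v ∈ Z0
      · exact Or.inl h3
      · exact Or.inr (Or.inr (Or.inr ⟨h2, h3⟩))
    by_cases h3 : v ∈ Q'
    · exact Or.inl (hQ'Z0 h3)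
    · exact Or.inr (Or.inl ⟨⟨hv, fun h4 => h4.elim h1 h2⟩, h3⟩)
  · intro v hv
    rcases Finset.mem_union.mp hv with h1 | h1
    · rcases hZ2' v h1 with h2 | ⟨h2, h3⟩
      · exact Or.inl (hQ'Q h2)
      · rw [hReg, Finset.mem_union, Finset.mem_biUnion] at h2
        rcases h2 with ⟨i, hi, h2⟩ | h2
        · exact Or.inr ⟨i, Finset.mem_range.mp hi, h2, h3⟩
        · exact Or.inl (hWQ h2)
    · left
      rcases Finset.mem_union.mp h1 with h2 | h2
      · exact (Finset.mem_sdiff.mp (Finset.mem_sdiff.mp h2).1).1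
      · rcases Finset.mem_union.mp h2 with h3 | h3
        · exact hA h3
        · exact hU (Finset.mem_sdiff.mp h3).1
  · have h1 : (Z0 ∪ (((Q \ (A ∪ U)) \ Q') ∪ (A ∪ (U \ Z0)))) \ Q ⊆ Z0 ∩ Reg := by
      intro v hv
      rw [Finset.mem_sdiff] at hv
      have hvZ : v ∈ Z0 := by
        rcases Finset.mem_union.mp hv.1 with h2 | h2
        · exact h2
        · exfalso
          apply hv.2
          rcases Finset.mem_union.mp h2 with h3 | h3
          · exact (Finset.mem_sdiff.mp (Finset.mem_sdiff.mp h3).1).1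
          · rcases Finset.mem_union.mp h3 with h4 | h4
            · exact hA h4
            · exact hU (Finset.mem_sdiff.mp h4).1
      rw [Finset.mem_inter]
      refine ⟨hvZ, ?_⟩
      rcases hZ2' v hvZ with h2 | h2
      · exact absurd (hQ'Q h2) hv.2
      · exact h2.1
    refine (Finset.card_le_card h1).trans (hZ3.trans ?_)
    exact Nat.mul_le_mul_left _ (Finset.card_le_card hQ'Q)
  · have h1 : (d + K) * N' ≤ (m + K) * N' := Nat.mul_le_mul_right _ (by omega)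
    omega

end

end Run7.h755
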