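import Mathlib
import Pool.Agent.Run7.h755.Prec

open Finset
open scoped Classical

namespace Run7.h755

section
variable {V : Type*} {K : ℕ} {Fam : ∀ r : ℕ, SimpleGraph (Fin r)} {G : Fin K → SimpleGraph V}
  {J : ℕ} {κ : ℝ} {ρ : ℕ → ℝ}

theorem path_rec (hK : 0 < K) (hcov : ∀ x y, x ≠ y → ∃ c, (G c).Adj x y) (Δ R T k : ℕ)
    (hFam : ∀ r, ∀ x : Fin r, (Finset.univ.filter (fun z => (Fam r).Adj x z)).card ≤ Δ)
    (hcol : ∀ r, ∃ col : Fin r → Fin k, ∀ x y, (Fam r).Adj x y → col x ≠ col y)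
    (hred : ∀ (t : ℕ) (P : Finset V), ∃ P' ⊆ P, 2 ^ t * P'.card ≤ P.card ∧
      Cov Fam G (t * R) (P \ P'))
    (hκ : κ = 1 / (K : ℝ)) (g : ℝ) (hg0 : 0 < g) (hg1 : g ≤ κ / 4)
    (hρ1 : ∀ d ≤ mK K k, κ / 2 ≤ ρ d) (hρ2 : ∀ d ≤ mK K k, ρ d ≤ κ)
    (hρ3 : ∀ d ≤ mK K k, ρ d - ρ (d + 1) = g) (hρ4 : ∀ d ≤ mK K k, 0 ≤ ρ (d + 1))
    (hJ : (1 - κ / 4) ^ (J + 1) < g)
    (x : ℕ) (hx : 2 * (1 / 2 : ℝ) ^ x ≤ g)
    (u : ℕ) (hu : (1 / 2 : ℝ) ^ u ≤ (κ / 8) ^ Δ * (κ / 2))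
    (Φ : ℕ)
    (hT : (u + 4 * Δ + 2 + Φ * x) + 4 * Δ + (u + Δ + 2 + Φ * x + 1) *
      (mK K k * (2 ^ (u + Δ + 2 + Φ * x) * (K + 2))) + gO Δ K ≤ T) :
    ∀ r ≤ Φ, ∀ (d : ℕ) (D0 D : ℕ → Finset V) (c : ℕ → Fin K) (s : ℕ → ℕ) (Q B : Finset V),
      PSt G (mK K k) J κ ρ ((1 / 2) ^ (u + Δ + 2 + r * x)) (κ / 8) (u + 4 * Δ + 2 + r * x) r d
        D0 D c s Q B →
      ∃ Z : Finset V, Q ⊆ Z ∧ (∀ v ∈ Z, v ∈ Q ∨ ∃ i < d, v ∈ D i ∧ v ∉ B) ∧
        (Z \ Q).card ≤ (Δ + 1) ^ 4 * Q.card ∧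
        Cov Fam G ((T * R + (tO Δ K * R + 2) + gO Δ K * R + 1) * (mK K k + K + 1) ^ r) Z := by
  have hK' : (0 : ℝ) < K := by exact_mod_cast hK
  have hK1 : (1 : ℝ) ≤ K := by exact_mod_cast hK
  have hκ0 : 0 < κ := by rw [hκ]; positivity
  have hκ1 : κ ≤ 1 := by
    rw [hκ, div_le_one hK']; exact hK1
  have hρ3' : ∀ d ≤ mK K k, ρ (d + 1) ≤ ρ d := fun d hd => by have := hρ3 d hd; linarith
  intro r
  induction r with
  | zero =>
    intro _ d D0 D c s Q B h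
    have hd : d = mK K k := by
      have h1 := h.fuel
      have h2 := h.hd
      by_contra hne
      have h3 : 1 ≤ mK K k - d := by omega
      have h4 : 1 * 1 ≤ (mK K k - d) * (mK K k * J + 1) := Nat.mul_le_mul h3 (by omega)
      omega
    subst hd
    obtain ⟨Z, h1, h2, h3, h4⟩ := pst_tile hK Δ hFam k hcol h hκ0 hκ1 hρ1 hρ3' u hu
      (by omega) (by positivity) (by simp)
    refine ⟨Z, h1, h2, h3, h4.mono ?_⟩
    rw [pow_zero, mul_one]
    omega
  | succ r ih =>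
    intro hr d D0 D c s Q B h
    by_cases hd : d = mK K k
    · subst hd
      obtain ⟨Z, h1, h2, h3, h4⟩ := pst_tile hK Δ hFam k hcol h hκ0 hκ1 hρ1 hρ3' u hu
        (by omega) (by positivity)
        (pow_le_pow_of_le_one (by norm_num) (by norm_num) (by omega))
      refine ⟨Z, h1, h2, h3, h4.mono ?_⟩
      have h5 : 1 ≤ (mK K k + K + 1) ^ (r + 1) := Nat.one_le_pow _ _ (by omega)
      have h6 : 1 ≤ T * R + (tO Δ K * R + 2) + gO Δ K * R + 1 := by omega
      calc 1 = 1 * 1 := rfl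
        _ ≤ _ := Nat.mul_le_mul h6 h5
    · have hdm : d < mK K k := lt_of_le_of_ne h.hd hd
      have hrx : (r + 1) * x ≤ Φ * x := Nat.mul_le_mul_right _ hr
      have hrx2 : (r + 1) * x = r * x + x := by ring
      obtain ⟨eM, heM⟩ : ∃ eM, eM = u + Δ + 2 + Φ * x := ⟨_, rfl⟩
      obtain ⟨e, he⟩ : ∃ e, e = u + Δ + 2 + (r + 1) * x := ⟨_, rfl⟩
      have hee : e ≤ eM := by omega
      rw [← heM] at hT
      rw [← he] at h
      obtain ⟨Z, h1, h2, h3, h4⟩ := pst_step (ε' := (1 / 2) ^ (u + Δ + 2 + r * x))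
        (E' := u + 4 * Δ + 2 + r * x) hK hcov Δ (mK K k) R
        ((T * R + (tO Δ K * R + 2) + gO Δ K * R + 1) * (mK K k + K + 1) ^ r) T
        (2 ^ e * (K + 2)) hFam hred h hdm hκ g hg0 hg1
        hρ1 hρ2 hρ3 hρ4 hJ x e hx (by positivity)
        (by rw [he, ← pow_add]; congr 1; omega) rfl
        (by rw [hκ]; exact num_n0 K e hK) (by omega)
        (by
          have h5 : (e + 1) * (mK K k * (2 ^ e * (K + 2)))
              ≤ (eM + 1) * (mK K k * (2 ^ eM * (K + 2))) :=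
            Nat.mul_le_mul (by omega) (Nat.mul_le_mul_left _ (Nat.mul_le_mul_right _
              (Nat.pow_le_pow_right (by norm_num) hee)))
          omega)
        (ih (by omega))
      refine ⟨Z, h1, h2, h3, h4.mono ?_⟩
      obtain ⟨w, hw⟩ : ∃ w, w = (mK K k + K + 1) ^ r := ⟨_, rfl⟩
      have hw1 : 1 ≤ w := by rw [hw]; exact Nat.one_le_pow _ _ (by omega)
      obtain ⟨cst, hcst⟩ : ∃ cst, cst = T * R + (tO Δ K * R + 2) + gO Δ K * R + 1 := ⟨_, rfl⟩
      have h7 : T * R + (tO Δ K * R + 2) + gO Δ K * R ≤ cst * w := by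
        have : cst * 1 ≤ cst * w := Nat.mul_le_mul_left _ hw1
        omega
      rw [pow_succ, ← hw, ← hcst]
      calc (mK K k + K) * (cst * w) + (T * R + (tO Δ K * R + 2) + gO Δ K * R)
          ≤ (mK K k + K) * (cst * w) + cst * w := Nat.add_le_add_left h7 _
        _ = cst * (w * (mK K k + K + 1)) := by ring

/-- parameters -/
def pL (k : ℕ) : ℕ := Nat.log 2 k + 1
def py (K k : ℕ) : ℕ := 2 * K + 1 + pL k
def px (K k : ℕ) : ℕ := py K k + 1
def pJ (K k : ℕ) : ℕ := 4 * K * (py K k + 1)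
def pu (K Δ : ℕ) : ℕ := (K + 3) * Δ + (K + 1)
def pPhi (K k : ℕ) : ℕ := mK K k * (mK K k * pJ K k + 1)
def pT (K Δ k : ℕ) : ℕ := (pu K Δ + 4 * Δ + 2 + pPhi K k * px K k) + 4 * Δ +
  (pu K Δ + Δ + 2 + pPhi K k * px K k + 1) *
      (mK K k * (2 ^ (pu K Δ + Δ + 2 + pPhi K k * px K k) * (K + 2))) + gO Δ K
def ptot (K Δ k : ℕ) : ℕ :=
  (pT K Δ k * 2 ^ (gK K Δ k + 2) + (tO Δ K * 2 ^ (gK K Δ k + 2) + 2)
    + gO Δ K * 2 ^ (gK K Δ k + 2) + 1) * (mK K k + K + 1) ^ pPhi K k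

lemma two_mK_le (K k : ℕ) (hk : 1 ≤ k) : 2 * mK K k * K ≤ 2 ^ py K k := by
  have h1 : mK K k ≤ (K + 1) * k := by unfold mK; nlinarith
  have h2 : K ≤ 2 ^ K := Nat.lt_two_pow_self.le
  have h3 : K + 1 ≤ 2 ^ K := Nat.lt_two_pow_self
  have h4 : k ≤ 2 ^ pL k := (Nat.lt_pow_succ_log_self (by norm_num) k).le
  calc 2 * mK K k * K ≤ 2 * (2 ^ K * 2 ^ pL k) * 2 ^ K := by
        gcongr
        exact h1.trans (Nat.mul_le_mul h3 h4)
    _ = 2 ^ py K k := by
        unfold py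
        rw [show 2 * K + 1 + pL k = K + K + 1 + pL k by ring, pow_add, pow_add, pow_add]; ring

theorem ptotal [Fintype V] (hK : 0 < K) (hcov : ∀ x y, x ≠ y → ∃ c, (G c).Adj x y) (Δ k : ℕ)
    (hΔ1 : 1 ≤ Δ) (hk : 1 ≤ k)
    (hFam : ∀ r, ∀ x : Fin r, (Finset.univ.filter (fun z => (Fam r).Adj x z)).card ≤ Δ)
    (hcol : ∀ r, ∃ col : Fin r → Fin k, ∀ x y, (Fam r).Adj x y → col x ≠ col y) :
    Cov Fam G (ptot K Δ k) (univ : Finset V) := by
  have hK' : (0 : ℝ) < K := by exact_mod_cast hK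
  have hK1 : (1 : ℝ) ≤ K := by exact_mod_cast hK
  obtain ⟨κ, hκ⟩ : ∃ κ : ℝ, κ = 1 / (K : ℝ) := ⟨_, rfl⟩
  have hκ0 : 0 < κ := by rw [hκ]; positivity
  have hκ1 : κ ≤ 1 := by
    rw [hκ, div_le_one hK']; exact hK1
  have hm2 : 2 ≤ mK K k := by unfold mK; nlinarith
  obtain ⟨mr, hmr⟩ : ∃ mr : ℝ, mr = (mK K k : ℝ) := ⟨_, rfl⟩
  have hmr2 : 2 ≤ mr := by rw [hmr]; exact_mod_cast hm2
  have hmr0 : 0 < mr := by linarith
  obtain ⟨g, hg⟩ : ∃ g : ℝ, g = κ / (2 * mr) := ⟨_, rfl⟩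
  have hg0 : 0 < g := by rw [hg]; positivity
  have hg1 : g ≤ κ / 4 := by
    rw [hg]
    apply div_le_div_of_nonneg_left hκ0.le (by norm_num)
    linarith
  have hdm : ∀ d ≤ mK K k, (d : ℝ) ≤ mr := fun d hd => by rw [hmr]; exact_mod_cast hd
  have hgm : 2 * mr * g = κ := by rw [hg]; field_simp
  have hy2 : (1 / 2 : ℝ) ^ py K k ≤ g := by
    have h1 : (2 : ℝ) * mr * K ≤ 2 ^ py K k := by
      rw [hmr]; exact_mod_cast two_mK_le K k hk
    have h2 : g = 1 / (2 * mr * K) := by rw [hg, hκ]; field_simp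
    rw [h2, one_div, inv_pow, one_div]
    exact inv_anti₀ (by positivity) h1
  have hred := redg (Fam := Fam) (G := G) hK (gK K Δ k)
    (fun P hP => red_stepK hK hcov Δ hΔ1 hFam k hcol P hP)
  obtain ⟨Z, h1, _, _, h4⟩ := path_rec (V := V) (Fam := Fam) (G := G) (κ := κ)
    (ρ := fun d => κ - d * g) (J := pJ K k) hK hcov Δ (2 ^ (gK K Δ k + 2)) (pT K Δ k) k hFam hcol
    hred hκ g hg0 hg1
    (by
      intro d hd
      have := mul_le_mul_of_nonneg_right (hdm d hd) hg0.le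
      linarith)
    (by
      intro d _
      have : 0 ≤ (d : ℝ) * g := by positivity
      linarith)
    (by
      intro d _
      push_cast
      ring)
    (by
      intro d hd
      have := mul_le_mul_of_nonneg_right (hdm d hd) hg0.le
      push_cast
      nlinarith)
    (by
      have hb : (1 - κ / 4) ^ (4 * K) ≤ 1 / 2 := by
        have e1 : 1 - κ / 4 ≤ Real.exp (-(κ / 4)) := by
          have := Real.add_one_le_exp (-(κ / 4)); linarith
        calc (1 - κ / 4) ^ (4 * K) ≤ (Real.exp (-(κ / 4))) ^ (4 * K) :=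
              pow_le_pow_left₀ (by linarith) e1 _
          _ = Real.exp (-1) := by
              rw [← Real.exp_nat_mul]
              congr 1
              push_cast
              rw [hκ]
              field_simp
          _ ≤ 1 / 2 := by
              have h5 := Real.add_one_le_exp (1 : ℝ)
              have h6 : Real.exp (-1) * Real.exp 1 = 1 := by rw [← Real.exp_add]; simp
              have h7 := Real.exp_pos (-1)
              nlinarith
      have h0 : 0 ≤ 1 - κ / 4 := by linarith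
      have h01 : 1 - κ / 4 ≤ 1 := by linarith
      calc (1 - κ / 4) ^ (pJ K k + 1) ≤ (1 - κ / 4) ^ (pJ K k) :=
            pow_le_pow_of_le_one h0 h01 (by omega)
        _ = ((1 - κ / 4) ^ (4 * K)) ^ (py K k + 1) := by rw [← pow_mul]; rfl
        _ ≤ (1 / 2) ^ (py K k + 1) := pow_le_pow_left₀ (by positivity) hb _
        _ < (1 / 2) ^ py K k := by
            rw [pow_succ]
            have : (0 : ℝ) < (1 / 2) ^ py K k := by positivity
            linarith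
        _ ≤ g := hy2)
    (px K k)
    (by
      unfold px
      rw [pow_succ]
      linarith)
    (pu K Δ)
    (by
      have h5 : (1 / 2 : ℝ) ^ (K + 3) ≤ κ / 8 := by
        have h6 : (K : ℝ) * 8 ≤ 2 ^ (K + 3) := by
          rw [pow_add]
          have := nat_le_two_pow K
          norm_num
          linarith
        rw [hκ, div_div, one_div, inv_pow, one_div]
        exact inv_anti₀ (by positivity) h6
      have h6 : (1 / 2 : ℝ) ^ (K + 1) ≤ κ / 2 := by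
        have h6 : (K : ℝ) * 2 ≤ 2 ^ (K + 1) := by
          rw [pow_add]
          have := nat_le_two_pow K
          linarith
        rw [hκ, div_div, one_div, inv_pow, one_div]
        exact inv_anti₀ (by positivity) h6
      unfold pu
      rw [pow_add, pow_mul]
      exact mul_le_mul (pow_le_pow_left₀ (by positivity) h5 _) h6 (by positivity) (by positivity))
    (pPhi K k) le_rfl (pPhi K k) le_rfl 0 (fun _ => ∅) (fun _ => ∅) (fun _ => ⟨0, hK⟩)
    (fun _ => 0) univ ∅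
    ⟨by omega, by simp [pPhi], fun i hi => absurd hi (Nat.not_lt_zero i),
      fun i hi => absurd hi (Nat.not_lt_zero i), fun i hi => absurd hi (Nat.not_lt_zero i),
      fun i j _ hj => absurd hj (Nat.not_lt_zero j), fun v _ i hi => absurd hi (Nat.not_lt_zero i),
      fun i hi => absurd hi (Nat.not_lt_zero i), fun i hi => absurd hi (Nat.not_lt_zero i),
      fun i hi => absurd hi (Nat.not_lt_zero i), by simp⟩
  have hZ : Z = univ := Finset.eq_univ_iff_forall.mpr fun v => h1 (Finset.mem_univ v)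
  rw [hZ] at h4
  exact h4

end

end Run7.h755
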