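import Mathlib
import Pool.Agent.Run7.h755.Ptot
import Pool.Agent.Run7.h755.Par

open Finset
open scoped Classical

namespace Run7.h755

/-- the exponent -/
def pS (Δ k : ℕ) : ℕ := k * Δ + k ^ 2 * (Nat.log 2 k + 1) ^ 2

/-- linear in the exponent -/
def LX (f : ℕ → ℕ → ℕ) : Prop := ∃ C, ∀ Δ k, 2 ≤ Δ → 1 ≤ k → f Δ k ≤ C * pS Δ k

/-- exponential in the exponent -/
def PX (f : ℕ → ℕ → ℕ) : Prop := ∃ C, ∀ Δ k, 2 ≤ Δ → 1 ≤ k → f Δ k ≤ 2 ^ (C * pS Δ k)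

lemma kD_le_pS (Δ k : ℕ) : k * Δ ≤ pS Δ k := Nat.le_add_right _ _

lemma one_le_pS {Δ k : ℕ} (hΔ : 2 ≤ Δ) (hk : 1 ≤ k) : 1 ≤ pS Δ k := by
  have h1 := kD_le_pS Δ k
  have h2 : 1 * 1 ≤ k * Δ := Nat.mul_le_mul hk (by omega)
  omega

lemma LX.mono {f g : ℕ → ℕ → ℕ} (hg : LX g) (h : ∀ Δ k, 2 ≤ Δ → 1 ≤ k → f Δ k ≤ g Δ k) : LX f := by
  obtain ⟨C, hC⟩ := hg
  exact ⟨C, fun Δ k h1 h2 => (h Δ k h1 h2).trans (hC Δ k h1 h2)⟩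

lemma LX.const (c : ℕ) : LX (fun _ _ => c) :=
  ⟨c, fun _ _ h1 h2 => Nat.le_mul_of_pos_right _ (one_le_pS h1 h2)⟩

lemma LX.add {f g : ℕ → ℕ → ℕ} (hf : LX f) (hg : LX g) : LX (fun Δ k => f Δ k + g Δ k) := by
  obtain ⟨a, ha⟩ := hf
  obtain ⟨b, hb⟩ := hg
  refine ⟨a + b, fun Δ k h1 h2 => ?_⟩
  rw [add_mul]
  exact Nat.add_le_add (ha Δ k h1 h2) (hb Δ k h1 h2)

lemma LX.smul {f : ℕ → ℕ → ℕ} (c : ℕ) (hf : LX f) : LX (fun Δ k => c * f Δ k) := by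
  obtain ⟨a, ha⟩ := hf
  refine ⟨c * a, fun Δ k h1 h2 => ?_⟩
  rw [mul_assoc]
  exact Nat.mul_le_mul_left _ (ha Δ k h1 h2)

lemma lx_kD : LX (fun Δ k => k * Δ) := ⟨1, fun Δ k _ _ => by rw [one_mul]; exact kD_le_pS Δ k⟩

lemma lx_D : LX (fun Δ _ => Δ) :=
  lx_kD.mono fun _ _ _ h => Nat.le_mul_of_pos_left _ h

lemma lx_kk : LX (fun _ k => k ^ 2 * (pL k) ^ 2) :=
  ⟨1, fun Δ k _ _ => by rw [one_mul]; exact Nat.le_add_left _ _⟩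

lemma PX.mono {f g : ℕ → ℕ → ℕ} (hg : PX g) (h : ∀ Δ k, 2 ≤ Δ → 1 ≤ k → f Δ k ≤ g Δ k) : PX f := by
  obtain ⟨C, hC⟩ := hg
  exact ⟨C, fun Δ k h1 h2 => (h Δ k h1 h2).trans (hC Δ k h1 h2)⟩

lemma PX.two_pow {f : ℕ → ℕ → ℕ} (hf : LX f) : PX (fun Δ k => 2 ^ f Δ k) := by
  obtain ⟨C, hC⟩ := hf
  exact ⟨C, fun Δ k h1 h2 => Nat.pow_le_pow_right (by norm_num) (hC Δ k h1 h2)⟩

lemma PX.of_LX {f : ℕ → ℕ → ℕ} (hf : LX f) : PX f :=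
  (PX.two_pow hf).mono fun _ _ _ _ => Nat.lt_two_pow_self.le

lemma PX.mul {f g : ℕ → ℕ → ℕ} (hf : PX f) (hg : PX g) : PX (fun Δ k => f Δ k * g Δ k) := by
  obtain ⟨a, ha⟩ := hf
  obtain ⟨b, hb⟩ := hg
  refine ⟨a + b, fun Δ k h1 h2 => ?_⟩
  rw [add_mul, pow_add]
  exact Nat.mul_le_mul (ha Δ k h1 h2) (hb Δ k h1 h2)

lemma PX.add {f g : ℕ → ℕ → ℕ} (hf : PX f) (hg : PX g) : PX (fun Δ k => f Δ k + g Δ k) := by
  obtain ⟨a, ha⟩ := hf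
  obtain ⟨b, hb⟩ := hg
  refine ⟨a + b + 1, fun Δ k h1 h2 => ?_⟩
  have hS := one_le_pS h1 h2
  have e1 : 2 ^ (a * pS Δ k) ≤ 2 ^ ((a + b) * pS Δ k) :=
    Nat.pow_le_pow_right (by norm_num) (Nat.mul_le_mul_right _ (by omega))
  have e2 : 2 ^ (b * pS Δ k) ≤ 2 ^ ((a + b) * pS Δ k) :=
    Nat.pow_le_pow_right (by norm_num) (Nat.mul_le_mul_right _ (by omega))
  calc f Δ k + g Δ k ≤ 2 ^ ((a + b) * pS Δ k) + 2 ^ ((a + b) * pS Δ k) :=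
        Nat.add_le_add ((ha Δ k h1 h2).trans e1) ((hb Δ k h1 h2).trans e2)
    _ = 2 ^ ((a + b) * pS Δ k + 1) := by rw [pow_succ]; ring
    _ ≤ _ := Nat.pow_le_pow_right (by norm_num) (by rw [add_mul _ 1, one_mul]; omega)

lemma PX.of_PB {f : ℕ → ℕ} (hf : PB f) : PX (fun Δ _ => f Δ) := by
  obtain ⟨C, hC⟩ := hf
  refine (PX.two_pow (LX.smul C lx_D)).mono fun Δ k h1 _ => ?_
  refine (hC Δ h1).trans ?_
  rw [mul_comm, pow_mul]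
  exact Nat.pow_le_pow_left Nat.lt_two_pow_self.le _

lemma pL_pos (k : ℕ) : 1 ≤ pL k := by unfold pL; omega

lemma mK_le (K : ℕ) {k : ℕ} (hk : 1 ≤ k) : mK K k ≤ (K + 1) * k := by
  unfold mK; nlinarith

lemma py_le (K k : ℕ) : py K k + 1 ≤ (2 * K + 3) * pL k := by
  have := pL_pos k
  unfold py
  nlinarith

lemma pPhi_le (K : ℕ) {k : ℕ} (hk : 1 ≤ k) :
    pPhi K k ≤ ((K + 1) * ((K + 1) * (4 * K * (2 * K + 3)) + 1)) * (k ^ 2 * pL k) := by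
  have h1 := mK_le K hk
  have h2 : pJ K k ≤ 4 * K * ((2 * K + 3) * pL k) := Nat.mul_le_mul_left _ (py_le K k)
  have h3 := pL_pos k
  have h4 : 1 ≤ k * pL k := Nat.mul_le_mul hk h3
  calc pPhi K k ≤ ((K + 1) * k) * (((K + 1) * k) * (4 * K * ((2 * K + 3) * pL k)) + k * pL k) := by
        unfold pPhi
        exact Nat.mul_le_mul h1 (Nat.add_le_add (Nat.mul_le_mul h1 h2) h4)
    _ = _ := by ring

lemma lx_px (K : ℕ) : LX (fun _ k => pPhi K k * px K k) := by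
  refine (LX.smul (((K + 1) * ((K + 1) * (4 * K * (2 * K + 3)) + 1)) * (2 * K + 3)) lx_kk).mono ?_
  intro Δ k _ hk
  calc pPhi K k * px K k
      ≤ (((K + 1) * ((K + 1) * (4 * K * (2 * K + 3)) + 1)) * (k ^ 2 * pL k)) *
          ((2 * K + 3) * pL k) := Nat.mul_le_mul (pPhi_le K hk) (py_le K k)
    _ = _ := by ring

lemma px_pow (K : ℕ) : PX (fun _ k => (mK K k + K + 1) ^ pPhi K k) := by
  refine (PX.two_pow (LX.smul (((K + 1) * ((K + 1) * (4 * K * (2 * K + 3)) + 1)) * (K + 2))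
    lx_kk)).mono ?_
  intro Δ k _ hk
  have h1 := mK_le K hk
  have h2 : mK K k + K + 1 ≤ 2 ^ (K + 1 + pL k) := by
    have h3 : K + 1 ≤ 2 ^ K := Nat.lt_two_pow_self
    have h4 : k ≤ 2 ^ pL k := (Nat.lt_pow_succ_log_self (by norm_num) k).le
    calc mK K k + K + 1 ≤ (K + 1) * k + (K + 1) * k := by nlinarith
      _ = 2 * ((K + 1) * k) := by ring
      _ ≤ 2 * (2 ^ K * 2 ^ pL k) := Nat.mul_le_mul_left _ (Nat.mul_le_mul h3 h4)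
      _ = _ := by rw [pow_add, pow_add]; ring
  have h5 : K + 1 + pL k ≤ (K + 2) * pL k := by
    have := pL_pos k
    nlinarith
  calc (mK K k + K + 1) ^ pPhi K k ≤ (2 ^ (K + 1 + pL k)) ^ pPhi K k := Nat.pow_le_pow_left h2 _
    _ = 2 ^ ((K + 1 + pL k) * pPhi K k) := by rw [← pow_mul]
    _ ≤ _ := by
        apply Nat.pow_le_pow_right (by norm_num)
        calc (K + 1 + pL k) * pPhi K k
            ≤ ((K + 2) * pL k) * (((K + 1) * ((K + 1) * (4 * K * (2 * K + 3)) + 1)) *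
              (k ^ 2 * pL k)) := Nat.mul_le_mul h5 (pPhi_le K hk)
          _ = _ := by ring

lemma lx_sm (K : ℕ) : LX (fun Δ k => sK K Δ * mK K k) := by
  refine (LX.smul (3 * (K + 1) ^ 2) lx_kD).mono ?_
  intro Δ k hΔ hk
  have h1 := mK_le K hk
  have h2 : 2 * Δ + 1 ≤ 3 * Δ := by omega
  calc sK K Δ * mK K k ≤ ((K + 1) * (3 * Δ)) * ((K + 1) * k) :=
        Nat.mul_le_mul (Nat.mul_le_mul_left _ h2) h1
    _ = _ := by ring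

lemma lx_gK (K : ℕ) : LX (fun Δ k => gK K Δ k + 2) := by
  have hb : LX (fun Δ k => bK K Δ k) :=
    ((((lx_sm K).add (LX.const (2 * (K + 1)))).add (LX.const K)).add lx_D).add (LX.const 5)
  exact (((lx_sm K).add hb).add (LX.const 3)).add (LX.const 2)

lemma px_mK (K : ℕ) : PX (fun _ k => mK K k) := by
  refine PX.of_LX ((LX.smul (K + 1) lx_kk).mono ?_)
  intro Δ k _ hk
  refine (mK_le K hk).trans (Nat.mul_le_mul_left _ ?_)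
  have h1 := pL_pos k
  have h2 : 1 ≤ (pL k) ^ 2 := Nat.one_le_pow _ _ h1
  nlinarith

theorem px_ptot (K : ℕ) : PX (ptot K) := by
  have hR : PX (fun Δ k => 2 ^ (gK K Δ k + 2)) := PX.two_pow (lx_gK K)
  have hgO : PX (fun Δ _ => gO Δ K) := PX.of_PB (pb_gO K)
  have htO : PX (fun Δ _ => tO Δ K) := PX.of_PB (pb_tO K)
  have hu : LX (fun Δ _ => pu K Δ) := (LX.smul (K + 3) lx_D).add (LX.const (K + 1))
  have he : LX (fun Δ k => pu K Δ + Δ + 2 + pPhi K k * px K k) :=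
    ((hu.add lx_D).add (LX.const 2)).add (lx_px K)
  have hE : LX (fun Δ k => pu K Δ + 4 * Δ + 2 + pPhi K k * px K k) :=
    ((hu.add (LX.smul 4 lx_D)).add (LX.const 2)).add (lx_px K)
  have hT : PX (pT K) := by
    have h1 : PX (fun Δ k => (pu K Δ + 4 * Δ + 2 + pPhi K k * px K k) + 4 * Δ) :=
      PX.of_LX (hE.add (LX.smul 4 lx_D))
    have h2 : PX (fun Δ k => (pu K Δ + Δ + 2 + pPhi K k * px K k + 1) *
      (mK K k * (2 ^ (pu K Δ + Δ + 2 + pPhi K k * px K k) * (K + 2)))) :=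
      (PX.of_LX (he.add (LX.const 1))).mul ((px_mK K).mul
        ((PX.two_pow he).mul (PX.of_LX (LX.const (K + 2)))))
    exact (h1.add h2).add hgO
  exact ((((hT.mul hR).add ((htO.mul hR).add (PX.of_LX (LX.const 2)))).add (hgO.mul hR)).add
    (PX.of_LX (LX.const 1))).mul (px_pow K)

variable {V : Type*} [Fintype V] {K : ℕ} {Fam : ∀ r : ℕ, SimpleGraph (Fin r)}
  {G : Fin K → SimpleGraph V}

theorem ptotal_parts (hK : 0 < K) (hcov : ∀ x y, x ≠ y → ∃ c, (G c).Adj x y) (Δ k : ℕ)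
    (hΔ1 : 1 ≤ Δ) (hk : 1 ≤ k)
    (hFam : ∀ r, ∀ x : Fin r, (Finset.univ.filter (fun z => (Fam r).Adj x z)).card ≤ Δ)
    (hcol : ∀ r, ∃ col : Fin r → Fin k, ∀ x y, (Fam r).Adj x y → col x ≠ col y) :
    ∃ PP : Finset (Finset V), PP.card ≤ ptot K Δ k ∧ (∀ T ∈ PP, T.Nonempty ∧ IsCopy Fam G T) ∧
      (∀ T ∈ PP, ∀ T' ∈ PP, T ≠ T' → Disjoint T T') ∧ ∀ v : V, ∃ T ∈ PP, v ∈ T := by
  obtain ⟨PP, h1, h2, h3, h4⟩ := ptotal (Fam := Fam) (G := G) hK hcov Δ k hΔ1 hk hFam hcol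
  refine ⟨PP, h1, h2, h3, fun v => ?_⟩
  have hv := Finset.mem_univ v
  rw [← h4, Finset.mem_biUnion] at hv
  obtain ⟨T, hT, hvT⟩ := hv
  exact ⟨T, hT, hvT⟩

lemma greedy_col (Δ : ℕ)
    (hFam : ∀ r, ∀ x : Fin r, (Finset.univ.filter (fun z => (Fam r).Adj x z)).card ≤ Δ) (r : ℕ) :
    ∃ col : Fin r → Fin (Δ + 1), ∀ x y, (Fam r).Adj x y → col x ≠ col y := by
  obtain ⟨c, h1, h2⟩ := exists_col (fun x y => (Fam r).Adj x y) (fun x y h => h.symm)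
    (fun x h => (Fam r).loopless.irrefl _ h) Δ (fun x => by convert hFam r x) univ
  refine ⟨fun x => ⟨c x, h1 x⟩, fun x y h => ?_⟩
  intro h3
  exact h2 x (mem_univ _) y (mem_univ _) h (congrArg Fin.val h3)

lemma pS_gen {Δ : ℕ} (hΔ : 2 ≤ Δ) : pS Δ (Δ + 1) ≤ 38 * (Δ ^ 2 * (Nat.log 2 Δ) ^ 2) := by
  have h1 : Nat.log 2 (Δ + 1) ≤ Nat.log 2 Δ + 1 := by
    calc Nat.log 2 (Δ + 1) ≤ Nat.log 2 (Δ * 2) := Nat.log_mono_right (by omega)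
      _ = _ := Nat.log_mul_base (by norm_num) (by omega)
  have h2 : 1 ≤ Nat.log 2 Δ := Nat.log_pos (by norm_num) hΔ
  obtain ⟨l, hl⟩ : ∃ l, l = Nat.log 2 Δ := ⟨_, rfl⟩
  rw [← hl] at h1 h2 ⊢
  unfold pS
  have h3 : Nat.log 2 (Δ + 1) + 1 ≤ 3 * l := by omega
  have h4 : (Δ + 1) * Δ ≤ 2 * (Δ ^ 2 * l ^ 2) := by
    have h5 : (Δ + 1) * Δ ≤ 2 * Δ ^ 2 := by nlinarith
    have h6 : Δ ^ 2 * 1 ≤ Δ ^ 2 * l ^ 2 := Nat.mul_le_mul_left _ (Nat.one_le_pow _ _ h2)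
    omega
  have h5 : (Δ + 1) ^ 2 * (Nat.log 2 (Δ + 1) + 1) ^ 2 ≤ 36 * (Δ ^ 2 * l ^ 2) := by
    calc (Δ + 1) ^ 2 * (Nat.log 2 (Δ + 1) + 1) ^ 2 ≤ (2 * Δ) ^ 2 * (3 * l) ^ 2 :=
          Nat.mul_le_mul (Nat.pow_le_pow_left (by omega) _) (Nat.pow_le_pow_left h3 _)
      _ = _ := by ring
  omega

lemma cube_le (l : ℕ) : l ^ 3 ≤ 27 * 2 ^ l := by
  have h1 : l ≤ 3 * 2 ^ (l / 3) := by
    have h2 : l / 3 + 1 ≤ 2 ^ (l / 3) := Nat.lt_two_pow_self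
    omega
  calc l ^ 3 ≤ (3 * 2 ^ (l / 3)) ^ 3 := Nat.pow_le_pow_left h1 _
    _ = 27 * 2 ^ (l / 3 * 3) := by rw [mul_pow, ← pow_mul]; norm_num
    _ ≤ _ := Nat.mul_le_mul_left _ (Nat.pow_le_pow_right (by norm_num) (by omega))

lemma pS_log (A : ℕ) {Δ : ℕ} (hΔ : 2 ≤ Δ) :
    pS Δ (A * Nat.log 2 Δ) ≤ (A + 27 * A ^ 4) * (Δ * Nat.log 2 Δ) := by
  have h0 : 2 ^ Nat.log 2 Δ ≤ Δ := Nat.pow_log_le_self 2 (by omega)
  obtain ⟨l, hl⟩ : ∃ l, l = Nat.log 2 Δ := ⟨_, rfl⟩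
  rw [← hl] at h0 ⊢
  unfold pS
  by_cases hA : A * l = 0
  · rw [hA]; simp
  have h1 : Nat.log 2 (A * l) + 1 ≤ A * l := by
    have := Nat.log_lt_self 2 hA
    omega
  have h2 : (A * l) ^ 2 * (Nat.log 2 (A * l) + 1) ^ 2 ≤ 27 * A ^ 4 * (Δ * l) := by
    calc (A * l) ^ 2 * (Nat.log 2 (A * l) + 1) ^ 2 ≤ (A * l) ^ 2 * (A * l) ^ 2 :=
          Nat.mul_le_mul_left _ (Nat.pow_le_pow_left h1 _)
      _ = A ^ 4 * l * l ^ 3 := by ring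
      _ ≤ A ^ 4 * l * (27 * 2 ^ l) := Nat.mul_le_mul_left _ (cube_le l)
      _ ≤ A ^ 4 * l * (27 * Δ) := by gcongr
      _ = _ := by ring
  calc A * l * Δ + (A * l) ^ 2 * (Nat.log 2 (A * l) + 1) ^ 2
      ≤ A * l * Δ + 27 * A ^ 4 * (Δ * l) := Nat.add_le_add_left h2 _
    _ = _ := by ring

end Run7.h755
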