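import Mathlib
import Pool.Agent.Run7.h755.Scp1
import Pool.Agent.Run7.h755.Own

open Finset
open scoped Classical

namespace Run7.h755

lemma num_V {P w x : ℝ} {h q Δ g : ℕ} (hP : (2 : ℝ) ^ (4 * h + 2 * q + 8 * Δ + 15 + 2 * g) ≤ P)
    (hPw : P ≤ 2 ^ g * w)
    (hx : ((1 / 2) ^ h) ^ 2 * w * (1 / 2) ^ (7 + q + 4 * Δ) ≤ x) :
    P ≤ x ^ 2 / 2 := by
  have hP0 : 0 < P := lt_of_lt_of_le (by positivity) hP
  have hg : (0 : ℝ) < 2 ^ g := by positivity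
  have hw0 : 0 < w := by
    by_contra hcon
    push Not at hcon
    nlinarith
  have h1 : (((1 / 2 : ℝ) ^ h) ^ 2 * w * (1 / 2) ^ (7 + q + 4 * Δ)) ^ 2 / 2 ≤ x ^ 2 / 2 := by
    gcongr
  refine le_trans ?_ h1
  have h3 : (((1 / 2 : ℝ) ^ h) ^ 2 * w * (1 / 2) ^ (7 + q + 4 * Δ)) ^ 2 / 2
      = w ^ 2 * (1 / 2) ^ (4 * h + 2 * q + 8 * Δ + 15) := by
    rw [show 4 * h + 2 * q + 8 * Δ + 15 = h * 2 * 2 + (7 + q + 4 * Δ) * 2 + 1 by ring,
      pow_add (1 / 2 : ℝ) (h * 2 * 2 + (7 + q + 4 * Δ) * 2) 1,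
      pow_add (1 / 2 : ℝ) (h * 2 * 2) ((7 + q + 4 * Δ) * 2),
      pow_mul _ (h * 2), pow_mul _ h, pow_mul _ (7 + q + 4 * Δ)]
    ring
  rw [h3]
  have h4 : P ^ 2 ≤ 2 ^ (2 * g) * w ^ 2 := by
    calc P ^ 2 ≤ (2 ^ g * w) ^ 2 := by gcongr
      _ = _ := by rw [mul_pow, ← pow_mul, mul_comm g 2]
  have h5 : P * 2 ^ (4 * h + 2 * q + 8 * Δ + 15) ≤ w ^ 2 := by
    have h6 : P * 2 ^ (4 * h + 2 * q + 8 * Δ + 15) * 2 ^ (2 * g) ≤ P ^ 2 := by
      calc P * 2 ^ (4 * h + 2 * q + 8 * Δ + 15) * 2 ^ (2 * g)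
          = P * 2 ^ (4 * h + 2 * q + 8 * Δ + 15 + 2 * g) := by rw [pow_add _ _ (2 * g)]; ring
        _ ≤ P * P := by gcongr
        _ = P ^ 2 := by ring
    have h7 := h6.trans h4
    rw [mul_comm (2 ^ (2 * g)) (w ^ 2)] at h7
    exact le_of_mul_le_mul_right h7 (by positivity)
  calc P = P * 2 ^ (4 * h + 2 * q + 8 * Δ + 15) * (1 / 2) ^ (4 * h + 2 * q + 8 * Δ + 15) := by
        rw [mul_assoc, two_mul_half, mul_one]
    _ ≤ _ := by gcongr

lemma half_le {x y : ℝ} {a : ℕ} (h : 2 ^ a * x ≤ y) : x ≤ (1 / 2) ^ a * y := by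
  calc x = (1 / 2) ^ a * (2 ^ a * x) := by rw [← mul_assoc, half_mul_two, one_mul]
    _ ≤ _ := by gcongr

lemma le_half {x y : ℝ} {a : ℕ} (h : (1 / 2) ^ a * x ≤ y) : x ≤ 2 ^ a * y := by
  calc x = 2 ^ a * ((1 / 2) ^ a * x) := by rw [← mul_assoc, two_mul_half, one_mul]
    _ ≤ _ := by gcongr

lemma hpow_le {a b : ℕ} (h : a ≤ b) : (1 / 2 : ℝ) ^ b ≤ (1 / 2) ^ a :=
  pow_le_pow_of_le_one (by norm_num) (by norm_num) h

/-- numeric facts on the size of the absorber -/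
lemma num_m {p w : ℝ} {h q : ℕ} (hp : p = (1 / 2) ^ h) (hq : 0 < q)
    (hw : (2 : ℝ) ^ (h + q + 5) ≤ w) :
    ((⌊p * w / (8 * q)⌋₊ : ℝ) ≤ p * w / (8 * q)) ∧ (p * w / (16 * q) ≤ (⌊p * w / (8 * q)⌋₊ : ℝ)) ∧
      ((⌊p * w / (8 * q)⌋₊ : ℝ) ≤ w / 8) := by
  have hp0 : 0 < p := by rw [hp]; positivity
  have hp1 : p ≤ 1 := by rw [hp]; exact pow_le_one₀ (by norm_num) (by norm_num)
  have hw0 : 0 < w := lt_of_lt_of_le (by positivity) hw
  have hq1 : (1 : ℝ) ≤ q := by exact_mod_cast hq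
  have hpw : (2 : ℝ) ^ (q + 5) ≤ p * w := by
    have h1 : (2 : ℝ) ^ (q + 5) = p * 2 ^ (h + q + 5) := by
      rw [hp, show h + q + 5 = h + (q + 5) by ring, pow_add 2 h, ← mul_assoc, half_mul_two, one_mul]
    rw [h1]
    exact mul_le_mul_of_nonneg_left hw hp0.le
  have hm1 : (⌊p * w / (8 * q)⌋₊ : ℝ) ≤ p * w / (8 * q) := Nat.floor_le (by positivity)
  refine ⟨hm1, ?_, ?_⟩
  · have h1 : p * w / (8 * q) < ⌊p * w / (8 * q)⌋₊ + 1 := Nat.lt_floor_add_one _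
    have h2 : 1 ≤ p * w / (16 * q) := by
      rw [le_div_iff₀ (by positivity)]
      have h3 : (2 : ℝ) ^ (q + 5) = 32 * 2 ^ q := by rw [pow_add]; norm_num; ring
      have h4 := nat_le_two_pow q
      linarith
    have h3 : p * w / (8 * q) = 2 * (p * w / (16 * q)) := by field_simp; ring
    linarith
  · refine hm1.trans ?_
    apply div_le_div₀ hw0.le _ (by norm_num) (by linarith)
    nlinarith

section
variable {V : Type*} {K : ℕ} {Fam : ∀ r : ℕ, SimpleGraph (Fin r)} {G : Fin K → SimpleGraph V}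

theorem scp_core (hcov : ∀ x y, x ≠ y → ∃ c, (G c).Adj x y) (Δ : ℕ)
    (hFam : ∀ r, ∀ x : Fin r, (Finset.univ.filter (fun z => (Fam r).Adj x z)).card ≤ Δ)
    (h θe h0 h' hp b e g D g' C1 Cs E : ℕ) (le ee : ℕ → ℕ)
    (H1 : θe = h + 1 + qc Δ) (H1' : h0 = θe * (Δ + Δ * Δ + 1 + Δ))
    (H2 : hp = h' + (h0 + 1)) (H2' : h0 + 1 ≤ h')
    (H3 : e = 2 * hp + qc Δ + 5 * Δ + 10) (H3' : g = gg Δ e K) (H3'' : D = tt Δ e K + 4)
    (H4 : g' = g + h + 2 + b) (H5 : C1 = g' + Δ * D + 2 * hp + qc Δ + 4 * Δ + 10)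
    (H6 : Cs = 4 * hp + 2 * qc Δ + 8 * Δ + 15 + 2 * g')
    (H7 : ∀ i, i < Δ + Δ * Δ + 1 → Δ * le i + (5 + qc Δ + 2 * h + h0 + g) ≤ ee i)
    (H8 : ∀ i j, i < j → j < Δ + Δ * Δ + 1 → ee j + Δ + 2 ≤ le i)
    (H9 : ∀ i, i < Δ + Δ * Δ + 1 → hp + 3 * Δ + 3 ≤ le i)
    (H10 : ∀ i, i < Δ + Δ * Δ + 1 → ee i + 3 ≤ E) (H10' : hp + qc Δ + h0 + 4 ≤ E)
    (c : Fin K) (U : Fin (Δ + Δ * Δ + 1 + Δ) → Finset V) (hΩ : 0 < (Fintype.piFinset U).card)
    (P B X : Finset V) (UU : Finset (Fin (Δ + Δ * Δ + 1 + Δ) → V)) (hXP : X ⊆ P)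
    (hb : (P.card : ℝ) ≤ 2 ^ b * X.card)
    (hL : ∀ v ∈ X, (1 / 2) ^ h * ((Fintype.piFinset U).card : ℝ) ≤ ((Lf (G c) U v \ UU).card : ℝ))
    (hPU : ∀ i, (2 : ℝ) ^ E * P.card ≤ (U i).card)
    (hBU : ∀ i, (2 : ℝ) ^ E * (U i ∩ B).card ≤ (U i).card)
    (hPB : Disjoint P B) (hPbig : (2 : ℝ) ^ Cs ≤ P.card) :
    ∃ DS ⊆ Fintype.piFinset U, Disjoint DS UU ∧
      (1 / 2) ^ (h0 + 1) * ((Fintype.piFinset U).card : ℝ) ≤ (DS.card : ℝ) ∧
      ∃ A ⊆ P ∪ (univ.biUnion U \ B), (A.card : ℝ) ≤ P.card ∧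
        ∀ Q ⊆ P \ A, (2 : ℝ) ^ C1 * Q.card ≤ P.card →
          (∀ v ∈ Q, (1 / 2) ^ h' * ((Fintype.piFinset U).card : ℝ)
            ≤ ((Lf (G c) U v ∩ DS).card : ℝ)) → Cov Fam G 2 (A ∪ Q) := by
  obtain ⟨q, hq⟩ : ∃ q, q = qc Δ := ⟨_, rfl⟩
  have hqn : q = Δ + Δ * Δ + 1 + Δ + 1 := by rw [hq, qc]
  rw [← hq] at H1 H3 H5 H6 H10' H7
  have hΩ' : (0 : ℝ) < (Fintype.piFinset U).card := by exact_mod_cast hΩ
  have hP0 : (0 : ℝ) < P.card := lt_of_lt_of_le (by positivity) hPbig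
  have hη0 : (0 : ℝ) < (1 / 2) ^ h := by positivity
  have hθ0 : (0 : ℝ) ≤ (1 / 2) ^ θe := by positivity
  have hnθ : ((Δ + Δ * Δ + 1 + Δ : ℕ) : ℝ) * (1 / 2) ^ θe ≤ (1 / 2) ^ h / 2 := by
    have h1 : ((Δ + Δ * Δ + 1 + Δ : ℕ) : ℝ) ≤ 2 ^ q := by
      refine (nat_le_two_pow _).trans ?_
      exact pow_le_pow_right₀ (by norm_num) (by omega)
    calc ((Δ + Δ * Δ + 1 + Δ : ℕ) : ℝ) * (1 / 2) ^ θe ≤ 2 ^ q * (1 / 2) ^ θe := by gcongr
      _ ≤ (1 / 2) ^ (h + 1) := pow_help (by omega)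
      _ = _ := by rw [pow_succ]; ring
  have hηs0 : ∀ i : Fin (Δ + Δ * Δ + 1 + Δ), (0 : ℝ) < (1 / 2) ^ (ee i) := fun i => by positivity
  obtain ⟨a, haΩ, haR, habad⟩ := drc (G c) U X (fun v => Lf (G c) U v \ UU)
    (fun w _ => Finset.sdiff_subset.trans (Finset.filter_subset _ _)) ((1 / 2) ^ h) ((1 / 2) ^ θe)
    hη0 hθ0 hnθ hL hΩ (univ.filter (fun i => (i : ℕ) < Δ + Δ * Δ + 1)) (2 ^ q) (by positivity)
    (by
      have h1 := Finset.card_le_univ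
        (univ.filter (fun i : Fin (Δ + Δ * Δ + 1 + Δ) => (i : ℕ) < Δ + Δ * Δ + 1))
      rw [Fintype.card_fin] at h1
      have h2 : ((univ.filter (fun i : Fin (Δ + Δ * Δ + 1 + Δ) =>
        (i : ℕ) < Δ + Δ * Δ + 1)).card : ℝ) ≤ ((Δ + Δ * Δ + 1 + Δ : ℕ) : ℝ) := Nat.cast_le.mpr h1
      refine h2.trans ((nat_le_two_pow _).trans ?_)
      exact pow_le_pow_right₀ (by norm_num) (by omega))
    (fun i => (1 / 2) ^ (ee i)) (fun i _ => hηs0 i)
  set R := X.filter (fun w => a ∈ filt U ((1 / 2) ^ θe) (Lf (G c) U w \ UU) (Δ + Δ * Δ + 1 + Δ))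
    with hR
  have hXR : (X.card : ℝ) ≤ 2 ^ (h + 2) * R.card := by
    apply le_half
    calc (1 / 2 : ℝ) ^ (h + 2) * X.card = (1 / 2) ^ h / 4 * X.card := by
          rw [pow_add]; ring
      _ ≤ _ := haR
  have hPR : (P.card : ℝ) ≤ 2 ^ (b + (h + 2)) * R.card := by
    calc (P.card : ℝ) ≤ 2 ^ b * X.card := hb
      _ ≤ 2 ^ b * (2 ^ (h + 2) * R.card) := by gcongr
      _ = _ := by rw [pow_add 2 b]; ring
  have hRbig : (2 : ℝ) ^ (gg Δ e K + 1) ≤ R.card := by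
    have h1 : (2 : ℝ) ^ (b + (h + 2)) * 2 ^ (gg Δ e K + 1) ≤ 2 ^ (b + (h + 2)) * R.card := by
      refine le_trans ?_ (hPbig.trans hPR)
      rw [← pow_add]
      exact pow_le_pow_right₀ (by norm_num) (by omega)
    exact le_of_mul_le_mul_left h1 (by positivity)
  obtain ⟨W, hWR, c', d, hd, hRW, hB⟩ := exists_bid G hcov Δ e R hRbig
  rw [← H3'] at hRW
  rw [← H3''] at hd
  have hWX : W ⊆ X := hWR.trans (Finset.filter_subset _ _)
  have hWP : W ⊆ P := hWX.trans hXP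
  obtain ⟨w, hw⟩ : ∃ w : ℝ, w = W.card := ⟨_, rfl⟩
  have hXw : (X.card : ℝ) ≤ 2 ^ (g + h + 2) * w := by
    calc (X.card : ℝ) ≤ 2 ^ (h + 2) * R.card := hXR
      _ ≤ 2 ^ (h + 2) * (2 ^ g * W.card) := by gcongr
      _ = _ := by rw [hw, show g + h + 2 = (h + 2) + g by ring, pow_add 2 (h + 2)]; ring
  have hPw : (P.card : ℝ) ≤ 2 ^ g' * w := by
    calc (P.card : ℝ) ≤ 2 ^ b * X.card := hb
      _ ≤ 2 ^ b * (2 ^ (g + h + 2) * w) := by gcongr
      _ = _ := by rw [H4, show g + h + 2 + b = b + (g + h + 2) by ring, pow_add 2 b]; ring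
  have hwlb : (2 : ℝ) ^ (4 * hp + 2 * q + 8 * Δ + 15 + g') ≤ w := by
    have h1 : (2 : ℝ) ^ g' * 2 ^ (4 * hp + 2 * q + 8 * Δ + 15 + g') ≤ 2 ^ g' * w := by
      refine le_trans ?_ (hPbig.trans hPw)
      rw [← pow_add]
      exact pow_le_pow_right₀ (by norm_num) (by omega)
    exact le_of_mul_le_mul_left h1 (by positivity)
  have hw0 : 0 < w := lt_of_lt_of_le (by positivity) hwlb
  have hWne : W.Nonempty := by
    rw [← Finset.card_pos]
    have : (0 : ℝ) < W.card := hw ▸ hw0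
    exact_mod_cast this
  have ha : ∀ w ∈ W, a ∈ filt U ((1 / 2) ^ θe) (Lf (G c) U w \ UU) (Δ + Δ * Δ + 1 + Δ) :=
    fun w hw => (Finset.mem_filter.mp (hWR hw)).2
  have hθn : ((1 / 2 : ℝ) ^ θe) ^ (Δ + Δ * Δ + 1 + Δ) = (1 / 2) ^ h0 := by
    rw [← pow_mul, H1']
  obtain ⟨ζ, hζ⟩ : ∃ ζ : ℝ, ζ = (1 / 2) ^ (h0 + 1) := ⟨_, rfl⟩
  have hζ0 : 0 < ζ := by rw [hζ]; positivity
  have hζζ : (1 / 2 : ℝ) ^ h0 - ζ = ζ := by rw [hζ, pow_succ]; ring
  obtain ⟨DS, hDS⟩ : ∃ DS, DS = DD (G c) U a W UU ζ := ⟨_, rfl⟩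
  obtain ⟨w0, hw0W, hw0c⟩ := scp_ii (G c) U a UU hθ0 W hWne hζ0.le ha
  rw [hθn, hζζ, ← hDS] at hw0c
  obtain ⟨w1, hw1⟩ := hWne
  have hpi := scp_pi (G c) U a UU hθ0 w1 (ha w1 hw1)
  have hDac := fun i => scp_Da (G c) U a UU hθ0 w1 (ha w1 hw1) hΩ i
  rw [hθn] at hpi
  simp only [hθn] at hDac
  have hDac' : ∀ i, ((U i).card : ℝ) ≤ 2 ^ h0 * (Da (G c) U a i).card := fun i => le_half (hDac i)
  have hU0 : ∀ i, (0 : ℝ) < (U i).card := by
    intro i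
    have : 0 < (U i).card := by
      rw [Finset.card_pos]
      obtain ⟨x, hx⟩ := Finset.card_pos.mp hΩ
      exact ⟨x i, Fintype.mem_piFinset.mp hx i⟩
    exact_mod_cast this
  -- the system
  have hDWpos : 0 < (Fintype.piFinset (DW (G c) U a W)).card := by
    rw [DW_card]
    refine Nat.mul_pos ?_ (Finset.card_pos.mpr ⟨w1, hw1⟩)
    have : (0 : ℝ) < (Fintype.piFinset (Da (G c) U a)).card := lt_of_lt_of_le (by positivity) hpi
    exact_mod_cast this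
  have hDWc : ((Fintype.piFinset (DW (G c) U a W)).card : ℝ)
      = (Fintype.piFinset (Da (G c) U a)).card * w := by
    rw [DW_card, hw]; push_cast; ring
  obtain ⟨thr, hthr⟩ : ∃ thr : Fin (Δ + Δ * Δ + 1 + Δ + 1) → ℝ,
      thr = Fin.snoc (α := fun _ => ℝ) (fun i => (1 / 2) ^ (ee i) * (U i).card) 0 := ⟨_, rfl⟩
  have hthr' : ∀ i : Fin (Δ + Δ * Δ + 1 + Δ), thr i.castSucc = (1 / 2) ^ (ee i) * (U i).card := by
    intro i; rw [hthr]; simp
  have hS := asys_frac (q0 := Δ + Δ * Δ + 1) (Δ := Δ) (G c) (DW (G c) U a W) thr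
    (fun i => (1 / 2) ^ (le i)) (fun i => 2 ^ (4 + q + 2 * h + h0 + g) * (1 / 2) ^ (ee i))
    (fun i _ => by positivity) (fun i _ => pow_le_one₀ (by norm_num) (by norm_num))
    (fun i _ => by positivity)
    (by
      intro i hi
      have h1 : (2 : ℝ) ^ (4 + q + 2 * h + h0 + g + 1) * (1 / 2) ^ (ee i)
          ≤ (1 / 2) ^ (Δ * le i) := pow_help (by have := H7 i hi; omega)
      have h2 : (0 : ℝ) < (1 / 2) ^ (Δ * le i) := by positivity
      rw [pow_succ] at h1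
      calc (2 : ℝ) ^ (4 + q + 2 * h + h0 + g) * (1 / 2) ^ (ee i)
          ≤ (1 / 2) ^ (Δ * le i) / 2 := by linarith
        _ < (1 / 2) ^ (Δ * le i) := by linarith
        _ = _ := by rw [← pow_mul, mul_comm])
    (by
      intro i hi
      have hilt : (i : ℕ) < Δ + Δ * Δ + 1 + Δ := by omega
      obtain ⟨i0, rfl⟩ : ∃ i0 : Fin (Δ + Δ * Δ + 1 + Δ), i = i0.castSucc :=
        ⟨⟨i, hilt⟩, by ext; simp⟩
      refine (scp_init (G c) U a UU W X hWX ha (fun i => (1 / 2) ^ (ee i)) thr i0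
        (hthr' i0)).trans ?_
      have hi' : (i0 : ℕ) < Δ + Δ * Δ + 1 := by simpa using hi
      refine (habad i0 (Finset.mem_filter.mpr ⟨Finset.mem_univ _, hi'⟩)).trans ?_
      rw [hDWc]
      simp only [Fin.val_castSucc]
      have h1 : ((Fintype.piFinset U).card : ℝ)
          ≤ 2 ^ h0 * (Fintype.piFinset (Da (G c) U a)).card := le_half hpi
      have h2 : 4 * (2 : ℝ) ^ q * (1 / 2) ^ (ee i0) / (1 / 2) ^ h
          = 2 ^ (2 + q + h) * (1 / 2) ^ (ee i0) := by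
        rw [div_eq_iff (by positivity)]
        have := two_mul_half h
        rw [pow_add, pow_add]
        calc 4 * (2 : ℝ) ^ q * (1 / 2) ^ (ee i0)
            = 4 * (2 : ℝ) ^ q * (1 / 2) ^ (ee i0) * (2 ^ h * (1 / 2) ^ h) := by rw [this, mul_one]
          _ = _ := by ring
      rw [h2]
      calc (2 : ℝ) ^ (2 + q + h) * (1 / 2) ^ (ee i0) * ((Fintype.piFinset U).card * X.card)
          ≤ 2 ^ (2 + q + h) * (1 / 2) ^ (ee i0) *
            ((2 ^ h0 * (Fintype.piFinset (Da (G c) U a)).card) * (2 ^ (g + h + 2) * w)) := by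
            gcongr
        _ = 2 ^ (4 + q + 2 * h + h0 + g) * (1 / 2) ^ (ee i0) *
            ((Fintype.piFinset (Da (G c) U a)).card * w) := by
            rw [show 4 + q + 2 * h + h0 + g = (2 + q + h) + h0 + (g + h + 2) by ring,
              pow_add 2 (2 + q + h + h0), pow_add 2 (2 + q + h)]
            ring)
    hDWpos
  -- the absorber
  obtain ⟨p, hpd⟩ : ∃ p : ℝ, p = (1 / 2) ^ hp := ⟨_, rfl⟩
  have hp0 : 0 < p := by rw [hpd]; positivity
  have hp1 : p ≤ 1 := by rw [hpd]; exact pow_le_one₀ (by norm_num) (by norm_num)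
  have hpζ : (1 / 2 : ℝ) ^ h' * ζ = p := by rw [hζ, hpd, H2, ← pow_add]
  obtain ⟨hm1, hm2, hm3⟩ := num_m (p := p) (w := w) (h := hp) (q := q) hpd (by omega)
    (le_trans (pow_le_pow_right₀ (by norm_num) (by omega)) hwlb)
  obtain ⟨m, hm⟩ : ∃ m, m = ⌊p * w / (8 * q)⌋₊ := ⟨_, rfl⟩
  rw [← hm] at hm1 hm2 hm3
  obtain ⟨Y, κ, hF, hYc⟩ := exists_FStr (Fam m) Δ (fun x => by convert hFam m x)
  obtain ⟨VV, hVV⟩ : ∃ VV, VV = P.filter (fun v =>
    (1 / 2) ^ h' * ((Fintype.piFinset U).card : ℝ) ≤ ((Lf (G c) U v ∩ DS).card : ℝ)) := ⟨_, rfl⟩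
  have hVVne : VV.Nonempty := by
    refine ⟨w0, ?_⟩
    rw [hVV, Finset.mem_filter]
    refine ⟨hWP hw0W, le_trans ?_ hw0c⟩
    rw [hζ]
    apply mul_le_mul_of_nonneg_right (hpow_le H2') hΩ'.le
  have hmP : (m : ℝ) ≤ P.card := by
    have : w ≤ P.card := by rw [hw]; exact Nat.cast_le.mpr (Finset.card_le_card hWP)
    linarith
  have hq1 : (1 : ℝ) ≤ q := by exact_mod_cast (by omega : 1 ≤ q)
  have hsmall : ∀ i : Fin (Δ + Δ * Δ + 1 + Δ),
      (m : ℝ) + (Da (G c) U a i ∩ B).card ≤ 2 * ((1 / 2) ^ E * (U i).card) := by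
    intro i
    have h1 : (m : ℝ) ≤ (1 / 2) ^ E * (U i).card := hmP.trans (half_le (hPU i))
    have h2 : ((Da (G c) U a i ∩ B).card : ℝ) ≤ (U i ∩ B).card :=
      Nat.cast_le.mpr (Finset.card_le_card (Finset.inter_subset_inter_right (Da_sub _ _ _ _)))
    have h3 := half_le (hBU i)
    linarith
  have hWB : W ∩ B = ∅ := by
    rw [← Finset.disjoint_iff_inter_eq_empty]
    exact Finset.disjoint_of_subset_left hWP hPB
  obtain ⟨ψ, hψ1, hψ2, hψ3, hψ4, hψ5⟩ := abs_embed hF hS (fun x => by convert hFam m x)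
    B VV hVVne p (p / (4 * q)) ((1 / 2) ^ (hp + 3 * Δ + 3)) hp0 hp1 hDWpos (by positivity)
    (fun i hi => hpow_le (H9 i hi))
    (by
      intro j
      rw [Fintype.card_fin]
      refine Fin.lastCases ?_ (fun i => ?_) j
      · rw [DW_last, hWB, Finset.card_empty, Nat.cast_zero, add_zero]
        refine hm1.trans ?_
        rw [div_mul_eq_mul_div, ← hw]
        apply div_le_div_of_nonneg_left (by positivity) (by positivity)
        linarith
      · rw [DW_castSucc]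
        refine (hsmall i).trans ?_
        have h1 := hDac' i
        have h2 : (1 / 2 : ℝ) ^ (hp + 2 + q) ≤ p / (4 * q) := by
          rw [le_div_iff₀ (by positivity)]
          have h3 := nat_le_two_pow q
          calc (1 / 2 : ℝ) ^ (hp + 2 + q) * (4 * q) ≤ (1 / 2 : ℝ) ^ (hp + 2 + q) * (4 * 2 ^ q) := by
                gcongr
            _ = p * ((1 / 2) ^ q * 2 ^ q) := by
                rw [pow_add _ (hp + 2), pow_add _ hp, hpd]; norm_num; ring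
            _ = p := by rw [half_mul_two, mul_one]
        have hD0 : (0 : ℝ) ≤ (Da (G c) U a i).card := Nat.cast_nonneg _
        calc 2 * ((1 / 2 : ℝ) ^ E * (U i).card)
            ≤ 2 * ((1 / 2 : ℝ) ^ E * (2 ^ h0 * (Da (G c) U a i).card)) := by gcongr
          _ = (2 ^ (h0 + 1) * (1 / 2) ^ E) * (Da (G c) U a i).card := by rw [pow_succ]; ring
          _ ≤ (1 / 2) ^ (hp + 2 + q) * (Da (G c) U a i).card := by
              apply mul_le_mul_of_nonneg_right _ hD0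
              exact pow_help (by omega)
          _ ≤ _ := mul_le_mul_of_nonneg_right h2 hD0)
    (by
      have e1 : ((Δ + Δ * Δ + 1 + Δ + 1 : ℕ) : ℝ) = q := by rw [hqn]
      rw [e1]
      have e2 : (q : ℝ) * (p / (4 * q)) = p / 4 := by field_simp
      rw [e2]
      have e3 : ((Δ * Δ : ℕ) : ℝ) * (Δ * (1 / 2) ^ (hp + 3 * Δ + 3)) ≤ p / 4 := by
        push_cast
        have hΔ2 := nat_le_two_pow Δ
        calc (Δ : ℝ) * Δ * (Δ * (1 / 2) ^ (hp + 3 * Δ + 3))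
            ≤ 2 ^ Δ * 2 ^ Δ * (2 ^ Δ * (1 / 2) ^ (hp + 3 * Δ + 3)) := by gcongr
          _ = 2 ^ (3 * Δ) * (1 / 2) ^ (hp + 3 * Δ + 3) := by
              rw [show 3 * Δ = Δ + Δ + Δ by ring, pow_add, pow_add]; ring
          _ ≤ (1 / 2) ^ (hp + 2) := pow_help (by omega)
          _ = p / 4 := by rw [pow_add, hpd]; norm_num; ring
      linarith)
    (by
      intro v hv
      rw [hVV, Finset.mem_filter, hDS] at hv
      have := scp_hit (G c) U a UU W hζ0.le (by positivity) v hv.2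
      rw [hpζ] at this
      exact this)
    (Fin.snoc (α := fun _ => ℝ) (fun i => (1 / 2) ^ (ee i + Δ + 2) * (U i).card) 0)
    (by
      intro j
      refine Fin.lastCases ?_ (fun i => ?_) j
      · simp
      · simp only [Fin.snoc_castSucc]; positivity)
    (by
      intro i j hij hj
      obtain ⟨j0, rfl⟩ : ∃ j0 : Fin (Δ + Δ * Δ + 1 + Δ), j = j0.castSucc :=
        ⟨⟨j, by omega⟩, by ext; simp⟩
      rw [DW_castSucc]
      simp only [Fin.snoc_castSucc]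
      have h1 : ((Da (G c) U a j0).card : ℝ) ≤ (U j0).card :=
        Nat.cast_le.mpr (Finset.card_le_card (Da_sub _ _ _ _))
      have h2 : (1 / 2 : ℝ) ^ (le i) ≤ (1 / 2) ^ (ee j0 + Δ + 2) := by
        apply hpow_le
        have := H8 i j0 (Fin.lt_def.mp hij) (by simpa using hj)
        omega
      gcongr)
    (by
      intro j hj
      obtain ⟨j0, rfl⟩ : ∃ j0 : Fin (Δ + Δ * Δ + 1 + Δ), j = j0.castSucc :=
        ⟨⟨j, by omega⟩, by ext; simp⟩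
      rw [DW_castSucc, hthr', Fintype.card_fin]
      simp only [Fin.snoc_castSucc]
      have hj' : (j0 : ℕ) < Δ + Δ * Δ + 1 := by simpa using hj
      have h1 := hsmall j0
      have h2 : (2 : ℝ) * (1 / 2) ^ E ≤ (1 / 2) ^ (ee j0) / 4 := by
        calc (2 : ℝ) * (1 / 2) ^ E = 2 ^ 1 * (1 / 2) ^ E := by norm_num
          _ ≤ (1 / 2) ^ (ee j0 + 2) := pow_help (by have := H10 j0 hj'; omega)
          _ = _ := by rw [pow_add]; norm_num; ring
      have h3 : (Δ : ℝ) * (1 / 2) ^ (ee j0 + Δ + 2) ≤ (1 / 2) ^ (ee j0) / 4 := by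
        calc (Δ : ℝ) * (1 / 2) ^ (ee j0 + Δ + 2) ≤ 2 ^ Δ * (1 / 2) ^ (ee j0 + Δ + 2) := by
              gcongr; exact nat_le_two_pow Δ
          _ ≤ (1 / 2) ^ (ee j0 + 2) := pow_help (by omega)
          _ = _ := by rw [pow_add]; norm_num; ring
      have h4 := hU0 j0
      have h5 := hηs0 j0
      have h6 : (Δ : ℝ) * ((1 / 2) ^ (ee j0 + Δ + 2) * (U j0).card)
          ≤ (1 / 2) ^ (ee j0) / 4 * (U j0).card := by
        rw [← mul_assoc]; exact mul_le_mul_of_nonneg_right h3 h4.le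
      have h7 : 2 * ((1 / 2 : ℝ) ^ E * (U j0).card) ≤ (1 / 2) ^ (ee j0) / 4 * (U j0).card := by
        rw [← mul_assoc]; exact mul_le_mul_of_nonneg_right h2 h4.le
      have h8 : 0 < (1 / 2 : ℝ) ^ (ee j0) * (U j0).card := mul_pos h5 h4
      linarith)
  -- hits
  have hylb : p * w * (1 / 2) ^ (4 + q + 4 * Δ) ≤ (Y.card : ℝ) := by
    refine num_y (by omega) (Nat.cast_nonneg _) hm2 ?_
    rw [Fintype.card_fin] at hYc
    have : ((m : ℕ) : ℝ) ≤ (((Δ + 1) ^ 4 * Y.card : ℕ) : ℝ) := by exact_mod_cast hYc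
    push_cast at this
    exact this
  have hσy := num_sig hp0 hylb
  obtain ⟨σ, hσ⟩ : ∃ σ : ℝ, σ = p ^ 2 * w * (1 / 2) ^ (7 + q + 4 * Δ) := ⟨_, rfl⟩
  rw [← hσ] at hσy
  have hσ0 : 0 ≤ σ := by rw [hσ]; positivity
  have hhits : ∀ v ∈ VV, σ ≤ hits (Fam m) (G c) Y ψ v := by
    intro v hv
    refine hσy.trans (hits_lb hp0 hp1 Y.card _ (VV.card : ℝ) (Nat.cast_nonneg _) ?_ (hψ5 v hv))
    have h1 : (VV.card : ℝ) ≤ P.card := by
      rw [hVV]; exact Nat.cast_le.mpr (Finset.card_le_card (Finset.filter_subset _ _))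
    refine h1.trans (num_V (h := hp) (q := q) (Δ := Δ) (g := g') (by rw [← H6]; exact hPbig) hPw ?_)
    rw [hσ, hpd] at hσy
    rw [← hpd] at hσy ⊢
    exact hσy
  have hAc : ((univ.image ψ).card : ℝ) ≤ P.card := by
    have h1 : ((univ.image ψ).card : ℝ) ≤ m := by
      have := Finset.card_image_le (s := (univ : Finset (Fin m))) (f := ψ)
      rw [Finset.card_univ, Fintype.card_fin] at this
      exact_mod_cast this
    exact h1.trans hmP
  refine ⟨DS, hDS ▸ DD_sub _ _ _ _ _ _, ?_, ?_, univ.image ψ, ?_, hAc, ?_⟩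
  · rw [Finset.disjoint_left, hDS]
    intro x hx
    exact (Finset.mem_filter.mp hx).2.2.2
  · rw [← hζ]
    refine hw0c.trans ?_
    exact_mod_cast Finset.card_le_card Finset.inter_subset_right
  · intro u hu
    obtain ⟨x, _, rfl⟩ := Finset.mem_image.mp hu
    have h1 := hψ3 x
    have h2 := hψ4 x
    revert h1
    generalize κ x = j
    refine Fin.lastCases ?_ (fun i => ?_) j
    · intro h1
      rw [DW_last] at h1
      exact Finset.mem_union_left _ (hWP h1)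
    · intro h1
      rw [DW_castSucc] at h1
      refine Finset.mem_union_right _ (Finset.mem_sdiff.mpr ⟨?_, h2⟩)
      rw [Finset.mem_biUnion]
      exact ⟨i, Finset.mem_univ _, Da_sub _ _ _ _ h1⟩
  · intro Q hQ hQc hQL
    have hQVV : ∀ v ∈ Q, v ∈ VV := by
      intro v hv
      rw [hVV, Finset.mem_filter]
      exact ⟨(Finset.mem_sdiff.mp (hQ hv)).1, hQL v hv⟩
    refine absorb (c := c) (c' := c') Δ hFam ψ hψ1 hψ2 Y hF.sep1 W
      (fun y hy => by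
        have := hψ3 y
        rw [hF.Ylast y hy] at this
        rwa [DW_last] at this)
      ((1 / 2) ^ (Δ * d + e)) ((1 / 2) ^ d) hB (by positivity) (by positivity)
      (pow_le_one₀ (by norm_num) (by norm_num)) Q ?_ σ hσ0 (fun v hv => hhits v (hQVV v hv)) ?_
    · rw [Finset.disjoint_left]
      intro v hv
      exact (Finset.mem_sdiff.mp (hQ hv)).2
    · rw [hσ, hpd, ← hw]
      refine num_abs (t := Δ * D + 2 * hp + q + 4 * Δ + 10) hw0 ?_ ?_ (pow_help ?_) (by positivity)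
      · apply half_le
        have h1 : (2 : ℝ) ^ g' * (2 ^ (Δ * D + 2 * hp + q + 4 * Δ + 10) * Q.card) ≤ 2 ^ g' * w := by
          refine le_trans ?_ (hQc.trans hPw)
          rw [← mul_assoc, ← pow_add, H5]
          apply le_of_eq
          congr 2
          ring
        exact le_of_mul_le_mul_left h1 (by positivity)
      · have : d * Δ ≤ Δ * D := by rw [mul_comm]; exact Nat.mul_le_mul_left _ hd
        omega
      · have : Δ * d = d * Δ := mul_comm _ _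
        omega

end

end Run7.h755
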