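import Mathlib
import Pool.Agent.Run7.h755.Scp2
import Pool.Agent.Run7.h755.Ram

open Finset
open scoped Classical

namespace Run7.h755

section
variable {V : Type*} {K : ℕ}

/-- state of the covering procedure -/
structure St (G : Fin K → SimpleGraph V) (n H h' x0 E l s k : ℕ) (U : ℕ → Finset V)
    (P B : Finset V) (UU : Fin K → (Fin n → ℕ) → Finset (Fin n → V)) : Prop where
  kl : k ≤ l
  ne : ∀ i < k, (U i).Nonempty
  dis : ∀ i j, i < j → j < k → Disjoint (U i) (U j)
  disP : ∀ i < k, Disjoint P (U i)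
  PB : Disjoint P B
  PU : ∀ i < k, (2 : ℝ) ^ E * P.card ≤ (U i).card
  BU : ∀ i < k, (2 : ℝ) ^ E * (U i ∩ B).card ≤ s * (U i).card
  cv : ∀ (c : Fin K) (f : Fin n → ℕ) (j : ℕ), j < k → (∀ i, f i < j) → ∀ v ∈ U j,
    ((Lf (G c) (fun i => U (f i)) v).card : ℝ)
      ≤ (1 / 2) ^ H * ((Fintype.piFinset (fun i => U (f i))).card : ℝ)
  usub : ∀ (c : Fin K) (f : Fin n → ℕ), (∀ i, f i < k) →
    UU c f ⊆ Fintype.piFinset (fun i => U (f i))
  uemp : ∀ (c : Fin K) (f : Fin n → ℕ), (¬ ∀ i, f i < k) → UU c f = ∅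
  pool : ∀ v ∈ P, ∀ (c : Fin K) (f : Fin n → ℕ), (∀ i, f i < k) →
    ((Lf (G c) (fun i => U (f i)) v ∩ UU c f).card : ℝ)
      ≤ s * ((1 / 2) ^ h' * ((Fintype.piFinset (fun i => U (f i))).card : ℝ))
  cnt : s * (1 / 2 : ℝ) ^ x0 ≤ k + ∑ c : Fin K, ∑ f ∈ Fintype.piFinset (fun _ : Fin n => range l),
    ((UU c f).card : ℝ) / ((Fintype.piFinset (fun i => U (f i))).card : ℝ)

lemma St.klt {G : Fin K → SimpleGraph V} {n H h' x0 E l s k : ℕ} {U : ℕ → Finset V}
    {P B : Finset V} {UU : Fin K → (Fin n → ℕ) → Finset (Fin n → V)}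
    (hS : St G n H h' x0 E l s k U P B UU) (hK : 0 < K)
    (hcov : ∀ x y, x ≠ y → ∃ c, (G c).Adj x y)
    (hl : (K + 1) ^ (K * (n + 1)) ≤ l) (hηl : K * (l : ℝ) ^ (n + 1) * (1 / 2) ^ H < 1) : k < l := by
  rcases lt_or_eq_of_le hS.kl with h | h
  · exact h
  exfalso
  subst h
  exact level_bound hK hcov n k (fun i => U i) (fun i => hS.ne i i.is_lt)
    (fun i j hij => hS.dis i j hij j.is_lt) ((1 / 2) ^ H) (by positivity) hl hηl
    (fun c f j hf v hv => hS.cv c (fun i => (f i : ℕ)) j j.is_lt (fun i => hf i) v hv)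

lemma St.sle {G : Fin K → SimpleGraph V} {n H h' x0 E l s k b : ℕ} {U : ℕ → Finset V}
    {P B : Finset V} {UU : Fin K → (Fin n → ℕ) → Finset (Fin n → V)}
    (hS : St G n H h' x0 E l s k U P B UU) (hb : l + K * l ^ n ≤ 2 ^ b) : s ≤ 2 ^ (b + x0) := by
  have h1 : ∑ c : Fin K, ∑ f ∈ Fintype.piFinset (fun _ : Fin n => range l),
      ((UU c f).card : ℝ) / ((Fintype.piFinset (fun i => U (f i))).card : ℝ)
      ≤ ∑ c : Fin K, ∑ f ∈ Fintype.piFinset (fun _ : Fin n => range l), (1 : ℝ) := by
    refine Finset.sum_le_sum fun c _ => Finset.sum_le_sum fun f _ => ?_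
    by_cases hf : ∀ i, f i < k
    · apply div_le_one_of_le₀ _ (Nat.cast_nonneg _)
      exact Nat.cast_le.mpr (Finset.card_le_card (hS.usub c f hf))
    · rw [hS.uemp c f hf]; simp
  have h2 : ∑ c : Fin K, ∑ f ∈ Fintype.piFinset (fun _ : Fin n => range l), (1 : ℝ)
      = K * (l : ℝ) ^ n := by
    simp
  have h3 : (k : ℝ) ≤ l := by exact_mod_cast hS.kl
  have h4 : (l : ℝ) + K * (l : ℝ) ^ n ≤ 2 ^ b := by exact_mod_cast hb
  have h5 := hS.cnt
  have h6 : (s : ℝ) * (1 / 2) ^ x0 ≤ 2 ^ b := by linarith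
  have h7 : (s : ℝ) ≤ 2 ^ (b + x0) := by
    calc (s : ℝ) = s * (1 / 2) ^ x0 * 2 ^ x0 := by rw [mul_assoc, half_mul_two, mul_one]
      _ ≤ 2 ^ b * 2 ^ x0 := by gcongr
      _ = _ := by rw [pow_add]
  exact_mod_cast h7

/-- adding a level -/
lemma St.addLevel {G : Fin K → SimpleGraph V} {n H h' x0 E l s k : ℕ} {U : ℕ → Finset V}
    {P B : Finset V} {UU : Fin K → (Fin n → ℕ) → Finset (Fin n → V)}
    (hS : St G n H h' x0 E l s k U P B UU) (hkl : k < l) (Uk P' : Finset V)
    (hUk : Uk.Nonempty) (hUkP : Uk ⊆ P)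
    (hUkc : ∀ v ∈ Uk, ∀ (c : Fin K) (f : Fin n → ℕ), (∀ i, f i < k) →
      ((Lf (G c) (fun i => U (f i)) v).card : ℝ)
        ≤ (1 / 2) ^ H * ((Fintype.piFinset (fun i => U (f i))).card : ℝ))
    (hP' : P' ⊆ P) (hP'U : Disjoint P' Uk) (hPUk : (2 : ℝ) ^ E * P'.card ≤ Uk.card) :
    St G n H h' x0 E l (s + 1) (k + 1) (Function.update U k Uk) P' B UU := by
  have hup : ∀ i, i < k → Function.update U k Uk i = U i := fun i hi =>
    Function.update_of_ne hi.ne _ _
  have hupf : ∀ f : Fin n → ℕ, (∀ i, f i < k) →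
      (fun i => Function.update U k Uk (f i)) = fun i => U (f i) := by
    intro f hf; funext i; exact hup _ (hf i)
  have hcard : (P'.card : ℝ) ≤ P.card := Nat.cast_le.mpr (Finset.card_le_card hP')
  refine ⟨hkl, ?_, ?_, ?_, ?_, ?_, ?_, ?_, ?_, ?_, ?_, ?_⟩
  · intro i hi
    rcases Nat.lt_succ_iff_lt_or_eq.mp hi with h | h
    · rw [hup i h]; exact hS.ne i h
    · subst h; rw [Function.update_self]; exact hUk
  · intro i j hij hj
    rcases Nat.lt_succ_iff_lt_or_eq.mp hj with h | h
    · rw [hup i (by omega), hup j h]; exact hS.dis i j hij h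
    · subst h
      rw [hup i hij, Function.update_self]
      exact (Finset.disjoint_of_subset_left hUkP (hS.disP i hij)).symm
  · intro i hi
    rcases Nat.lt_succ_iff_lt_or_eq.mp hi with h | h
    · rw [hup i h]; exact Finset.disjoint_of_subset_left hP' (hS.disP i h)
    · subst h; rw [Function.update_self]; exact hP'U
  · exact Finset.disjoint_of_subset_left hP' hS.PB
  · intro i hi
    rcases Nat.lt_succ_iff_lt_or_eq.mp hi with h | h
    · rw [hup i h]
      refine le_trans ?_ (hS.PU i h)
      gcongr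
    · subst h; rw [Function.update_self]; exact hPUk
  · intro i hi
    rcases Nat.lt_succ_iff_lt_or_eq.mp hi with h | h
    · rw [hup i h]
      refine (hS.BU i h).trans ?_
      push_cast
      have : (0 : ℝ) ≤ (U i).card := Nat.cast_nonneg _
      nlinarith
    · subst h
      rw [Function.update_self]
      have : Uk ∩ B = ∅ := by
        rw [← Finset.disjoint_iff_inter_eq_empty]
        exact Finset.disjoint_of_subset_left hUkP hS.PB
      rw [this]
      simp only [Finset.card_empty, Nat.cast_zero, mul_zero]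
      positivity
  · intro c f j hj hf v hv
    rcases Nat.lt_succ_iff_lt_or_eq.mp hj with h | h
    · rw [hup j h] at hv
      rw [hupf f (fun i => (hf i).trans h)]
      exact hS.cv c f j h hf v hv
    · subst h
      rw [Function.update_self] at hv
      rw [hupf f hf]
      exact hUkc v hv c f hf
  · intro c f hf
    by_cases hfk : ∀ i, f i < k
    · rw [hupf f hfk]; exact hS.usub c f hfk
    · rw [hS.uemp c f hfk]; simp
  · intro c f hf
    exact hS.uemp c f (fun h => hf (fun i => (h i).trans (Nat.lt_succ_self k)))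
  · intro v hv c f hf
    by_cases hfk : ∀ i, f i < k
    · rw [hupf f hfk]
      refine (hS.pool v (hP' hv) c f hfk).trans ?_
      have : (0 : ℝ) ≤ (1 / 2) ^ h' * ((Fintype.piFinset (fun i => U (f i))).card : ℝ) := by
        positivity
      push_cast
      nlinarith
    · rw [hS.uemp c f hfk]
      simp only [Finset.inter_empty, Finset.card_empty, Nat.cast_zero]
      positivity
  · have hsum : ∑ c : Fin K, ∑ f ∈ Fintype.piFinset (fun _ : Fin n => range l),
        ((UU c f).card : ℝ) / ((Fintype.piFinset (fun i => Function.update U k Uk (f i))).card : ℝ)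
        = ∑ c : Fin K, ∑ f ∈ Fintype.piFinset (fun _ : Fin n => range l),
        ((UU c f).card : ℝ) / ((Fintype.piFinset (fun i => U (f i))).card : ℝ) := by
      refine Finset.sum_congr rfl fun c _ => Finset.sum_congr rfl fun f _ => ?_
      by_cases hfk : ∀ i, f i < k
      · rw [hupf f hfk]
      · rw [hS.uemp c f hfk]; simp
    rw [hsum]
    have h1 := hS.cnt
    have h2 : (1 / 2 : ℝ) ^ x0 ≤ 1 := pow_le_one₀ (by norm_num) (by norm_num)
    push_cast
    linarith

/-- using a structured type -/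
lemma St.useType {G : Fin K → SimpleGraph V} {n H h' x0 E l s k : ℕ} {U : ℕ → Finset V}
    {P B : Finset V} {UU : Fin K → (Fin n → ℕ) → Finset (Fin n → V)}
    (hS : St G n H h' x0 E l s k U P B UU) (c : Fin K) (f : Fin n → ℕ) (hf : ∀ i, f i < k)
    (DS : Finset (Fin n → V)) (hDS : DS ⊆ Fintype.piFinset (fun i => U (f i)))
    (hDSU : Disjoint DS (UU c f))
    (hDSc : (1 / 2 : ℝ) ^ x0 * ((Fintype.piFinset (fun i => U (f i))).card : ℝ) ≤ DS.card)
    (A P' : Finset V) (hA : (A.card : ℝ) ≤ P.card) (hP' : P' ⊆ P)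
    (hP'c : ∀ v ∈ P', ((Lf (G c) (fun i => U (f i)) v ∩ DS).card : ℝ)
      ≤ (1 / 2) ^ h' * ((Fintype.piFinset (fun i => U (f i))).card : ℝ)) :
    St G n H h' x0 E l (s + 1) k U P' (B ∪ (A \ P))
      (fun c' f' => if c' = c ∧ f' = f then UU c f ∪ DS else UU c' f') := by
  have hcard : (P'.card : ℝ) ≤ P.card := Nat.cast_le.mpr (Finset.card_le_card hP')
  have hΩpos : (0 : ℝ) < ((Fintype.piFinset (fun i => U (f i))).card : ℝ) := by
    have : 0 < (Fintype.piFinset (fun i => U (f i))).card := by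
      rw [Fintype.card_piFinset]
      exact Finset.prod_pos fun i _ => Finset.card_pos.mpr (hS.ne _ (hf i))
    exact_mod_cast this
  refine ⟨hS.kl, hS.ne, hS.dis, ?_, ?_, ?_, ?_, hS.cv, ?_, ?_, ?_, ?_⟩
  · intro i hi
    exact Finset.disjoint_of_subset_left hP' (hS.disP i hi)
  · rw [Finset.disjoint_left]
    intro v hv hv'
    rcases Finset.mem_union.mp hv' with h | h
    · exact (Finset.disjoint_left.mp hS.PB) (hP' hv) h
    · exact (Finset.mem_sdiff.mp h).2 (hP' hv)
  · intro i hi
    refine le_trans ?_ (hS.PU i hi)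
    gcongr
  · intro i hi
    have h1 : (U i ∩ (B ∪ (A \ P))) ⊆ (U i ∩ B) ∪ A := by
      intro v hv
      rw [Finset.mem_inter, Finset.mem_union] at hv
      rw [Finset.mem_union, Finset.mem_inter]
      rcases hv.2 with h | h
      · exact Or.inl ⟨hv.1, h⟩
      · exact Or.inr (Finset.mem_sdiff.mp h).1
    have h2 : ((U i ∩ (B ∪ (A \ P))).card : ℝ) ≤ (U i ∩ B).card + A.card := by
      exact_mod_cast (Finset.card_le_card h1).trans (Finset.card_union_le _ _)
    have h3 := hS.BU i hi
    have h4 := hS.PU i hi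
    push_cast
    calc (2 : ℝ) ^ E * (U i ∩ (B ∪ (A \ P))).card ≤ 2 ^ E * ((U i ∩ B).card + P.card) := by
          gcongr; linarith
      _ = 2 ^ E * (U i ∩ B).card + 2 ^ E * P.card := by ring
      _ ≤ _ := by linarith
  · intro c' f' hf'
    split_ifs with h
    · rw [h.2]; exact Finset.union_subset (hS.usub c f hf) hDS
    · exact hS.usub c' f' hf'
  · intro c' f' hf'
    rw [if_neg]
    · exact hS.uemp c' f' hf'
    · rintro ⟨_, rfl⟩; exact hf' hf
  · intro v hv c' f' hf'
    split_ifs with h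
    · obtain ⟨rfl, rfl⟩ := h
      have h1 : (Lf (G c') (fun i => U (f' i)) v ∩ (UU c' f' ∪ DS)).card
          ≤ (Lf (G c') (fun i => U (f' i)) v ∩ UU c' f').card
            + (Lf (G c') (fun i => U (f' i)) v ∩ DS).card := by
        rw [Finset.inter_union_distrib_left]
        exact Finset.card_union_le _ _
      have h2 : ((Lf (G c') (fun i => U (f' i)) v ∩ (UU c' f' ∪ DS)).card : ℝ)
          ≤ (Lf (G c') (fun i => U (f' i)) v ∩ UU c' f').card
            + (Lf (G c') (fun i => U (f' i)) v ∩ DS).card := by exact_mod_cast h1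
      have h3 := hS.pool v (hP' hv) c' f' hf'
      have h4 := hP'c v hv
      push_cast
      linarith
    · refine (hS.pool v (hP' hv) c' f' hf').trans ?_
      have : (0 : ℝ) ≤ (1 / 2) ^ h' * ((Fintype.piFinset (fun i => U (f' i))).card : ℝ) := by
        positivity
      push_cast
      nlinarith
  · have hfmem : f ∈ Fintype.piFinset (fun _ : Fin n => range l) := by
      rw [Fintype.mem_piFinset]
      intro i
      exact Finset.mem_range.mpr (lt_of_lt_of_le (hf i) hS.kl)
    have hsum : ∑ c' : Fin K, ∑ f' ∈ Fintype.piFinset (fun _ : Fin n => range l),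
        (((if c' = c ∧ f' = f then UU c f ∪ DS else UU c' f').card : ℕ) : ℝ)
          / ((Fintype.piFinset (fun i => U (f' i))).card : ℝ)
        = (∑ c' : Fin K, ∑ f' ∈ Fintype.piFinset (fun _ : Fin n => range l),
        ((UU c' f').card : ℝ) / ((Fintype.piFinset (fun i => U (f' i))).card : ℝ))
        + (DS.card : ℝ) / ((Fintype.piFinset (fun i => U (f i))).card : ℝ) := by
      have h1 : ∀ c' : Fin K, ∀ f' ∈ Fintype.piFinset (fun _ : Fin n => range l),
          (((if c' = c ∧ f' = f then UU c f ∪ DS else UU c' f').card : ℕ) : ℝ)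
          / ((Fintype.piFinset (fun i => U (f' i))).card : ℝ)
          = ((UU c' f').card : ℝ) / ((Fintype.piFinset (fun i => U (f' i))).card : ℝ)
            + (if c' = c then (if f' = f then
              (DS.card : ℝ) / ((Fintype.piFinset (fun i => U (f i))).card : ℝ) else 0) else 0) := by
        intro c' f' _
        by_cases hc : c' = c
        · by_cases hff : f' = f
          · subst hc; subst hff
            rw [if_pos ⟨rfl, rfl⟩, if_pos rfl, if_pos rfl, Finset.card_union_of_disjoint hDSU.symm]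
            push_cast
            rw [add_div]
          · rw [if_neg (fun h => hff h.2), if_pos hc, if_neg hff, add_zero]
        · rw [if_neg (fun h => hc h.1), if_neg hc, add_zero]
      calc _ = ∑ c' : Fin K, ∑ f' ∈ Fintype.piFinset (fun _ : Fin n => range l),
            (((UU c' f').card : ℝ) / ((Fintype.piFinset (fun i => U (f' i))).card : ℝ)
            + (if c' = c then (if f' = f then
              (DS.card : ℝ) / ((Fintype.piFinset (fun i => U (f i))).card : ℝ) else 0) else 0)) :=
            Finset.sum_congr rfl fun c' _ => Finset.sum_congr rfl (h1 c')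
        _ = _ := by
            simp only [Finset.sum_add_distrib]
            congr 1
            rw [Finset.sum_eq_single c, Finset.sum_eq_single f]
            · simp
            · intro f' _ hne; simp [hne]
            · intro h; exact absurd hfmem h
            · intro c' _ hne; simp [hne]
            · intro h; exact absurd (Finset.mem_univ _) h
    rw [hsum]
    have h1 := hS.cnt
    have h2 : (1 / 2 : ℝ) ^ x0 ≤ (DS.card : ℝ) / ((Fintype.piFinset (fun i => U (f i))).card : ℝ) := by
      rw [le_div_iff₀ hΩpos]; exact hDSc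
    push_cast
    linarith

end

end Run7.h755
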