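import Mathlib
import Pool.Agent.Run7.h755.Rec

open Finset
open scoped Classical

namespace Run7.h755

section
variable {V : Type*} {K : ℕ}

lemma step_cls (G : Fin K → SimpleGraph V) (n H l k b : ℕ) (U : ℕ → Finset V) (P : Finset V)
    (hkl : k ≤ l) (hb : 1 + K * l ^ n ≤ 2 ^ b) :
    ((P.card : ℝ) ≤ 2 ^ b * ((P.filter (fun v => ∀ (c : Fin K) (f : Fin n → ℕ), (∀ i, f i < k) →
      ((Lf (G c) (fun i => U (f i)) v).card : ℝ)
        ≤ (1 / 2) ^ H * ((Fintype.piFinset (fun i => U (f i))).card : ℝ))).card : ℝ)) ∨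
    ∃ (c : Fin K) (f : Fin n → ℕ), (∀ i, f i < k) ∧
      (P.card : ℝ) ≤ 2 ^ b * ((P.filter (fun v =>
        (1 / 2) ^ H * ((Fintype.piFinset (fun i => U (f i))).card : ℝ)
          ≤ ((Lf (G c) (fun i => U (f i)) v).card : ℝ))).card : ℝ) := by
  by_contra hcon
  rw [not_or] at hcon
  obtain ⟨h1, h2⟩ := hcon
  rw [not_le] at h1
  simp only [not_exists, not_and, not_le] at h2
  set X0 := P.filter (fun v => ∀ (c : Fin K) (f : Fin n → ℕ), (∀ i, f i < k) →
      ((Lf (G c) (fun i => U (f i)) v).card : ℝ)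
        ≤ (1 / 2) ^ H * ((Fintype.piFinset (fun i => U (f i))).card : ℝ)) with hX0
  let XX : Fin K × (Fin n → ℕ) → Finset V := fun t => P.filter (fun v =>
        (1 / 2) ^ H * ((Fintype.piFinset (fun i => U (t.2 i))).card : ℝ)
          ≤ ((Lf (G t.1) (fun i => U (t.2 i)) v).card : ℝ))
  let TT : Finset (Fin K × (Fin n → ℕ)) :=
    (univ : Finset (Fin K)) ×ˢ Fintype.piFinset (fun _ : Fin n => range k)
  have hTT : (TT.card : ℝ) = K * (k : ℝ) ^ n := by
    simp only [TT, Finset.card_product, Fintype.card_piFinset]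
    simp
  have hsub : P ⊆ X0 ∪ TT.biUnion XX := by
    intro v hv
    rw [Finset.mem_union]
    by_cases hvX : v ∈ X0
    · exact Or.inl hvX
    · right
      rw [hX0, Finset.mem_filter] at hvX
      have : ¬ ∀ (c : Fin K) (f : Fin n → ℕ), (∀ i, f i < k) →
        ((Lf (G c) (fun i => U (f i)) v).card : ℝ)
        ≤ (1 / 2) ^ H * ((Fintype.piFinset (fun i => U (f i))).card : ℝ) := fun h => hvX ⟨hv, h⟩
      simp only [not_forall, not_le] at this
      obtain ⟨c, f, hf, hlt⟩ := this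
      rw [Finset.mem_biUnion]
      refine ⟨(c, f), ?_, ?_⟩
      · simp only [TT, Finset.mem_product, Finset.mem_univ, true_and, Fintype.mem_piFinset,
          Finset.mem_range]
        exact hf
      · exact Finset.mem_filter.mpr ⟨hv, hlt.le⟩
  have hc1 : (P.card : ℝ) ≤ X0.card + ∑ t ∈ TT, ((XX t).card : ℝ) := by
    have := (Finset.card_le_card hsub).trans (Finset.card_union_le _ _)
    have h3 : (TT.biUnion XX).card ≤ ∑ t ∈ TT, (XX t).card := Finset.card_biUnion_le
    exact_mod_cast this.trans (Nat.add_le_add_left h3 _)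
  have hc2 : ∑ t ∈ TT, (2 : ℝ) ^ b * ((XX t).card : ℝ) ≤ ∑ t ∈ TT, (P.card : ℝ) := by
    refine Finset.sum_le_sum fun t ht => ?_
    simp only [TT, Finset.mem_product, Finset.mem_univ, true_and, Fintype.mem_piFinset,
      Finset.mem_range] at ht
    exact (h2 t.1 t.2 ht).le
  rw [← Finset.mul_sum, Finset.sum_const, nsmul_eq_mul, hTT] at hc2
  have hb' : (1 : ℝ) + K * (k : ℝ) ^ n ≤ 2 ^ b := by
    have h4 : 1 + K * k ^ n ≤ 2 ^ b := by
      refine le_trans ?_ hb
      gcongr
    exact_mod_cast h4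
  have hP0 : (0 : ℝ) ≤ P.card := Nat.cast_nonneg _
  have h5 : (2 : ℝ) ^ b * P.card ≤ 2 ^ b * X0.card + 2 ^ b * ∑ t ∈ TT, ((XX t).card : ℝ) := by
    rw [← mul_add]
    exact mul_le_mul_of_nonneg_left hc1 (by positivity)
  have h6 : ((1 : ℝ) + K * (k : ℝ) ^ n) * P.card ≤ 2 ^ b * P.card :=
    mul_le_mul_of_nonneg_right hb' hP0
  have h7 : (2 : ℝ) ^ b * P.card < 2 ^ b * P.card := by
    calc (2 : ℝ) ^ b * P.card ≤ _ := h5
      _ < P.card + K * (k : ℝ) ^ n * P.card := by linarith
      _ = ((1 : ℝ) + K * (k : ℝ) ^ n) * P.card := by ring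
      _ ≤ _ := h6
  exact lt_irrefl _ h7

variable {Fam : ∀ r : ℕ, SimpleGraph (Fin r)} {G : Fin K → SimpleGraph V}

theorem main_rec (hK : 0 < K) (hcov : ∀ x y, x ≠ y → ∃ c, (G c).Adj x y) (Δ : ℕ)
    (hFam : ∀ r, ∀ x : Fin r, (Finset.univ.filter (fun z => (Fam r).Adj x z)).card ≤ Δ)
    (H h θe h0 h' hp b e g D g' C1 Cs E0 : ℕ) (le ee : ℕ → ℕ)
    (hhH : h = H + 1)
    (H1 : θe = h + 1 + qc Δ) (H1' : h0 = θe * (Δ + Δ * Δ + 1 + Δ))
    (H2 : hp = h' + (h0 + 1)) (H2' : h0 + 1 ≤ h')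
    (H3 : e = 2 * hp + qc Δ + 5 * Δ + 10) (H3' : g = gg Δ e K) (H3'' : D = tt Δ e K + 4)
    (H4 : g' = g + h + 2 + b) (H5 : C1 = g' + Δ * D + 2 * hp + qc Δ + 4 * Δ + 10)
    (H6 : Cs = 4 * hp + 2 * qc Δ + 8 * Δ + 15 + 2 * g')
    (H7 : ∀ i, i < Δ + Δ * Δ + 1 → Δ * le i + (5 + qc Δ + 2 * h + h0 + g) ≤ ee i)
    (H8 : ∀ i j, i < j → j < Δ + Δ * Δ + 1 → ee j + Δ + 2 ≤ le i)
    (H9 : ∀ i, i < Δ + Δ * Δ + 1 → hp + 3 * Δ + 3 ≤ le i)
    (H10 : ∀ i, i < Δ + Δ * Δ + 1 → ee i + 3 ≤ E0) (H10' : hp + qc Δ + h0 + 4 ≤ E0)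
    (l tE E n1 Cb : ℕ)
    (hb : l + K * l ^ (Δ + Δ * Δ + 1 + Δ) ≤ 2 ^ b)
    (hb' : 1 + K * l ^ (Δ + Δ * Δ + 1 + Δ) ≤ 2 ^ b) (htE : tE = b + (h0 + 1))
    (hE : E = E0 + tE) (hh' : tE + H + 1 ≤ h')
    (hl : (K + 1) ^ (K * (Δ + Δ * Δ + 1 + Δ + 1)) ≤ l)
    (hηl : K * (l : ℝ) ^ (Δ + Δ * Δ + 1 + Δ + 1) * (1 / 2) ^ H < 1)
    (hn1 : (E + b + gO Δ K) * 2 ^ (gR Δ K + 2) + nO Δ K ≤ n1)
    (hn1' : C1 * 2 ^ (gR Δ K + 2) + 2 ≤ n1)
    (hCb : Cs ≤ Cb) (hCb' : b + gO Δ K ≤ Cb) (r : ℕ) :
    ∀ (s k : ℕ) (U : ℕ → Finset V) (P B : Finset V)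
      (UU : Fin K → (Fin (Δ + Δ * Δ + 1 + Δ) → ℕ) → Finset (Fin (Δ + Δ * Δ + 1 + Δ) → V)),
      2 ^ tE < s + r →
      St G (Δ + Δ * Δ + 1 + Δ) H h' (h0 + 1) E l s k U P B UU →
      ∃ Z, P ⊆ Z ∧ Z ⊆ P ∪ ((range k).biUnion U \ B) ∧ Cov Fam G (r * n1 + 2 ^ Cb) Z := by
  induction r with
  | zero =>
    intro s k U P B UU hs hS
    exfalso
    have := hS.sle hb
    rw [← htE] at this
    omega
  | succ r ih =>
    intro s k U P B UU hs hS
    by_cases hPs : P.card < 2 ^ Cb
    · refine ⟨P, Finset.Subset.refl _, Finset.subset_union_left, ?_⟩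
      exact (cov_card hK P).mono (by omega)
    push Not at hPs
    have hPs' : (2 : ℝ) ^ Cb ≤ P.card := by exact_mod_cast hPs
    have hP0 : (0 : ℝ) < P.card := lt_of_lt_of_le (by positivity) hPs'
    have hkl := hS.klt hK hcov hl hηl
    have hsT : (s : ℝ) ≤ 2 ^ tE := by
      have := hS.sle hb
      rw [← htE] at this
      exact_mod_cast this
    rcases step_cls G (Δ + Δ * Δ + 1 + Δ) H l k b U P hS.kl hb' with hX | ⟨c, f, hf, hX⟩
    · -- new level
      set X0 := P.filter (fun v => ∀ (c : Fin K) (f : Fin (Δ + Δ * Δ + 1 + Δ) → ℕ),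
        (∀ i, f i < k) → ((Lf (G c) (fun i => U (f i)) v).card : ℝ)
        ≤ (1 / 2) ^ H * ((Fintype.piFinset (fun i => U (f i))).card : ℝ)) with hX0
      have hX0P : X0 ⊆ P := Finset.filter_subset _ _
      have hX0big : (2 : ℝ) ^ (gO Δ K) ≤ X0.card := by
        have h1 : (2 : ℝ) ^ b * 2 ^ (gO Δ K) ≤ 2 ^ b * X0.card := by
          refine le_trans ?_ (hPs'.trans hX)
          rw [← pow_add]
          exact pow_le_pow_right₀ (by norm_num) hCb'
        exact le_of_mul_le_mul_left h1 (by positivity)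
      obtain ⟨A, hAX, Uk, hUkX, hAU, hXU, hclose⟩ := own hK hcov Δ hFam X0 hX0big
      have hAP := hAX.trans hX0P
      have hUkP := hUkX.trans hX0P
      have hUkne : Uk.Nonempty := by
        rw [← Finset.card_pos]
        have h1 : (0 : ℝ) < 2 ^ (gO Δ K) * Uk.card :=
          lt_of_lt_of_le (by positivity) (hX0big.trans hXU)
        have h2 : (0 : ℝ) < Uk.card := by
          by_contra hcon
          have : (Uk.card : ℝ) = 0 := le_antisymm (not_lt.mp hcon) (Nat.cast_nonneg _)
          rw [this] at h1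
          simp at h1
        exact_mod_cast h2
      set P1 := P \ (A ∪ Uk) with hP1
      obtain ⟨P', hP'1, hP'c, hP'cov⟩ := red (Fam := Fam) hK hcov Δ hFam (E + b + gO Δ K) P1
      have hP1P : P1 ⊆ P := Finset.sdiff_subset
      have hP'P := hP'1.trans hP1P
      have hP1U : Disjoint P1 Uk := by
        rw [Finset.disjoint_left]
        intro v hv hv'
        exact (Finset.mem_sdiff.mp hv).2 (Finset.mem_union_right _ hv')
      have hP1A : Disjoint P1 A := by
        rw [Finset.disjoint_left]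
        intro v hv hv'
        exact (Finset.mem_sdiff.mp hv).2 (Finset.mem_union_left _ hv')
      have hS' := hS.addLevel hkl Uk P' hUkne hUkP
        (fun v hv => (Finset.mem_filter.mp (hUkX hv)).2) hP'P
        (Finset.disjoint_of_subset_left hP'1 hP1U) (by
          have h1 : (2 : ℝ) ^ (E + b + gO Δ K) * P'.card ≤ P1.card := by exact_mod_cast hP'c
          have h2 : (P1.card : ℝ) ≤ P.card := Nat.cast_le.mpr (Finset.card_le_card hP1P)
          have h3 : (2 : ℝ) ^ (b + gO Δ K) * (2 ^ E * P'.card) ≤ 2 ^ (b + gO Δ K) * Uk.card := by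
            calc (2 : ℝ) ^ (b + gO Δ K) * (2 ^ E * P'.card)
                = 2 ^ (E + b + gO Δ K) * P'.card := by
                  rw [show E + b + gO Δ K = (b + gO Δ K) + E by ring, pow_add _ _ E]; ring
              _ ≤ 2 ^ b * X0.card := h1.trans (h2.trans hX)
              _ ≤ 2 ^ b * (2 ^ (gO Δ K) * Uk.card) := by gcongr
              _ = _ := by rw [pow_add]; ring
          exact le_of_mul_le_mul_left h3 (by positivity))
      obtain ⟨Z', hZ1, hZ2, hZ3⟩ := ih (s + 1) (k + 1) _ P' B UU (by omega) hS'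
      have hZ2' : ∀ v ∈ Z', v ∈ P' ∨ (∃ i < k, v ∈ U i ∧ v ∉ B) ∨ v ∈ Uk := by
        intro v hv
        rcases Finset.mem_union.mp (hZ2 hv) with h | h
        · exact Or.inl h
        · rw [Finset.mem_sdiff, Finset.mem_biUnion] at h
          obtain ⟨⟨i, hi, hvi⟩, hvB⟩ := h
          rw [Finset.mem_range] at hi
          rcases Nat.lt_succ_iff_lt_or_eq.mp hi with h | h
          · rw [Function.update_of_ne h.ne] at hvi
            exact Or.inr (Or.inl ⟨i, h, hvi, hvB⟩)
          · subst h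
            rw [Function.update_self] at hvi
            exact Or.inr (Or.inr hvi)
      have hnotZ : ∀ v ∈ P, v ∉ P' → v ∉ Uk → v ∉ Z' := by
        intro v hv hvP' hvU hvZ
        rcases hZ2' v hvZ with h | ⟨i, hi, hvi, _⟩ | h
        · exact hvP' h
        · exact (Finset.disjoint_left.mp (hS.disP i hi)) hv hvi
        · exact hvU h
      have hcl := hclose (Uk \ Z') Finset.sdiff_subset
      have hcov1 := hZ3.union hP'cov (by
        rw [Finset.disjoint_left]
        intro v hv hv'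
        rw [Finset.mem_sdiff] at hv'
        exact hnotZ v (hP1P hv'.1) hv'.2
          (fun h => (Finset.disjoint_left.mp hP1U) hv'.1 h) hv)
      have hcov2 := hcov1.union hcl (by
        rw [Finset.disjoint_left]
        intro v hv hv'
        rcases Finset.mem_union.mp hv with hv | hv <;> rcases Finset.mem_union.mp hv' with hv' | hv'
        · exact hnotZ v (hAP hv') (fun h => (Finset.disjoint_left.mp hP1A) (hP'1 h) hv')
            (fun h => (Finset.disjoint_left.mp hAU) hv' h) hv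
        · exact (Finset.mem_sdiff.mp hv').2 hv
        · exact (Finset.disjoint_left.mp hP1A) (Finset.mem_sdiff.mp hv).1 hv'
        · exact (Finset.disjoint_left.mp hP1U) (Finset.mem_sdiff.mp hv).1
            (Finset.mem_sdiff.mp hv').1)
      refine ⟨_, ?_, ?_, hcov2.mono ?_⟩
      · intro v hv
        simp only [Finset.mem_union, Finset.mem_sdiff]
        by_cases hvA : v ∈ A
        · exact Or.inr (Or.inl hvA)
        by_cases hvU : v ∈ Uk
        · by_cases hvZ : v ∈ Z'
          · exact Or.inl (Or.inl hvZ)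
          · exact Or.inr (Or.inr ⟨hvU, hvZ⟩)
        have hvP1 : v ∈ P1 := Finset.mem_sdiff.mpr ⟨hv, fun h => by
          rcases Finset.mem_union.mp h with h | h
          · exact hvA h
          · exact hvU h⟩
        by_cases hvP' : v ∈ P'
        · exact Or.inl (Or.inl (hZ1 hvP'))
        · exact Or.inl (Or.inr ⟨hvP1, hvP'⟩)
      · intro v hv
        simp only [Finset.mem_union, Finset.mem_sdiff, Finset.mem_biUnion, Finset.mem_range] at hv ⊢
        rcases hv with (hv | hv) | hv | hv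
        · rcases hZ2' v hv with h | ⟨i, hi, hvi, hvB⟩ | h
          · exact Or.inl (hP'P h)
          · exact Or.inr ⟨⟨i, hi, hvi⟩, hvB⟩
          · exact Or.inl (hUkP h)
        · exact Or.inl (hP1P hv.1)
        · exact Or.inl (hAP hv)
        · exact Or.inl (hUkP hv.1)
      · have : (r + 1) * n1 = r * n1 + n1 := by ring
        omega
    · -- structured type
      set X := P.filter (fun v =>
        (1 / 2) ^ H * ((Fintype.piFinset (fun i => U (f i))).card : ℝ)
          ≤ ((Lf (G c) (fun i => U (f i)) v).card : ℝ)) with hXd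
      have hΩpos : 0 < (Fintype.piFinset (fun i => U (f i))).card := by
        rw [Fintype.card_piFinset]
        exact Finset.prod_pos fun i _ => Finset.card_pos.mpr (hS.ne _ (hf i))
      have hΩpos' : (0 : ℝ) < (Fintype.piFinset (fun i => U (f i))).card := by exact_mod_cast hΩpos
      have hE2 : (2 : ℝ) ^ E = 2 ^ E0 * 2 ^ tE := by rw [hE, pow_add]
      obtain ⟨DS, hDS1, hDS2, hDS3, A, hA1, hA2, hA3⟩ := scp_core hcov Δ hFam h θe h0 h' hp b e g D
        g' C1 Cs E0 le ee H1 H1' H2 H2' H3 H3' H3'' H4 H5 H6 H7 H8 H9 H10 H10' c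
        (fun i => U (f i)) hΩpos P B X (UU c f) (Finset.filter_subset _ _) hX
        (by
          intro v hv
          have h1 := (Finset.mem_filter.mp hv).2
          have h2 := hS.pool v (Finset.mem_filter.mp hv).1 c f hf
          have h3 : (Lf (G c) (fun i => U (f i)) v).card
              ≤ (Lf (G c) (fun i => U (f i)) v \ UU c f).card
                + (Lf (G c) (fun i => U (f i)) v ∩ UU c f).card := by
            rw [Finset.card_sdiff_add_card_inter]
          have h4 : ((Lf (G c) (fun i => U (f i)) v).card : ℝ)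
              ≤ (Lf (G c) (fun i => U (f i)) v \ UU c f).card
                + (Lf (G c) (fun i => U (f i)) v ∩ UU c f).card := by exact_mod_cast h3
          have h5 : (s : ℝ) * (1 / 2) ^ h' ≤ (1 / 2) ^ (H + 1) := by
            calc (s : ℝ) * (1 / 2) ^ h' ≤ 2 ^ tE * (1 / 2) ^ h' := by gcongr
              _ ≤ _ := pow_help (by omega)
          have h6 : (s : ℝ) * ((1 / 2) ^ h' * ((Fintype.piFinset (fun i => U (f i))).card : ℝ))
              ≤ (1 / 2) ^ (H + 1) * ((Fintype.piFinset (fun i => U (f i))).card : ℝ) := by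
            rw [← mul_assoc]
            exact mul_le_mul_of_nonneg_right h5 hΩpos'.le
          have h7 : (1 / 2 : ℝ) ^ H = (1 / 2) ^ (H + 1) + (1 / 2) ^ (H + 1) := by
            rw [pow_succ]; ring
          rw [h7] at h1
          rw [hhH]
          linarith)
        (by
          intro i
          refine le_trans ?_ (hS.PU (f i) (hf i))
          have : (2 : ℝ) ^ E0 ≤ 2 ^ E := pow_le_pow_right₀ (by norm_num) (by omega)
          gcongr)
        (by
          intro i
          have h1 := hS.BU (f i) (hf i)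
          rw [hE2] at h1
          have h2 : (2 : ℝ) ^ tE * (2 ^ E0 * (U (f i) ∩ B).card) ≤ 2 ^ tE * (U (f i)).card := by
            calc _ = (2 : ℝ) ^ E0 * 2 ^ tE * (U (f i) ∩ B).card := by ring
              _ ≤ _ := h1
              _ ≤ _ := by gcongr
          exact le_of_mul_le_mul_left h2 (by positivity))
        hS.PB (le_trans (pow_le_pow_right₀ (by norm_num) hCb) hPs')
      set V1 := (P \ A).filter (fun v => (1 / 2) ^ h' *
        ((Fintype.piFinset (fun i => U (f i))).card : ℝ)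
          ≤ ((Lf (G c) (fun i => U (f i)) v ∩ DS).card : ℝ)) with hV1
      have hV1PA : V1 ⊆ P \ A := Finset.filter_subset _ _
      have hV1P : V1 ⊆ P := hV1PA.trans Finset.sdiff_subset
      obtain ⟨Q, hQ1, hQc, hQcov⟩ := red (Fam := Fam) hK hcov Δ hFam C1 V1
      have hAQ := hA3 Q (hQ1.trans hV1PA) (by
          have h1 : (2 : ℝ) ^ C1 * Q.card ≤ V1.card := by exact_mod_cast hQc
          exact h1.trans (Nat.cast_le.mpr (Finset.card_le_card hV1P)))
        (fun v hv => (Finset.mem_filter.mp (hQ1 hv)).2)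
      set P' := (P \ A) \ V1 with hP'
      have hP'P : P' ⊆ P := Finset.sdiff_subset.trans Finset.sdiff_subset
      have hS' := hS.useType c f hf DS hDS1 hDS2 hDS3 A P' hA2 hP'P (by
        intro v hv
        rw [hP', Finset.mem_sdiff] at hv
        by_contra hcon
        exact hv.2 (Finset.mem_filter.mpr ⟨hv.1, (not_le.mp hcon).le⟩))
      obtain ⟨Z', hZ1, hZ2, hZ3⟩ := ih (s + 1) k U P' (B ∪ (A \ P)) _ (by omega) hS'
      have hZ2' : ∀ v ∈ Z', v ∈ P' ∨ (∃ i < k, v ∈ U i ∧ v ∉ B ∧ v ∉ A \ P) := by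
        intro v hv
        rcases Finset.mem_union.mp (hZ2 hv) with h | h
        · exact Or.inl h
        · rw [Finset.mem_sdiff, Finset.mem_biUnion, Finset.mem_union, not_or] at h
          obtain ⟨⟨i, hi, hvi⟩, hvB⟩ := h
          rw [Finset.mem_range] at hi
          exact Or.inr ⟨i, hi, hvi, hvB.1, hvB.2⟩
      have hnotZ : ∀ v ∈ P, v ∉ P' → v ∉ Z' := by
        intro v hv hvP' hvZ
        rcases hZ2' v hvZ with h | ⟨i, hi, hvi, _⟩
        · exact hvP' h
        · exact (Finset.disjoint_left.mp (hS.disP i hi)) hv hvi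
      have hcov1 := hZ3.union hQcov (by
        rw [Finset.disjoint_left]
        intro v hv hv'
        rw [Finset.mem_sdiff] at hv'
        exact hnotZ v (hV1P hv'.1) (fun h => (Finset.mem_sdiff.mp h).2 hv'.1) hv)
      have hcov2 := hcov1.union hAQ (by
        rw [Finset.disjoint_left]
        intro v hv hv'
        rcases Finset.mem_union.mp hv with hv | hv <;> rcases Finset.mem_union.mp hv' with hv' | hv'
        · rcases hZ2' v hv with h | ⟨i, hi, hvi, _, hvA⟩
          · exact (Finset.mem_sdiff.mp (Finset.mem_sdiff.mp h).1).2 hv'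
          · exact hvA (Finset.mem_sdiff.mpr ⟨hv', fun h =>
              (Finset.disjoint_left.mp (hS.disP i hi)) h hvi⟩)
        · exact hnotZ v (hV1P (hQ1 hv')) (fun h => (Finset.mem_sdiff.mp h).2 (hQ1 hv')) hv
        · exact (Finset.mem_sdiff.mp (hV1PA (Finset.mem_sdiff.mp hv).1)).2 hv'
        · exact (Finset.mem_sdiff.mp hv).2 hv')
      refine ⟨_, ?_, ?_, hcov2.mono ?_⟩
      · intro v hv
        simp only [Finset.mem_union, Finset.mem_sdiff]
        by_cases hvA : v ∈ A
        · exact Or.inr (Or.inl hvA)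
        by_cases hvV : v ∈ V1
        · by_cases hvQ : v ∈ Q
          · exact Or.inr (Or.inr hvQ)
          · exact Or.inl (Or.inr ⟨hvV, hvQ⟩)
        · exact Or.inl (Or.inl (hZ1 (Finset.mem_sdiff.mpr ⟨Finset.mem_sdiff.mpr ⟨hv, hvA⟩, hvV⟩)))
      · intro v hv
        simp only [Finset.mem_union, Finset.mem_sdiff, Finset.mem_biUnion, Finset.mem_range] at hv ⊢
        rcases hv with (hv | hv) | hv | hv
        · rcases hZ2' v hv with h | ⟨i, hi, hvi, hvB, _⟩
          · exact Or.inl (hP'P h)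
          · exact Or.inr ⟨⟨i, hi, hvi⟩, hvB⟩
        · exact Or.inl (hV1P hv.1)
        · rcases Finset.mem_union.mp (hA1 hv) with h | h
          · exact Or.inl h
          · rw [Finset.mem_sdiff, Finset.mem_biUnion] at h
            obtain ⟨⟨i, _, hvi⟩, hvB⟩ := h
            exact Or.inr ⟨⟨f i, hf i, hvi⟩, hvB⟩
        · exact Or.inl (hV1P (hQ1 hv))
      · have : (r + 1) * n1 = r * n1 + n1 := by ring
        omega

end

end Run7.h755
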