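import Mathlib
import Pool.Agent.Run7.h755.Mrec
import Pool.Agent.Run7.h755.Par

open Finset
open scoped Classical

namespace Run7.h755

lemma lsq_mono (x l0 c : ℕ) : Monotone (lsq x l0 c) := by
  refine monotone_nat_of_le_succ fun j => ?_
  simp only [lsq]
  nlinarith

lemma zl_bound (K x : ℕ) :
    2 ^ zlE K x + K * (2 ^ zlE K x) ^ zn x ≤ 2 ^ zb K x := by
  have h1 : 2 ^ zlE K x ≤ 2 ^ (zlE K x * (zn x + 1) + K) :=
    Nat.pow_le_pow_right (by norm_num) (by nlinarith)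
  have h2 : K * (2 ^ zlE K x) ^ zn x ≤ 2 ^ (zlE K x * (zn x + 1) + K) := by
    calc K * (2 ^ zlE K x) ^ zn x ≤ 2 ^ K * (2 ^ zlE K x) ^ zn x :=
          Nat.mul_le_mul_right _ Nat.lt_two_pow_self.le
      _ = 2 ^ (K + zlE K x * zn x) := by rw [← pow_mul, pow_add]
      _ ≤ _ := Nat.pow_le_pow_right (by norm_num) (by nlinarith)
  have h3 : 2 ^ zb K x = 2 ^ (zlE K x * (zn x + 1) + K) + 2 ^ (zlE K x * (zn x + 1) + K) := by
    unfold zb; rw [pow_succ]; ring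
  omega

variable {V : Type*} [Fintype V] {K : ℕ} {Fam : ∀ r : ℕ, SimpleGraph (Fin r)}
  {G : Fin K → SimpleGraph V}

theorem total (hK : 0 < K) (hcov : ∀ x y, x ≠ y → ∃ c, (G c).Adj x y) (Δ : ℕ)
    (hFam : ∀ r, ∀ x : Fin r, (Finset.univ.filter (fun z => (Fam r).Adj x z)).card ≤ Δ) :
    Cov Fam G (ztot K Δ) (univ : Finset V) := by
  have hb := zl_bound K Δ
  have hpos : 1 ≤ 2 ^ zlE K Δ := Nat.one_le_two_pow
  have hq0 : ∀ i j, i < j → j < Δ + Δ * Δ + 1 → (Δ + Δ * Δ - j) + 1 ≤ Δ + Δ * Δ - i := by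
    intro i j _ _; omega
  obtain ⟨Z, hZ1, _, hZ3⟩ := main_rec (V := V) (G := G) (Fam := Fam) hK hcov Δ hFam
    (zH K Δ) (zH K Δ + 1) (zt K Δ) (zh0 K Δ) (zh' K Δ) (zhp K Δ) (zb K Δ) (ze K Δ) (zg K Δ)
    (zD K Δ) (zg' K Δ) (zC1 K Δ) (zCs K Δ) (zE0 K Δ)
    (fun i => lsq Δ (zl0 K Δ) (zc K Δ) (Δ + Δ * Δ - i))
    (fun i => esq Δ (zl0 K Δ) (zc K Δ) (Δ + Δ * Δ - i))
    rfl rfl rfl rfl (by unfold zh'; omega) rfl rfl rfl rfl rfl rfl
    (by
      intro i _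
      simp only [esq]
      have : zc K Δ = 5 + qc Δ + 2 * (zH K Δ + 1) + zh0 K Δ + zg K Δ := rfl
      rw [← this]
      have h2 : Δ * lsq Δ (zl0 K Δ) (zc K Δ) (Δ + Δ * Δ - i)
          ≤ (Δ + 1) * lsq Δ (zl0 K Δ) (zc K Δ) (Δ + Δ * Δ - i) :=
        Nat.mul_le_mul_right _ (by omega)
      omega)
    (by
      intro i j hij hj
      have h1 := hq0 i j hij hj
      have h2 := lsq_mono Δ (zl0 K Δ) (zc K Δ) h1
      refine le_trans (le_of_eq ?_) h2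
      simp only [lsq, esq])
    (by
      intro i _
      have h2 := lsq_mono Δ (zl0 K Δ) (zc K Δ) (Nat.zero_le (Δ + Δ * Δ - i))
      exact h2)
    (by
      intro i _
      have h2 := lsq_mono Δ (zl0 K Δ) (zc K Δ)
        (show Δ + Δ * Δ - i ≤ Δ + Δ * Δ + 1 by omega)
      have h3 : esq Δ (zl0 K Δ) (zc K Δ) (Δ + Δ * Δ - i)
          ≤ esq Δ (zl0 K Δ) (zc K Δ) (Δ + Δ * Δ + 1) := by
        unfold esq
        exact Nat.add_le_add_right (Nat.mul_le_mul_left _ h2) _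
      unfold zE0
      omega)
    (by unfold zE0; omega)
    (2 ^ zlE K Δ) (ztE K Δ) (zE K Δ) (zn1 K Δ) (zCb K Δ)
    hb (le_trans (Nat.add_le_add_right hpos _) hb) rfl rfl (by unfold zh'; omega)
    (by
      calc (K + 1) ^ (K * (Δ + Δ * Δ + 1 + Δ + 1))
          ≤ (2 ^ (K + 1)) ^ (K * (Δ + Δ * Δ + 1 + Δ + 1)) :=
            Nat.pow_le_pow_left Nat.lt_two_pow_self.le _
        _ = _ := by rw [← pow_mul]; rfl)
    (by
      have h1 : (K : ℝ) * ((2 ^ zlE K Δ : ℕ) : ℝ) ^ (Δ + Δ * Δ + 1 + Δ + 1)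
          ≤ 2 ^ (K + zlE K Δ * (zn Δ + 1)) := by
        push_cast
        calc (K : ℝ) * (2 ^ zlE K Δ) ^ (Δ + Δ * Δ + 1 + Δ + 1)
            ≤ 2 ^ K * (2 ^ zlE K Δ) ^ (Δ + Δ * Δ + 1 + Δ + 1) := by
              gcongr
              exact nat_le_two_pow K
          _ = _ := by rw [← pow_mul, ← pow_add]; rfl
      have h2 : (2 : ℝ) ^ (K + zlE K Δ * (zn Δ + 1)) * (1 / 2) ^ zH K Δ < 1 := by
        unfold zH
        rw [pow_succ (1 / 2 : ℝ), ← mul_assoc, two_mul_half]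
        norm_num
      refine lt_of_le_of_lt ?_ h2
      gcongr)
    (by unfold zn1; omega) (by unfold zn1; omega) (by unfold zCb; omega) (by unfold zCb; omega)
    (2 ^ ztE K Δ + 1) 0 0 (fun _ => ∅) univ ∅ (fun _ _ => ∅) (by omega)
    ⟨by omega, by simp, by simp, by simp, by simp, by simp, by simp,
      fun c f j hj => absurd hj (Nat.not_lt_zero j), by simp, by simp,
      fun v _ c f _ => by simp, by simp⟩
  have hZ : Z = univ := Finset.eq_univ_iff_forall.mpr fun v => hZ1 (Finset.mem_univ v)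
  rw [hZ] at hZ3
  exact hZ3

theorem total_parts (hK : 0 < K) (hcov : ∀ x y, x ≠ y → ∃ c, (G c).Adj x y) (Δ : ℕ)
    (hFam : ∀ r, ∀ x : Fin r, (Finset.univ.filter (fun z => (Fam r).Adj x z)).card ≤ Δ) :
    ∃ PP : Finset (Finset V), PP.card ≤ ztot K Δ ∧ (∀ T ∈ PP, T.Nonempty ∧ IsCopy Fam G T) ∧
      (∀ T ∈ PP, ∀ T' ∈ PP, T ≠ T' → Disjoint T T') ∧ ∀ v : V, ∃ T ∈ PP, v ∈ T := by
  obtain ⟨PP, h1, h2, h3, h4⟩ := total (Fam := Fam) (G := G) hK hcov Δ hFam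
  refine ⟨PP, h1, h2, h3, fun v => ?_⟩
  have hv := Finset.mem_univ v
  rw [← h4, Finset.mem_biUnion] at hv
  obtain ⟨T, hT, hvT⟩ := hv
  exact ⟨T, hT, hvT⟩

end Run7.h755
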