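import Mathlib
import Pool.Agent.Run7.h755.Tot

namespace Run7.h755.ExpPoly

theorem exp_poly_parts (K : ℕ) (hK : 1 ≤ K) :
    ∃ C : ℕ, ∀ Δ : ℕ, 2 ≤ Δ →
      ∀ F : (r : ℕ) → SimpleGraph (Fin r), (∀ r v, ((F r).neighborSet v).ncard ≤ Δ) →
        ∀ (N : ℕ) (χ : Sym2 (Fin N) → Fin K),
          ∃ P : Finpartition (Finset.univ : Finset (Fin N)),
            P.parts.card ≤ 2 ^ (Δ ^ C) ∧
              ∀ S ∈ P.parts, ∃ (j : Fin K) (φ : Fin S.card → Fin N),
                Function.Injective φ ∧ Set.range φ = ↑S ∧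
                  ∀ a b, (F S.card).Adj a b → χ s(φ a, φ b) = j := by
  obtain ⟨C, hC⟩ := (Run7.h755.pe_ztot K).exists
  refine ⟨C, fun Δ hΔ F hF N χ => ?_⟩
  classical
  let G : Fin K → SimpleGraph (Fin N) := fun j => SimpleGraph.fromRel (fun x y => χ s(x, y) = j)
  have hG : ∀ c x y, (G c).Adj x y → χ s(x, y) = c := by
    intro c x y h
    rw [SimpleGraph.fromRel_adj] at h
    rcases h.2 with h | h
    · exact h
    · rw [Sym2.eq_swap]; exact h
  have hcov : ∀ x y, x ≠ y → ∃ c, (G c).Adj x y := by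
    intro x y h
    refine ⟨χ s(x, y), ?_⟩
    rw [SimpleGraph.fromRel_adj]
    exact ⟨h, Or.inl rfl⟩
  have hFam : ∀ r, ∀ x : Fin r, (Finset.univ.filter (fun z => (F r).Adj x z)).card ≤ Δ := by
    intro r x
    have h1 := hF r x
    have h2 : (F r).neighborSet x = ↑(Finset.univ.filter (fun z => (F r).Adj x z)) := by
      ext z; simp
    rwa [h2, Set.ncard_coe_finset] at h1
  obtain ⟨PP, h1, h2, h3, h4⟩ := Run7.h755.total_parts (Fam := F) (G := G) (by omega) hcov Δ
    (fun r x => hFam r x)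
  refine ⟨⟨PP, ?_, ?_, ?_⟩, ?_, ?_⟩
  · rw [Finset.supIndep_iff_pairwiseDisjoint]
    intro S hS T hT hST
    exact h3 S hS T hT hST
  · refine Finset.eq_univ_iff_forall.mpr fun v => ?_
    obtain ⟨S, hS, hvS⟩ := h4 v
    exact Finset.mem_sup.mpr ⟨S, hS, hvS⟩
  · intro h
    have := (h2 _ h).1
    simp at this
  · exact h1.trans (hC Δ hΔ)
  · intro S hS
    obtain ⟨c, φ, hφ1, hφ2, hφ3⟩ := (h2 S hS).2
    refine ⟨c, φ, hφ1, ?_, fun a b hab => hG _ _ _ (hφ3 a b hab)⟩
    have hsub : Finset.univ.image φ ⊆ S := by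
      intro v hv
      obtain ⟨a, _, rfl⟩ := Finset.mem_image.mp hv
      exact hφ2 a
    have heq : Finset.univ.image φ = S := by
      refine Finset.eq_of_subset_of_card_le hsub ?_
      rw [Finset.card_image_of_injective _ hφ1, Finset.card_univ, Fintype.card_fin]
    rw [← Set.image_univ, ← Finset.coe_univ, ← Finset.coe_image, heq]

end Run7.h755.ExpPoly
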